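import Pool.Agent.Helper49.DF.St

/-!
# Project DF: common part of the two main theorems
-/

set_option autoImplicit false

open Set Filter Topology MeasureTheory Complex Metric
open scoped ContDiff ComplexConjugate

namespace Pool.Agent.Helper49.DF

open Pool.Agent.Helper65.PI

theorem closure_image_C {ρ : ℝ} {ψ : ℂ → ℂ} (hρ : 1 < ρ) (hψ : DifferentiableOn ℂ ψ (ball 0 ρ)) :
    closure (ψ '' ball 0 1) = ψ '' closedBall 0 1 := by
  have hsub : closedBall (0 : ℂ) 1 ⊆ ball 0 ρ := closedBall_subset_ball hρ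
  have hc : ContinuousOn ψ (closedBall 0 1) := hψ.continuousOn.mono hsub
  apply Subset.antisymm
  · exact closure_minimal (image_mono ball_subset_closedBall)
      ((isCompact_closedBall (0 : ℂ) 1).image_of_continuousOn hc).isClosed
  · have h1 : closedBall (0 : ℂ) 1 = closure (ball 0 1) := (closure_ball 0 one_ne_zero).symm
    rw [h1] at hc ⊢
    exact hc.image_closure

theorem cont_FF_C {Ω : Set ℂ} {u v : ℂ → ℝ} (hu : ContinuousOn u Ω)
    (hv : ContinuousOn v Ω) : ContinuousOn (FF u v) Ω := by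
  unfold FF
  exact (continuous_ofReal.comp_continuousOn hu).add
    (continuousOn_const.mul (continuous_ofReal.comp_continuousOn hv))

theorem cont_HH_C {Ω : Set ℂ} {k : ℝ} {u v : ℂ → ℝ} (hu : ContinuousOn u Ω)
    (hv : ContinuousOn v Ω) : ContinuousOn (HH k u v) Ω := by
  unfold HH
  exact (continuous_ofReal.comp_continuousOn hu).add
    (continuousOn_const.mul (continuous_ofReal.comp_continuousOn (hv.div_const k)))

theorem TT_HH_C {k : ℝ} (hk : 0 < k) (u v : ℂ → ℝ) (z : ℂ) : FF u v z = TT k (HH k u v z) := by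
  unfold FF TT HH kp km
  have h0 : (k : ℂ) ≠ 0 := by exact_mod_cast hk.ne'
  simp only [map_add, map_mul, conj_ofReal, conj_I]
  push_cast
  field_simp
  ring

theorem TT_sub_C (k : ℝ) (a b : ℂ) : TT k (a - b) = TT k a - TT k b := by
  unfold TT
  rw [map_sub]
  ring

theorem tend_FF_C {l : Filter ℂ} {u v u' v' : ℂ → ℝ}
    (hu : Tendsto (fun z => u z - u' z) l (𝓝 0)) (hv : Tendsto (fun z => v z - v' z) l (𝓝 0)) :
    Tendsto (fun z => FF u v z - FF u' v' z) l (𝓝 0) := by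
  have h1 : Tendsto (fun z => ((u z - u' z : ℝ) : ℂ) + I * ((v z - v' z : ℝ) : ℂ)) l
      (𝓝 (((0 : ℝ) : ℂ) + I * ((0 : ℝ) : ℂ))) :=
    ((continuous_ofReal.tendsto 0).comp hu).add
      (((continuous_ofReal.tendsto 0).comp hv).const_mul I)
  have h2 : (((0 : ℝ) : ℂ) + I * ((0 : ℝ) : ℂ)) = 0 := by simp
  rw [h2] at h1
  refine h1.congr fun z => ?_
  unfold FF
  push_cast
  ring

/-- the pair of fields attached to two inclusions with the same data -/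
theorem mkPair (hh : StHOL) (hs : StSHIFT) (hn : StNEAR) (he : StEXTD) (hi : StINV)
    {Ω D' : Set ℂ} {k ρ : ℝ} {u v u' v' : ℂ → ℝ} {ψ : ℂ → ℂ}
    (hΩ : IsOpen Ω) (hconn : IsConnected Ω) (hb : Bornology.IsBounded Ω)
    (hsm : SmoothBoundary Ω) (hk : 0 < k) (hk1 : k ≠ 1) (hρ : 1 < ρ)
    (hψ : DifferentiableOn ℂ ψ (ball 0 ρ)) (hinj : InjOn ψ (ball 0 ρ))
    (hsub : ψ '' ball 0 ρ ⊆ Ω) (hD' : Admissible Ω D')
    (hpot : IsPotential Ω (ψ '' ball 0 1) k u v) (hpot' : IsPotential Ω D' k u' v')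
    (hdata : SameData Ω u v u' v') (hFinj : InjOn (fun ζ => FF u v (ψ ζ)) (ball 0 ρ)) :
    ∃ (h : ℂ → ℂ) (v'' : ℂ → ℝ), Pair Ω D' k ρ ψ h (FF u v) (FF u' v'') ∧
      IsPotential Ω D' k u' v'' := by
  obtain ⟨h, hdiff, -, hin, hout⟩ := he Ω k ρ u v ψ hΩ hk hρ hψ hinj hsub hpot
  obtain ⟨hdu, c, hdv⟩ := hdata
  have hcl := closure_image_C hρ hψ
  have hsub1 : closedBall (0 : ℂ) 1 ⊆ ball 0 ρ := closedBall_subset_ball hρ
  have hDo : IsOpen (ψ '' ball 0 1) :=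
    (hi (ball 0 1) ψ isOpen_ball (hψ.mono (ball_subset_closedBall.trans hsub1))
      (hinj.mono (ball_subset_closedBall.trans hsub1))).1
  have hDΩ : ψ '' ball 0 1 ⊆ Ω :=
    (image_mono (ball_subset_closedBall.trans hsub1)).trans hsub
  have hDΩ' : D' ⊆ Ω := subset_closure.trans hD'.sub
  obtain ⟨v'', hv''⟩ : ∃ v'' : ℂ → ℝ, v'' = fun z => v' z + c := ⟨_, rfl⟩
  have hpot2 : IsPotential Ω D' k u' v'' := by
    rw [hv'']
    exact hs Ω D' k u' v' c hΩ hpot'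
  have hdv2 : ∀ ζ ∈ frontier Ω, Tendsto (fun z => v z - v'' z) (𝓝[Ω] ζ) (𝓝 0) := by
    intro ζ hζ
    have h1 := (hdv ζ hζ).sub_const c
    rw [sub_self] at h1
    refine h1.congr fun z => ?_
    rw [hv'']
    ring
  have holF : DifferentiableOn ℂ (FF u v) (Ω \ ψ '' closedBall 0 1) := by
    rw [← hcl]
    exact (hh Ω _ k u v hΩ hDo hDΩ hk hpot).1
  have holF' : DifferentiableOn ℂ (FF u' v'') (Ω \ closure D') :=
    (hh Ω D' k u' v'' hΩ hD'.isOpen hDΩ' hk hpot2).1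
  have hcomp : IsCompact (ψ '' closedBall 0 1 ∪ closure D') :=
    ((isCompact_closedBall (0 : ℂ) 1).image_of_continuousOn
      (hψ.continuousOn.mono hsub1)).union hD'.compact
  obtain ⟨C, hC1, hC2, hC3, hC4⟩ := hn Ω (ψ '' closedBall 0 1 ∪ closure D')
    (fun z => FF u v z - FF u' v'' z) hΩ hb hsm hcomp
    (union_subset ((image_mono hsub1).trans hsub) hD'.sub)
    ((holF.mono (sdiff_subset_sdiff_right subset_union_left)).sub
      (holF'.mono (sdiff_subset_sdiff_right subset_union_right)))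
    (fun ζ hζ => tend_FF_C (hdu ζ hζ) (hdv2 ζ hζ))
  refine ⟨h, v'', ⟨hΩ, hconn, hD', hk, hk1, hρ, hψ, hinj, hsub, hdiff, holF, hin, hout, hFinj,
    cont_FF_C hpot2.cont_u hpot2.cont_v, holF', C, hC1, hC2, hC3, fun z hz => ?_⟩, hpot2⟩
  exact sub_eq_zero.1 (hC4 z hz)

/-- the last step of both main theorems -/
theorem finish (hi : StINV) (hlog : StLOG) (hcore : StCORE) (hfin : StFIN)
    {Ω D' : Set ℂ} {k ρ ρ₁ : ℝ} {u' v'' : ℂ → ℝ} {ψ h f : ℂ → ℂ}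
    (hk : 0 < k) (hk1 : k ≠ 1) (hρ : 1 < ρ)
    (hψ : DifferentiableOn ℂ ψ (ball 0 ρ)) (hinj : InjOn ψ (ball 0 ρ))
    (hdiff : DifferentiableOn ℂ h (ball 0 ρ)) (hD' : Admissible Ω D')
    (hcl : closure D' ⊆ ψ '' ball 0 ρ) (h0 : ψ 0 ∈ D') (hrefl : Refl k ρ₁ f h)
    (hfr : ∀ ζ ∈ ball (0 : ℂ) ρ, ψ ζ ∈ frontier D' → ρ₁⁻¹ ≤ ‖ζ‖ ∧ ‖ζ‖ ≤ ρ₁)
    (hHd : DifferentiableOn ℂ (HH k u' v'') D') (hHc : ContinuousOn (HH k u' v'') (closure D'))
    (heq : ∀ ζ ∈ ball (0 : ℂ) ρ, ψ ζ ∈ frontier D' →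
      FF u' v'' (ψ ζ) = kp k * h ζ + km k * conj (h (ci ζ))) : D' = ψ '' ball 0 1 := by
  obtain ⟨-, Z, hZ, hZd⟩ := hi (ball 0 ρ) ψ isOpen_ball hψ hinj
  obtain ⟨θ, t, hθ, ht⟩ := hlog k ρ₁ f h hrefl
  have hρ0 : (0 : ℝ) < ρ := one_pos.trans hρ
  have hZmap : MapsTo Z (ψ '' ball 0 ρ) (ball 0 ρ) := by
    rintro _ ⟨ζ, hζ, rfl⟩
    rw [hZ ζ hζ]
    exact hζ
  have hD'sub : D' ⊆ ψ '' ball 0 ρ := subset_closure.trans hcl
  have hfrsub : frontier D' ⊆ ψ '' ball 0 ρ := frontier_subset_closure.trans hcl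
  have hnorm := hcore Ω D' k ρ₁ h Z (fun z => HH k u' v'' z - h (Z z)) θ t (ψ 0) hD' hk hk1
    hrefl.one_lt (hZd.mono hD'sub) (hZd.continuousOn.mono hcl) h0 (hZ 0 (mem_ball_self hρ0))
    (by
      intro z hz
      obtain ⟨ζ, hζ, rfl⟩ := hfrsub hz
      rw [hZ ζ hζ]
      exact hfr ζ hζ hz) hθ ht
    (hHd.sub (hdiff.comp (hZd.mono hD'sub) (hZmap.mono_left hD'sub)))
    (hHc.sub (hdiff.continuousOn.comp (hZd.continuousOn.mono hcl) (hZmap.mono_left hcl)))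
    (by
      intro z hz
      obtain ⟨ζ, hζ, rfl⟩ := hfrsub hz
      rw [hZ ζ hζ, TT_sub_C, ← TT_HH_C hk, heq ζ hζ hz]
      unfold TT
      rw [map_sub]
      ring)
  refine hfin D' ρ ψ hρ hψ hinj hD'.isOpen hD'.compact hcl h0 fun ζ hζ hz => ?_
  have := hnorm (ψ ζ) hz
  rwa [hZ ζ hζ] at this

end Pool.Agent.Helper49.DF
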