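import Pool.Agent.Helper49.DF.St2
import Pool.Agent.Helper49.DF.Common

/-!
# Project DF, second part: common part of the main theorems
-/

set_option autoImplicit false

open Set Filter Topology MeasureTheory Complex Metric
open scoped ContDiff ComplexConjugate

namespace Pool.Agent.Helper49.DF

open Pool.Agent.Helper65.PI

theorem closure_image_D {V : Set ℂ} {ψ : ℂ → ℂ} (hV : closedBall 0 1 ⊆ V)
    (hψ : DifferentiableOn ℂ ψ V) :
    closure (ψ '' ball 0 1) = ψ '' closedBall 0 1 := by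
  have hc : ContinuousOn ψ (closedBall 0 1) := hψ.continuousOn.mono hV
  apply Subset.antisymm
  · exact closure_minimal (image_mono ball_subset_closedBall)
      ((isCompact_closedBall (0 : ℂ) 1).image_of_continuousOn hc).isClosed
  · have h1 : closedBall (0 : ℂ) 1 = closure (ball 0 1) := (closure_ball 0 one_ne_zero).symm
    rw [h1] at hc ⊢
    exact hc.image_closure

/-- the pair of fields attached to two inclusions with the same data -/
theorem mkPairV (hh : StHOL) (hs : StSHIFT) (hn : StNEAR) (he : StEXTDV) (hi : StINV)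
    {Ω D' V : Set ℂ} {k ρ : ℝ} {u v u' v' : ℂ → ℝ} {ψ : ℂ → ℂ}
    (hΩ : IsOpen Ω) (hconn : IsConnected Ω) (hb : Bornology.IsBounded Ω)
    (hsm : SmoothBoundary Ω) (hk : 0 < k) (hk1 : k ≠ 1) (hρ : 1 < ρ)
    (hV : IsOpen V) (hVc : IsPreconnected V) (hVb : ball 0 ρ ⊆ V)
    (hψ : DifferentiableOn ℂ ψ V) (hinj : InjOn ψ V)
    (hsub : ψ '' V ⊆ Ω) (hD' : Admissible Ω D')
    (hpot : IsPotential Ω (ψ '' ball 0 1) k u v) (hpot' : IsPotential Ω D' k u' v')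
    (hdata : SameData Ω u v u' v') :
    ∃ (h : ℂ → ℂ) (v'' : ℂ → ℝ), PairV Ω D' V k ρ ψ h (FF u v) (FF u' v'') ∧
      (∀ ζ ∈ closedBall (0 : ℂ) 1, h ζ = HH k u v (ψ ζ)) ∧ IsPotential Ω D' k u' v'' := by
  have hsub1 : closedBall (0 : ℂ) 1 ⊆ V := (closedBall_subset_ball hρ).trans hVb
  obtain ⟨h, hdiff, hHH, hin, hout⟩ := he Ω V k u v ψ hΩ hV hsub1 hk hψ hinj hsub hpot
  obtain ⟨hdu, c, hdv⟩ := hdata
  have hcl := closure_image_D hsub1 hψ
  have hDo : IsOpen (ψ '' ball 0 1) :=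
    (hi (ball 0 1) ψ isOpen_ball (hψ.mono (ball_subset_closedBall.trans hsub1))
      (hinj.mono (ball_subset_closedBall.trans hsub1))).1
  have hDΩ : ψ '' ball 0 1 ⊆ Ω :=
    (image_mono (ball_subset_closedBall.trans hsub1)).trans hsub
  have hDΩ' : D' ⊆ Ω := subset_closure.trans hD'.sub
  obtain ⟨v'', hv''⟩ : ∃ v'' : ℂ → ℝ, v'' = fun z => v' z + c := ⟨_, rfl⟩
  have hpot2 : IsPotential Ω D' k u' v'' := by
    rw [hv'']
    exact hs Ω D' k u' v' c hΩ hpot'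
  have hdv2 : ∀ ζ ∈ frontier Ω, Tendsto (fun z => v z - v'' z) (𝓝[Ω] ζ) (𝓝 0) := by
    intro ζ hζ
    have h1 := (hdv ζ hζ).sub_const c
    rw [sub_self] at h1
    refine h1.congr fun z => ?_
    rw [hv'']
    ring
  have holF : DifferentiableOn ℂ (FF u v) (Ω \ ψ '' closedBall 0 1) := by
    rw [← hcl]
    exact (hh Ω _ k u v hΩ hDo hDΩ hk hpot).1
  have holF' : DifferentiableOn ℂ (FF u' v'') (Ω \ closure D') :=
    (hh Ω D' k u' v'' hΩ hD'.isOpen hDΩ' hk hpot2).1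
  have hcomp : IsCompact (ψ '' closedBall 0 1 ∪ closure D') :=
    ((isCompact_closedBall (0 : ℂ) 1).image_of_continuousOn
      (hψ.continuousOn.mono hsub1)).union hD'.compact
  obtain ⟨C, hC1, hC2, hC3, hC4⟩ := hn Ω (ψ '' closedBall 0 1 ∪ closure D')
    (fun z => FF u v z - FF u' v'' z) hΩ hb hsm hcomp
    (union_subset ((image_mono hsub1).trans hsub) hD'.sub)
    ((holF.mono (sdiff_subset_sdiff_right subset_union_left)).sub
      (holF'.mono (sdiff_subset_sdiff_right subset_union_right)))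
    (fun ζ hζ => tend_FF_C (hdu ζ hζ) (hdv2 ζ hζ))
  refine ⟨h, v'', ⟨hΩ, hconn, hD', hk, hk1, hρ, hV, hVc, hVb, hψ, hinj, hsub, hdiff, holF, hin,
    hout, cont_FF_C hpot2.cont_u hpot2.cont_v, holF', C, hC1, hC2, hC3, fun z hz => ?_⟩, hHH,
    hpot2⟩
  exact sub_eq_zero.1 (hC4 z hz)

/-- the last step of both main theorems -/
theorem finishV (hi : StINV) (hcore : StCOREV) (hfin : StFINV)
    {Ω D' V S : Set ℂ} {k : ℝ} {u' v'' : ℂ → ℝ} {ψ h : ℂ → ℂ} {θ t : ℂ → ℝ}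
    (hk : 0 < k) (hk1 : k ≠ 1) (hV : IsOpen V) (hVc : IsPreconnected V)
    (hV1 : closedBall 0 1 ⊆ V)
    (hψ : DifferentiableOn ℂ ψ V) (hinj : InjOn ψ V)
    (hdiff : DifferentiableOn ℂ h V) (hD' : Admissible Ω D')
    (hcl : closure D' ⊆ ψ '' V) (h0 : ψ 0 ∈ D')
    (hθ : ContinuousOn θ S)
    (ht : ∀ ζ ∈ S, ζ ≠ 0 → 0 < t ζ ∧
      h (ci ζ) - h ζ = ((1 - ‖ζ‖ ^ 2 : ℝ) : ℂ) * (t ζ : ℂ) * Complex.exp (θ ζ * I) / conj ζ)
    (hfr : ∀ ζ ∈ V, ψ ζ ∈ frontier D' → ζ ∈ S ∧ ζ ≠ 0)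
    (hHd : DifferentiableOn ℂ (HH k u' v'') D') (hHc : ContinuousOn (HH k u' v'') (closure D'))
    (heq : ∀ ζ ∈ V, ψ ζ ∈ frontier D' →
      FF u' v'' (ψ ζ) = kp k * h ζ + km k * conj (h (ci ζ))) : D' = ψ '' ball 0 1 := by
  obtain ⟨-, Z, hZ, hZd⟩ := hi V ψ hV hψ hinj
  have hZmap : MapsTo Z (ψ '' V) V := by
    rintro _ ⟨ζ, hζ, rfl⟩
    rw [hZ ζ hζ]
    exact hζ
  have hD'sub : D' ⊆ ψ '' V := subset_closure.trans hcl
  have hfrsub : frontier D' ⊆ ψ '' V := frontier_subset_closure.trans hcl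
  have h0V : (0 : ℂ) ∈ V := hV1 (mem_closedBall_self zero_le_one)
  have hnorm := hcore Ω D' S k h Z (fun z => HH k u' v'' z - h (Z z)) θ t (ψ 0) hD' hk hk1
    (hZd.mono hD'sub) (hZd.continuousOn.mono hcl) h0 (hZ 0 h0V)
    (by
      intro z hz
      obtain ⟨ζ, hζ, rfl⟩ := hfrsub hz
      rw [hZ ζ hζ]
      exact hfr ζ hζ hz) hθ ht
    (hHd.sub (hdiff.comp (hZd.mono hD'sub) (hZmap.mono_left hD'sub)))
    (hHc.sub (hdiff.continuousOn.comp (hZd.continuousOn.mono hcl) (hZmap.mono_left hcl)))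
    (by
      intro z hz
      obtain ⟨ζ, hζ, rfl⟩ := hfrsub hz
      rw [hZ ζ hζ, TT_sub_C, ← TT_HH_C hk, heq ζ hζ hz]
      unfold TT
      rw [map_sub]
      ring)
  refine hfin D' V ψ hV hVc hV1 hψ hinj hD'.isOpen hD'.compact hcl h0 fun ζ hζ hz => ?_
  have := hnorm (ψ ζ) hz
  rwa [hZ ζ hζ] at this

/-- room between the inner disc and the boundary of the second inclusion -/
theorem room_sV {D' V : Set ℂ} {ρ : ℝ} {ψ : ℂ → ℂ} (hρ : 1 < ρ) (hVb : ball 0 ρ ⊆ V)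
    (hψ : DifferentiableOn ℂ ψ V) (hd : Disjoint (frontier D') (ψ '' closedBall 0 ρ⁻¹)) :
    ∃ s : ℝ, ρ⁻¹ < s ∧ s < 1 ∧ Disjoint (frontier D') (ψ '' closedBall 0 s) := by
  have hρ0 : (0 : ℝ) < ρ := one_pos.trans hρ
  have hr : ρ⁻¹ < 1 := inv_lt_one_of_one_lt₀ hρ
  obtain ⟨r₁, h1, h2⟩ := exists_between hr
  have hsub : closedBall (0 : ℂ) r₁ ⊆ V := (closedBall_subset_ball (h2.trans hρ)).trans hVb
  have hP : IsCompact (closedBall (0 : ℂ) r₁ ∩ ψ ⁻¹' frontier D') := by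
    refine (isCompact_closedBall (0 : ℂ) r₁).of_isClosed_subset ?_ inter_subset_left
    exact (hψ.continuousOn.mono hsub).preimage_isClosed_of_isClosed isClosed_closedBall
      isClosed_frontier
  rcases (closedBall (0 : ℂ) r₁ ∩ ψ ⁻¹' frontier D').eq_empty_or_nonempty with he | hne
  · refine ⟨r₁, h1, h2, ?_⟩
    rw [Set.disjoint_left]
    rintro _ hz ⟨ζ, hζ, rfl⟩
    have : ζ ∈ closedBall (0 : ℂ) r₁ ∩ ψ ⁻¹' frontier D' := ⟨hζ, hz⟩
    rw [he] at this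
    exact this
  · obtain ⟨ζ₀, hζ₀, hmin⟩ := hP.exists_isMinOn hne continuous_norm.continuousOn
    have hlt : ρ⁻¹ < ‖ζ₀‖ := by
      by_contra hcon
      push Not at hcon
      refine Set.disjoint_left.1 hd hζ₀.2 ⟨ζ₀, ?_, rfl⟩
      simpa using hcon
    obtain ⟨s, hs1, hs2⟩ := exists_between (lt_min hlt h1)
    refine ⟨s, hs1, (hs2.trans_le (min_le_right _ _)).trans h2, ?_⟩
    rw [Set.disjoint_left]
    rintro _ hz ⟨ζ, hζ, rfl⟩
    have hζs : ‖ζ‖ ≤ s := by simpa using hζ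
    have hζr : ζ ∈ closedBall (0 : ℂ) r₁ := by
      simpa using hζs.trans (hs2.trans_le (min_le_right _ _)).le
    have h3 : ‖ζ₀‖ ≤ ‖ζ‖ := hmin ⟨hζr, hz⟩
    have h4 : s < ‖ζ₀‖ := hs2.trans_le (min_le_left _ _)
    linarith

end Pool.Agent.Helper49.DF
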