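import Pool.Agent.Helper49.DF.St

set_option autoImplicit false

open Set Filter Topology MeasureTheory Complex Metric

namespace Pool.Agent.Helper49.DF

private lemma annulus_pre_ANN (s s' : ℝ) (hs : 0 < s) :
    IsPreconnected (ball (0 : ℂ) s' \ closedBall 0 s) := by
  have h1 : (ball (0 : ℂ) s' \ closedBall 0 s)
      = (fun p : ℝ × ℝ => (p.1 : ℂ) * Complex.exp ((p.2 : ℂ) * I)) '' (Ioo s s' ×ˢ univ) := by
    ext z
    constructor
    · rintro ⟨h1, h2⟩
      rw [mem_ball_zero_iff] at h1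
      rw [mem_closedBall_zero_iff, not_le] at h2
      exact ⟨(‖z‖, arg z), ⟨⟨h2, h1⟩, mem_univ _⟩, Complex.norm_mul_exp_arg_mul_I z⟩
    · rintro ⟨⟨r, a⟩, ⟨⟨h1, h2⟩, -⟩, rfl⟩
      have h3 : ‖(r : ℂ) * Complex.exp ((a : ℂ) * I)‖ = r := by
        rw [norm_mul, Complex.norm_exp_ofReal_mul_I, mul_one, Complex.norm_real,
          Real.norm_eq_abs, abs_of_pos (lt_trans hs h1)]
      refine ⟨?_, ?_⟩
      · rw [mem_ball_zero_iff]; simp only [h3]; exact h2
      · rw [mem_closedBall_zero_iff, not_le]; simp only [h3]; exact h1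
  rw [h1]
  refine (isPreconnected_Ioo.prod isPreconnected_univ).image _ ?_
  fun_prop

theorem ann : StANN := by
  intro W ψ s s' hW hWc hs hss hd hinj hsub
  have hs' : 0 < s' := hs.trans hss
  have hcb : closedBall (0 : ℂ) s ⊆ ball 0 s' := closedBall_subset_ball hss
  have hNc : IsCompact (ψ '' closedBall 0 s) :=
    (isCompact_closedBall (0 : ℂ) s).image_of_continuousOn (hd.continuousOn.mono hcb)
  have hSo : IsOpen (W \ ψ '' closedBall 0 s) := hW.sdiff hNc.isClosed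
  -- the image of the ball is open
  have hballo : IsOpen (ψ '' ball 0 s') := by
    rcases (hd.analyticOnNhd isOpen_ball).is_constant_or_isOpen
      (convex_ball (0 : ℂ) s').isPreconnected with ⟨w, hw⟩ | hop
    · exfalso
      have h0 : (0 : ℂ) ∈ ball (0 : ℂ) s' := mem_ball_self hs'
      have h1 : (s : ℂ) ∈ ball (0 : ℂ) s' := by
        rw [mem_ball_zero_iff, Complex.norm_real, Real.norm_eq_abs, abs_of_pos hs]
        exact hss
      have h2 := hinj h0 h1 ((hw 0 h0).trans (hw _ h1).symm)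
      have h3 : (s : ℂ) = ((0 : ℝ) : ℂ) := by rw [← h2]; simp
      have h4 : s = 0 := by exact_mod_cast h3
      linarith
    · exact hop _ (Subset.refl _) isOpen_ball
  have hRsub : ψ '' (ball (0 : ℂ) s' \ closedBall 0 s) ⊆ W \ ψ '' closedBall 0 s := by
    rintro _ ⟨z, ⟨hz1, hz2⟩, rfl⟩
    refine ⟨hsub ⟨z, hz1, rfl⟩, ?_⟩
    rintro ⟨y, hy, hyz⟩
    have := hinj (hcb hy) hz1 hyz
    rw [this] at hy
    exact hz2 hy
  have hRc : IsPreconnected (ψ '' (ball (0 : ℂ) s' \ closedBall 0 s)) :=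
    (annulus_pre_ANN s s' hs).image ψ (hd.continuousOn.mono diff_subset)
  -- main step
  have key : ∀ u v : Set ℂ, IsOpen u → IsOpen v → W \ ψ '' closedBall 0 s ⊆ u ∪ v →
      (W \ ψ '' closedBall 0 s) ∩ (u ∩ v) = ∅ →
      ψ '' (ball (0 : ℂ) s' \ closedBall 0 s) ⊆ u → W \ ψ '' closedBall 0 s ⊆ u := by
    intro u v hu hv huv hdis hR
    have h1 : W ⊆ ((W \ ψ '' closedBall 0 s) ∩ u ∪ ψ '' ball 0 s')
        ∪ ((W \ ψ '' closedBall 0 s) ∩ v) := by
      intro w hw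
      by_cases hN : w ∈ ψ '' closedBall 0 s
      · exact Or.inl (Or.inr (image_mono hcb hN))
      · rcases huv ⟨hw, hN⟩ with h | h
        · exact Or.inl (Or.inl ⟨⟨hw, hN⟩, h⟩)
        · exact Or.inr ⟨⟨hw, hN⟩, h⟩
    have h2 : W ∩ (((W \ ψ '' closedBall 0 s) ∩ u ∪ ψ '' ball 0 s')
        ∩ ((W \ ψ '' closedBall 0 s) ∩ v)) = ∅ := by
      rw [Set.eq_empty_iff_forall_notMem]
      rintro w ⟨-, h3 | h3, h4, h5⟩
      · have : w ∈ (W \ ψ '' closedBall 0 s) ∩ (u ∩ v) := ⟨h4, h3.2, h5⟩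
        rw [hdis] at this
        exact this
      · obtain ⟨z, hz, rfl⟩ := h3
        have hz2 : z ∉ closedBall (0 : ℂ) s := fun h => h4.2 ⟨z, h, rfl⟩
        have : ψ z ∈ (W \ ψ '' closedBall 0 s) ∩ (u ∩ v) := ⟨h4, hR ⟨z, ⟨hz, hz2⟩, rfl⟩, h5⟩
        rw [hdis] at this
        exact this
    rcases (isPreconnected_iff_subset_of_disjoint.1 hWc) _ _
      ((hSo.inter hu).union hballo) (hSo.inter hv) h1 h2 with h3 | h3
    · intro w hw
      rcases h3 hw.1 with h4 | h4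
      · exact h4.2
      · obtain ⟨z, hz, rfl⟩ := h4
        exact hR ⟨z, ⟨hz, fun h => hw.2 ⟨z, h, rfl⟩⟩, rfl⟩
    · exfalso
      have h0 : (0 : ℂ) ∈ closedBall (0 : ℂ) s := mem_closedBall_self hs.le
      have h4 := h3 (hsub ⟨0, hcb h0, rfl⟩)
      exact h4.1.2 ⟨0, h0, rfl⟩
  rw [isPreconnected_iff_subset_of_disjoint]
  intro u v hu hv huv hdis
  have hR : ψ '' (ball (0 : ℂ) s' \ closedBall 0 s) ⊆ u
      ∨ ψ '' (ball (0 : ℂ) s' \ closedBall 0 s) ⊆ v := by
    refine (isPreconnected_iff_subset_of_disjoint.1 hRc) u v hu hv (hRsub.trans huv) ?_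
    rw [Set.eq_empty_iff_forall_notMem]
    rintro w ⟨h1, h2⟩
    have : w ∈ (W \ ψ '' closedBall 0 s) ∩ (u ∩ v) := ⟨hRsub h1, h2⟩
    rw [hdis] at this
    exact this
  rcases hR with hR | hR
  · exact Or.inl (key u v hu hv huv hdis hR)
  · refine Or.inr (key v u hv hu (by rw [union_comm]; exact huv) ?_ hR)
    rw [inter_comm v u]
    exact hdis

end Pool.Agent.Helper49.DF
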