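import Pool.Agent.Helper49.DF.St

/-!
# Project DF, module BALL: uniform tangent balls
-/

set_option autoImplicit false

open Set Filter Topology MeasureTheory Complex Metric
open scoped ContDiff ComplexConjugate

namespace Pool.Agent.Helper49.DF

open Pool.Agent.Helper65.PI

private lemma clm_BALL (G : ℂ →L[ℝ] ℝ) (v : ℂ) : G v = v.re * G 1 + v.im * G I := by
  have h : v = v.re • (1 : ℂ) + v.im • I := by
    apply Complex.ext <;> simp
  conv_lhs => rw [h]
  rw [map_add, map_smul, map_smul, smul_eq_mul, smul_eq_mul]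

private lemma local_BALL (D : Set ℂ) (hD : IsOpen D) (φ : OpenPartialHomeomorph ℂ ℂ) (p : ℂ)
    (hp : p ∈ φ.source) (hφ : ContDiffOn ℝ ∞ φ φ.source)
    (hφs : ContDiffOn ℝ ∞ φ.symm φ.target) (hiff : ∀ z ∈ φ.source, z ∈ D ↔ 0 < (φ z).im) :
    ∃ δ > 0, ∃ r0 > 0, ∀ q ∈ frontier D, q ∈ ball p δ → ∀ r : ℝ, 0 < r → r ≤ r0 →
      ∃ ν : ℂ, ‖ν‖ = 1 ∧ ball (q - r * ν) r ⊆ D ∧ Disjoint (ball (q + r * ν) r) (closure D) := by
  set s : ℂ → ℝ := fun z => (φ z).im with hsdef
  have hs : ContDiffOn ℝ ∞ s φ.source := Complex.imCLM.contDiff.comp_contDiffOn hφ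
  have hsat : ∀ z ∈ φ.source, ContDiffAt ℝ ∞ s z := fun z hz =>
    hs.contDiffAt (φ.open_source.mem_nhds hz)
  have hsd : ∀ z ∈ φ.source, DifferentiableAt ℝ s z := fun z hz =>
    (hsat z hz).differentiableAt (by simp)
  set G : ℂ → (ℂ →L[ℝ] ℝ) := fderiv ℝ s with hG
  have hG1 : ContDiffAt ℝ 1 G p := (hsat p hp).fderiv_right (m := 1) (by
    have h2 : ((2 : ℕ∞) : WithTop ℕ∞) ≤ ((⊤ : ℕ∞) : WithTop ℕ∞) := WithTop.coe_le_coe.2 le_top
    norm_num
    exact h2)
  obtain ⟨K, t, ht, hLip⟩ := hG1.exists_lipschitzOnWith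
  have hGc : ContinuousAt G p := hG1.continuousAt
  set g : ℂ → ℂ := fun q => ((G q 1 : ℝ) : ℂ) + ((G q I : ℝ) : ℂ) * I with hg
  have hgc : ContinuousAt g p := by
    have h1 : ContinuousAt (fun q => G q 1) p := hGc.clm_apply continuousAt_const
    have h2 : ContinuousAt (fun q => G q I) p := hGc.clm_apply continuousAt_const
    exact (Complex.continuous_ofReal.continuousAt.comp h1).add
      ((Complex.continuous_ofReal.continuousAt.comp h2).mul continuousAt_const)
  have hgre : ∀ q, (g q).re = G q 1 := fun q => by simp [hg]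
  have hgim : ∀ q, (g q).im = G q I := fun q => by simp [hg]
  have hgp : g p ≠ 0 := by
    intro h0
    have hz : ∀ v, G p v = 0 := by
      intro v
      rw [clm_BALL, ← hgre, ← hgim, h0]
      simp
    have hA : DifferentiableAt ℝ φ.symm (φ p) :=
      (hφs.contDiffAt (φ.open_target.mem_nhds (φ.map_source hp))).differentiableAt (by simp)
    have h1 : HasFDerivAt s (G p) (φ.symm (φ p)) := by
      rw [φ.left_inv hp]
      exact (hsd p hp).hasFDerivAt
    have h2 : HasFDerivAt (s ∘ φ.symm) ((G p).comp (fderiv ℝ φ.symm (φ p))) (φ p) :=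
      h1.comp (φ p) hA.hasFDerivAt
    have h3 : HasFDerivAt (s ∘ φ.symm) Complex.imCLM (φ p) := by
      refine (Complex.imCLM.hasFDerivAt (x := φ p)).congr_of_eventuallyEq ?_
      filter_upwards [φ.open_target.mem_nhds (φ.map_source hp)] with w hw
      simp only [Function.comp_apply, hsdef, φ.right_inv hw, Complex.imCLM_apply]
    have h4 := h2.unique h3
    have h5 := congrArg (fun L : ℂ →L[ℝ] ℝ => L I) h4
    simp only [ContinuousLinearMap.comp_apply, hz, Complex.imCLM_apply, Complex.I_im] at h5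
    exact zero_ne_one h5
  set m : ℝ := ‖g p‖ / 2 with hm
  have hgpn : 0 < ‖g p‖ := norm_pos_iff.2 hgp
  have hm0 : 0 < m := by rw [hm]; linarith
  have hev : ∀ᶠ q in 𝓝 p, m < ‖g q‖ :=
    hgc.norm.eventually_const_lt (by rw [hm]; linarith)
  have hnb : t ∩ φ.source ∩ {q | m < ‖g q‖} ∈ 𝓝 p :=
    inter_mem (inter_mem ht (φ.open_source.mem_nhds hp)) hev
  obtain ⟨δ, hδ, hball⟩ := Metric.mem_nhds_iff.1 hnb
  have hK0 : (0 : ℝ) ≤ K := K.coe_nonneg
  refine ⟨δ / 2, by linarith, min (δ / 4) (m / (2 * (K + 1))), by positivity, ?_⟩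
  intro q hq hqp r hr hr0
  have hr1 : r ≤ δ / 4 := hr0.trans (min_le_left _ _)
  have hr2 : r ≤ m / (2 * (K + 1)) := hr0.trans (min_le_right _ _)
  have hqδ : q ∈ ball p δ := ball_subset_ball (by linarith) hqp
  have hqs : q ∈ φ.source := (hball hqδ).1.2
  have hqm : m < ‖g q‖ := (hball hqδ).2
  have hrK : 2 * r * K ≤ m := by
    rw [le_div_iff₀ (by positivity)] at hr2
    nlinarith
  -- the boundary point
  have hsq : s q = 0 := by
    have h1 : ¬ 0 < s q := by
      rw [hsdef]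
      rw [← hiff q hqs]
      intro h
      rw [frontier, hD.interior_eq] at hq
      exact hq.2 h
    have h2 : ¬ s q < 0 := by
      intro h
      have hop : IsOpen (φ.source ∩ s ⁻¹' (Iio 0)) :=
        hs.continuousOn.isOpen_inter_preimage φ.open_source isOpen_Iio
      obtain ⟨y, hy, hyD⟩ := mem_closure_iff.1 (frontier_subset_closure hq) _ hop ⟨hqs, h⟩
      have h3 := (hiff y hy.1).1 hyD
      have h4 : s y < 0 := hy.2
      rw [hsdef] at h4
      exact lt_asymm h3 h4
    linarith [not_lt.1 h1, not_lt.1 h2]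
  -- Taylor
  have htay : ∀ z ∈ ball p δ, |s z - G q (z - q)| ≤ K * ‖z - q‖ ^ 2 := by
    intro z hz
    have hcv : Convex ℝ (ball p δ ∩ closedBall q ‖z - q‖) :=
      (convex_ball p δ).inter (convex_closedBall q _)
    have h := hcv.norm_image_sub_le_of_norm_fderiv_le' (𝕜 := ℝ) (f := s) (φ := G q)
      (C := K * ‖z - q‖) (x := q) (y := z) (fun x hx => hsd x (hball hx.1).1.2)
      (fun x hx => ?_) ⟨hqδ, mem_closedBall_self (norm_nonneg _)⟩
      ⟨hz, by rw [mem_closedBall, dist_eq_norm]⟩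
    · rw [hsq, sub_zero, Real.norm_eq_abs] at h
      calc |s z - G q (z - q)| ≤ K * ‖z - q‖ * ‖z - q‖ := h
        _ = K * ‖z - q‖ ^ 2 := by ring
    · have h1 := hLip.dist_le_mul x (hball hx.1).1.1 q (hball hqδ).1.1
      rw [dist_eq_norm] at h1
      refine h1.trans ?_
      exact mul_le_mul_of_nonneg_left (mem_closedBall.1 hx.2) hK0
  set N : ℝ := ‖g q‖ with hN
  have hN0 : 0 < N := by linarith
  set n : ℂ := g q / (N : ℂ) with hn
  have hn1 : ‖n‖ = 1 := by
    rw [hn, norm_div, Complex.norm_real, Real.norm_of_nonneg hN0.le, div_self hN0.ne']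
  have hnre : N * n.re = G q 1 := by
    rw [hn, Complex.div_ofReal_re, ← hgre]
    field_simp
  have hnim : N * n.im = G q I := by
    rw [hn, Complex.div_ofReal_im, ← hgim]
    field_simp
  have hnsq : n.re * n.re + n.im * n.im = 1 := by
    have h := Complex.sq_norm n
    rw [hn1, Complex.normSq_apply] at h
    linarith
  have key : ∀ e : ℝ, e * e = 1 → ∀ z : ℂ, ‖z - q - (e * r : ℝ) * n‖ < r →
      z ∈ φ.source ∧ 0 < e * s z := by
    intro e he z hz
    set w := z - q with hw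
    have he1 : |e| = 1 := by
      have h := abs_mul_abs_self e
      rw [he] at h
      nlinarith [abs_nonneg e]
    have h0 : ‖((e * r : ℝ) : ℂ) * n‖ = r := by
      rw [norm_mul, hn1, mul_one, Complex.norm_real, Real.norm_eq_abs, abs_mul, he1, one_mul,
        abs_of_pos hr]
    have h1 : ‖w‖ < 2 * r := by
      calc ‖w‖ = ‖(w - ((e * r : ℝ) : ℂ) * n) + ((e * r : ℝ) : ℂ) * n‖ := by rw [sub_add_cancel]
        _ ≤ ‖w - ((e * r : ℝ) : ℂ) * n‖ + ‖((e * r : ℝ) : ℂ) * n‖ := norm_add_le _ _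
        _ < r + r := by rw [h0]; linarith
        _ = 2 * r := by ring
    have hzδ : z ∈ ball p δ := by
      rw [mem_ball, dist_eq_norm] at hqp ⊢
      calc ‖z - p‖ = ‖w + (q - p)‖ := by rw [hw]; congr 1; ring
        _ ≤ ‖w‖ + ‖q - p‖ := norm_add_le _ _
        _ < δ := by linarith
    refine ⟨(hball hzδ).1.2, ?_⟩
    have h2 := htay z hzδ
    rw [← hw] at h2
    have h3 : G q w = N * (n.re * w.re + n.im * w.im) := by
      rw [clm_BALL, ← hnre, ← hnim]
      ring
    have h4 : ‖w‖ ^ 2 < 2 * r * (e * (n.re * w.re + n.im * w.im)) := by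
      have h5 : ‖w - ((e * r : ℝ) : ℂ) * n‖ ^ 2 < r ^ 2 :=
        pow_lt_pow_left₀ hz (norm_nonneg _) two_ne_zero
      rw [Complex.sq_norm, Complex.normSq_apply] at h5
      rw [Complex.sq_norm, Complex.normSq_apply]
      simp only [Complex.sub_re, Complex.sub_im, Complex.re_ofReal_mul, Complex.im_ofReal_mul] at h5
      have h6 : (w.re - e * r * n.re) * (w.re - e * r * n.re)
          + (w.im - e * r * n.im) * (w.im - e * r * n.im)
          = w.re * w.re + w.im * w.im - 2 * r * (e * (n.re * w.re + n.im * w.im))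
            + r ^ 2 * (e * e) * (n.re * n.re + n.im * n.im) := by ring
      rw [h6, he, hnsq] at h5
      linarith
    set c := n.re * w.re + n.im * w.im with hc
    rw [h3, abs_le] at h2
    have h7 : e * (N * c) - K * ‖w‖ ^ 2 ≤ e * s z := by
      have h8 : -(K * ‖w‖ ^ 2) ≤ e * (s z - N * c) := by
        have h9 : |e * (s z - N * c)| ≤ K * ‖w‖ ^ 2 := by
          rw [abs_mul, he1, one_mul, abs_le]
          exact h2
        exact (abs_le.1 h9).1
      nlinarith
    have h10 : 0 < 2 * r * (e * (N * c) - K * ‖w‖ ^ 2) := by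
      have h11 : N * ‖w‖ ^ 2 < N * (2 * r * (e * c)) := mul_lt_mul_of_pos_left h4 hN0
      have h12 : 2 * r * K * ‖w‖ ^ 2 ≤ N * ‖w‖ ^ 2 :=
        mul_le_mul_of_nonneg_right (hrK.trans hqm.le) (by positivity)
      nlinarith
    have h13 : 0 < e * (N * c) - K * ‖w‖ ^ 2 := by
      by_contra h14
      rw [not_lt] at h14
      have := mul_nonpos_of_nonneg_of_nonpos (by positivity : (0 : ℝ) ≤ 2 * r) h14
      linarith
    linarith
  refine ⟨-n, by rw [norm_neg, hn1], ?_, ?_⟩
  · intro z hz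
    have h1 := key 1 (by norm_num) z (by
      rw [mem_ball, dist_eq_norm] at hz
      have e1 : z - q - ((1 * r : ℝ) : ℂ) * n = z - (q - (r : ℂ) * -n) := by
        push_cast
        ring
      rw [e1]
      exact hz)
    rw [hiff z h1.1]
    have h2 := h1.2
    rw [one_mul] at h2
    exact h2
  · refine Disjoint.closure_right ?_ isOpen_ball
    rw [Set.disjoint_left]
    intro z hz hzD
    have h1 := key (-1) (by norm_num) z (by
      rw [mem_ball, dist_eq_norm] at hz
      have e1 : z - q - ((-1 * r : ℝ) : ℂ) * n = z - (q + (r : ℂ) * -n) := by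
        push_cast
        ring
      rw [e1]
      exact hz)
    have h2 := (hiff z h1.1).1 hzD
    have h3 := h1.2
    have h4 : s z = (φ z).im := rfl
    rw [h4] at h3
    linarith

theorem ball : StBALL := by
  intro Ω D hadm
  have hcomp : IsCompact (frontier D) :=
    hadm.compact.of_isClosed_subset isClosed_frontier frontier_subset_closure
  have hmain : ∃ r0 > 0, ∀ q ∈ frontier D, q ∈ frontier D → ∀ r : ℝ, 0 < r → r ≤ r0 →
      ∃ ν : ℂ, ‖ν‖ = 1 ∧ Metric.ball (q - r * ν) r ⊆ D ∧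
        Disjoint (Metric.ball (q + r * ν) r) (closure D) := by
    refine hcomp.induction_on (p := fun S => ∃ r0 > 0, ∀ q ∈ S, q ∈ frontier D →
      ∀ r : ℝ, 0 < r → r ≤ r0 →
      ∃ ν : ℂ, ‖ν‖ = 1 ∧ Metric.ball (q - r * ν) r ⊆ D ∧
        Disjoint (Metric.ball (q + r * ν) r) (closure D)) ?_ ?_ ?_ ?_
    · exact ⟨1, one_pos, fun q hq => absurd hq (Set.notMem_empty q)⟩
    · rintro S T hST ⟨r0, h0, h1⟩
      exact ⟨r0, h0, fun q hq => h1 q (hST hq)⟩
    · rintro S T ⟨r0, h0, h1⟩ ⟨r0', h0', h1'⟩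
      refine ⟨min r0 r0', lt_min h0 h0', ?_⟩
      rintro q (hq | hq) hqf r hr hr0
      · exact h1 q hq hqf r hr (hr0.trans (min_le_left _ _))
      · exact h1' q hq hqf r hr (hr0.trans (min_le_right _ _))
    · intro p hp
      obtain ⟨φ, hps, -, -, hφ, hφs, hiff⟩ := hadm.smooth p hp
      obtain ⟨δ, hδ, r0, hr0, h⟩ := local_BALL D hadm.isOpen φ p hps hφ hφs hiff
      exact ⟨Metric.ball p δ, mem_nhdsWithin_of_mem_nhds (Metric.ball_mem_nhds p hδ), r0, hr0,
        fun q hq hqf => h q hqf hq⟩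
  obtain ⟨r0, h0, h1⟩ := hmain
  exact ⟨r0, h0, fun p hp => h1 p hp hp r0 h0 le_rfl⟩

end Pool.Agent.Helper49.DF
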