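import Pool.Agent.Helper49.DF.St

/-!
# DF, module CIRC

A continuous function which is holomorphic off the unit circle is holomorphic.
-/

set_option autoImplicit false

open Set Filter Topology MeasureTheory Complex Metric
open scoped ContDiff ComplexConjugate

namespace Pool.Agent.Helper49.DF

open Pool.Agent.Helper65.PI

/-- Cauchy integral -/
private noncomputable def cauI (h : ℂ → ℂ) (r : ℝ) (z : ℂ) : ℂ :=
  (2 * Real.pi * I : ℂ)⁻¹ • ∮ w in C(0, r), (w - z)⁻¹ • h w

/-- the Cauchy integral is holomorphic -/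
private theorem cauI_diff {h : ℂ → ℂ} {r : ℝ} (hr : 0 < r) (hc : ContinuousOn h (closedBall 0 r)) :
    DifferentiableOn ℂ (cauI h r) (ball 0 r) := by
  lift r to NNReal using hr.le
  have hr' : (0 : NNReal) < r := by exact_mod_cast hr
  have hint : CircleIntegrable h 0 r :=
    (hc.mono sphere_subset_closedBall).circleIntegrable r.2
  have := hasFPowerSeriesOn_cauchy_integral hint hr'
  have h2 := this.differentiableOn
  have h3 : Metric.eball (0 : ℂ) (r : ENNReal) = ball (0 : ℂ) r := Metric.eball_coe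
  rw [h3] at h2
  exact h2

/-- continuity of the integrand -/
private theorem cont_q {s : Set ℂ} {z : ℂ} {h : ℂ → ℂ} (hz : ∀ w ∈ s, w - z ≠ 0)
    (hh : ContinuousOn h s) : ContinuousOn (fun w : ℂ => (w - z)⁻¹ • h w) s := by
  have h1 : ContinuousOn (fun w : ℂ => w - z) s := by fun_prop
  have h2 : ContinuousOn (fun w : ℂ => (w - z)⁻¹) s := h1.inv₀ hz
  exact h2.smul hh

/-- differentiability of the integrand -/
private theorem diff_q {z w : ℂ} {h : ℂ → ℂ} (hz : w - z ≠ 0)
    (hh : DifferentiableAt ℂ h w) : DifferentiableAt ℂ (fun w : ℂ => (w - z)⁻¹ • h w) w := by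
  have h1 : DifferentiableAt ℂ (fun w : ℂ => w - z) w := by fun_prop
  have h2 : DifferentiableAt ℂ (fun w : ℂ => (w - z)⁻¹) w := h1.fun_inv hz
  exact h2.smul hh

private theorem cauI_one {h : ℂ → ℂ} {r : ℝ} (hr : 1 < r) (hc : ContinuousOn h (closedBall 0 r))
    (hd1 : DifferentiableOn ℂ h (ball 0 1)) (hd2 : DifferentiableOn ℂ h (ball 0 r \ closedBall 0 1))
    {z : ℂ} (hz : z ∈ ball (0 : ℂ) 1) : cauI h r z = h z := by
  have hopen : IsOpen (ball (0 : ℂ) r \ closedBall 0 1) := isOpen_ball.sdiff isClosed_closedBall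
  have hz1 : ‖z‖ < 1 := by simpa using hz
  have hcc : DiffContOnCl ℂ h (ball 0 1) := by
    refine ⟨hd1, ?_⟩
    rw [closure_ball _ one_ne_zero]
    exact hc.mono (closedBall_subset_closedBall hr.le)
  have e1 : (2 * Real.pi * I : ℂ)⁻¹ • ∮ w in C(0, 1), (w - z)⁻¹ • h w = h z :=
    hcc.two_pi_i_inv_smul_circleIntegral_sub_inv_smul hz
  have e2 : (∮ w in C(0, r), (w - z)⁻¹ • h w) = ∮ w in C(0, 1), (w - z)⁻¹ • h w := by
    refine circleIntegral_eq_of_differentiable_on_annulus_off_countable one_pos hr.le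
      countable_empty ?_ ?_
    · refine cont_q ?_ (hc.mono sdiff_subset)
      intro w hw h0
      have : w = z := sub_eq_zero.1 h0
      subst this
      exact hw.2 hz
    · intro w hw
      have hw' : w ∈ ball (0 : ℂ) r \ closedBall 0 1 := hw.1
      have hdw : DifferentiableAt ℂ h w := hd2.differentiableAt (hopen.mem_nhds hw')
      refine diff_q ?_ hdw
      intro h0
      have : w = z := sub_eq_zero.1 h0
      subst this
      exact hw'.2 (ball_subset_closedBall hz)
  unfold cauI
  rw [e2, e1]

private theorem cauI_two {h : ℂ → ℂ} {r : ℝ} (hr : 1 < r) (hc : ContinuousOn h (closedBall 0 r))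
    (hd1 : DifferentiableOn ℂ h (ball 0 1)) (hd2 : DifferentiableOn ℂ h (ball 0 r \ closedBall 0 1))
    {z : ℂ} (hz : z ∈ ball (0 : ℂ) r \ closedBall 0 1) : cauI h r z = h z := by
  have hopen : IsOpen (ball (0 : ℂ) r \ closedBall 0 1) := isOpen_ball.sdiff isClosed_closedBall
  have hzr : ‖z‖ < r := by simpa using hz.1
  have hz1 : 1 < ‖z‖ := by simpa using hz.2
  have hdz : DifferentiableAt ℂ h z := hd2.differentiableAt (hopen.mem_nhds hz)
  have hr0 : (0 : ℝ) < r := by linarith
  -- difference quotient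
  have e2 : (∮ w in C(0, r), dslope h z w) = ∮ w in C(0, 1), dslope h z w := by
    refine circleIntegral_eq_of_differentiable_on_annulus_off_countable one_pos hr.le
      (countable_singleton z) ?_ ?_
    · have hnb : (closedBall (0 : ℂ) r \ ball 0 1) ∈ 𝓝 z := by
        refine mem_of_superset (hopen.mem_nhds hz) ?_
        intro w hw
        exact ⟨ball_subset_closedBall hw.1, fun h' => hw.2 (ball_subset_closedBall h')⟩
      exact (continuousOn_dslope hnb).2 ⟨hc.mono sdiff_subset, hdz⟩
    · intro w hw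
      have hwz : w ≠ z := by
        intro h'
        exact hw.2 (by rw [h']; exact mem_singleton z)
      have hdw : DifferentiableAt ℂ h w := hd2.differentiableAt (hopen.mem_nhds hw.1)
      exact (differentiableAt_dslope_of_ne hwz).2 hdw
  have hne : ∀ w ∈ sphere (0 : ℂ) r, w - z ≠ 0 := by
    intro w hw h0
    have : w = z := sub_eq_zero.1 h0
    subst this
    have : ‖w‖ = r := by simpa using hw
    linarith
  have hne1 : ∀ w ∈ closedBall (0 : ℂ) 1, w - z ≠ 0 := by
    intro w hw h0
    have : w = z := sub_eq_zero.1 h0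
    subst this
    exact hz.2 hw
  have i1 : CircleIntegrable (fun w : ℂ => (w - z)⁻¹ • h w) 0 r := by
    refine ContinuousOn.circleIntegrable hr0.le ?_
    exact cont_q hne (hc.mono sphere_subset_closedBall)
  have i2 : CircleIntegrable (fun w : ℂ => (w - z)⁻¹ • h z) 0 r := by
    refine ContinuousOn.circleIntegrable hr0.le ?_
    exact cont_q hne continuousOn_const
  have i3 : CircleIntegrable (fun w : ℂ => (w - z)⁻¹ • h w) 0 1 := by
    refine ContinuousOn.circleIntegrable zero_le_one ?_
    exact cont_q (fun w hw => hne1 w (sphere_subset_closedBall hw))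
      (hc.mono (sphere_subset_closedBall.trans (closedBall_subset_closedBall hr.le)))
  have i4 : CircleIntegrable (fun w : ℂ => (w - z)⁻¹ • h z) 0 1 := by
    refine ContinuousOn.circleIntegrable zero_le_one ?_
    exact cont_q (fun w hw => hne1 w (sphere_subset_closedBall hw)) continuousOn_const
  have e3 : (∮ w in C(0, r), dslope h z w) =
      (∮ w in C(0, r), (w - z)⁻¹ • h w) - ∮ w in C(0, r), (w - z)⁻¹ • h z := by
    rw [← circleIntegral.integral_sub i1 i2]
    refine circleIntegral.integral_congr hr0.le ?_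
    intro w hw
    have hwz : w ≠ z := fun h' => hne w hw (sub_eq_zero.2 h')
    simp only [dslope_of_ne _ hwz, slope_def_module, smul_sub]
  have e4 : (∮ w in C(0, 1), dslope h z w) =
      (∮ w in C(0, 1), (w - z)⁻¹ • h w) - ∮ w in C(0, 1), (w - z)⁻¹ • h z := by
    rw [← circleIntegral.integral_sub i3 i4]
    refine circleIntegral.integral_congr zero_le_one ?_
    intro w hw
    have hwz : w ≠ z := fun h' => hne1 w (sphere_subset_closedBall hw) (sub_eq_zero.2 h')
    simp only [dslope_of_ne _ hwz, slope_def_module, smul_sub]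
  have e5 : (∮ w in C(0, 1), (w - z)⁻¹ • h w) = 0 := by
    refine circleIntegral_eq_zero_of_differentiable_on_off_countable zero_le_one
      countable_empty ?_ ?_
    · exact cont_q hne1 (hc.mono (closedBall_subset_closedBall hr.le))
    · intro w hw
      have hdw : DifferentiableAt ℂ h w := hd1.differentiableAt (isOpen_ball.mem_nhds hw.1)
      exact diff_q (hne1 w (ball_subset_closedBall hw.1)) hdw
  have e6 : (∮ w in C(0, 1), (w - z)⁻¹ • h z) = 0 := by
    refine circleIntegral_eq_zero_of_differentiable_on_off_countable zero_le_one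
      countable_empty ?_ ?_
    · exact cont_q hne1 continuousOn_const
    · intro w hw
      exact diff_q (hne1 w (ball_subset_closedBall hw.1)) (differentiableAt_const _)
  have e7 : (∮ w in C(0, r), (w - z)⁻¹ • h z) = (2 * Real.pi * I : ℂ) • h z := by
    rw [circleIntegral.integral_smul_const, circleIntegral.integral_sub_inv_of_mem_ball hz.1]
  have e8 : (∮ w in C(0, r), (w - z)⁻¹ • h w) = (2 * Real.pi * I : ℂ) • h z := by
    rw [e3, e4, e5, e6, e7] at e2
    simpa [sub_eq_zero] using e2
  unfold cauI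
  rw [e8, smul_smul, inv_mul_cancel₀, one_smul]
  exact Complex.two_pi_I_ne_zero

private theorem circ_aux {h : ℂ → ℂ} {r : ℝ} (hr : 1 < r) (hc : ContinuousOn h (closedBall 0 r))
    (hd1 : DifferentiableOn ℂ h (ball 0 1))
    (hd2 : DifferentiableOn ℂ h (ball 0 r \ closedBall 0 1)) :
    DifferentiableOn ℂ h (ball 0 r) := by
  have hr0 : (0 : ℝ) < r := by linarith
  have hg := cauI_diff hr0 hc
  refine hg.congr ?_
  intro z hz
  symm
  rcases lt_trichotomy ‖z‖ 1 with h1 | h1 | h1
  · exact cauI_one hr hc hd1 hd2 (by simpa using h1)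
  · -- the circle
    have hzcl : z ∈ closure (ball (0 : ℂ) 1) := by
      rw [closure_ball _ one_ne_zero]
      simp [h1]
    have hsub : ball (0 : ℂ) 1 ⊆ ball 0 r := ball_subset_ball hr.le
    have t1 : Tendsto (cauI h r) (𝓝[ball (0 : ℂ) 1] z) (𝓝 (cauI h r z)) :=
      ((hg.continuousOn z hz).mono hsub)
    have t2 : Tendsto h (𝓝[ball (0 : ℂ) 1] z) (𝓝 (h z)) :=
      ((hc z (ball_subset_closedBall hz)).mono (hsub.trans ball_subset_closedBall))
    have hne : (𝓝[ball (0 : ℂ) 1] z).NeBot := mem_closure_iff_nhdsWithin_neBot.1 hzcl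
    have t3 : Tendsto h (𝓝[ball (0 : ℂ) 1] z) (𝓝 (cauI h r z)) := by
      refine t1.congr' ?_
      filter_upwards [self_mem_nhdsWithin] with w hw
      exact cauI_one hr hc hd1 hd2 hw
    exact tendsto_nhds_unique t3 t2
  · exact cauI_two hr hc hd1 hd2 ⟨hz, by simpa using h1⟩

theorem circ : StCIRC := by
  intro ρ h hρ hc hd1 hd2 z hz
  have hz' : ‖z‖ < ρ := by simpa using hz
  obtain ⟨r, hr1, hr2⟩ := exists_between (max_lt hρ hz')
  have hr1' : 1 < r := lt_of_le_of_lt (le_max_left _ _) hr1
  have hzr : ‖z‖ < r := lt_of_le_of_lt (le_max_right _ _) hr1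
  have hsub : closedBall (0 : ℂ) r ⊆ ball 0 ρ := closedBall_subset_ball hr2
  have := circ_aux hr1' (hc.mono hsub) hd1
    (hd2.mono (sdiff_subset_sdiff_left (ball_subset_closedBall.trans hsub)))
  have hzb : z ∈ ball (0 : ℂ) r := by simpa using hzr
  exact (this.differentiableAt (isOpen_ball.mem_nhds hzb)).differentiableWithinAt

end Pool.Agent.Helper49.DF
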