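import Pool.Agent.Helper49.DF.St

set_option autoImplicit false

open Set Filter Topology MeasureTheory Complex

namespace Pool.Agent.Helper49.DF

theorem cone : StCONE := by
  intro E g C z₀ hE hEc hEb hd hc hb hz₀ hg0
  have han : AnalyticOnNhd ℂ g E := hd.analyticOnNhd hE
  rcases han.is_constant_or_isOpen hEc with ⟨w, hw⟩ | hop
  · intro z hz
    rw [hw z hz, ← hw z₀ hz₀, hg0]
  · exfalso
    have hgE : IsOpen (g '' E) := hop E (Subset.refl _) hE
    have hcomp : IsCompact (g '' closure E) := hEb.isCompact_closure.image_of_continuousOn hc
    obtain ⟨R, hR⟩ := hcomp.isBounded.exists_norm_le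
    have hR0 : 0 ≤ R := (norm_nonneg _).trans (hR (g z₀) ⟨z₀, subset_closure hz₀, rfl⟩)
    have hPc : Convex ℝ {w : ℂ | |C| * |w.re| < w.im} := by
      intro x hx y hy a b ha hb' hab
      simp only [mem_setOf_eq] at hx hy ⊢
      have h1 : (a • x + b • y).re = a * x.re + b * y.re := by simp
      have h2 : (a • x + b • y).im = a * x.im + b * y.im := by simp
      rw [h1, h2]
      have h3 : |a * x.re + b * y.re| ≤ a * |x.re| + b * |y.re| := by
        refine (abs_add_le _ _).trans ?_
        rw [abs_mul, abs_mul, abs_of_nonneg ha, abs_of_nonneg hb']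
      have h4 : |C| * |a * x.re + b * y.re| ≤ |C| * (a * |x.re| + b * |y.re|) :=
        mul_le_mul_of_nonneg_left h3 (abs_nonneg _)
      have h5 : |C| * (a * |x.re| + b * |y.re|) = a * (|C| * |x.re|) + b * (|C| * |y.re|) := by
        ring
      have h6 : a * (|C| * |x.re|) + b * (|C| * |y.re|) < a * x.im + b * y.im := by
        rcases ha.eq_or_lt with h | h
        · subst h
          have : b = 1 := by linarith
          subst this
          linarith
        · have h7 : a * (|C| * |x.re|) < a * x.im := mul_lt_mul_of_pos_left hx h
          have h8 : b * (|C| * |y.re|) ≤ b * y.im := mul_le_mul_of_nonneg_left hy.le hb'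
          linarith
      linarith
    have hsub : {w : ℂ | |C| * |w.re| < w.im} ⊆ g '' E := by
      refine hPc.isPreconnected.subset_left_of_subset_union hgE hcomp.isClosed.isOpen_compl ?_
        ?_ ?_
      · rw [Set.disjoint_left]
        intro w hw hw'
        exact hw' (image_mono subset_closure hw)
      · intro w hw
        by_cases hwc : w ∈ g '' closure E
        · left
          obtain ⟨z, hz, rfl⟩ := hwc
          by_cases hzE : z ∈ E
          · exact ⟨z, hzE, rfl⟩
          · exfalso
            have hzf : z ∈ frontier E := ⟨hz, by rw [hE.interior_eq]; exact hzE⟩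
            have h1 := hb z hzf
            have h2 : C * |(g z).re| ≤ |C| * |(g z).re| :=
              mul_le_mul_of_nonneg_right (le_abs_self C) (abs_nonneg _)
            have h3 := le_abs_self (g z).im
            simp only [mem_setOf_eq] at hw
            linarith
        · right
          exact hwc
      · have h0 : (0 : ℂ) ∈ g '' E := ⟨z₀, hz₀, hg0⟩
        obtain ⟨ε, hε, hball⟩ := Metric.isOpen_iff.1 hgE 0 h0
        refine ⟨((ε / 2 : ℝ) : ℂ) * I, ?_, hball ?_⟩
        · simp only [mem_setOf_eq]
          simp
          exact hε
        · rw [Metric.mem_ball, dist_zero_right, norm_mul, Complex.norm_I, mul_one,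
            Complex.norm_real, Real.norm_eq_abs, abs_of_pos (by positivity)]
          linarith
    have hmem : ((R + 1 : ℝ) : ℂ) * I ∈ g '' E := by
      refine hsub ?_
      simp only [mem_setOf_eq]
      simp
      linarith
    have h1 := hR _ (image_mono subset_closure hmem)
    rw [norm_mul, Complex.norm_I, mul_one, Complex.norm_real, Real.norm_eq_abs,
      abs_of_nonneg (by linarith)] at h1
    linarith

end Pool.Agent.Helper49.DF
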