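import Pool.Agent.Helper49.DF.St

/-!
# Project DF, module CORE
-/

set_option autoImplicit false

open Set Filter Topology MeasureTheory Complex Metric
open scoped ContDiff ComplexConjugate

namespace Pool.Agent.Helper49.DF

open Pool.Agent.Helper65.PI

private theorem alg_CORE (k N2 tt th : ℝ) (ζ G gm : ℂ) (hk : k ≠ 0) (hζ : ζ ≠ 0)
    (hTG : TT k G = km k * conj (((1 - N2 : ℝ) : ℂ) * (tt : ℂ) * Complex.exp (th * I) / conj ζ)) :
    ζ * G * Complex.exp gm =
      ((km k * (1 - N2) * tt * Real.exp gm.re / k : ℝ) : ℂ) *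
      (Complex.exp (((gm.im - th : ℝ) : ℂ) * I) *
        ((kp k : ℂ) - (km k : ℂ) * (Complex.exp (((2 * th : ℝ) : ℂ) * I) * (ζ / conj ζ)))) := by
  have hk' : (k : ℂ) ≠ 0 := by exact_mod_cast hk
  have hc : conj ζ ≠ 0 := by simpa using hζ
  set c : ℂ := conj ζ with hcdef
  set e1 : ℂ := Complex.exp (th * I) with he1
  set e2 : ℂ := Complex.exp (-(th * I)) with he2
  have hconj : conj e1 = e2 := by
    rw [he1, he2, ← Complex.exp_conj]
    congr 1
    simp
  have h12 : e1 * e2 = 1 := by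
    rw [he1, he2, ← Complex.exp_add]; simp
  set A : ℂ := ((1 - N2 : ℝ) : ℂ) * (tt : ℂ) with hA
  have hAc : conj A = A := by
    rw [hA, map_mul, Complex.conj_ofReal, Complex.conj_ofReal]
  have h1 : (kp k : ℂ) * G + (km k : ℂ) * conj G = km k * (A * e2 / ζ) := by
    have := hTG
    rw [TT] at this
    rw [this, map_div₀, map_mul, hAc, hconj, hcdef, Complex.conj_conj]
  have h2 : (kp k : ℂ) * conj G + (km k : ℂ) * G = km k * (A * e1 / c) := by
    have := congrArg conj h1
    rw [map_add, map_mul, map_mul, map_mul, map_div₀, map_mul, Complex.conj_conj,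
      Complex.conj_ofReal, Complex.conj_ofReal, hAc, ← hconj, Complex.conj_conj] at this
    exact this
  have hkk : (kp k : ℂ) ^ 2 - (km k : ℂ) ^ 2 = k := by
    rw [kp, km]; push_cast; ring
  have hG : (k : ℂ) * G = km k * (kp k * (A * e2 / ζ) - km k * (A * e1 / c)) := by
    linear_combination (kp k : ℂ) * h1 - (km k : ℂ) * h2 - G * hkk
  have hex : Complex.exp gm = (Real.exp gm.re : ℂ) * Complex.exp ((gm.im : ℂ) * I) := by
    rw [Complex.ofReal_exp, ← Complex.exp_add, Complex.re_add_im]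
  have he3 : Complex.exp (((gm.im - th : ℝ) : ℂ) * I) = Complex.exp ((gm.im : ℂ) * I) * e2 := by
    rw [he2, ← Complex.exp_add]
    congr 1
    push_cast; ring
  have he4 : Complex.exp (((2 * th : ℝ) : ℂ) * I) = e1 * e1 := by
    rw [he1, ← Complex.exp_add]
    congr 1
    push_cast; ring
  rw [hex, he3, he4]
  have hG' : ζ * G = (km k * A / k) * (kp k * e2 - km k * (e1 * (ζ / c))) := by
    have h3 : (k : ℂ) * (ζ * G) = km k * A * (kp k * e2 - km k * (e1 * (ζ / c))) := by
      calc (k : ℂ) * (ζ * G) = ζ * (k * G) := by ring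
        _ = ζ * (km k * (kp k * (A * e2 / ζ) - km k * (A * e1 / c))) := by rw [hG]
        _ = km k * A * (kp k * e2 - km k * (e1 * (ζ / c))) := by
          field_simp
    field_simp
    field_simp at h3
    linear_combination h3
  have hx : ((km k * (1 - N2) * tt * Real.exp gm.re / k : ℝ) : ℂ) =
      (km k * A / k) * (Real.exp gm.re : ℂ) := by
    rw [hA]; push_cast; ring
  rw [hx]
  have h121 : e2 * (e1 * e1) = e1 := by
    calc e2 * (e1 * e1) = (e1 * e2) * e1 := by ring
      _ = e1 := by rw [h12, one_mul]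
  calc ζ * G * ((Real.exp gm.re : ℂ) * Complex.exp ((gm.im : ℂ) * I))
      = (km k * A / k) * (kp k * e2 - km k * (e1 * (ζ / c))) *
        ((Real.exp gm.re : ℂ) * Complex.exp ((gm.im : ℂ) * I)) := by rw [hG']
    _ = (km k * A / k) * (kp k * e2 - km k * ((e2 * (e1 * e1)) * (ζ / c))) *
        ((Real.exp gm.re : ℂ) * Complex.exp ((gm.im : ℂ) * I)) := by rw [h121]
    _ = _ := by ring

private theorem bd_CORE (ap am x η : ℝ) (e : ℂ) (he : ‖e‖ = 1) (hap : 0 < ap) (ham : |am| < ap)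
    (hcos : (1 + |am| / ap) / 2 < Real.cos η) :
    |((x : ℂ) * (Complex.exp ((η : ℂ) * I) * ((ap : ℂ) - (am : ℂ) * e))).im| ≤
      ((ap + |am|) / ((ap - |am|) / 2)) *
      |((x : ℂ) * (Complex.exp ((η : ℂ) * I) * ((ap : ℂ) - (am : ℂ) * e))).re| := by
  set w : ℂ := Complex.exp ((η : ℂ) * I) * ((ap : ℂ) - (am : ℂ) * e) with hw
  have hm : 0 < (ap - |am|) / 2 := by linarith
  have hnorm : ‖Complex.exp ((η : ℂ) * I)‖ = 1 := Complex.norm_exp_ofReal_mul_I η
  have h1 : ‖w‖ ≤ ap + |am| := by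
    rw [hw, norm_mul, hnorm, one_mul]
    calc ‖(ap : ℂ) - (am : ℂ) * e‖ ≤ ‖(ap : ℂ)‖ + ‖(am : ℂ) * e‖ := norm_sub_le _ _
      _ = ap + |am| := by
        rw [norm_mul, he, mul_one, Complex.norm_real, Complex.norm_real, Real.norm_eq_abs,
          Real.norm_eq_abs, abs_of_pos hap]
  have h2 : (ap - |am|) / 2 ≤ w.re := by
    have hwe : w = (ap : ℂ) * Complex.exp ((η : ℂ) * I) -
        (am : ℂ) * (Complex.exp ((η : ℂ) * I) * e) := by rw [hw]; ring
    have h3 : ((ap : ℂ) * Complex.exp ((η : ℂ) * I)).re = ap * Real.cos η := by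
      rw [Complex.re_ofReal_mul, Complex.exp_ofReal_mul_I_re]
    have h4 : |((am : ℂ) * (Complex.exp ((η : ℂ) * I) * e)).re| ≤ |am| := by
      refine (Complex.abs_re_le_norm _).trans ?_
      rw [norm_mul, norm_mul, hnorm, he, Complex.norm_real, Real.norm_eq_abs]
      simp
    rw [hwe, Complex.sub_re, h3]
    have h5 := (abs_le.1 h4).2
    have h6 : ap * ((1 + |am| / ap) / 2) ≤ ap * Real.cos η :=
      mul_le_mul_of_nonneg_left hcos.le hap.le
    have h7 : ap * ((1 + |am| / ap) / 2) = (ap + |am|) / 2 := by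
      field_simp
    linarith
  have h3 : |w.im| ≤ ap + |am| := (Complex.abs_im_le_norm w).trans h1
  have h4 : (ap - |am|) / 2 ≤ |w.re| := h2.trans (le_abs_self _)
  rw [Complex.im_ofReal_mul, Complex.re_ofReal_mul, abs_mul, abs_mul]
  have hs : 0 ≤ ap + |am| := by positivity
  calc |x| * |w.im| ≤ |x| * (ap + |am|) := mul_le_mul_of_nonneg_left h3 (abs_nonneg x)
    _ = ((ap + |am|) / ((ap - |am|) / 2)) * (|x| * ((ap - |am|) / 2)) := by
      have hne : (ap - |am|) / 2 ≠ 0 := hm.ne'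
      rw [div_mul_eq_mul_div, eq_div_iff hne]
      ring
    _ ≤ ((ap + |am|) / ((ap - |am|) / 2)) * (|x| * |w.re|) := by
      apply mul_le_mul_of_nonneg_left _ (by positivity)
      exact mul_le_mul_of_nonneg_left h4 (abs_nonneg x)

theorem core : StWL → StCONE → StCORE := by
  intro hWL hCONE Ω E k ρ h Z G θ t z₀ hE hk hk1 hρ hZd hZc hz₀ hZ0 hZr hθ ht hGd hGc hTG
  have hfc : frontier E ⊆ closure E := frontier_subset_closure
  have hap : 0 < kp k := by rw [kp]; linarith
  have ham : |km k| < kp k := by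
    rw [km, kp, abs_lt]; constructor <;> linarith
  have hamne : km k ≠ 0 := by
    rw [km]
    intro h0
    apply hk1
    linarith
  have hr1 : (1 + |km k| / kp k) / 2 < 1 := by
    have : |km k| / kp k < 1 := by rw [div_lt_one hap]; exact ham
    linarith
  obtain ⟨δ, hδ, hcos⟩ : ∃ δ > 0, ∀ η : ℝ, |η| < δ → (1 + |km k| / kp k) / 2 < Real.cos η := by
    have h1 : ∀ᶠ η in 𝓝 (0 : ℝ), (1 + |km k| / kp k) / 2 < Real.cos η := by
      have h2 := Real.continuous_cos.tendsto (0 : ℝ)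
      rw [Real.cos_zero] at h2
      exact h2.eventually (eventually_gt_nhds hr1)
    obtain ⟨δ, hδ, hd⟩ := Metric.eventually_nhds_iff.1 h1
    exact ⟨δ, hδ, fun η hη => hd (by simpa [Real.dist_eq] using hη)⟩
  have hθc : ContinuousOn (fun z => θ (Z z)) (frontier E) :=
    hθ.comp (hZc.mono hfc) (fun z hz => hZr z hz)
  obtain ⟨γ, hγd, hγc, hγ⟩ := hWL Ω E (fun z => θ (Z z)) δ hE hθc hδ
  have hρ0 : 0 < ρ⁻¹ := inv_pos.2 (by linarith)
  have hgc : ContinuousOn (fun z => Z z * G z * Complex.exp (γ z)) (closure E) :=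
    (hZc.mul hGc).mul (Complex.continuous_exp.comp_continuousOn hγc)
  have hgd : DifferentiableOn ℂ (fun z => Z z * G z * Complex.exp (γ z)) E :=
    (hZd.mul hGd).mul hγd.cexp
  have hZne : ∀ z ∈ frontier E, Z z ≠ 0 := by
    intro z hz h0
    have := (hZr z hz).1
    rw [h0, norm_zero] at this
    linarith
  have hbd : ∀ z ∈ frontier E, |(Z z * G z * Complex.exp (γ z)).im| ≤
      ((kp k + |km k|) / ((kp k - |km k|) / 2)) * |(Z z * G z * Complex.exp (γ z)).re| := by
    intro z hz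
    have hr := hZr z hz
    have h1 := hTG z hz
    rw [(ht (Z z) hr.1 hr.2).2] at h1
    have h2 := alg_CORE k (‖Z z‖ ^ 2) (t (Z z)) (θ (Z z)) (Z z) (G z) (γ z) hk.ne' (hZne z hz) h1
    rw [h2]
    refine bd_CORE (kp k) (km k) _ _ _ ?_ hap ham (hcos _ (hγ z hz))
    rw [norm_mul, norm_div, Complex.norm_exp_ofReal_mul_I, RCLike.norm_conj, one_mul]
    exact div_self (norm_ne_zero_iff.2 (hZne z hz))
  have hzero := hCONE E (fun z => Z z * G z * Complex.exp (γ z)) _ z₀ hE.isOpen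
    hE.conn.isPreconnected (hE.compact.isBounded.subset subset_closure) hgd hgc hbd hz₀
    (by simp [hZ0])
  have hzc : EqOn (fun z => Z z * G z * Complex.exp (γ z)) (fun _ => 0) (closure E) :=
    Set.EqOn.of_subset_closure (fun z hz => hzero z hz) hgc continuousOn_const subset_closure
      subset_rfl
  intro z hz
  have h0 : Z z * G z * Complex.exp (γ z) = 0 := hzc (hfc hz)
  have hG0 : G z = 0 := by
    rcases mul_eq_zero.1 h0 with h1 | h1
    · rcases mul_eq_zero.1 h1 with h2 | h2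
      · exact absurd h2 (hZne z hz)
      · exact h2
    · exact absurd h1 (Complex.exp_ne_zero _)
  have h1 := hTG z hz
  have hr := hZr z hz
  rw [hG0] at h1
  have h2 : conj (h (ci (Z z)) - h (Z z)) = 0 := by
    have h3 : (km k : ℂ) * conj (h (ci (Z z)) - h (Z z)) = 0 := by
      rw [← h1, TT]; simp
    rcases mul_eq_zero.1 h3 with h4 | h4
    · exact absurd (by exact_mod_cast h4) hamne
    · exact h4
  have h3 : h (ci (Z z)) - h (Z z) = 0 := (map_eq_zero (starRingEnd ℂ)).1 h2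
  obtain ⟨htp, hte⟩ := ht (Z z) hr.1 hr.2
  rw [h3] at hte
  have h5 : ((1 - ‖Z z‖ ^ 2 : ℝ) : ℂ) = 0 := by
    have hc : conj (Z z) ≠ 0 := by simpa using hZne z hz
    have h6 : ((1 - ‖Z z‖ ^ 2 : ℝ) : ℂ) * (t (Z z) : ℂ) * Complex.exp (θ (Z z) * I) = 0 := by
      rcases div_eq_zero_iff.1 hte.symm with h7 | h7
      · exact h7
      · exact absurd h7 hc
    rcases mul_eq_zero.1 h6 with h7 | h7
    · rcases mul_eq_zero.1 h7 with h8 | h8
      · exact h8
      · exact absurd (by exact_mod_cast h8) htp.ne'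
    · exact absurd h7 (Complex.exp_ne_zero _)
  have h6 : 1 - ‖Z z‖ ^ 2 = 0 := by exact_mod_cast h5
  have h7 : ‖Z z‖ ^ 2 = 1 := by linarith
  exact (pow_eq_one_iff_of_nonneg (norm_nonneg _) two_ne_zero).1 h7

end Pool.Agent.Helper49.DF
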