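import Pool.Agent.Helper49.DF.St

/-!
# Project DF (MP_dfbc29_an): module `DENS`
-/

set_option autoImplicit false

open Set Filter Topology MeasureTheory Complex Metric
open scoped ContDiff ComplexConjugate

namespace Pool.Agent.Helper49.DF

open Pool.Agent.Helper65.PI

theorem rs_apply_DENS (K : TopologicalSpace.Compacts ℂ) (g : ℂ → ℝ)
    (h : ContinuousOn g (K : Set ℂ)) (x : K) : rs K g x = g x := by
  unfold rs
  rw [dif_pos h]
  rfl

/-- the gradient as a complex number -/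
noncomputable def gr_DENS (Φ : ℂ → ℝ) (z : ℂ) : ℂ :=
  (fderiv ℝ Φ z 1 : ℂ) + I * (fderiv ℝ Φ z I : ℂ)

theorem gr_cont_DENS (Φ : ℂ → ℝ) (h : ContDiff ℝ ∞ Φ) : Continuous (gr_DENS Φ) := by
  have h1 : Continuous (fderiv ℝ Φ) := h.continuous_fderiv (by simp)
  unfold gr_DENS
  have h2 : Continuous fun z => fderiv ℝ Φ z 1 := h1.clm_apply continuous_const
  have h3 : Continuous fun z => fderiv ℝ Φ z I := h1.clm_apply continuous_const
  exact (Complex.continuous_ofReal.comp h2).add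
    (continuous_const.mul (Complex.continuous_ofReal.comp h3))

theorem gr_zero_DENS (Φ : ℂ → ℝ) (z : ℂ) (h : z ∉ tsupport Φ) : gr_DENS Φ z = 0 := by
  unfold gr_DENS
  rw [fderiv_of_notMem_tsupport (𝕜 := ℝ) h]
  simp

/-- the kernel -/
noncomputable def ker_DENS (Φ : ℂ → ℝ) (w z : ℂ) : ℝ := (gr_DENS Φ z / (w - z)).re

theorem ker_int_DENS (hS : StSMALL) (Φ : ℂ → ℝ) (h : ContDiff ℝ ∞ Φ) (B : ℝ)
    (hB : ∀ z, ‖gr_DENS Φ z‖ ≤ B) (S : Set ℂ) (hSm : MeasurableSet S) (hSv : volume S ≠ ⊤) (w : ℂ) :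
    IntegrableOn (ker_DENS Φ w) S ∧
    ∀ s : ℝ, 0 < s → |∫ z in S, ker_DENS Φ w z| ≤ B * (4 * Real.pi * s + (volume S).toReal / s) := by
  have hB0 : 0 ≤ B := le_trans (norm_nonneg _) (hB 0)
  have hi : IntegrableOn (fun z => (w - z)⁻¹) S := (hS S w 1 hSm hSv one_pos).2
  have hm : Measurable (ker_DENS Φ w) := by
    unfold ker_DENS
    exact Complex.measurable_re.comp
      ((gr_cont_DENS Φ h).measurable.div (measurable_const.sub measurable_id))
  have hle : ∀ z, ‖ker_DENS Φ w z‖ ≤ B * ‖(w - z)⁻¹‖ := by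
    intro z
    unfold ker_DENS
    rw [Real.norm_eq_abs]
    refine le_trans (Complex.abs_re_le_norm _) ?_
    rw [div_eq_mul_inv, norm_mul]
    exact mul_le_mul_of_nonneg_right (hB z) (norm_nonneg _)
  have hn : IntegrableOn (fun z => B * ‖(w - z)⁻¹‖) S := hi.norm.const_mul B
  refine ⟨Integrable.mono' hn hm.aestronglyMeasurable (Eventually.of_forall hle), ?_⟩
  intro s hs
  have h1 : ‖∫ z in S, ker_DENS Φ w z‖ ≤ ∫ z in S, B * ‖(w - z)⁻¹‖ :=
    norm_integral_le_of_norm_le hn (Eventually.of_forall hle)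
  rw [integral_const_mul, Real.norm_eq_abs] at h1
  exact le_trans h1 (mul_le_mul_of_nonneg_left (hS S w s hSm hSv hs).1 hB0)

/-- the field of kernels restricted to `K` -/
noncomputable def fld_DENS (K : TopologicalSpace.Compacts ℂ) (Φ : ℂ → ℝ) (z : ℂ) : C(K, ℝ) :=
  rs K (fun w => (gr_DENS Φ z / (w - z)).re)

theorem fld_apply_DENS (K : TopologicalSpace.Compacts ℂ) (Φ : ℂ → ℝ) (z : ℂ)
    (hz : z ∉ (K : Set ℂ)) (w : K) : fld_DENS K Φ z w = ker_DENS Φ w z := by
  unfold fld_DENS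
  rw [rs_apply_DENS]
  · rfl
  · apply Complex.continuous_re.comp_continuousOn
    apply ContinuousOn.div continuousOn_const (continuousOn_id.sub continuousOn_const)
    intro w hw h0
    have : w = z := sub_eq_zero.1 h0
    exact hz (this ▸ hw)

theorem fld_cont_DENS (K : TopologicalSpace.Compacts ℂ) (Φ : ℂ → ℝ) (h : ContDiff ℝ ∞ Φ)
    (C : Set ℂ) (hC : ∀ z ∈ C, z ∉ (K : Set ℂ)) : ContinuousOn (fld_DENS K Φ) C := by
  rw [continuousOn_iff_continuous_domRestrict]
  let f : C(C × K, ℝ) := ⟨fun p => (gr_DENS Φ p.1 / ((p.2 : ℂ) - p.1)).re, by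
    apply Complex.continuous_re.comp
    apply Continuous.div
    · exact (gr_cont_DENS Φ h).comp (continuous_subtype_val.comp continuous_fst)
    · exact (continuous_subtype_val.comp continuous_snd).sub
        (continuous_subtype_val.comp continuous_fst)
    · intro p h0
      have h1 : (p.2 : ℂ) = p.1 := sub_eq_zero.1 h0
      have h2 : (p.2 : ℂ) ∈ (K : Set ℂ) := p.2.2
      rw [h1] at h2
      exact hC p.1 p.1.2 h2⟩
  have e : (C.domRestrict (fld_DENS K Φ)) = f.curry := by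
    funext z
    ext w
    show fld_DENS K Φ z w = f (z, w)
    rw [fld_apply_DENS K Φ z (hC z z.2) w]
    rfl
  rw [e]
  exact f.curry.continuous

theorem est_DENS (hP : StPOMP) (hS : StSMALL) (K : TopologicalSpace.Compacts ℂ)
    (L : C(K, ℝ) →L[ℝ] ℝ)
    (hL : ∀ z, z ∉ (K : Set ℂ) → ∀ c : ℂ, L (rs K fun w => (c / (w - z)).re) = 0)
    (Φ : ℂ → ℝ) (h : ContDiff ℝ ∞ Φ) (hc : HasCompactSupport Φ) (B : ℝ)
    (hB : ∀ z, ‖gr_DENS Φ z‖ ≤ B) (r s : ℝ) (hr : 0 < r) (hs : 0 < s) :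
    2 * Real.pi * |L (rs K Φ)| ≤
      ‖L‖ * (B * (4 * Real.pi * s + (volume (cthickening r (K : Set ℂ))).toReal / s)) := by
  have hB0 : 0 ≤ B := le_trans (norm_nonneg _) (hB 0)
  set S₀ : Set ℂ := tsupport Φ with hS₀
  have hS₀c : IsCompact S₀ := hc
  set U : Set ℂ := thickening r (K : Set ℂ) with hU
  have hUo : IsOpen U := isOpen_thickening
  set C : Set ℂ := S₀ \ U with hCd
  set T : Set ℂ := S₀ ∩ U with hTd
  have hCc : IsCompact C := hS₀c.diff hUo
  have hTm : MeasurableSet T := (isClosed_tsupport Φ).measurableSet.inter hUo.measurableSet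
  have hTv : volume T ≠ ⊤ :=
    (lt_of_le_of_lt (measure_mono inter_subset_left) hS₀c.measure_lt_top).ne
  have hCK : ∀ z ∈ C, z ∉ (K : Set ℂ) := by
    intro z hz hzK
    exact hz.2 (self_subset_thickening hr _ hzK)
  have hkv : volume (cthickening r (K : Set ℂ)) ≠ ⊤ :=
    (K.isCompact.isBounded.cthickening.measure_lt_top).ne
  have hTle : (volume T).toReal ≤ (volume (cthickening r (K : Set ℂ))).toReal := by
    apply ENNReal.toReal_mono hkv
    exact measure_mono (fun z hz => thickening_subset_cthickening r _ hz.2)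
  -- the field
  have hFc : ContinuousOn (fld_DENS K Φ) C := fld_cont_DENS K Φ h C hCK
  have hFi : IntegrableOn (fld_DENS K Φ) C := hFc.integrableOn_compact hCc
  have hLF : L (∫ z in C, fld_DENS K Φ z) = 0 := by
    rw [← ContinuousLinearMap.integral_comp_comm L hFi]
    apply setIntegral_eq_zero_of_forall_eq_zero
    intro z hz
    exact hL z (hCK z hz) (gr_DENS Φ z)
  have hFe : ∀ w : K, (∫ z in C, fld_DENS K Φ z) w = ∫ z in C, ker_DENS Φ w z := by
    intro w
    have e1 : (∫ z in C, fld_DENS K Φ z) w = ContinuousMap.evalCLM ℝ w (∫ z in C, fld_DENS K Φ z) :=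
      rfl
    rw [e1, ← ContinuousLinearMap.integral_comp_comm (ContinuousMap.evalCLM ℝ w) hFi]
    apply setIntegral_congr_fun hCc.measurableSet
    intro z hz
    exact fld_apply_DENS K Φ z (hCK z hz) w
  -- the decomposition
  have hdec : ∀ w : ℂ, 2 * Real.pi * Φ w - ∫ z in C, ker_DENS Φ w z = ∫ z in T, ker_DENS Φ w z := by
    intro w
    have e1 : ∫ z, ker_DENS Φ w z = 2 * Real.pi * Φ w := hP Φ h hc w
    have e2 : ∫ z in S₀, ker_DENS Φ w z = ∫ z, ker_DENS Φ w z := by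
      apply setIntegral_eq_integral_of_forall_compl_eq_zero
      intro z hz
      unfold ker_DENS
      rw [gr_zero_DENS Φ z hz]
      simp
    have hi := (ker_int_DENS hS Φ h B hB S₀ (isClosed_tsupport Φ).measurableSet
      hS₀c.measure_lt_top.ne w).1
    have e3 := integral_inter_add_sdiff hUo.measurableSet hi
    rw [← e1, ← e2, ← e3]
    ring
  set H : C(K, ℝ) := (2 * Real.pi) • rs K Φ - ∫ z in C, fld_DENS K Φ z with hH
  have hHn : ‖H‖ ≤ B * (4 * Real.pi * s + (volume (cthickening r (K : Set ℂ))).toReal / s) := by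
    have hpos : 0 ≤ B * (4 * Real.pi * s + (volume (cthickening r (K : Set ℂ))).toReal / s) := by
      have := Real.pi_pos
      positivity
    rw [ContinuousMap.norm_le _ hpos]
    intro w
    have e1 : H w = ∫ z in T, ker_DENS Φ w z := by
      rw [hH, ContinuousMap.sub_apply, ContinuousMap.smul_apply, hFe w,
        rs_apply_DENS K Φ h.continuous.continuousOn w, smul_eq_mul]
      exact hdec w
    rw [e1, Real.norm_eq_abs]
    refine le_trans ((ker_int_DENS hS Φ h B hB T hTm hTv w).2 s hs) ?_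
    apply mul_le_mul_of_nonneg_left _ hB0
    have : (volume T).toReal / s ≤ (volume (cthickening r (K : Set ℂ))).toReal / s :=
      div_le_div_of_nonneg_right hTle hs.le
    linarith
  have hLH : L H = 2 * Real.pi * L (rs K Φ) := by
    rw [hH, map_sub, map_smul, hLF, smul_eq_mul, sub_zero]
  have h1 : ‖L H‖ ≤ ‖L‖ * ‖H‖ := L.le_opNorm H
  rw [hLH, Real.norm_eq_abs, abs_mul, abs_of_pos (by positivity : (0:ℝ) < 2 * Real.pi)] at h1
  exact le_trans h1 (mul_le_mul_of_nonneg_left hHn L.opNorm_nonneg)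

theorem kill_DENS (hP : StPOMP) (hS : StSMALL) (K : TopologicalSpace.Compacts ℂ)
    (L : C(K, ℝ) →L[ℝ] ℝ) (hK : volume (K : Set ℂ) = 0)
    (hL : ∀ z, z ∉ (K : Set ℂ) → ∀ c : ℂ, L (rs K fun w => (c / (w - z)).re) = 0)
    (Φ : ℂ → ℝ) (h : ContDiff ℝ ∞ Φ) (hc : HasCompactSupport Φ) : L (rs K Φ) = 0 := by
  have hgs : HasCompactSupport (gr_DENS Φ) :=
    HasCompactSupport.intro hc (fun z hz => gr_zero_DENS Φ z hz)
  obtain ⟨B, hB⟩ := (gr_cont_DENS Φ h).bounded_above_of_compact_support hgs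
  have hB0 : 0 ≤ B := le_trans (norm_nonneg _) (hB 0)
  -- let r tend to 0
  have ht : Tendsto (fun r => (volume (cthickening r (K : Set ℂ))).toReal) (𝓝[>] 0) (𝓝 0) := by
    have h1 := (tendsto_measure_cthickening_of_isCompact (μ := (volume : Measure ℂ))
      K.isCompact).mono_left (nhdsWithin_le_nhds (s := Ioi 0))
    rw [hK] at h1
    have h2 := (ENNReal.tendsto_toReal (a := 0) (by simp)).comp h1
    rw [ENNReal.toReal_zero] at h2
    exact h2
  have h1 : ∀ s : ℝ, 0 < s → 2 * Real.pi * |L (rs K Φ)| ≤ ‖L‖ * (B * (4 * Real.pi * s)) := by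
    intro s hs
    have h2 : Tendsto (fun r => ‖L‖ * (B * (4 * Real.pi * s +
        (volume (cthickening r (K : Set ℂ))).toReal / s))) (𝓝[>] 0)
        (𝓝 (‖L‖ * (B * (4 * Real.pi * s + 0 / s)))) :=
      ((((ht.div_const s).const_add _).const_mul _).const_mul _)
    have h3 : 2 * Real.pi * |L (rs K Φ)| ≤ ‖L‖ * (B * (4 * Real.pi * s + 0 / s)) := by
      apply ge_of_tendsto h2
      filter_upwards [self_mem_nhdsWithin] with r hr
      exact est_DENS hP hS K L hL Φ h hc B hB r s hr hs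
    simpa using h3
  have h2 : 2 * Real.pi * |L (rs K Φ)| ≤ 0 := by
    have h3 : Tendsto (fun s : ℝ => ‖L‖ * (B * (4 * Real.pi * s))) (𝓝[>] 0)
        (𝓝 (‖L‖ * (B * (4 * Real.pi * 0)))) := by
      have h4 : Continuous fun s : ℝ => ‖L‖ * (B * (4 * Real.pi * s)) := by fun_prop
      exact (h4.tendsto 0).mono_left nhdsWithin_le_nhds
    have h5 : 2 * Real.pi * |L (rs K Φ)| ≤ ‖L‖ * (B * (4 * Real.pi * 0)) := by
      apply ge_of_tendsto h3
      filter_upwards [self_mem_nhdsWithin] with s hs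
      exact h1 s hs
    simpa using h5
  have hpi := Real.pi_pos
  have h3 : |L (rs K Φ)| ≤ 0 := by
    by_contra hne
    have : 0 < |L (rs K Φ)| := not_le.1 hne
    have : 0 < 2 * Real.pi * |L (rs K Φ)| := by positivity
    linarith
  exact abs_nonpos_iff.1 h3

/-- restrictions of smooth functions -/
def alg_DENS (K : TopologicalSpace.Compacts ℂ) : Subalgebra ℝ C(K, ℝ) where
  carrier := {f | ∃ Φ : ℂ → ℝ, ContDiff ℝ ∞ Φ ∧ ∀ x : K, f x = Φ x}
  mul_mem' := by
    rintro f g ⟨Φ, h1, h2⟩ ⟨Ψ, h3, h4⟩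
    exact ⟨fun z => Φ z * Ψ z, h1.mul h3, fun x => by
      rw [ContinuousMap.mul_apply, h2 x, h4 x]⟩
  add_mem' := by
    rintro f g ⟨Φ, h1, h2⟩ ⟨Ψ, h3, h4⟩
    exact ⟨fun z => Φ z + Ψ z, h1.add h3, fun x => by
      rw [ContinuousMap.add_apply, h2 x, h4 x]⟩
  algebraMap_mem' := by
    intro c
    exact ⟨fun _ => c, contDiff_const, fun x => rfl⟩

theorem sep_DENS (K : TopologicalSpace.Compacts ℂ) : (alg_DENS K).SeparatesPoints := by
  intro x y hxy
  have hne : (x : ℂ) ≠ y := fun h => hxy (Subtype.ext h)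
  by_cases hre : (x : ℂ).re = (y : ℂ).re
  · have him : (x : ℂ).im ≠ (y : ℂ).im := fun h => hne (Complex.ext hre h)
    let f : C(K, ℝ) := ⟨fun w => (w : ℂ).im, Complex.continuous_im.comp continuous_subtype_val⟩
    refine ⟨f, ⟨f, ⟨fun z => z.im, ?_, fun w => rfl⟩, rfl⟩, him⟩
    exact Complex.imCLM.contDiff
  · let f : C(K, ℝ) := ⟨fun w => (w : ℂ).re, Complex.continuous_re.comp continuous_subtype_val⟩
    refine ⟨f, ⟨f, ⟨fun z => z.re, ?_, fun w => rfl⟩, rfl⟩, hre⟩
    exact Complex.reCLM.contDiff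

theorem dens : StPOMP → StSMALL → StDENS := by
  intro hP hS K L hK hL
  have hkill : ∀ f ∈ alg_DENS K, L f = 0 := by
    rintro f ⟨Φ, h1, h2⟩
    obtain ⟨R, hR⟩ := K.isCompact.isBounded.subset_closedBall (0 : ℂ)
    let χ : ContDiffBump (0 : ℂ) := ⟨|R| + 1, |R| + 2, by positivity, by linarith⟩
    have h3 : ContDiff ℝ ∞ (fun z => Φ z * χ z) := h1.mul χ.contDiff
    have h4 : HasCompactSupport (fun z => Φ z * χ z) :=
      HasCompactSupport.mul_left χ.hasCompactSupport
    have h5 := kill_DENS hP hS K L hK hL _ h3 h4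
    have e : f = rs K (fun z => Φ z * χ z) := by
      ext x
      rw [rs_apply_DENS K _ h3.continuous.continuousOn x, h2 x]
      have hx : (x : ℂ) ∈ closedBall (0 : ℂ) χ.rIn := by
        have h6 := hR x.2
        rw [mem_closedBall] at h6 ⊢
        have : R ≤ |R| := le_abs_self R
        show dist (x : ℂ) 0 ≤ |R| + 1
        linarith
      rw [χ.one_of_mem_closedBall hx, mul_one]
    rw [e]
    exact h5
  have htop := ContinuousMap.subalgebra_topologicalClosure_eq_top_of_separatesPoints (alg_DENS K)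
    (sep_DENS K)
  have hdense : Dense ((alg_DENS K : Subalgebra ℝ C(K, ℝ)) : Set C(K, ℝ)) := by
    rw [dense_iff_closure_eq, ← Subalgebra.topologicalClosure_coe, htop]
    rfl
  have hfun : (L : C(K, ℝ) → ℝ) = (0 : C(K, ℝ) →L[ℝ] ℝ) :=
    Continuous.ext_on hdense L.continuous (0 : C(K, ℝ) →L[ℝ] ℝ).continuous
      (fun f hf => by rw [hkill f hf]; rfl)
  exact DFunLike.coe_injective hfun

end Pool.Agent.Helper49.DF
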