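import Pool.Agent.Helper49.DF.St

/-!
# Continuation of the interior potential across the analytic boundary
-/

set_option autoImplicit false

open Set Filter Topology MeasureTheory Complex Metric
open scoped ContDiff ComplexConjugate

namespace Pool.Agent.Helper49.DF

open Pool.Agent.Helper65.PI

private theorem FF_eq_TT_EXTD (k : ℝ) (hk : 0 < k) (u v : ℂ → ℝ) (z : ℂ) :
    FF u v z = (kp k : ℂ) * HH k u v z + (km k : ℂ) * conj (HH k u v z) := by
  have hk' : (k : ℂ) ≠ 0 := by exact_mod_cast hk.ne'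
  unfold FF HH kp km
  simp only [map_add, map_mul, Complex.conj_ofReal, Complex.conj_I]
  push_cast
  field_simp
  ring

private theorem kp_ne_EXTD (k : ℝ) (hk : 0 < k) : (kp k : ℂ) ≠ 0 := by
  have : (0 : ℝ) < kp k := by unfold kp; linarith
  exact_mod_cast this.ne'

private theorem ci_circle_EXTD (ζ : ℂ) (h : ‖ζ‖ = 1) : ci ζ = ζ := by
  have h0 : conj ζ ≠ 0 := by
    intro h'
    have : ‖conj ζ‖ = 0 := by rw [h', norm_zero]
    rw [Complex.norm_conj] at this
    linarith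
  unfold ci
  rw [inv_eq_iff_eq_inv, eq_comm, inv_eq_of_mul_eq_one_left]
  rw [← Complex.normSq_eq_conj_mul_self, Complex.normSq_eq_norm_sq, h]
  norm_num

private theorem norm_ci_EXTD (ζ : ℂ) : ‖ci ζ‖ = ‖ζ‖⁻¹ := by
  unfold ci
  rw [norm_inv, Complex.norm_conj]

theorem extd : Pool.Agent.Helper65.PI.StHOL → StCIRC → StINV → StEXTD := by
  intro hHOL hCIRC hINV Ω k ρ u v ψ hΩ hk hρ hψ hinj hsub hpot
  set F : ℂ → ℂ := FF u v with hF
  set H : ℂ → ℂ := HH k u v with hH
  have hsub1 : ball (0 : ℂ) 1 ⊆ ball 0 ρ := ball_subset_ball hρ.le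
  have hsub1c : closedBall (0 : ℂ) 1 ⊆ ball 0 ρ := closedBall_subset_ball hρ
  have hD := hINV (ball 0 1) ψ isOpen_ball (hψ.mono hsub1) (hinj.mono hsub1)
  have hDo : IsOpen (ψ '' ball 0 1) := hD.1
  have hDΩ : ψ '' ball 0 1 ⊆ Ω := (image_mono hsub1).trans hsub
  obtain ⟨hFhol, hHhol⟩ := hHOL Ω (ψ '' ball 0 1) k u v hΩ hDo hDΩ hk hpot
  have hcl : closure (ψ '' ball 0 1) ⊆ ψ '' closedBall 0 1 := by
    apply closure_minimal (image_mono ball_subset_closedBall)
    exact ((isCompact_closedBall 0 1).image_of_continuousOn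
      (hψ.continuousOn.mono hsub1c)).isClosed
  have hFc : ContinuousOn F Ω := by
    have h1 := hpot.cont_u
    have h2 := hpot.cont_v
    have : F = fun z => (u z : ℂ) + I * (v z : ℂ) := rfl
    rw [this]
    fun_prop
  have hHc : ContinuousOn H Ω := by
    have h1 := hpot.cont_u
    have h2 := hpot.cont_v
    have : H = fun z => (u z : ℂ) + I * ((v z / k : ℝ) : ℂ) := rfl
    rw [this]
    fun_prop (disch := exact hk.ne')
  have hmap : MapsTo ψ (ball 0 ρ) Ω := fun z hz => hsub (mem_image_of_mem _ hz)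
  have hkp := kp_ne_EXTD k hk
  set g : ℂ → ℂ := fun ζ => (F (ψ ζ) - (km k : ℂ) * conj (H (ψ (ci ζ)))) / (kp k : ℂ) with hg
  set h : ℂ → ℂ := fun ζ => if ‖ζ‖ ≤ 1 then H (ψ ζ) else g ζ with hh
  have hin : ∀ ζ, ‖ζ‖ ≤ 1 → h ζ = H (ψ ζ) := fun ζ hζ => by simp only [hh, if_pos hζ]
  have hTT : ∀ z, F z = (kp k : ℂ) * H z + (km k : ℂ) * conj (H z) :=
    fun z => FF_eq_TT_EXTD k hk u v z
  have hout : ∀ ζ, 1 ≤ ‖ζ‖ → h ζ = g ζ := by
    intro ζ hζ
    by_cases h1 : ‖ζ‖ ≤ 1
    · have h2 : ‖ζ‖ = 1 := le_antisymm h1 hζ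
      rw [hin ζ h1]
      simp only [hg]
      rw [ci_circle_EXTD ζ h2, hTT, add_sub_cancel_right, mul_div_cancel_left₀ _ hkp]
    · simp only [hh, if_neg h1]
  have hciball : ∀ ζ, 1 ≤ ‖ζ‖ → ci ζ ∈ closedBall (0 : ℂ) 1 := by
    intro ζ hζ
    rw [mem_closedBall_zero_iff, norm_ci_EXTD]
    exact inv_le_one_of_one_le₀ hζ
  have hcic : ContinuousOn ci {ζ : ℂ | 1 ≤ ‖ζ‖} := by
    intro ζ hζ
    have : conj ζ ≠ 0 := by
      rw [Ne, map_eq_zero]
      rintro rfl
      simp at hζ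
      linarith
    exact (Complex.continuous_conj.continuousAt.inv₀ this).continuousWithinAt
  -- continuity
  have hcA : ContinuousOn h (ball 0 ρ ∩ {ζ | ‖ζ‖ ≤ 1}) := by
    apply ContinuousOn.congr (f := fun ζ => H (ψ ζ)) _ (fun ζ hζ => hin ζ hζ.2)
    exact hHc.comp (hψ.continuousOn.mono inter_subset_left) (fun z hz => hmap hz.1)
  have hcB : ContinuousOn h (ball 0 ρ ∩ {ζ | 1 ≤ ‖ζ‖}) := by
    apply ContinuousOn.congr (f := g) _ (fun ζ hζ => hout ζ hζ.2)
    have h1 : ContinuousOn (fun ζ => F (ψ ζ)) (ball 0 ρ ∩ {ζ | 1 ≤ ‖ζ‖}) :=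
      hFc.comp (hψ.continuousOn.mono inter_subset_left) (fun z hz => hmap hz.1)
    have h2 : ContinuousOn (fun ζ => H (ψ (ci ζ))) (ball 0 ρ ∩ {ζ | 1 ≤ ‖ζ‖}) := by
      have h3 : ContinuousOn (fun ζ => H (ψ ζ)) (closedBall 0 1) :=
        hHc.comp (hψ.continuousOn.mono hsub1c) (fun z hz => hmap (hsub1c hz))
      exact h3.comp (hcic.mono inter_subset_right) (fun z hz => hciball z hz.2)
    have h4 : ContinuousOn (fun ζ => conj (H (ψ (ci ζ)))) (ball 0 ρ ∩ {ζ | 1 ≤ ‖ζ‖}) :=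
      Complex.continuous_conj.comp_continuousOn h2
    exact (h1.sub (continuousOn_const.mul h4)).div_const _
  have hcont : ContinuousOn h (ball 0 ρ) := by
    intro ζ hζ
    have e : ball (0 : ℂ) ρ = (ball 0 ρ ∩ {ζ | ‖ζ‖ ≤ 1}) ∪ (ball 0 ρ ∩ {ζ | 1 ≤ ‖ζ‖}) := by
      rw [← inter_union_distrib_left]
      symm
      rw [inter_eq_left]
      intro z _
      exact le_total ‖z‖ 1
    rw [e, continuousWithinAt_union]
    have c1 : IsClosed {ζ : ℂ | ‖ζ‖ ≤ 1} := isClosed_le continuous_norm continuous_const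
    have c2 : IsClosed {ζ : ℂ | 1 ≤ ‖ζ‖} := isClosed_le continuous_const continuous_norm
    constructor
    · by_cases h1 : ‖ζ‖ ≤ 1
      · exact hcA ζ ⟨hζ, h1⟩
      · apply continuousWithinAt_of_notMem_closure
        intro h2
        have := closure_mono inter_subset_right h2
        rw [c1.closure_eq] at this
        exact h1 this
    · by_cases h1 : 1 ≤ ‖ζ‖
      · exact hcB ζ ⟨hζ, h1⟩
      · apply continuousWithinAt_of_notMem_closure
        intro h2
        have := closure_mono inter_subset_right h2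
        rw [c2.closure_eq] at this
        exact h1 this
  -- differentiability inside
  have hHψ : DifferentiableOn ℂ (fun ζ => H (ψ ζ)) (ball 0 1) :=
    hHhol.comp (hψ.mono hsub1) (fun z hz => mem_image_of_mem _ hz)
  have hd1 : DifferentiableOn ℂ h (ball 0 1) :=
    hHψ.congr (fun ζ hζ => hin ζ (mem_ball_zero_iff.1 hζ).le)
  -- differentiability outside
  have hd2 : DifferentiableOn ℂ h (ball 0 ρ \ closedBall 0 1) := by
    apply DifferentiableOn.congr (f := g) _ (fun ζ hζ => hout ζ (by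
      have := hζ.2
      rw [mem_closedBall_zero_iff, not_le] at this
      exact this.le))
    have h1 : DifferentiableOn ℂ (fun ζ => F (ψ ζ)) (ball 0 ρ \ closedBall 0 1) := by
      apply hFhol.comp (hψ.mono sdiff_subset)
      intro z hz
      refine ⟨hmap hz.1, fun hz' => ?_⟩
      obtain ⟨w, hw, hwz⟩ := hcl hz'
      have : w = z := hinj (hsub1c hw) hz.1 hwz
      rw [this] at hw
      exact hz.2 hw
    have h2 : DifferentiableOn ℂ (fun ζ => conj (H (ψ (ci ζ)))) (ball 0 ρ \ closedBall 0 1) := by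
      intro z hz
      have hz1 : 1 < ‖z‖ := by
        have := hz.2
        rwa [mem_closedBall_zero_iff, not_le] at this
      have hz0 : z ≠ 0 := by
        rintro rfl
        simp at hz1
        linarith
      have hciz : ci z ∈ ball (0 : ℂ) 1 := by
        rw [mem_ball_zero_iff, norm_ci_EXTD]
        exact inv_lt_one_of_one_lt₀ hz1
      have h3 : DifferentiableAt ℂ (fun ζ => H (ψ ζ)) (ci z) :=
        (hHψ (ci z) hciz).differentiableAt (isOpen_ball.mem_nhds hciz)
      have h4 : DifferentiableAt ℂ (conj ∘ (fun ζ => H (ψ ζ)) ∘ conj) (conj (ci z)) :=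
        h3.conj_conj
      have h5 : conj (ci z) = z⁻¹ := by
        unfold ci
        rw [map_inv₀, Complex.conj_conj]
      rw [h5] at h4
      have h6 : DifferentiableAt ℂ ((conj ∘ (fun ζ => H (ψ ζ)) ∘ conj) ∘ (fun w : ℂ => w⁻¹)) z :=
        DifferentiableAt.comp z h4 (differentiableAt_inv hz0)
      have h7 : ((conj ∘ (fun ζ => H (ψ ζ)) ∘ conj) ∘ (fun w : ℂ => w⁻¹)) =
          fun ζ => conj (H (ψ (ci ζ))) := by
        funext w
        simp only [Function.comp_apply, ci, map_inv₀]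
      rw [h7] at h6
      exact h6.differentiableWithinAt
    exact (h1.sub (h2.const_mul _)).div_const _
  refine ⟨h, hCIRC ρ h hρ hcont hd1 hd2, ?_, ?_, ?_⟩
  · intro ζ hζ
    exact hin ζ (mem_closedBall_zero_iff.1 hζ)
  · intro ζ hζ
    rw [hin ζ (mem_closedBall_zero_iff.1 hζ)]
    exact hTT (ψ ζ)
  · intro ζ _ hζ
    have h1 : ‖ci ζ‖ ≤ 1 := mem_closedBall_zero_iff.1 (hciball ζ hζ)
    rw [hout ζ hζ, hin (ci ζ) h1]
    simp only [hg]
    field_simp
    ring

end Pool.Agent.Helper49.DF
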