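import Pool.Agent.Helper49.DF.St2
import Pool.Agent.Helper49.DF.Common

/-!
# Continuation of the interior potential to the whole collar `V`
-/

set_option autoImplicit false

open Set Filter Topology MeasureTheory Complex Metric
open scoped ContDiff ComplexConjugate

namespace Pool.Agent.Helper49.DF

open Pool.Agent.Helper65.PI

private theorem kp_ne_EXTDV (k : ℝ) (hk : 0 < k) : (kp k : ℂ) ≠ 0 := by
  have : (0 : ℝ) < kp k := by unfold kp; linarith
  exact_mod_cast this.ne'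

private theorem norm_ci_EXTDV (ζ : ℂ) : ‖ci ζ‖ = ‖ζ‖⁻¹ := by
  unfold ci
  rw [norm_inv, Complex.norm_conj]

theorem extdv : Pool.Agent.Helper65.PI.StHOL → StEXTD → StINV → StEXTDV := by
  intro hHOL hEXTD hINV Ω V k u v ψ hΩ hV hVsub hk hψ hinj hsub hpot
  obtain ⟨δ, hδ, hδV⟩ := (isCompact_closedBall (0 : ℂ) 1).exists_thickening_subset_open hV hVsub
  rw [thickening_closedBall hδ zero_le_one] at hδV
  obtain ⟨ρ, hρe⟩ : ∃ ρ : ℝ, ρ = δ + 1 := ⟨_, rfl⟩
  rw [← hρe] at hδV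
  have hρ : 1 < ρ := by linarith
  have hsub1c : closedBall (0 : ℂ) 1 ⊆ ball 0 ρ := closedBall_subset_ball hρ
  have hsub1 : ball (0 : ℂ) 1 ⊆ ball 0 ρ := ball_subset_closedBall.trans hsub1c
  obtain ⟨h₁, hd₁, hin₁, hTT₁, hout₁⟩ := hEXTD Ω k ρ u v ψ hΩ hk hρ (hψ.mono hδV)
    (hinj.mono hδV) ((image_mono hδV).trans hsub) hpot
  have hcl := closure_image_C hρ (hψ.mono hδV)
  have hDo : IsOpen (ψ '' ball 0 1) :=
    (hINV (ball 0 1) ψ isOpen_ball (hψ.mono (hsub1.trans hδV)) (hinj.mono (hsub1.trans hδV))).1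
  have hDΩ : ψ '' ball 0 1 ⊆ Ω := (image_mono (hsub1.trans hδV)).trans hsub
  have hFhol := (hHOL Ω (ψ '' ball 0 1) k u v hΩ hDo hDΩ hk hpot).1
  rw [hcl] at hFhol
  set F : ℂ → ℂ := FF u v with hF
  have hkp := kp_ne_EXTDV k hk
  have hciball : ∀ ζ, 1 ≤ ‖ζ‖ → ci ζ ∈ closedBall (0 : ℂ) 1 := by
    intro ζ hζ
    rw [mem_closedBall_zero_iff, norm_ci_EXTDV]
    exact inv_le_one_of_one_le₀ hζ
  set g : ℂ → ℂ := fun ζ => (F (ψ ζ) - (km k : ℂ) * conj (h₁ (ci ζ))) / (kp k : ℂ) with hg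
  classical
  set h : ℂ → ℂ := fun ζ => if ‖ζ‖ < ρ then h₁ ζ else g ζ with hh
  have hin : ∀ ζ, ‖ζ‖ < ρ → h ζ = h₁ ζ := fun ζ hζ => by simp only [hh, if_pos hζ]
  have hout : ∀ ζ, 1 ≤ ‖ζ‖ → h ζ = g ζ := by
    intro ζ hζ
    by_cases h1 : ‖ζ‖ < ρ
    · rw [hin ζ h1]
      simp only [hg]
      rw [hout₁ ζ (mem_ball_zero_iff.2 h1) hζ, add_sub_cancel_right,
        mul_div_cancel_left₀ _ hkp]
    · simp only [hh, if_neg h1]
  have hdh : DifferentiableOn ℂ h V := by
    intro z hz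
    by_cases h1 : ‖z‖ < ρ
    · have hzb : z ∈ ball (0 : ℂ) ρ := mem_ball_zero_iff.2 h1
      have h2 : DifferentiableAt ℂ h₁ z := (hd₁ z hzb).differentiableAt (isOpen_ball.mem_nhds hzb)
      have h3 : h =ᶠ[𝓝 z] h₁ := by
        filter_upwards [isOpen_ball.mem_nhds hzb] with w hw
        exact hin w (mem_ball_zero_iff.1 hw)
      exact (h3.symm.differentiableAt_iff.1 h2).differentiableWithinAt
    · have hz1 : 1 < ‖z‖ := lt_of_lt_of_le hρ (not_lt.1 h1)
      have hz0 : z ≠ 0 := by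
        rintro rfl
        simp at hz1
        linarith
      have hWo : IsOpen (V \ closedBall (0 : ℂ) 1) := hV.sdiff isClosed_closedBall
      have hzW : z ∈ V \ closedBall (0 : ℂ) 1 :=
        ⟨hz, by rw [mem_closedBall_zero_iff, not_le]; exact hz1⟩
      have h2 : DifferentiableAt ℂ (fun ζ => F (ψ ζ)) z := by
        have h3 : DifferentiableOn ℂ (fun ζ => F (ψ ζ)) (V \ closedBall 0 1) := by
          apply hFhol.comp (hψ.mono sdiff_subset)
          intro w hw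
          refine ⟨hsub (mem_image_of_mem _ hw.1), fun hw' => ?_⟩
          obtain ⟨x, hx, hxw⟩ := hw'
          have : x = w := hinj (hVsub hx) hw.1 hxw
          rw [this] at hx
          exact hw.2 hx
        exact (h3 z hzW).differentiableAt (hWo.mem_nhds hzW)
      have hciz : ci z ∈ ball (0 : ℂ) ρ := hsub1c (hciball z hz1.le)
      have h3 : DifferentiableAt ℂ h₁ (ci z) :=
        (hd₁ (ci z) hciz).differentiableAt (isOpen_ball.mem_nhds hciz)
      have h4 : DifferentiableAt ℂ (conj ∘ h₁ ∘ conj) (conj (ci z)) := h3.conj_conj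
      have h5 : conj (ci z) = z⁻¹ := by
        unfold ci
        rw [map_inv₀, Complex.conj_conj]
      rw [h5] at h4
      have h6 : DifferentiableAt ℂ ((conj ∘ h₁ ∘ conj) ∘ (fun w : ℂ => w⁻¹)) z :=
        DifferentiableAt.comp z h4 (differentiableAt_inv hz0)
      have h7 : ((conj ∘ h₁ ∘ conj) ∘ (fun w : ℂ => w⁻¹)) = fun ζ => conj (h₁ (ci ζ)) := by
        funext w
        simp only [Function.comp_apply, ci, map_inv₀]
      rw [h7] at h6
      have h8 : DifferentiableAt ℂ g z := (h2.sub (h6.const_mul _)).div_const _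
      have h9 : h =ᶠ[𝓝 z] g := by
        have : {w : ℂ | 1 < ‖w‖} ∈ 𝓝 z :=
          (isOpen_lt continuous_const continuous_norm).mem_nhds hz1
        filter_upwards [this] with w hw
        exact hout w (le_of_lt hw)
      exact (h9.symm.differentiableAt_iff.1 h8).differentiableWithinAt
  refine ⟨h, hdh, ?_, ?_, ?_⟩
  · intro ζ hζ
    rw [hin ζ (mem_ball_zero_iff.1 (hsub1c hζ))]
    exact hin₁ ζ hζ
  · intro ζ hζ
    rw [hin ζ (mem_ball_zero_iff.1 (hsub1c hζ))]
    exact hTT₁ ζ hζ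
  · intro ζ _ hζ
    rw [hout ζ hζ, hin (ci ζ) (mem_ball_zero_iff.1 (hsub1c (hciball ζ hζ)))]
    simp only [hg]
    rw [mul_div_cancel₀ _ hkp]
    ring

end Pool.Agent.Helper49.DF
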