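import Pool.Agent.Helper49.DF.St

/-!
# Project DF (MP_dfbc29_an): module FIN
-/

set_option autoImplicit false

open Set Filter Topology Complex Metric

namespace Pool.Agent.Helper49.DF

theorem fin (hINV : StINV) : StFIN := by
  intro D' ρ ψ hρ hd hinj hO hcomp hsub h0 hfr
  obtain ⟨_, Z, hZ, hZd⟩ := hINV (ball 0 ρ) ψ isOpen_ball hd hinj
  have hcont : ContinuousOn ψ (ball 0 ρ) := hd.continuousOn
  have hρ0 : 0 < ρ := by linarith
  -- the preimages
  have hA : IsOpen (ball (0 : ℂ) ρ ∩ ψ ⁻¹' D') := hcont.isOpen_inter_preimage isOpen_ball hO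
  have hC : IsOpen (ball (0 : ℂ) ρ ∩ ψ ⁻¹' (closure D')ᶜ) :=
    hcont.isOpen_inter_preimage isOpen_ball isClosed_closure.isOpen_compl
  set A : Set ℂ := ball (0 : ℂ) ρ ∩ ψ ⁻¹' D' with hAdef
  set C : Set ℂ := ball (0 : ℂ) ρ ∩ ψ ⁻¹' (closure D')ᶜ with hCdef
  have hdisj : Disjoint A C := by
    rw [Set.disjoint_left]
    rintro z ⟨_, hz⟩ ⟨_, hz'⟩
    exact hz' (subset_closure hz)
  have hcov : ∀ z ∈ ball (0 : ℂ) ρ, ‖z‖ ≠ 1 → z ∈ A ∪ C := by
    intro z hz h1
    by_cases hm : ψ z ∈ closure D'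
    · left
      refine ⟨hz, ?_⟩
      by_contra hn
      apply h1
      apply hfr z hz
      rw [frontier, hO.interior_eq]
      exact ⟨hm, hn⟩
    · right
      exact ⟨hz, hm⟩
  -- the unit disc is in A
  have hball : ball (0 : ℂ) 1 ⊆ A := by
    apply (isPreconnected_ball (x := (0 : ℂ)) (r := 1)).subset_left_of_subset_union hA hC hdisj
    · intro z hz
      rw [mem_ball_zero_iff] at hz
      exact hcov z (by rw [mem_ball_zero_iff]; linarith) (by linarith)
    · exact ⟨0, by simp, by simpa using hρ0, h0⟩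
  -- compactness
  have hK : IsCompact (Z '' closure D') :=
    hcomp.image_of_continuousOn (hZd.continuousOn.mono hsub)
  have hKne : (Z '' closure D').Nonempty := ⟨_, _, subset_closure h0, rfl⟩
  obtain ⟨w, hw, hmax⟩ := hK.exists_isMaxOn hKne continuous_norm.continuousOn
  have hwρ : ‖w‖ < ρ := by
    obtain ⟨y, hy, rfl⟩ := hw
    obtain ⟨x, hx, rfl⟩ := hsub hy
    rw [hZ x hx]
    exact mem_ball_zero_iff.1 hx
  have hAw : ∀ z ∈ A, ‖z‖ ≤ ‖w‖ := by
    intro z hz
    have : z ∈ Z '' closure D' := ⟨ψ z, subset_closure hz.2, hZ z hz.1⟩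
    exact hmax this
  have hA1 : A ⊆ closedBall 0 1 := by
    intro z hz
    rw [mem_closedBall_zero_iff]
    by_contra h1
    push Not at h1
    have hzw := hAw z hz
    have hz0 : 0 < ‖z‖ := by linarith
    set t : ℝ := ((‖w‖ + ρ) / 2) / ‖z‖ with ht
    have htz : t * ‖z‖ = (‖w‖ + ρ) / 2 := by rw [ht]; field_simp
    have ht1 : 1 ≤ t := by
      rw [ht, le_div_iff₀ hz0]
      linarith
    have hpre : IsPreconnected ((fun s : ℝ => (s : ℂ) * z) '' Icc 1 t) :=
      isPreconnected_Icc.image _ (by fun_prop)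
    have hsubA : (fun s : ℝ => (s : ℂ) * z) '' Icc 1 t ⊆ A := by
      apply hpre.subset_left_of_subset_union hA hC hdisj
      · rintro _ ⟨s, hs, rfl⟩
        have hn : ‖(s : ℂ) * z‖ = s * ‖z‖ := by
          rw [norm_mul, Complex.norm_real, Real.norm_of_nonneg (by linarith [hs.1])]
        have h2 : s * ‖z‖ ≤ t * ‖z‖ := mul_le_mul_of_nonneg_right hs.2 hz0.le
        have h3 : 1 * ‖z‖ ≤ s * ‖z‖ := mul_le_mul_of_nonneg_right hs.1 hz0.le
        apply hcov
        · rw [mem_ball_zero_iff]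
          show ‖(s : ℂ) * z‖ < ρ
          rw [hn]
          linarith
        · show ‖(s : ℂ) * z‖ ≠ 1
          rw [hn]
          linarith
      · exact ⟨z, ⟨1, ⟨le_rfl, ht1⟩, by simp⟩, hz⟩
    have h4 := hAw _ (hsubA ⟨t, ⟨ht1, le_rfl⟩, rfl⟩)
    have hn : ‖(t : ℂ) * z‖ = t * ‖z‖ := by
      rw [norm_mul, Complex.norm_real, Real.norm_of_nonneg (by linarith)]
    have h5 : ‖(t : ℂ) * z‖ ≤ ‖w‖ := h4
    rw [hn, htz] at h5
    linarith
  have hA2 : A ⊆ ball 0 1 := by
    have := interior_maximal hA1 hA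
    rwa [interior_closedBall _ one_ne_zero] at this
  have hAeq : A = ball 0 1 := Subset.antisymm hA2 hball
  rw [← hAeq]
  ext y
  constructor
  · intro hy
    obtain ⟨x, hx, rfl⟩ := hsub (subset_closure hy)
    exact ⟨x, ⟨hx, hy⟩, rfl⟩
  · rintro ⟨x, hx, rfl⟩
    exact hx.2

end Pool.Agent.Helper49.DF
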