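import Pool.Agent.Helper49.DF.St2

/-!
# Project DF (MP_dfbc29_an), second part: module FINV
-/

set_option autoImplicit false

open Set Filter Topology Complex Metric

namespace Pool.Agent.Helper49.DF

theorem finv (hINV : StINV) (hANN : StANN) : StFINV := by
  intro D' V ψ hV hVc h1 hd hinj hO hcomp hsub h0 hfr
  obtain ⟨_, Z, hZ, hZd⟩ := hINV V ψ hV hd hinj
  have hcont : ContinuousOn ψ V := hd.continuousOn
  obtain ⟨δ, hδ, hth⟩ := (isCompact_closedBall (0 : ℂ) 1).exists_thickening_subset_open hV h1
  have hball' : ball (0 : ℂ) (1 + δ) ⊆ V := by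
    refine Subset.trans ?_ hth
    rw [thickening_closedBall hδ zero_le_one, add_comm]
  have hann : IsPreconnected (V \ closedBall (0 : ℂ) 1) := by
    have h := hANN V id 1 (1 + δ) hV hVc one_pos (by linarith) differentiableOn_id
      (injOn_id _) (by rw [image_id]; exact hball')
    rwa [image_id] at h
  have hA : IsOpen (V ∩ ψ ⁻¹' D') := hcont.isOpen_inter_preimage hV hO
  have hC : IsOpen (V ∩ ψ ⁻¹' (closure D')ᶜ) :=
    hcont.isOpen_inter_preimage hV isClosed_closure.isOpen_compl
  set A : Set ℂ := V ∩ ψ ⁻¹' D' with hAdef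
  set C : Set ℂ := V ∩ ψ ⁻¹' (closure D')ᶜ with hCdef
  have hdisj : Disjoint A C := by
    rw [Set.disjoint_left]
    rintro z ⟨_, hz⟩ ⟨_, hz'⟩
    exact hz' (subset_closure hz)
  have hcov : ∀ z ∈ V, ‖z‖ ≠ 1 → z ∈ A ∪ C := by
    intro z hz h2
    by_cases hm : ψ z ∈ closure D'
    · left
      refine ⟨hz, ?_⟩
      by_contra hn
      apply h2
      apply hfr z hz
      rw [frontier, hO.interior_eq]
      exact ⟨hm, hn⟩
    · right
      exact ⟨hz, hm⟩
  -- the unit disc is in A
  have hball : ball (0 : ℂ) 1 ⊆ A := by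
    apply (isPreconnected_ball (x := (0 : ℂ)) (r := 1)).subset_left_of_subset_union hA hC hdisj
    · intro z hz
      apply hcov z (h1 (ball_subset_closedBall hz))
      rw [mem_ball_zero_iff] at hz
      linarith
    · exact ⟨0, by simp, h1 (by simp), h0⟩
  -- compactness
  have hK : IsCompact (Z '' closure D') :=
    hcomp.image_of_continuousOn (hZd.continuousOn.mono hsub)
  have hKV : Z '' closure D' ⊆ V := by
    rintro _ ⟨y, hy, rfl⟩
    obtain ⟨x, hx, rfl⟩ := hsub hy
    rw [hZ x hx]
    exact hx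
  have hA1 : A ⊆ closedBall 0 1 := by
    by_contra hcon
    rw [Set.not_subset] at hcon
    obtain ⟨a, haA, ha1⟩ := hcon
    have hR : V \ closedBall (0 : ℂ) 1 ⊆ A := by
      apply hann.subset_left_of_subset_union hA hC hdisj
      · rintro z ⟨hzV, hz1⟩
        apply hcov z hzV
        rw [mem_closedBall_zero_iff] at hz1
        push Not at hz1
        exact hz1.ne'
      · exact ⟨a, ⟨haA.1, ha1⟩, haA⟩
    have hVeq : V = Z '' closure D' ∪ closedBall (0 : ℂ) 1 := by
      apply Subset.antisymm
      · intro z hz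
        by_cases hz1 : z ∈ closedBall (0 : ℂ) 1
        · exact Or.inr hz1
        · left
          have hzA := hR ⟨hz, hz1⟩
          exact ⟨ψ z, subset_closure hzA.2, hZ z hz⟩
      · exact union_subset hKV h1
    have hVcomp : IsCompact V := by
      rw [hVeq]
      exact hK.union (isCompact_closedBall 0 1)
    have hclopen : IsClopen V := ⟨hVcomp.isClosed, hV⟩
    rcases isClopen_iff.1 hclopen with h | h
    · have : (0 : ℂ) ∈ V := h1 (by simp)
      rw [h] at this
      exact this
    · rw [h] at hVcomp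
      exact noncompact_univ ℂ hVcomp
  have hA2 : A ⊆ ball 0 1 := by
    have := interior_maximal hA1 hA
    rwa [interior_closedBall _ one_ne_zero] at this
  have hAeq : A = ball 0 1 := Subset.antisymm hA2 hball
  rw [← hAeq]
  ext y
  constructor
  · intro hy
    obtain ⟨x, hx, rfl⟩ := hsub (subset_closure hy)
    exact ⟨x, ⟨hx, hy⟩, rfl⟩
  · rintro ⟨x, hx, rfl⟩
    exact hx.2

end Pool.Agent.Helper49.DF
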