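import Pool.Agent.Helper49.DF.St2

/-!
# Project DF, module HATV
-/

set_option autoImplicit false

open Set Filter Topology MeasureTheory Complex Metric
open scoped ContDiff ComplexConjugate

namespace Pool.Agent.Helper49.DF

open Pool.Agent.Helper65.PI

theorem hatv : StINV → StHATV := by
  classical
  intro hINV Ω D' V k ρ ψ h F F' P
  have hρ : 1 < ρ := P.one_lt
  have hρ0 : 0 < ρ := by linarith
  have hρi : 0 < ρ⁻¹ := inv_pos.2 hρ0
  obtain ⟨hop, Z, hZ, hZd⟩ := hINV V ψ P.open_V P.diffψ P.injψ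
  have hsub : closedBall (0 : ℂ) 1 ⊆ V := (closedBall_subset_ball hρ).trans P.ball_sub
  have hcl : IsClosed (ψ '' closedBall 0 1) :=
    ((isCompact_closedBall (0 : ℂ) 1).image_of_continuousOn
      (P.diffψ.continuousOn.mono hsub)).isClosed
  set Φ : ℂ → ℂ := fun ζ => kp k * h ζ + km k * conj (h (ci ζ)) with hΦ
  set Fh : ℂ → ℂ := fun z => if z ∈ ψ '' closedBall 0 1 then Φ (Z z) else F z with hFh
  have h1 : ∀ z ∈ Ω, z ∉ ψ '' closedBall 0 1 → Fh z = F z := by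
    intro z _ hz
    simp only [hFh, if_neg hz]
  have h2 : ∀ ζ ∈ V, Fh (ψ ζ) = Φ ζ := by
    intro ζ hζ
    by_cases hz : ψ ζ ∈ ψ '' closedBall 0 1
    · simp only [hFh, if_pos hz, hZ ζ hζ]
    · simp only [hFh, if_neg hz]
      have h3 : 1 ≤ ‖ζ‖ := by
        by_contra hlt
        push Not at hlt
        exact hz ⟨ζ, by simpa using hlt.le, rfl⟩
      exact P.outside ζ hζ h3
  have hΦd : ∀ ζ ∈ V, ρ⁻¹ < ‖ζ‖ → DifferentiableAt ℂ Φ ζ := by
    intro ζ hζ hr
    have hζ0 : ζ ≠ 0 := by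
      intro h0
      rw [h0, norm_zero] at hr
      linarith
    have hd1 : DifferentiableAt ℂ h ζ := P.diffh.differentiableAt (P.open_V.mem_nhds hζ)
    have hci : ci ζ ∈ V := by
      apply P.ball_sub
      rw [mem_ball_zero_iff, ci, norm_inv, RCLike.norm_conj]
      exact inv_lt_of_inv_lt₀ hρ0 hr
    have hd2 : DifferentiableAt ℂ h (ci ζ) := P.diffh.differentiableAt (P.open_V.mem_nhds hci)
    have hcc : conj (ci ζ) = ζ⁻¹ := by
      rw [ci, map_inv₀, Complex.conj_conj]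
    have hd3 : DifferentiableAt ℂ (conj ∘ h ∘ conj) (ζ⁻¹) := by
      rw [← hcc]
      exact hd2.conj_conj
    have hd4 : DifferentiableAt ℂ (fun w : ℂ => (conj ∘ h ∘ conj) (w⁻¹)) ζ :=
      hd3.comp ζ (differentiableAt_inv hζ0)
    have he : (fun w : ℂ => (conj ∘ h ∘ conj) (w⁻¹)) = fun w => conj (h (ci w)) := by
      funext w
      simp only [Function.comp_apply, ci, map_inv₀]
    rw [he] at hd4
    exact (hd1.const_mul _).add (hd4.const_mul _)
  refine ⟨Fh, ?_, h1, fun ζ hζ _ => h2 ζ hζ⟩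
  intro z hz
  obtain ⟨hzΩ, hzn⟩ := hz
  apply DifferentiableAt.differentiableWithinAt
  by_cases hc : z ∈ ψ '' closedBall 0 1
  · obtain ⟨ζ, hζ1, rfl⟩ := hc
    have hζV : ζ ∈ V := hsub hζ1
    have hζr : ρ⁻¹ < ‖ζ‖ := by
      by_contra hle
      push Not at hle
      exact hzn ⟨ζ, by simpa using hle, rfl⟩
    have hnh : ψ '' V ∈ 𝓝 (ψ ζ) := hop.mem_nhds ⟨ζ, hζV, rfl⟩
    have hZat : DifferentiableAt ℂ Z (ψ ζ) := hZd.differentiableAt hnh
    have hcomp : DifferentiableAt ℂ (fun w => Φ (Z w)) (ψ ζ) := by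
      have h3 : DifferentiableAt ℂ Φ (Z (ψ ζ)) := by
        rw [hZ ζ hζV]; exact hΦd ζ hζV hζr
      exact h3.comp (ψ ζ) hZat
    refine hcomp.congr_of_eventuallyEq ?_
    filter_upwards [hnh] with w hw
    obtain ⟨ξ, hξ, rfl⟩ := hw
    rw [h2 ξ hξ, hZ ξ hξ]
  · have hopen : IsOpen (Ω \ ψ '' closedBall 0 1) := P.open_Ω.sdiff hcl
    have hnh : Ω \ ψ '' closedBall 0 1 ∈ 𝓝 z := hopen.mem_nhds ⟨hzΩ, hc⟩
    have hFd : DifferentiableAt ℂ F z := P.holF.differentiableAt hnh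
    refine hFd.congr_of_eventuallyEq ?_
    filter_upwards [hnh] with w hw
    exact h1 w hw.1 hw.2

end Pool.Agent.Helper49.DF
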