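import Pool.Agent.Helper49.DF.St

set_option autoImplicit false

open Set Filter Topology MeasureTheory Complex Metric
open scoped ContDiff ComplexConjugate

namespace Pool.Agent.Helper49.DF

theorem root_HN0 (g : ℂ → ℂ) (p : ℂ) (n : ℕ) (hn : n ≠ 0) (hg : AnalyticAt ℂ g p) (hg0 : g p ≠ 0) :
    ∃ m : ℂ → ℂ, AnalyticAt ℂ m p ∧ m p ≠ 0 ∧ ∀ᶠ z in 𝓝 p, m z ^ n = g z := by
  have hnC : (n : ℂ) ≠ 0 := by exact_mod_cast hn
  set c : ℂ := g p ^ ((n : ℂ)⁻¹) with hc
  have hcn : c ^ n = g p := by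
    rw [hc, Complex.cpow_nat_inv_pow _ hn]
  have hc0 : c ≠ 0 := by
    intro h0
    rw [h0, zero_pow hn] at hcn
    exact hg0 hcn.symm
  have hq : AnalyticAt ℂ (fun z => g z / g p) p := hg.div_const
  have hslit : g p / g p ∈ Complex.slitPlane := by
    rw [div_self hg0]; exact Complex.one_mem_slitPlane
  have hlog : AnalyticAt ℂ (fun z => Complex.log (g z / g p)) p := hq.clog hslit
  refine ⟨fun z => c * Complex.exp (Complex.log (g z / g p) / n),
    analyticAt_const.mul (hlog.div_const.cexp), ?_, ?_⟩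
  · exact mul_ne_zero hc0 (Complex.exp_ne_zero _)
  · have h1 : ∀ᶠ z in 𝓝 p, g z ≠ 0 := hg.continuousAt.eventually_ne hg0
    filter_upwards [h1] with z hz
    have hz' : g z / g p ≠ 0 := div_ne_zero hz hg0
    rw [mul_pow, hcn, ← Complex.exp_nat_mul, mul_div_cancel₀ _ hnC, Complex.exp_log hz',
      mul_div_cancel₀ _ hg0]

theorem hn0 : StHN0 := by
  intro V h hV hd hinj p hp hder
  have hA : AnalyticAt ℂ h p := hd.analyticAt (hV.mem_nhds hp)
  have hfA : AnalyticAt ℂ (fun z => h z - h p) p := hA.sub analyticAt_const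
  have hne : ¬ ∀ᶠ z in 𝓝 p, h z - h p = 0 := by
    intro hz
    have h1 : ∀ᶠ z in 𝓝[≠] p, h z - h p = 0 ∧ z ∈ V ∧ z ≠ p := by
      refine Filter.Eventually.and (hz.filter_mono nhdsWithin_le_nhds)
        (Filter.Eventually.and ?_ ?_)
      · exact Filter.Eventually.filter_mono nhdsWithin_le_nhds (hV.mem_nhds hp)
      · exact self_mem_nhdsWithin
    obtain ⟨z, hz1, hz2, hz3⟩ := h1.exists
    exact hz3 (hinj hz2 hp (sub_eq_zero.mp hz1))
  obtain ⟨n, g, hgA, hg0, hfg⟩ := hfA.exists_eventuallyEq_pow_smul_nonzero_iff.mpr hne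
  have hn0' : n ≠ 0 := by
    rintro rfl
    have := hfg.self_of_nhds
    simp only [sub_self, pow_zero, one_smul] at this
    exact hg0 this.symm
  have hn1 : n ≠ 1 := by
    rintro rfl
    have h1 : deriv (fun z => h z - h p) p = deriv (fun z => (z - p) ^ 1 • g z) p :=
      Filter.EventuallyEq.deriv_eq hfg
    have h2 : HasDerivAt (fun z => (z - p) ^ 1 • g z) (g p) p := by
      have h3 : HasDerivAt (fun z : ℂ => z - p) 1 p := (hasDerivAt_id p).sub_const p
      have h4 : HasDerivAt (fun z => (z - p) * g z) (1 * g p + (p - p) * deriv g p) p :=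
        h3.mul hgA.differentiableAt.hasDerivAt
      have h5 : (fun z => (z - p) ^ 1 • g z) = fun z => (z - p) * g z := by
        funext z; rw [pow_one, smul_eq_mul]
      rw [h5]
      have h6 : 1 * g p + (p - p) * deriv g p = g p := by ring
      rw [h6] at h4
      exact h4
    rw [h2.deriv, deriv_sub_const, hder] at h1
    exact hg0 h1.symm
  obtain ⟨m, hmA, hm0, hmn⟩ := root_HN0 g p n hn0' hgA hg0
  set w : ℂ → ℂ := fun z => (z - p) * m z with hw
  have hwA : AnalyticAt ℂ w p := (analyticAt_id.sub analyticAt_const).mul hmA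
  have hwd : HasStrictDerivAt w (m p) p := by
    have h1 : HasDerivAt w (1 * m p + (p - p) * deriv m p) p :=
      ((hasDerivAt_id p).sub_const p).mul hmA.differentiableAt.hasDerivAt
    have h2 : deriv w p = m p := by rw [h1.deriv]; ring
    rw [← h2]
    exact hwA.hasStrictDerivAt
  have hmap : map w (𝓝 p) = 𝓝 (w p) := hwd.map_nhds_eq hm0
  have hwp : w p = 0 := by simp [hw]
  set S : Set ℂ := {z | z ∈ V ∧ h z - h p = w z ^ n} with hS
  have hSn : S ∈ 𝓝 p := by
    have h1 : ∀ᶠ z in 𝓝 p, z ∈ V := hV.mem_nhds hp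
    filter_upwards [h1, hfg, hmn] with z h1 h2 h3
    refine ⟨h1, ?_⟩
    rw [h2, ← h3, hw, smul_eq_mul, mul_pow]
  have himg : w '' S ∈ 𝓝 (0 : ℂ) := by
    rw [← hwp, ← hmap]
    exact image_mem_map hSn
  obtain ⟨ε, hε, hball⟩ := Metric.mem_nhds_iff.mp himg
  have hprim := Complex.isPrimitiveRoot_exp n hn0'
  set ζ : ℂ := Complex.exp (2 * Real.pi * Complex.I / n) with hζ
  have hζn : ‖ζ‖ = 1 := hprim.norm'_eq_one hn0'
  have he1 : ((ε / 2 : ℝ) : ℂ) ∈ ball (0 : ℂ) ε := by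
    rw [mem_ball_zero_iff, Complex.norm_real, Real.norm_eq_abs, abs_of_pos (by positivity)]
    linarith
  have he2 : ((ε / 2 : ℝ) : ℂ) * ζ ∈ ball (0 : ℂ) ε := by
    rw [mem_ball_zero_iff, norm_mul, hζn, mul_one, Complex.norm_real, Real.norm_eq_abs,
      abs_of_pos (by positivity)]
    linarith
  obtain ⟨z₁, hz₁, hw₁⟩ := hball he1
  obtain ⟨z₂, hz₂, hw₂⟩ := hball he2
  have heq : h z₁ = h z₂ := by
    have h1 := hz₁.2
    have h2 := hz₂.2
    rw [hw₁] at h1
    rw [hw₂, mul_pow, hprim.pow_eq_one, mul_one] at h2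
    have h3 : h z₁ - h p = h z₂ - h p := by rw [h1, h2]
    exact sub_left_inj.mp h3
  have hz12 : z₁ = z₂ := hinj hz₁.1 hz₂.1 heq
  rw [← hz12, hw₁] at hw₂
  have hε0 : ((ε / 2 : ℝ) : ℂ) ≠ 0 := by
    have : (0 : ℝ) < ε / 2 := by positivity
    exact_mod_cast this.ne'
  have hζ1 : ζ = 1 := by
    have h1 : ((ε / 2 : ℝ) : ℂ) * 1 = ((ε / 2 : ℝ) : ℂ) * ζ := by rw [mul_one]; exact hw₂
    exact (mul_left_cancel₀ hε0 h1).symm
  rw [hζ1] at hprim
  exact hn1 (by rw [hprim.eq_orderOf, orderOf_one])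

end Pool.Agent.Helper49.DF
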