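import Pool.Agent.Helper49.DF.St

/-!
# Project DF, module HNZ: the reflected field has no critical point on the closed unit disc
-/

set_option autoImplicit false

open Set Filter Topology MeasureTheory Complex Metric
open scoped ContDiff ComplexConjugate

namespace Pool.Agent.Helper49.DF

open Pool.Agent.Helper65.PI

private lemma TT_apply_HNZ (k : ℝ) (z : ℂ) : TT k z = ⟨z.re, k * z.im⟩ := by
  apply Complex.ext <;> simp [TT, kp, km] <;> ring

private lemma TT_inj_HNZ {k : ℝ} (hk : 0 < k) {z w : ℂ} (h : TT k z = TT k w) : z = w := by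
  rw [TT_apply_HNZ, TT_apply_HNZ] at h
  have h1 : z.re = w.re := by
    have := congrArg Complex.re h
    exact this
  have h2 : k * z.im = k * w.im := by
    have := congrArg Complex.im h
    exact this
  exact Complex.ext h1 (mul_left_cancel₀ hk.ne' h2)

private lemma TT_add_HNZ (k : ℝ) (z w : ℂ) : TT k (z + w) = TT k z + TT k w := by
  simp only [TT, map_add]; ring

private lemma TT_real_mul_HNZ (k x : ℝ) (z : ℂ) : TT k ((x : ℂ) * z) = (x : ℂ) * TT k z := by
  simp only [TT, map_mul, Complex.conj_ofReal]; ring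

private lemma TT_cont_HNZ (k : ℝ) : Continuous (TT k) := by
  unfold TT
  fun_prop

private lemma bd_HNZ {k ρ : ℝ} {f h : ℂ → ℂ} (R : Refl k ρ f h) {p : ℂ} (hp : ‖p‖ = 1) :
    deriv h p ≠ 0 := by
  intro hd
  have hρ := R.one_lt
  have hk := R.k_pos
  have hpball : p ∈ ball (0 : ℂ) ρ := by simp [hp, hρ]
  have hdiffp : DifferentiableAt ℂ h p := R.diff.differentiableAt (isOpen_ball.mem_nhds hpball)
  obtain ⟨P, hP⟩ : ∃ P : ℂ → ℂ, P = fun ξ => p * exp (I * ξ) := ⟨_, rfl⟩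
  obtain ⟨H, hH⟩ : ∃ H : ℂ → ℂ, H = fun ξ => h (P ξ) - h p := ⟨_, rfl⟩
  have hPn : ∀ ξ, ‖P ξ‖ = Real.exp (-ξ.im) := by
    intro ξ
    rw [hP]
    simp only [norm_mul, hp, one_mul, Complex.norm_exp]
    congr 1
    simp
  have hP0 : P 0 = p := by simp [hP]
  have hPcont : Continuous P := by rw [hP]; fun_prop
  have hPdiff : Differentiable ℂ P := by rw [hP]; fun_prop
  have hH0 : H 0 = 0 := by simp [hH, hP0]
  have hPev : ∀ᶠ ξ in 𝓝 (0 : ℂ), P ξ ∈ ball (0 : ℂ) ρ :=
    hPcont.continuousAt.eventually_mem (by rw [hP0]; exact isOpen_ball.mem_nhds hpball)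
  have hHan : AnalyticAt ℂ H 0 := by
    have h1 : AnalyticAt ℂ h (P 0) := by
      rw [hP0]; exact R.diff.analyticAt (isOpen_ball.mem_nhds hpball)
    have h2 : AnalyticAt ℂ P 0 := hPdiff.analyticAt 0
    have h3 : AnalyticAt ℂ (fun ξ => h (P ξ)) 0 := h1.comp h2
    rw [hH]
    exact h3.sub analyticAt_const
  have hHd : HasDerivAt H 0 0 := by
    have h1 : HasDerivAt P (deriv P 0) 0 := (hPdiff 0).hasDerivAt
    have h2 : HasDerivAt h 0 (P 0) := by
      rw [hP0, ← hd]; exact hdiffp.hasDerivAt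
    have h3 : HasDerivAt (fun ξ => h (P ξ)) (0 * deriv P 0) 0 := h2.comp 0 h1
    rw [zero_mul] at h3
    rw [hH]
    exact h3.sub_const _
  have hnz : ¬ ∀ᶠ ξ in 𝓝 (0 : ℂ), H ξ = 0 := by
    intro hev
    obtain ⟨δ, hδ, hδ'⟩ := Metric.eventually_nhds_iff_ball.1 hev
    have key : ∀ t : ℝ, 0 < t → t < δ → f (P (t * I)) = TT k (h p) ∧ ‖P (t * I)‖ = Real.exp (-t)
        ∧ P (t * I) ∈ ball (0 : ℂ) ρ := by
      intro t ht htd
      have hn : ‖P (t * I)‖ = Real.exp (-t) := by rw [hPn]; simp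
      have hle : Real.exp (-t) ≤ 1 := by
        rw [Real.exp_le_one_iff]; linarith
      have h0 := hδ' (t * I) (by simp [abs_of_pos ht, htd])
      have h1 : h (P (t * I)) = h p := by
        rw [hH] at h0
        exact sub_eq_zero.1 h0
      refine ⟨?_, hn, ?_⟩
      · rw [R.inside _ (by rw [mem_closedBall_zero_iff, hn]; exact hle), h1]
      · rw [mem_ball_zero_iff, hn]; linarith
    obtain ⟨a1, a2, a3⟩ := key (δ / 2) (by positivity) (by linarith)
    obtain ⟨b1, b2, b3⟩ := key (δ / 3) (by positivity) (by linarith)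
    have h5 := R.inj a3 b3 (by rw [a1, b1])
    rw [h5, b2] at a2
    have := Real.exp_injective a2
    linarith
  obtain ⟨n, g, hg, hg0, hgH⟩ := hHan.exists_eventuallyEq_pow_smul_nonzero_iff.2 hnz
  have hn2 : 2 ≤ n := by
    by_contra hcon
    have hcases : n = 0 ∨ n = 1 := by omega
    rcases hcases with rfl | rfl
    · have h1 := hgH.self_of_nhds
      simp only [pow_zero, one_smul] at h1
      exact hg0 (by rw [← h1, hH0])
    · have h1 : HasDerivAt (fun ξ : ℂ => (ξ - 0) ^ 1 • g ξ) (g 0) 0 := by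
        have h2 := (hasDerivAt_id (0 : ℂ)).mul hg.differentiableAt.hasDerivAt
        simp only [id_eq, one_mul, zero_mul, add_zero] at h2
        refine h2.congr_of_eventuallyEq (Eventually.of_forall fun ξ => ?_)
        simp
      have h2 : HasDerivAt H (g 0) 0 := h1.congr_of_eventuallyEq hgH
      exact hg0 (h2.unique hHd)
  -- the two directions
  obtain ⟨a, ha1, ha2, ha3⟩ : ∃ a : ℂ, a ^ n = -1 ∧ 0 < a.im ∧ ‖a‖ = 1 := by
    refine ⟨exp ((Real.pi / n : ℝ) * I), ?_, ?_, ?_⟩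
    · rw [← Complex.exp_nat_mul]
      have hn0 : (n : ℂ) ≠ 0 := by
        have : n ≠ 0 := by omega
        exact_mod_cast this
      have h1 : (n : ℂ) * (((Real.pi / n : ℝ) : ℂ) * I) = Real.pi * I := by
        push_cast; field_simp
      rw [h1, Complex.exp_pi_mul_I]
    · rw [Complex.exp_ofReal_mul_I_im]
      have hn0 : (0 : ℝ) < n := by
        have : 0 < n := by omega
        exact_mod_cast this
      have hn1 : (1 : ℝ) < n := by
        have : 1 < n := by omega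
        exact_mod_cast this
      apply Real.sin_pos_of_pos_of_lt_pi
      · exact div_pos Real.pi_pos hn0
      · rw [div_lt_iff₀ hn0]
        nlinarith [Real.pi_pos]
    · exact Complex.norm_exp_ofReal_mul_I _
  obtain ⟨b, hb⟩ : ∃ b : ℂ, b = conj a := ⟨_, rfl⟩
  have hb1 : b ^ n = -1 := by rw [hb, ← map_pow, ha1]; simp
  have hb2 : b.im = -a.im := by rw [hb]; simp
  have hb3 : ‖b‖ = 1 := by rw [hb, Complex.norm_conj, ha3]
  have hb0 : b ≠ 0 := by intro h0; rw [h0] at hb3; simp at hb3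
  -- isolated root
  obtain ⟨s, hs0, hs1, hsim, hsph⟩ : ∃ s : ℝ, 0 < s ∧ s ≤ 1 ∧ s < a.im ∧
      ∀ ξ ∈ sphere b s, ξ ^ n + 1 ≠ 0 := by
    have h1 : HasDerivAt (fun ξ : ℂ => ξ ^ n) (n * b ^ (n - 1)) b := hasDerivAt_pow n b
    have h2 : (n : ℂ) * b ^ (n - 1) ≠ 0 := by
      apply mul_ne_zero
      · have : n ≠ 0 := by omega
        exact_mod_cast this
      · exact pow_ne_zero _ hb0
    have h3 := h1.eventually_ne (c := b ^ n) h2
    rw [eventually_nhdsWithin_iff, Metric.eventually_nhds_iff_ball] at h3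
    obtain ⟨δ, hδ, hδ'⟩ := h3
    refine ⟨min (min 1 (a.im / 2)) (δ / 2), by positivity, ?_, ?_, ?_⟩
    · exact (min_le_left _ _).trans (min_le_left _ _)
    · have := (min_le_left (min 1 (a.im / 2)) (δ / 2)).trans (min_le_right _ _)
      linarith
    · intro ξ hξ h0
      rw [mem_sphere] at hξ
      have h4 : dist ξ b ≤ δ / 2 := by rw [hξ]; exact min_le_right _ _
      have h5 : ξ ≠ b := by
        intro h6
        rw [h6, dist_self] at hξ
        have : 0 < min (min 1 (a.im / 2)) (δ / 2) := by positivity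
        linarith
      exact hδ' ξ (by rw [mem_ball]; linarith) h5 (by rw [hb1]; linear_combination h0)
  obtain ⟨μ, hμ0, hμ⟩ : ∃ μ : ℝ, 0 < μ ∧ ∀ ξ ∈ sphere b s, μ ≤ ‖ξ ^ n + 1‖ := by
    have hne : (sphere b s).Nonempty := NormedSpace.sphere_nonempty.2 hs0.le
    obtain ⟨ξ0, hξ0, hmin⟩ := (isCompact_sphere b s).exists_isMinOn hne
      (f := fun ξ : ℂ => ‖ξ ^ n + 1‖) (by fun_prop)
    exact ⟨‖ξ0 ^ n + 1‖, norm_pos_iff.2 (hsph ξ0 hξ0), fun ξ hξ => hmin hξ⟩
  -- the function m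
  obtain ⟨m, hm⟩ : ∃ m : ℂ → ℂ, m = fun ζ => (kp k : ℂ) * g ζ + (km k : ℂ) * conj (g (conj ζ)) :=
    ⟨_, rfl⟩
  obtain ⟨C0, hC0⟩ : ∃ C0 : ℂ, C0 = TT k (g 0) := ⟨_, rfl⟩
  have hC0ne : C0 ≠ 0 := by
    intro h0
    apply hg0
    apply TT_inj_HNZ hk
    rw [← hC0, h0]
    simp [TT]
  have hC0pos : 0 < ‖C0‖ := norm_pos_iff.2 hC0ne
  have hm0 : m 0 = C0 := by rw [hm, hC0]; simp [TT]
  obtain ⟨δ1, hδ1, hδ⟩ := Metric.eventually_nhds_iff_ball.1
    (hg.eventually_analyticAt.and (hgH.and hPev))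
  have hmdiff : ∀ ζ ∈ ball (0 : ℂ) δ1, DifferentiableAt ℂ m ζ := by
    intro ζ hζ
    have h1 : DifferentiableAt ℂ g ζ := (hδ ζ hζ).1.differentiableAt
    have hζ' : conj ζ ∈ ball (0 : ℂ) δ1 := by
      rw [mem_ball_zero_iff] at hζ ⊢
      rwa [Complex.norm_conj]
    have h2 : DifferentiableAt ℂ g (conj ζ) := (hδ _ hζ').1.differentiableAt
    have h3 : DifferentiableAt ℂ (fun ζ => conj (g (conj ζ))) ζ := by
      have := differentiableAt_conj_conj_iff.2 h2
      exact this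
    rw [hm]
    exact (h1.const_mul _).add (h3.const_mul _)
  have hmc : ContinuousAt m 0 := (hmdiff 0 (mem_ball_self hδ1)).continuousAt
  obtain ⟨e, he⟩ : ∃ e : ℝ, e = ‖C0‖ * μ / 6 := ⟨_, rfl⟩
  have he0 : 0 < e := by rw [he]; positivity
  obtain ⟨δ2, hδ2, hm2⟩ := Metric.continuousAt_iff.1 hmc (e / 2 ^ n) (by positivity)
  have hgc : ContinuousAt (fun ζ => TT k (g ζ)) 0 :=
    ((TT_cont_HNZ k).continuousAt).comp hg.continuousAt
  obtain ⟨δ3, hδ3, hg3⟩ := Metric.continuousAt_iff.1 hgc e he0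
  obtain ⟨r, hr⟩ : ∃ r : ℝ, r = min (min δ1 δ2) δ3 / 3 := ⟨_, rfl⟩
  have hr0 : 0 < r := by rw [hr]; positivity
  have hr1 : 2 * r < δ1 := by
    have h1 : min (min δ1 δ2) δ3 ≤ δ1 := (min_le_left _ _).trans (min_le_left _ _)
    linarith
  have hr2 : 2 * r < δ2 := by
    have h1 : min (min δ1 δ2) δ3 ≤ δ2 := (min_le_left _ _).trans (min_le_right _ _)
    linarith
  have hr3 : 2 * r < δ3 := by
    have h1 : min (min δ1 δ2) δ3 ≤ δ3 := min_le_right _ _
    linarith
  have hnorm : ∀ ξ ∈ closedBall b s, ‖ξ‖ ≤ 2 := by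
    intro ξ hξ
    rw [mem_closedBall, dist_eq_norm] at hξ
    have h1 : ‖ξ‖ ≤ ‖ξ - b‖ + ‖b‖ := by
      have := norm_add_le (ξ - b) b
      simpa using this
    linarith
  have hrn : ∀ ξ ∈ closedBall b s, ‖(r : ℂ) * ξ‖ ≤ 2 * r := by
    intro ξ hξ
    rw [norm_mul, Complex.norm_real, Real.norm_eq_abs, abs_of_pos hr0]
    nlinarith [hnorm ξ hξ]
  obtain ⟨F, hF⟩ : ∃ F : ℂ → ℂ, F = fun ξ => ξ ^ n * m (r * ξ) := ⟨_, rfl⟩
  obtain ⟨y, hy⟩ : ∃ y : ℂ, y = -TT k (g (r * a)) := ⟨_, rfl⟩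
  have hFC : ∀ ξ ∈ closedBall b s, ‖F ξ - C0 * ξ ^ n‖ ≤ e := by
    intro ξ hξ
    have h1 : F ξ - C0 * ξ ^ n = ξ ^ n * (m (r * ξ) - m 0) := by rw [hF, hm0]; ring
    rw [h1, norm_mul, norm_pow]
    have h2 : ‖m (r * ξ) - m 0‖ ≤ e / 2 ^ n := by
      rw [← dist_eq_norm]
      refine (hm2 ?_).le
      rw [dist_zero_right]
      linarith [hrn ξ hξ]
    have h3 : ‖ξ‖ ^ n ≤ 2 ^ n := pow_le_pow_left₀ (norm_nonneg _) (hnorm ξ hξ) n
    calc ‖ξ‖ ^ n * ‖m (r * ξ) - m 0‖ ≤ 2 ^ n * (e / 2 ^ n) := by gcongr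
      _ = e := by field_simp
  have hra : ‖(r : ℂ) * a‖ = r := by
    rw [norm_mul, Complex.norm_real, Real.norm_eq_abs, abs_of_pos hr0, ha3, mul_one]
  have hyC : ‖y + C0‖ ≤ e := by
    have h1 : y + C0 = -(TT k (g (r * a)) - TT k (g 0)) := by rw [hy, hC0]; ring
    rw [h1, norm_neg, ← dist_eq_norm]
    refine (hg3 ?_).le
    rw [dist_zero_right, hra]
    linarith
  have hbmem : b ∈ closedBall b s := mem_closedBall_self hs0.le
  -- a solution
  obtain ⟨ξ, hξ, hFξ⟩ : ∃ ξ ∈ closedBall b s, F ξ = y := by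
    by_contra hcon
    push Not at hcon
    have hGd : DifferentiableOn ℂ (fun ξ => (F ξ - y)⁻¹) (closure (ball b s)) := by
      rw [closure_ball b hs0.ne']
      intro ξ hξ
      apply DifferentiableAt.differentiableWithinAt
      apply DifferentiableAt.inv
      · rw [hF]
        apply DifferentiableAt.sub_const
        apply DifferentiableAt.mul
        · fun_prop
        · have h1 : DifferentiableAt ℂ m ((r : ℂ) * ξ) := by
            apply hmdiff
            rw [mem_ball_zero_iff]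
            linarith [hrn ξ hξ]
          exact h1.comp ξ (by fun_prop)
      · exact sub_ne_zero.2 (hcon ξ hξ)
    have hmain := Complex.norm_le_of_forall_mem_frontier_norm_le isBounded_ball
      hGd.diffContOnCl (C := (4 * e)⁻¹) (by
        intro ξ hξ
        rw [frontier_ball b hs0.ne'] at hξ
        have hξc : ξ ∈ closedBall b s := sphere_subset_closedBall hξ
        rw [norm_inv]
        apply inv_anti₀ (by positivity)
        have h1 : C0 * (ξ ^ n + 1) = (F ξ - y) - (F ξ - C0 * ξ ^ n) + (y + C0) := by ring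
        have h2 : ‖C0 * (ξ ^ n + 1)‖ ≤ ‖F ξ - y‖ + ‖F ξ - C0 * ξ ^ n‖ + ‖y + C0‖ := by
          rw [h1]
          refine (norm_add_le _ _).trans ?_
          have := norm_sub_le (F ξ - y) (F ξ - C0 * ξ ^ n)
          linarith
        have h3 : 6 * e ≤ ‖C0 * (ξ ^ n + 1)‖ := by
          rw [norm_mul, he]
          have := hμ ξ hξ
          have h4 : ‖C0‖ * μ ≤ ‖C0‖ * ‖ξ ^ n + 1‖ := by gcongr
          linarith
        linarith [hFC ξ hξc])
      (z := b) (subset_closure (mem_ball_self hs0))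
    have hcen : ‖F b - y‖ ≤ 2 * e := by
      have h1 : F b - y = (F b - C0 * b ^ n) - (y + C0) := by rw [hb1]; ring
      rw [h1]
      refine (norm_sub_le _ _).trans ?_
      linarith [hFC b hbmem]
    have hcen0 : 0 < ‖F b - y‖ := norm_pos_iff.2 (sub_ne_zero.2 (hcon b hbmem))
    rw [norm_inv] at hmain
    have h5 : (2 * e)⁻¹ ≤ ‖F b - y‖⁻¹ := inv_anti₀ hcen0 hcen
    have h6 : (4 * e)⁻¹ < (2 * e)⁻¹ := by
      apply inv_strictAnti₀ (by positivity)
      linarith
    linarith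
  have hξim : ξ.im < 0 := by
    rw [mem_closedBall, dist_eq_norm] at hξ
    have h1 : |(ξ - b).im| ≤ ‖ξ - b‖ := Complex.abs_im_le_norm _
    rw [Complex.sub_im] at h1
    have h2 := (abs_le.1 (h1.trans hξ)).2
    linarith
  -- values of f
  have hci : ∀ ζ, ci (P ζ) = P (conj ζ) := by
    intro ζ
    unfold ci
    apply inv_eq_of_mul_eq_one_right
    rw [hP]
    simp only [map_mul]
    have h1 : conj p * p = 1 := by
      rw [mul_comm, Complex.mul_conj, Complex.normSq_eq_norm_sq, hp]; simp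
    have h2 : conj (exp (I * ζ)) * exp (I * conj ζ) = 1 := by
      rw [← Complex.exp_conj, ← Complex.exp_add]
      simp
    calc conj p * conj (exp (I * ζ)) * (p * exp (I * conj ζ))
        = (conj p * p) * (conj (exp (I * ζ)) * exp (I * conj ζ)) := by ring
      _ = 1 := by rw [h1, h2, mul_one]
  have hmem1 : (r : ℂ) * ξ ∈ ball (0 : ℂ) δ1 := by
    rw [mem_ball_zero_iff]; linarith [hrn ξ hξ]
  have hmem1' : conj ((r : ℂ) * ξ) ∈ ball (0 : ℂ) δ1 := by
    rw [mem_ball_zero_iff, Complex.norm_conj]; linarith [hrn ξ hξ]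
  have hmem2 : (r : ℂ) * a ∈ ball (0 : ℂ) δ1 := by
    rw [mem_ball_zero_iff, hra]; linarith
  obtain ⟨-, hH1, hB1⟩ := hδ _ hmem1
  obtain ⟨-, hH1', -⟩ := hδ _ hmem1'
  obtain ⟨-, hH2, hB2⟩ := hδ _ hmem2
  have him1 : ((r : ℂ) * ξ).im = r * ξ.im := by simp
  have him2 : ((r : ℂ) * a).im = r * a.im := by simp
  have hn1 : ‖P ((r : ℂ) * ξ)‖ = Real.exp (-(r * ξ.im)) := by rw [hPn, him1]
  have hn2' : ‖P ((r : ℂ) * a)‖ = Real.exp (-(r * a.im)) := by rw [hPn, him2]
  have hf2 : f (P ((r : ℂ) * a)) = -((r ^ n : ℝ) : ℂ) * TT k (g (r * a)) + TT k (h p) := by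
    rw [R.inside _ (by
      rw [mem_closedBall_zero_iff, hn2', Real.exp_le_one_iff]
      have : 0 < r * a.im := by positivity
      linarith)]
    have h1 : h (P ((r : ℂ) * a)) = H ((r : ℂ) * a) + h p := by rw [hH]; ring
    rw [h1, TT_add_HNZ, hH2]
    have h2 : ((r : ℂ) * a - 0) ^ n • g ((r : ℂ) * a) = ((-(r ^ n) : ℝ) : ℂ) * g ((r : ℂ) * a) := by
      rw [sub_zero, mul_pow, ha1, smul_eq_mul]; push_cast; ring
    rw [h2, TT_real_mul_HNZ]
    push_cast
    ring
  have hf1 : f (P ((r : ℂ) * ξ)) = ((r ^ n : ℝ) : ℂ) * F ξ + TT k (h p) := by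
    rw [R.outside _ (ball_subset_closedBall hB1) (by
      rw [hn1]
      have : r * ξ.im < 0 := mul_neg_of_pos_of_neg hr0 hξim
      exact Real.one_le_exp (by linarith)), hci]
    have h1 : h (P ((r : ℂ) * ξ)) = H ((r : ℂ) * ξ) + h p := by rw [hH]; ring
    have h2 : h (P (conj ((r : ℂ) * ξ))) = H (conj ((r : ℂ) * ξ)) + h p := by rw [hH]; ring
    rw [h1, h2, hH1, hH1', hF, hm]
    simp only [sub_zero, smul_eq_mul, map_add, map_mul, map_pow, Complex.conj_conj,
      Complex.conj_ofReal, TT]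
    push_cast
    ring
  have hfin := R.inj hB1 hB2 (by rw [hf1, hf2, hFξ, hy]; ring)
  rw [hfin, hn2'] at hn1
  have h7 := Real.exp_injective hn1
  have h8 : 0 < r * a.im := by positivity
  have h9 : r * ξ.im < 0 := mul_neg_of_pos_of_neg hr0 hξim
  linarith

theorem hnz : StHN0 → StHNZ := by
  intro hHN0 k ρ f h R z hz
  rcases lt_or_eq_of_le hz with hz1 | hz1
  · have hsub : ball (0 : ℂ) 1 ⊆ ball 0 ρ := ball_subset_ball R.one_lt.le
    refine hHN0 (ball 0 1) h isOpen_ball (R.diff.mono hsub) ?_ z (by simpa using hz1)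
    intro x hx y hy hxy
    apply R.inj (hsub hx) (hsub hy)
    rw [R.inside x (ball_subset_closedBall hx), R.inside y (ball_subset_closedBall hy), hxy]
  · exact bd_HNZ R hz1

end Pool.Agent.Helper49.DF
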