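import Pool.Agent.Helper49.DF.St

set_option autoImplicit false

open Set Filter Topology

namespace Pool.Agent.Helper49.DF

theorem inv (h0 : StHN0) : StINV := by
  intro V ψ hV hd hi
  have hstr : ∀ ζ ∈ V, HasStrictDerivAt ψ (deriv ψ ζ) ζ := fun ζ hζ =>
    ((hd.analyticAt (hV.mem_nhds hζ))).hasStrictDerivAt
  have hne : ∀ ζ ∈ V, deriv ψ ζ ≠ 0 := h0 V ψ hV hd hi
  refine ⟨?_, Function.invFunOn ψ V, fun ζ hζ => hi.leftInvOn_invFunOn hζ, ?_⟩
  · rw [isOpen_iff_mem_nhds]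
    rintro _ ⟨ζ, hζ, rfl⟩
    rw [← (hstr ζ hζ).map_nhds_eq (hne ζ hζ)]
    exact image_mem_map (hV.mem_nhds hζ)
  · rintro _ ⟨ζ, hζ, rfl⟩
    have hg : ∀ᶠ x in 𝓝 ζ, Function.invFunOn ψ V (ψ x) = x := by
      filter_upwards [hV.mem_nhds hζ] with x hx
      exact hi.leftInvOn_invFunOn hx
    exact ((hstr ζ hζ).to_local_left_inverse (hne ζ hζ) hg).hasDerivAt.differentiableAt.differentiableWithinAt

end Pool.Agent.Helper49.DF
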