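import Pool.Agent.Helper49.DF.St

/-!
# Project DF, module KER: from the logarithmic potential to the Cauchy kernels
-/

set_option autoImplicit false

open Set Filter Topology MeasureTheory Complex Metric
open scoped ContDiff ComplexConjugate

namespace Pool.Agent.Helper49.DF

open Pool.Agent.Helper65.PI

private lemma rs_apply_KER (K : TopologicalSpace.Compacts ℂ) (g : ℂ → ℝ)
    (hg : ContinuousOn g (K : Set ℂ)) (x : K) : rs K g x = g x := by
  unfold rs
  rw [dif_pos hg]
  rfl

private lemma log_bound_KER (x : ℂ) (hx : ‖x‖ ≤ 1 / 2) :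
    |Real.log ‖1 - x‖ + x.re| ≤ ‖x‖ ^ 2 := by
  have h1 : ‖-x‖ < 1 := by rw [norm_neg]; linarith only [hx]
  have h2 := Complex.norm_log_one_add_sub_self_le h1
  rw [norm_neg] at h2
  have h3 : Real.log ‖1 - x‖ + x.re = (Complex.log (1 + -x) - -x).re := by
    rw [Complex.sub_re, Complex.log_re, Complex.neg_re, ← sub_eq_add_neg]
    ring
  rw [h3]
  refine (Complex.abs_re_le_norm _).trans (h2.trans ?_)
  have h4 : (1 - ‖x‖)⁻¹ ≤ 2 := by
    rw [inv_le_comm₀ (by linarith only [hx]) (by norm_num)]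
    linarith only [hx]
  have h5 : 0 ≤ ‖x‖ ^ 2 := by positivity
  calc ‖x‖ ^ 2 * (1 - ‖x‖)⁻¹ / 2 ≤ ‖x‖ ^ 2 * 2 / 2 := by
        have := mul_le_mul_of_nonneg_left h4 h5
        linarith only [this]
    _ = ‖x‖ ^ 2 := by ring

theorem ker : StKER := by
  intro K L hL z hz c
  have hKc : IsClosed (K : Set ℂ) := K.isCompact.isClosed
  obtain ⟨d, hd, hball⟩ := Metric.isOpen_iff.1 hKc.isOpen_compl z hz
  have hdist : ∀ w ∈ (K : Set ℂ), d ≤ ‖w - z‖ := by
    intro w hw
    by_contra h
    have hlt := not_le.1 h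
    have : w ∈ ball z d := by rw [mem_ball, dist_eq_norm]; exact hlt
    exact hball this hw
  have hne : ∀ w ∈ (K : Set ℂ), w - z ≠ 0 := by
    intro w hw h0
    have := hdist w hw
    rw [h0, norm_zero] at this
    linarith only [this, hd]
  obtain ⟨g, hg⟩ : ∃ g : ℂ → ℝ, g = fun w => (c / (w - z)).re := ⟨_, rfl⟩
  have hgc : ContinuousOn g (K : Set ℂ) := by
    rw [hg]
    refine Complex.continuous_re.comp_continuousOn ?_
    exact ContinuousOn.div continuousOn_const (continuousOn_id.sub continuousOn_const) hne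
  have hlogc : ∀ y : ℂ, y ∉ (K : Set ℂ) →
      ContinuousOn (fun w : ℂ => Real.log ‖w - y‖) (K : Set ℂ) := by
    intro y hy
    refine ContinuousOn.log ((continuousOn_id.sub continuousOn_const).norm) ?_
    intro w hw h0
    have h1 : w - y = 0 := norm_eq_zero.1 h0
    rw [sub_eq_zero] at h1
    exact hy (h1 ▸ hw)
  -- the main estimate
  have hmain : ∀ s : ℝ, 0 < s → s * ‖c‖ ≤ d / 2 →
      |L (rs K g)| ≤ ‖L‖ * (s * (‖c‖ ^ 2 / d ^ 2)) := by
    intro s hs hsc
    have hx : ∀ w ∈ (K : Set ℂ), ‖(s : ℂ) * c / (w - z)‖ ≤ s * ‖c‖ / d := by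
      intro w hw
      rw [norm_div, norm_mul, Complex.norm_real, Real.norm_eq_abs, abs_of_pos hs]
      exact div_le_div_of_nonneg_left (by positivity) hd (hdist w hw)
    have hx2 : ∀ w ∈ (K : Set ℂ), ‖(s : ℂ) * c / (w - z)‖ ≤ 1 / 2 := by
      intro w hw
      refine (hx w hw).trans ?_
      rw [div_le_iff₀ hd]
      linarith only [hsc]
    have hfac : ∀ w ∈ (K : Set ℂ), w - (z + s * c) = (w - z) * (1 - (s : ℂ) * c / (w - z)) := by
      intro w hw
      have := hne w hw
      field_simp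
      ring
    have hone : ∀ w ∈ (K : Set ℂ), 0 < ‖1 - (s : ℂ) * c / (w - z)‖ := by
      intro w hw
      rw [norm_pos_iff]
      intro h0
      have h1 : (s : ℂ) * c / (w - z) = 1 := (sub_eq_zero.1 h0).symm
      have h2 := hx2 w hw
      rw [h1, norm_one] at h2
      linarith only [h2]
    have hz' : z + s * c ∉ (K : Set ℂ) := by
      intro hmem
      have h1 := hfac _ hmem
      rw [sub_self] at h1
      have h2 := hone _ hmem
      rcases mul_eq_zero.1 h1.symm with h | h
      · exact hne _ hmem h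
      · rw [h, norm_zero] at h2
        exact lt_irrefl _ h2
    obtain ⟨h, hh⟩ : ∃ h : C(K, ℝ), h = rs K (fun w => Real.log ‖w - (z + s * c)‖) -
        rs K (fun w => Real.log ‖w - z‖) + s • rs K g := ⟨_, rfl⟩
    have hLh : L h = s * L (rs K g) := by
      rw [hh, map_add, map_sub, hL _ hz', hL _ hz, map_smul, smul_eq_mul]
      ring
    have hnorm : ‖h‖ ≤ (s * ‖c‖ / d) ^ 2 := by
      rw [ContinuousMap.norm_le _ (by positivity)]
      intro w
      have hw : (w : ℂ) ∈ (K : Set ℂ) := w.2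
      have hval : h w = Real.log ‖1 - (s : ℂ) * c / ((w : ℂ) - z)‖ +
          ((s : ℂ) * c / ((w : ℂ) - z)).re := by
        rw [hh]
        simp only [ContinuousMap.add_apply, ContinuousMap.sub_apply, ContinuousMap.smul_apply,
          smul_eq_mul]
        rw [rs_apply_KER K _ (hlogc _ hz'), rs_apply_KER K _ (hlogc _ hz), rs_apply_KER K _ hgc]
        rw [hfac _ hw, norm_mul, Real.log_mul (norm_ne_zero_iff.2 (hne _ hw)) (hone _ hw).ne', hg]
        have hre : ((s : ℂ) * c / ((w : ℂ) - z)).re = s * (c / ((w : ℂ) - z)).re := by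
          rw [mul_div_assoc, Complex.re_ofReal_mul]
        rw [hre]
        ring
      rw [hval, Real.norm_eq_abs]
      refine (log_bound_KER _ (hx2 _ hw)).trans ?_
      exact pow_le_pow_left₀ (norm_nonneg _) (hx _ hw) 2
    have hfin : |s * L (rs K g)| ≤ ‖L‖ * (s * ‖c‖ / d) ^ 2 := by
      rw [← hLh, ← Real.norm_eq_abs]
      exact (L.le_opNorm h).trans (mul_le_mul_of_nonneg_left hnorm (norm_nonneg _))
    rw [abs_mul, abs_of_pos hs] at hfin
    have hre : ‖L‖ * (s * ‖c‖ / d) ^ 2 = s * (‖L‖ * (s * (‖c‖ ^ 2 / d ^ 2))) := by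
      field_simp
    rw [hre] at hfin
    exact le_of_mul_le_mul_left hfin hs
  have hgoal : L (rs K g) = 0 := by
    have hab : |L (rs K g)| ≤ 0 := by
      refine le_of_forall_pos_le_add fun ε hε => ?_
      rw [zero_add]
      obtain ⟨A, hA⟩ : ∃ A, A = ‖L‖ * (‖c‖ ^ 2 / d ^ 2) := ⟨_, rfl⟩
      have hA0 : 0 ≤ A := by rw [hA]; positivity
      obtain ⟨s, hs⟩ : ∃ s, s = min (ε / (A + 1)) (d / (2 * (‖c‖ + 1))) := ⟨_, rfl⟩
      have hc0 : 0 ≤ ‖c‖ := norm_nonneg c
      have hs0 : 0 < s := by rw [hs]; positivity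
      have hs1 : s ≤ ε / (A + 1) := by rw [hs]; exact min_le_left _ _
      have hs2 : s ≤ d / (2 * (‖c‖ + 1)) := by rw [hs]; exact min_le_right _ _
      have hsc : s * ‖c‖ ≤ d / 2 := by
        calc s * ‖c‖ ≤ s * (‖c‖ + 1) := mul_le_mul_of_nonneg_left (by linarith only []) hs0.le
          _ ≤ d / (2 * (‖c‖ + 1)) * (‖c‖ + 1) :=
              mul_le_mul_of_nonneg_right hs2 (by positivity)
          _ = d / 2 := by field_simp
      refine (hmain s hs0 hsc).trans ?_
      calc ‖L‖ * (s * (‖c‖ ^ 2 / d ^ 2)) = s * A := by rw [hA]; ring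
        _ ≤ s * (A + 1) := mul_le_mul_of_nonneg_left (by linarith only []) hs0.le
        _ ≤ ε / (A + 1) * (A + 1) := mul_le_mul_of_nonneg_right hs1 (by positivity)
        _ = ε := by field_simp
    exact abs_eq_zero.1 (le_antisymm hab (abs_nonneg _))
  rw [hg] at hgoal
  exact hgoal

end Pool.Agent.Helper49.DF
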