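import Pool.Agent.Helper49.DF.St

/-!
Project DF (MP_dfbc29_an): module LH, homotopy lifting through the exponential.
-/

set_option autoImplicit false

open Set Filter Topology Complex

namespace Pool.Agent.Helper49.DF

/-- the covering `exp` onto the nonzero complex numbers -/
noncomputable def ex_LH (z : ℂ) : {z : ℂ // z ≠ 0} := ⟨_, z.exp_ne_zero⟩

theorem cov_LH : IsCoveringMap ex_LH := Complex.isCoveringMap_exp

theorem lh : StLH := by
  classical
  intro S H hc hne h0
  obtain ⟨l, hl, hl0⟩ := h0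
  have hmem : ∀ x : unitInterval × S, ((x.1 : ℝ), (x.2 : ℂ)) ∈ Icc (0 : ℝ) 1 ×ˢ S :=
    fun x => ⟨x.1.2, x.2.2⟩
  have hcont : Continuous fun x : unitInterval × S => H (x.1 : ℝ) (x.2 : ℂ) := by
    have h := hc.comp_continuous (f := fun x : unitInterval × S => ((x.1 : ℝ), (x.2 : ℂ)))
      (by fun_prop) hmem
    exact h
  let HH : C(unitInterval × S, {z : ℂ // z ≠ 0}) :=
    ⟨fun x => ⟨H (x.1 : ℝ) (x.2 : ℂ), hne _ x.1.2 _ x.2.2⟩, hcont.subtype_mk _⟩
  let L : C(S, ℂ) := ⟨fun x => l x, continuousOn_iff_continuous_domRestrict.1 hl⟩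
  have H0 : ∀ a : S, HH (0, a) = ex_LH (L a) := by
    intro a
    apply Subtype.ext
    exact hl0 a a.2
  have hlift := cov_LH.liftHomotopy_lifts HH L H0
  set G := cov_LH.liftHomotopy HH L H0 with hG
  refine ⟨fun z => if h : z ∈ S then G (1, ⟨z, h⟩) else 0, ?_, ?_⟩
  · rw [continuousOn_iff_continuous_domRestrict]
    have h1 : Continuous fun a : S => G (1, a) := G.continuous.comp (by fun_prop)
    refine h1.congr fun a => ?_
    show G (1, a) = if h : (a : ℂ) ∈ S then G (1, ⟨a, h⟩) else 0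
    rw [dif_pos a.2]
  · intro z hz
    have h2 := congrArg Subtype.val (congrFun hlift (1, ⟨z, hz⟩))
    show H 1 z = Complex.exp (if h : z ∈ S then G (1, ⟨z, h⟩) else 0)
    rw [dif_pos hz]
    exact h2.symm

end Pool.Agent.Helper49.DF
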