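import Pool.Agent.Helper49.DF.St

/-!
Project DF (MP_dfbc29_an), module LOG: the argument of the slope.
-/

set_option autoImplicit false

open Set Filter Topology MeasureTheory Complex Metric
open scoped ContDiff ComplexConjugate

namespace Pool.Agent.Helper49.DF

open Pool.Agent.Helper65.PI

private theorem ci_ci_LOG (z : ℂ) : ci (ci z) = z := by simp [ci]

private theorem norm_ci_LOG (z : ℂ) : ‖ci z‖ = ‖z‖⁻¹ := by simp [ci]

private theorem ci_eq_LOG (z : ℂ) (hz : z ≠ 0) : ci z = (((‖z‖ ^ 2)⁻¹ : ℝ) : ℂ) * z := by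
  unfold ci
  have h1 : z * conj z = ((‖z‖ ^ 2 : ℝ) : ℂ) := by
    rw [Complex.mul_conj, Complex.normSq_eq_norm_sq]
  have h2 : conj z ≠ 0 := by simpa using hz
  rw [Complex.ofReal_inv, ← h1]
  field_simp

/-- the point of `{1 ≤ ‖z‖}` equal or symmetric to `z` -/
private noncomputable def mm_LOG (z : ℂ) : ℂ := ((max 1 ((‖z‖ ^ 2)⁻¹) : ℝ) : ℂ) * z

private theorem mm_out_LOG (z : ℂ) (hz : 1 ≤ ‖z‖) : mm_LOG z = z := by
  unfold mm_LOG
  have : (‖z‖ ^ 2)⁻¹ ≤ 1 := inv_le_one_of_one_le₀ (one_le_pow₀ hz)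
  rw [max_eq_left this]
  simp

private theorem mm_in_LOG (z : ℂ) (h0 : z ≠ 0) (hz : ‖z‖ < 1) : mm_LOG z = ci z := by
  have h1 : 0 < ‖z‖ := norm_pos_iff.2 h0
  rw [ci_eq_LOG z h0]
  unfold mm_LOG
  have : 1 ≤ (‖z‖ ^ 2)⁻¹ := (one_le_inv₀ (by positivity)).2 (pow_le_one₀ h1.le hz.le)
  rw [max_eq_right this]

private theorem mm_mem_LOG (ρ : ℝ) (hρ : 1 < ρ) (z : ℂ) (h1 : ρ⁻¹ ≤ ‖z‖) (h2 : ‖z‖ ≤ ρ) :
    1 ≤ ‖mm_LOG z‖ ∧ ‖mm_LOG z‖ ≤ ρ := by
  have hρ0 : 0 < ρ⁻¹ := by positivity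
  have h0 : 0 < ‖z‖ := by linarith
  rcases le_or_gt 1 ‖z‖ with h | h
  · rw [mm_out_LOG z h]
    exact ⟨h, h2⟩
  · rw [mm_in_LOG z (norm_pos_iff.1 h0) h, norm_ci_LOG]
    exact ⟨(one_le_inv₀ h0).2 h.le, inv_le_of_inv_le₀ (by positivity) h1⟩

private theorem mm_cont_LOG (ρ : ℝ) (hρ : 1 < ρ) :
    ContinuousOn mm_LOG {z | ρ⁻¹ ≤ ‖z‖ ∧ ‖z‖ ≤ ρ} := by
  unfold mm_LOG
  apply ContinuousOn.mul _ continuousOn_id
  apply Complex.continuous_ofReal.comp_continuousOn
  have hmx : Continuous (fun x : ℝ => max 1 x) := continuous_const.max continuous_id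
  apply hmx.comp_continuousOn
  apply ContinuousOn.inv₀
  · fun_prop
  · intro z hz
    have hρ0 : 0 < ρ⁻¹ := by positivity
    have h0 : 0 < ‖z‖ := lt_of_lt_of_le hρ0 hz.1
    positivity

theorem log : StHNZ → StLH → StSL → StOL → StLOG := by
  intro hHNZ hLH hSL hOL k ρ f h R
  have hρ := R.one_lt
  have hk := R.k_pos
  have hd := hHNZ k ρ f h R
  obtain ⟨q, hqc, hq⟩ := hSL k ρ f h R hd
  obtain ⟨l0, hl0c, hl0⟩ := hOL k ρ f h R hd
  have hρ0 : (0 : ℝ) < ρ := by linarith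
  have hkp : 0 < kp k := by unfold kp; linarith
  -- the slope on the outer circle
  have hA0 : 0 < kp k * (ρ ^ 2 - 1) / ρ := by
    have : 0 < ρ ^ 2 - 1 := by nlinarith
    positivity
  set A : ℝ := kp k * (ρ ^ 2 - 1) / ρ with hA
  have houter : ∀ u : ℂ, ‖u‖ = 1 → Complex.exp (l0 u) = (A : ℂ) * q (ρ * u) := by
    intro u hu
    have hu0 : u ≠ 0 := by
      rintro rfl
      simp at hu
    have hz : ‖(ρ : ℂ) * u‖ = ρ := by
      rw [norm_mul, hu, mul_one, Complex.norm_real, Real.norm_of_nonneg hρ0.le]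
    have huu : u * conj u = 1 := by
      rw [Complex.mul_conj, Complex.normSq_eq_norm_sq, hu]
      simp
    have hρc : (ρ : ℂ) ≠ 0 := by exact_mod_cast hρ0.ne'
    have hcu : conj u ≠ 0 := by simpa using hu0
    have hci : ci (ρ * u) = u / ρ := by
      unfold ci
      rw [map_mul, Complex.conj_ofReal]
      field_simp
      rw [← huu]; ring
    have e1 := R.outside (ρ * u) (by rw [mem_closedBall, dist_zero_right, hz])
      (by rw [hz]; exact hρ.le)
    have e2 := R.inside (ci (ρ * u)) (by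
      rw [mem_closedBall, dist_zero_right, norm_ci_LOG, hz]
      exact inv_le_one_of_one_le₀ hρ.le)
    have e3 := (hq (ρ * u) (by rw [hz]; exact hρ.le) hz.le).2
    rw [hz] at e3
    rw [hci] at e1 e2 e3
    have e4 := hl0 u (by rw [mem_sphere, dist_zero_right, hu])
    rw [← e4, e1, e2]
    unfold TT
    have hcz : conj ((ρ : ℂ) * u) = ρ * conj u := by rw [map_mul, Complex.conj_ofReal]
    rw [hcz] at e3
    have hq' : h (ρ * u) - h (u / ρ) = ((ρ ^ 2 - 1 : ℝ) : ℂ) * q (ρ * u) * u / ρ := by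
      have h1 : h (ρ * u) - h (u / ρ) = -(((1 - ρ ^ 2 : ℝ) : ℂ) * q (ρ * u) / (ρ * conj u)) := by
        rw [← e3]; ring
      rw [h1]
      push_cast
      have h2 : u = (conj u)⁻¹ := eq_inv_of_mul_eq_one_left huu
      have h3 : (ρ * conj u)⁻¹ = u / ρ := by
        rw [mul_inv, ← h2]; field_simp
      rw [div_eq_mul_inv, h3]
      ring
    have hfin : (kp k : ℂ) * h (ρ * u) + km k * conj (h (u / ρ)) -
        ((kp k : ℂ) * h (u / ρ) + km k * conj (h (u / ρ))) = kp k * (h (ρ * u) - h (u / ρ)) := by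
      ring
    rw [hfin, hq', hA]
    push_cast
    field_simp
  have houter' : ∀ u : ℂ, ‖u‖ = 1 →
      q (ρ * u) = Complex.exp (l0 u - ((Real.log A : ℝ) : ℂ)) := by
    intro u hu
    rw [Complex.exp_sub, houter u hu, ← Complex.ofReal_exp, Real.exp_log hA0]
    have : (A : ℂ) ≠ 0 := by exact_mod_cast hA0.ne'
    field_simp
  -- the logarithm on the ring
  set S : Set ℂ := {z | 1 ≤ ‖z‖ ∧ ‖z‖ ≤ ρ} with hS
  have hS0 : ∀ z ∈ S, 0 < ‖z‖ := fun z hz => lt_of_lt_of_le one_pos hz.1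
  have hmap : ∀ t ∈ Icc (0 : ℝ) 1, ∀ z ∈ S,
      ((((1 - t) * ρ / ‖z‖ + t : ℝ)) : ℂ) * z ∈ S := by
    intro t ht z hz
    have hz0 := hS0 z hz
    have hn : ‖((((1 - t) * ρ / ‖z‖ + t : ℝ)) : ℂ) * z‖ = (1 - t) * ρ + t * ‖z‖ := by
      have ht' : 0 ≤ 1 - t := by linarith [ht.2]
      have ht0 := ht.1
      rw [norm_mul, Complex.norm_real, Real.norm_of_nonneg (by positivity)]
      field_simp
    have h1 := hz.1
    have h2 := hz.2
    refine ⟨?_, ?_⟩
    · rw [hn]
      nlinarith [ht.1, ht.2]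
    · rw [hn]
      nlinarith [ht.1, ht.2]
  obtain ⟨l, hlc, hl⟩ := hLH S (fun t z => q (((((1 - t) * ρ / ‖z‖ + t : ℝ)) : ℂ) * z))
    (by
      apply hqc.comp
      · apply ContinuousOn.mul
        · apply Complex.continuous_ofReal.comp_continuousOn
          apply ContinuousOn.add
          · apply ContinuousOn.div
            · fun_prop
            · fun_prop
            · intro x hx
              exact (hS0 x.2 hx.2).ne'
          · fun_prop
        · fun_prop
      · intro x hx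
        exact hmap x.1 hx.1 x.2 hx.2)
    (by
      intro t ht z hz
      have hm := hmap t ht z hz
      exact (hq _ hm.1 hm.2).1)
    (by
      refine ⟨fun z => l0 (z / ‖z‖) - ((Real.log A : ℝ) : ℂ), ?_, ?_⟩
      · apply ContinuousOn.sub _ continuousOn_const
        apply hl0c.comp
        · apply ContinuousOn.div continuousOn_id
          · fun_prop
          · intro z hz
            exact_mod_cast (hS0 z hz).ne'
        · intro z hz
          have := hS0 z hz
          rw [mem_sphere, dist_zero_right, norm_div, Complex.norm_real, norm_norm]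
          exact div_self this.ne'
      · intro z hz
        have hz0 := hS0 z hz
        have hn : ‖z / (‖z‖ : ℂ)‖ = 1 := by
          rw [norm_div, Complex.norm_real, norm_norm]
          exact div_self hz0.ne'
        rw [← houter' _ hn]
        congr 1
        push_cast
        ring)
  have hl' : ∀ z ∈ S, q z = Complex.exp (l z) := by
    intro z hz
    have := hl z hz
    rw [← this]
    congr 1
    push_cast
    ring
  have hql : ∀ z ∈ S, q z = ((Real.exp (l z).re : ℝ) : ℂ) * Complex.exp (((l z).im : ℂ) * I) := by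
    intro z hz
    rw [hl' z hz, Complex.ofReal_exp, ← Complex.exp_add, Complex.re_add_im]
  refine ⟨fun z => (l (mm_LOG z)).im, fun z => Real.exp (l (mm_LOG z)).re, ?_, ?_⟩
  · apply Complex.continuous_im.comp_continuousOn
    apply hlc.comp (mm_cont_LOG ρ hρ)
    intro z hz
    exact mm_mem_LOG ρ hρ z hz.1 hz.2
  · intro z h1 h2
    refine ⟨Real.exp_pos _, ?_⟩
    beta_reduce
    have hρi : 0 < ρ⁻¹ := by positivity
    have h0 : 0 < ‖z‖ := by linarith
    have hm := mm_mem_LOG ρ hρ z h1 h2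
    have hqm := hql (mm_LOG z) hm
    rcases le_or_gt 1 ‖z‖ with hz | hz
    · rw [mm_out_LOG z hz] at hqm ⊢
      rw [(hq z hz h2).2, hqm]
      ring
    · have hz0 : z ≠ 0 := norm_pos_iff.1 h0
      rw [mm_in_LOG z hz0 hz] at hqm hm ⊢
      have e := (hq (ci z) hm.1 hm.2).2
      rw [ci_ci_LOG] at e
      have e' : h (ci z) - h z = -(((1 - ‖ci z‖ ^ 2 : ℝ) : ℂ) * q (ci z) / conj (ci z)) := by
        rw [← e]; ring
      rw [e', hqm, norm_ci_LOG]
      have hc : conj (ci z) = z⁻¹ := by simp [ci]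
      rw [hc]
      have hcz : conj z ≠ 0 := by simpa using hz0
      have hzz : z * conj z = ((‖z‖ : ℝ) : ℂ) ^ 2 := by
        rw [Complex.mul_conj, Complex.normSq_eq_norm_sq]
        push_cast
        rfl
      have hnz : ((‖z‖ : ℝ) : ℂ) ≠ 0 := by exact_mod_cast h0.ne'
      push_cast
      rw [div_inv_eq_mul, eq_div_iff hcz]
      have : -((1 - ((‖z‖ : ℝ) : ℂ)⁻¹ ^ 2) * (Complex.exp ((l (ci z)).re : ℂ) *
          Complex.exp ((l (ci z)).im * I)) * z) * conj z =
          -((1 - ((‖z‖ : ℝ) : ℂ)⁻¹ ^ 2) * (z * conj z)) * (Complex.exp ((l (ci z)).re : ℂ) *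
          Complex.exp ((l (ci z)).im * I)) := by ring
      rw [this, hzz]
      field_simp
      ring

end Pool.Agent.Helper49.DF
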