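import Pool.Agent.Helper49.DF.St2

/-!
Project DF (MP_dfbc29_an), second part, module LOGV: the argument of the slope on a star shaped collar.
-/

set_option autoImplicit false

open Set Filter Topology MeasureTheory Complex Metric
open scoped ContDiff ComplexConjugate

namespace Pool.Agent.Helper49.DF

open Pool.Agent.Helper65.PI

private theorem ci_ci_LOGV (z : ℂ) : ci (ci z) = z := by simp [ci]

private theorem norm_ci_LOGV (z : ℂ) : ‖ci z‖ = ‖z‖⁻¹ := by simp [ci]

private theorem ci_eq_LOGV (z : ℂ) (hz : z ≠ 0) : ci z = (((‖z‖ ^ 2)⁻¹ : ℝ) : ℂ) * z := by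
  unfold ci
  have h1 : z * conj z = ((‖z‖ ^ 2 : ℝ) : ℂ) := by
    rw [Complex.mul_conj, Complex.normSq_eq_norm_sq]
  have h2 : conj z ≠ 0 := by simpa using hz
  rw [Complex.ofReal_inv, ← h1]
  field_simp

/-- the point of `{1 ≤ ‖z‖}` equal or symmetric to `z` -/
private noncomputable def mm_LOGV (z : ℂ) : ℂ := ((max 1 ((‖z‖ ^ 2)⁻¹) : ℝ) : ℂ) * z

private theorem mm_out_LOGV (z : ℂ) (hz : 1 ≤ ‖z‖) : mm_LOGV z = z := by
  unfold mm_LOGV
  have : (‖z‖ ^ 2)⁻¹ ≤ 1 := inv_le_one_of_one_le₀ (one_le_pow₀ hz)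
  rw [max_eq_left this]
  simp

private theorem mm_in_LOGV (z : ℂ) (h0 : z ≠ 0) (hz : ‖z‖ ≤ 1) : mm_LOGV z = ci z := by
  have h1 : 0 < ‖z‖ := norm_pos_iff.2 h0
  rw [ci_eq_LOGV z h0]
  unfold mm_LOGV
  have : 1 ≤ (‖z‖ ^ 2)⁻¹ := (one_le_inv₀ (by positivity)).2 (pow_le_one₀ h1.le hz)
  rw [max_eq_right this]

private theorem mm_cont_LOGV (V : Set ℂ) : ContinuousOn mm_LOGV (Vs V) := by
  unfold mm_LOGV
  apply ContinuousOn.mul _ continuousOn_id
  apply Complex.continuous_ofReal.comp_continuousOn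
  have hmx : Continuous (fun x : ℝ => max 1 x) := continuous_const.max continuous_id
  apply hmx.comp_continuousOn
  apply ContinuousOn.inv₀
  · fun_prop
  · intro z hz
    have h0 : 0 < ‖z‖ := norm_pos_iff.2 hz.1
    positivity

private theorem mm_mem_LOGV (V : Set ℂ) (z : ℂ) (hz : z ∈ Vs V) :
    mm_LOGV z ∈ V ∧ 1 ≤ ‖mm_LOGV z‖ := by
  have h0 : 0 < ‖z‖ := norm_pos_iff.2 hz.1
  rcases hz.2 with ⟨h1, h2⟩ | ⟨h1, h2⟩
  · rw [mm_out_LOGV z h1]
    exact ⟨h2, h1⟩
  · rw [mm_in_LOGV z hz.1 h1]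
    refine ⟨h2, ?_⟩
    rw [norm_ci_LOGV]
    exact (one_le_inv₀ h0).2 h1

theorem logv : StLOG → StLH → StLOGV := by
  intro hLOG hLH V k ρ f h R hV hstar hsub hdiff hout hinj
  classical
  have hρ := R.one_lt
  have hk := R.k_pos
  have hkp : 0 < kp k := by unfold kp; linarith
  have hρ0 : (0 : ℝ) < ρ := by linarith
  have hρi : ρ⁻¹ ≤ 1 := inv_le_one_of_one_le₀ hρ.le
  obtain ⟨θ₀, t₀, hθc, hθ⟩ := hLOG k ρ f h R
  set S : Set ℂ := {z | z ∈ V ∧ 1 ≤ ‖z‖} with hS
  have hS0 : ∀ z ∈ S, 0 < ‖z‖ := fun z hz => lt_of_lt_of_le one_pos hz.2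
  have hball : ball (0 : ℂ) 1 ⊆ V := (ball_subset_closedBall.trans
    (closedBall_subset_closedBall hρ.le)).trans hsub
  set q : ℂ → ℂ := fun z => (h (ci z) - h z) * conj z / ((1 - ‖z‖ ^ 2 : ℝ) : ℂ) with hq
  have hden : ∀ z : ℂ, 1 < ‖z‖ → ((1 - ‖z‖ ^ 2 : ℝ) : ℂ) ≠ 0 := by
    intro z hz
    have : (1 - ‖z‖ ^ 2 : ℝ) < 0 := by nlinarith
    exact_mod_cast this.ne
  have hcib : ∀ z : ℂ, 1 < ‖z‖ → ci z ∈ ball (0 : ℂ) 1 := by
    intro z hz
    rw [mem_ball, dist_zero_right, norm_ci_LOGV]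
    exact inv_lt_one_of_one_lt₀ hz
  -- the slope does not vanish
  have hq0 : ∀ z ∈ S, 1 < ‖z‖ → q z ≠ 0 := by
    intro z hz hz1
    have hz0 : z ≠ 0 := norm_pos_iff.1 (hS0 z hz)
    have e1 := hout z hz.1 hz.2
    have hci := hcib z hz1
    have e2 := R.inside (ci z) (ball_subset_closedBall hci)
    have hne : f z ≠ f (ci z) := by
      intro he
      have := hinj hz.1 (hball hci) he
      rw [mem_ball, dist_zero_right, ← this] at hci
      linarith
    rw [hq]
    apply div_ne_zero (mul_ne_zero _ (by simpa using hz0)) (hden z hz1)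
    intro h0
    apply hne
    rw [e1, e2]
    unfold TT
    have : h (ci z) = h z := sub_eq_zero.1 h0
    rw [this]
  have hqform : ∀ z ∈ S, 1 < ‖z‖ →
      h (ci z) - h z = ((1 - ‖z‖ ^ 2 : ℝ) : ℂ) * q z / conj z := by
    intro z hz hz1
    have hz0 : conj z ≠ 0 := by simpa using norm_pos_iff.1 (hS0 z hz)
    have := hden z hz1
    rw [hq]
    beta_reduce
    rw [mul_div_cancel₀ _ this, mul_div_assoc, div_self hz0, mul_one]
  have hring : ∀ z ∈ S, ‖z‖ ≤ ρ → z ∈ {z : ℂ | ρ⁻¹ ≤ ‖z‖ ∧ ‖z‖ ≤ ρ} :=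
    fun z hz hzρ => ⟨hρi.trans hz.2, hzρ⟩
  have hqring : ∀ z ∈ S, 1 < ‖z‖ → ‖z‖ ≤ ρ → q z = (t₀ z : ℂ) * Complex.exp (θ₀ z * I) := by
    intro z hz hz1 hzρ
    have e := (hθ z (hring z hz hzρ).1 hzρ).2
    have hz0 : conj z ≠ 0 := by simpa using norm_pos_iff.1 (hS0 z hz)
    have hd := hden z hz1
    rw [hq]
    beta_reduce
    rw [e, div_mul_cancel₀ _ hz0, mul_assoc, mul_div_cancel_left₀ _ hd]
  set p : ℂ → ℂ := fun z => if ‖z‖ ≤ ρ then Complex.exp (θ₀ z * I) else q z / (‖q z‖ : ℂ) with hp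
  have hp1 : ∀ z : ℂ, ‖z‖ ≤ ρ → p z = Complex.exp (θ₀ z * I) := fun z hz => if_pos hz
  have hp2 : ∀ z ∈ S, 1 < ‖z‖ → p z = q z / (‖q z‖ : ℂ) := by
    intro z hz hz1
    by_cases hzρ : ‖z‖ ≤ ρ
    · rw [hp1 z hzρ, hqring z hz hz1 hzρ]
      have ht := (hθ z (hring z hz hzρ).1 hzρ).1
      have htC : (t₀ z : ℂ) ≠ 0 := by exact_mod_cast ht.ne'
      rw [norm_mul, Complex.norm_exp_ofReal_mul_I, mul_one, Complex.norm_real,
        Real.norm_of_nonneg ht.le, mul_div_cancel_left₀ _ htC]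
    · exact if_neg hzρ
  have hpn : ∀ z ∈ S, ‖p z‖ = 1 := by
    intro z hz
    by_cases hzρ : ‖z‖ ≤ ρ
    · rw [hp1 z hzρ, Complex.norm_exp_ofReal_mul_I]
    · have hz1 : 1 < ‖z‖ := by linarith [not_le.1 hzρ]
      rw [hp2 z hz hz1, norm_div, Complex.norm_real, norm_norm]
      exact div_self (norm_ne_zero_iff.2 (hq0 z hz hz1))
  have hpc : ContinuousOn p S := by
    intro z hz
    rcases lt_or_ge ‖z‖ ρ with hzρ | hzρ
    · have h1 : ContinuousWithinAt (fun z => Complex.exp (θ₀ z * I))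
          {z : ℂ | ρ⁻¹ ≤ ‖z‖ ∧ ‖z‖ ≤ ρ} z := by
        have := (hθc z (hring z hz hzρ.le))
        exact ((Complex.continuous_ofReal.continuousAt.comp_continuousWithinAt this).mul
          continuousWithinAt_const).cexp
      have hnear : ∀ᶠ y in 𝓝[S] z, y ∈ S ∧ ‖y‖ < ρ := by
        refine (eventually_mem_nhdsWithin).and ?_
        exact nhdsWithin_le_nhds (continuous_norm.continuousAt.eventually_lt_const hzρ)
      have h2 : ContinuousWithinAt (fun z => Complex.exp (θ₀ z * I)) S z := by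
        apply h1.mono_of_mem_nhdsWithin
        filter_upwards [hnear] with y hy
        exact hring y hy.1 hy.2.le
      refine h2.congr_of_eventuallyEq ?_ (hp1 z hzρ.le)
      filter_upwards [hnear] with y hy
      exact hp1 y hy.2.le
    · have hz1 : 1 < ‖z‖ := lt_of_lt_of_le hρ hzρ
      have hz0 : z ≠ 0 := norm_pos_iff.1 (hS0 z hz)
      have hcic : ContinuousAt ci z := by
        unfold ci
        apply ContinuousAt.inv₀
        · exact Complex.continuous_conj.continuousAt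
        · simpa using hz0
      have hhz : ContinuousAt h z := (hdiff.differentiableAt (hV.mem_nhds hz.1)).continuousAt
      have hhc : ContinuousAt h (ci z) :=
        (hdiff.differentiableAt (hV.mem_nhds (hball (hcib z hz1)))).continuousAt
      have hqc : ContinuousAt q z := by
        rw [hq]
        apply ContinuousAt.div
        · exact ((ContinuousAt.comp (f := ci) hhc hcic).sub hhz).mul Complex.continuous_conj.continuousAt
        · exact (Complex.continuous_ofReal.comp (by fun_prop)).continuousAt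
        · exact hden z hz1
      have hqq : ContinuousAt (fun z => q z / (‖q z‖ : ℂ)) z := by
        apply hqc.div
        · exact Complex.continuous_ofReal.continuousAt.comp hqc.norm
        · exact_mod_cast norm_ne_zero_iff.2 (hq0 z hz hz1)
      refine hqq.continuousWithinAt.congr_of_eventuallyEq ?_ (hp2 z hz hz1)
      filter_upwards [eventually_mem_nhdsWithin,
        nhdsWithin_le_nhds (continuous_norm.continuousAt.eventually_const_lt hz1)] with y hy1 hy2
      exact hp2 y hy1 hy2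
  -- the homotopy
  have hmap : ∀ s ∈ Icc (0 : ℝ) 1, ∀ z ∈ S, ((((1 - s) / ‖z‖ + s : ℝ)) : ℂ) * z ∈ S := by
    intro s hs z hz
    have hz0 := hS0 z hz
    have hs' : 0 ≤ 1 - s := by linarith [hs.2]
    have hs0 := hs.1
    have hz1 := hz.2
    have hc0 : 0 ≤ (1 - s) / ‖z‖ + s := by positivity
    have hc1 : (1 - s) / ‖z‖ + s ≤ 1 := by
      have : (1 - s) / ‖z‖ ≤ 1 - s := div_le_self hs' hz1
      linarith
    refine ⟨?_, ?_⟩
    · have := hstar.smul_mem hz.1 hc0 hc1
      rwa [Complex.real_smul] at this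
    · have hn : ‖((((1 - s) / ‖z‖ + s : ℝ)) : ℂ) * z‖ = (1 - s) + s * ‖z‖ := by
        rw [norm_mul, Complex.norm_real, Real.norm_of_nonneg hc0]
        field_simp
      rw [hn]
      nlinarith [hs.1, hs.2]
  obtain ⟨l, hlc, hl⟩ := hLH S (fun s z => p (((((1 - s) / ‖z‖ + s : ℝ)) : ℂ) * z))
    (by
      apply hpc.comp
      · apply ContinuousOn.mul
        · apply Complex.continuous_ofReal.comp_continuousOn
          apply ContinuousOn.add
          · apply ContinuousOn.div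
            · fun_prop
            · fun_prop
            · intro x hx
              exact (hS0 x.2 hx.2).ne'
          · fun_prop
        · fun_prop
      · intro x hx
        exact hmap x.1 hx.1 x.2 hx.2)
    (by
      intro s hs z hz h0
      have := hpn _ (hmap s hs z hz)
      rw [h0, norm_zero] at this
      exact zero_ne_one this)
    (by
      refine ⟨fun z => θ₀ (z / ‖z‖) * I, ?_, ?_⟩
      · apply ContinuousOn.mul _ continuousOn_const
        apply Complex.continuous_ofReal.comp_continuousOn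
        apply hθc.comp
        · apply ContinuousOn.div continuousOn_id
          · fun_prop
          · intro z hz
            exact_mod_cast (hS0 z hz).ne'
        · intro z hz
          have := hS0 z hz
          have hn : ‖z / (‖z‖ : ℂ)‖ = 1 := by
            rw [norm_div, Complex.norm_real, norm_norm]
            exact div_self this.ne'
          exact ⟨by rw [hn]; exact hρi, by rw [hn]; exact hρ.le⟩
      · intro z hz
        have hz0 := hS0 z hz
        have hn : ‖z / (‖z‖ : ℂ)‖ = 1 := by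
          rw [norm_div, Complex.norm_real, norm_norm]
          exact div_self hz0.ne'
        have he : ((((1 - 0) / ‖z‖ + 0 : ℝ)) : ℂ) * z = z / ‖z‖ := by
          push_cast
          ring
        rw [he]
        exact hp1 _ (by rw [hn]; exact hρ.le))
  have hl' : ∀ z ∈ S, p z = Complex.exp (((l z).im : ℂ) * I) := by
    intro z hz
    have h1 := hl z hz
    have he : ((((1 - 1) / ‖z‖ + 1 : ℝ)) : ℂ) * z = z := by
      push_cast
      ring
    rw [he] at h1
    have h2 := hpn z hz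
    rw [h1, Complex.norm_exp] at h2
    have h3 : (l z).re = 0 := by
      rw [← Real.exp_zero] at h2
      exact Real.exp_injective h2
    rw [h1]
    congr 1
    conv_lhs => rw [← Complex.re_add_im (l z), h3]
    simp
  -- the formula outside the disc
  have key : ∀ z ∈ S, 0 < (if ‖z‖ ≤ ρ then t₀ z else ‖q z‖) ∧
      h (ci z) - h z = ((1 - ‖z‖ ^ 2 : ℝ) : ℂ) * ((if ‖z‖ ≤ ρ then t₀ z else ‖q z‖ : ℝ) : ℂ) *
        Complex.exp ((l z).im * I) / conj z := by
    intro z hz
    by_cases hzρ : ‖z‖ ≤ ρ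
    · rw [if_pos hzρ]
      have e := hθ z (hring z hz hzρ).1 hzρ
      refine ⟨e.1, ?_⟩
      rw [e.2, ← hl' z hz, hp1 z hzρ]
    · rw [if_neg hzρ]
      have hz1 : 1 < ‖z‖ := by linarith [not_le.1 hzρ]
      have hne := hq0 z hz hz1
      refine ⟨norm_pos_iff.2 hne, ?_⟩
      rw [hqform z hz hz1, ← hl' z hz, hp2 z hz hz1]
      have hC : ((‖q z‖ : ℝ) : ℂ) ≠ 0 := by exact_mod_cast norm_ne_zero_iff.2 hne
      rw [mul_assoc, mul_div_cancel₀ _ hC]
  refine ⟨fun z => (l (mm_LOGV z)).im,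
    fun z => if ‖mm_LOGV z‖ ≤ ρ then t₀ (mm_LOGV z) else ‖q (mm_LOGV z)‖, ?_, ?_⟩
  · apply Complex.continuous_im.comp_continuousOn
    apply hlc.comp (mm_cont_LOGV V)
    intro z hz
    exact mm_mem_LOGV V z hz
  · intro z hz
    have hm := mm_mem_LOGV V z hz
    have hk' := key (mm_LOGV z) hm
    refine ⟨hk'.1, ?_⟩
    beta_reduce
    have h0 : 0 < ‖z‖ := norm_pos_iff.2 hz.1
    rcases le_or_gt 1 ‖z‖ with hz1 | hz1
    · have e := hk'.2
      rw [mm_out_LOGV z hz1] at e ⊢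
      exact e
    · have e := hk'.2
      set T : ℝ := (if ‖mm_LOGV z‖ ≤ ρ then t₀ (mm_LOGV z) else ‖q (mm_LOGV z)‖) with hT
      set E : ℂ := Complex.exp ((l (mm_LOGV z)).im * I) with hE
      rw [mm_in_LOGV z hz.1 hz1.le, ci_ci_LOGV] at e
      have e' : h (ci z) - h z = -(((1 - ‖ci z‖ ^ 2 : ℝ) : ℂ) * (T : ℂ) * E / conj (ci z)) := by
        rw [← e]; ring
      rw [e', norm_ci_LOGV]
      have hc : conj (ci z) = z⁻¹ := by simp [ci]
      rw [hc]
      have hcz : conj z ≠ 0 := by simpa using hz.1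
      have hzz : z * conj z = ((‖z‖ : ℝ) : ℂ) ^ 2 := by
        rw [Complex.mul_conj, Complex.normSq_eq_norm_sq]
        push_cast
        rfl
      have hnz : ((‖z‖ : ℝ) : ℂ) ≠ 0 := by exact_mod_cast h0.ne'
      push_cast
      rw [div_inv_eq_mul, eq_div_iff hcz]
      have : -((1 - ((‖z‖ : ℝ) : ℂ)⁻¹ ^ 2) * (T : ℂ) * E * z) * conj z =
          -((1 - ((‖z‖ : ℝ) : ℂ)⁻¹ ^ 2) * (z * conj z)) * ((T : ℂ) * E) := by ring
      rw [this, hzz]
      field_simp
      ring

end Pool.Agent.Helper49.DF
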