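import Pool.Agent.Helper49.DF.Common

/-!
# Project DF: the collar theorem
-/

set_option autoImplicit false

open Set Filter Topology MeasureTheory Complex Metric
open scoped ContDiff ComplexConjugate

namespace Pool.Agent.Helper49.DF

open Pool.Agent.Helper65.PI

/-- room between the inner disc and the boundary of the second inclusion -/
private theorem room_s {D' : Set ℂ} {ρ : ℝ} {ψ : ℂ → ℂ} (hρ : 1 < ρ)
    (hψ : DifferentiableOn ℂ ψ (ball 0 ρ)) (hd : Disjoint (frontier D') (ψ '' closedBall 0 ρ⁻¹)) :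
    ∃ s : ℝ, ρ⁻¹ < s ∧ s < 1 ∧ Disjoint (frontier D') (ψ '' closedBall 0 s) := by
  have hρ0 : (0 : ℝ) < ρ := one_pos.trans hρ
  have hr : ρ⁻¹ < 1 := inv_lt_one_of_one_lt₀ hρ
  obtain ⟨r₁, h1, h2⟩ := exists_between hr
  have hsub : closedBall (0 : ℂ) r₁ ⊆ ball 0 ρ := closedBall_subset_ball (h2.trans hρ)
  have hP : IsCompact (closedBall (0 : ℂ) r₁ ∩ ψ ⁻¹' frontier D') := by
    refine (isCompact_closedBall (0 : ℂ) r₁).of_isClosed_subset ?_ inter_subset_left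
    exact (hψ.continuousOn.mono hsub).preimage_isClosed_of_isClosed isClosed_closedBall
      isClosed_frontier
  rcases (closedBall (0 : ℂ) r₁ ∩ ψ ⁻¹' frontier D').eq_empty_or_nonempty with he | hne
  · refine ⟨r₁, h1, h2, ?_⟩
    rw [Set.disjoint_left]
    rintro _ hz ⟨ζ, hζ, rfl⟩
    have : ζ ∈ closedBall (0 : ℂ) r₁ ∩ ψ ⁻¹' frontier D' := ⟨hζ, hz⟩
    rw [he] at this
    exact this
  · obtain ⟨ζ₀, hζ₀, hmin⟩ := hP.exists_isMinOn hne continuous_norm.continuousOn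
    have hlt : ρ⁻¹ < ‖ζ₀‖ := by
      by_contra hcon
      push Not at hcon
      refine Set.disjoint_left.1 hd hζ₀.2 ⟨ζ₀, ?_, rfl⟩
      simpa using hcon
    obtain ⟨s, hs1, hs2⟩ := exists_between (lt_min hlt h1)
    refine ⟨s, hs1, (hs2.trans_le (min_le_right _ _)).trans h2, ?_⟩
    rw [Set.disjoint_left]
    rintro _ hz ⟨ζ, hζ, rfl⟩
    have hζs : ‖ζ‖ ≤ s := by simpa using hζ
    have hζr : ζ ∈ closedBall (0 : ℂ) r₁ := by
      simpa using hζs.trans (hs2.trans_le (min_le_right _ _)).le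
    have h3 : ‖ζ₀‖ ≤ ‖ζ‖ := hmin ⟨hζr, hz⟩
    have h4 : s < ‖ζ₀‖ := hs2.trans_le (min_le_left _ _)
    linarith

/-- room between the second inclusion and the outer circle -/
private theorem room_r (hi : StINV) {D' : Set ℂ} {ρ : ℝ} {ψ : ℂ → ℂ}
    (hρ : 1 < ρ) (hψ : DifferentiableOn ℂ ψ (ball 0 ρ)) (hinj : InjOn ψ (ball 0 ρ))
    (hc : IsCompact (closure D')) (hcl : closure D' ⊆ ψ '' ball 0 ρ) {s : ℝ} (hs : s < ρ) :
    ∃ ρ₁ : ℝ, 1 < ρ₁ ∧ s < ρ₁ ∧ ρ₁ < ρ ∧ ∀ ζ ∈ ball (0 : ℂ) ρ, ψ ζ ∈ closure D' → ‖ζ‖ ≤ ρ₁ := by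
  obtain ⟨-, Z, hZ, hZd⟩ := hi (ball 0 ρ) ψ isOpen_ball hψ hinj
  have hρ0 : (0 : ℝ) < ρ := one_pos.trans hρ
  have hK : IsCompact (Z '' closure D') := hc.image_of_continuousOn (hZd.continuousOn.mono hcl)
  have key : ∃ m : ℝ, m < ρ ∧ ∀ ζ ∈ Z '' closure D', ‖ζ‖ ≤ m := by
    rcases (Z '' closure D').eq_empty_or_nonempty with he | hne
    · refine ⟨0, hρ0, ?_⟩
      rw [he]
      simp
    · obtain ⟨ζ₀, hζ₀, hmax⟩ := hK.exists_isMaxOn hne continuous_norm.continuousOn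
      refine ⟨‖ζ₀‖, ?_, fun ζ hζ => hmax hζ⟩
      obtain ⟨z, hz, rfl⟩ := hζ₀
      obtain ⟨ζ, hζ, rfl⟩ := hcl hz
      rw [hZ ζ hζ]
      simpa using hζ
  obtain ⟨m, hm, hm2⟩ := key
  obtain ⟨ρ₁, h1, h2⟩ := exists_between (max_lt hρ (max_lt hs hm))
  refine ⟨ρ₁, (le_max_left _ _).trans_lt h1,
    ((le_max_left _ _).trans (le_max_right _ _)).trans_lt h1, h2, fun ζ hζ hz => ?_⟩
  have h3 := hm2 ζ ⟨ψ ζ, hz, hZ ζ hζ⟩
  have h4 : m ≤ max 1 (max s m) := (le_max_right _ _).trans (le_max_right _ _)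
  linarith

theorem maina (hn : StNEAR) (hh : StHOL) (hs : StSHIFT) (he : StEXTD) (hi : StINV) (ht : StTOPA)
    (hlog : StLOG) (hcore : StCORE) (hfin : StFIN) : StMAINA := by
  intro Ω D' k ρ u v u' v' ψ hΩ hconn hb hsm hk hk1 hρ hψ hinj hsub hD' hcl hdisj hpot hpot'
    hdata hFinj
  obtain ⟨h, v'', hP, hpot2⟩ := mkPair hh hs hn he hi hΩ hconn hb hsm hk hk1 hρ hψ hinj hsub hD'
    hpot hpot' hdata hFinj
  have hρ0 : (0 : ℝ) < ρ := one_pos.trans hρ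
  obtain ⟨s, hs1, hs2, hs3⟩ := room_s hρ hψ hdisj
  have hs0 : 0 < s := (inv_pos.2 hρ0).trans hs1
  obtain ⟨hN, heq⟩ := ht Ω D' k ρ s ψ h _ _ hP hs1 hs2 hs3
  have h0 : ψ 0 ∈ D' := hN ⟨0, by simpa using hs0.le, rfl⟩
  have hcl' := hcl h0
  have hsρ : s⁻¹ < ρ := inv_lt_of_inv_lt₀ hρ0 hs1
  obtain ⟨ρ₁, hr1, hr2, hr3, hr4⟩ := room_r hi hρ hψ hinj hD'.compact hcl' hsρ
  have hsub1 : closedBall (0 : ℂ) ρ₁ ⊆ ball 0 ρ := closedBall_subset_ball hr3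
  have hrefl : Refl k ρ₁ (fun ζ => FF u v (ψ ζ)) h :=
    { k_pos := hk
      one_lt := hr1
      cont := hP.diffh.continuousOn.mono hsub1
      diff := hP.diffh.mono (ball_subset_closedBall.trans hsub1)
      inside := hP.inside
      outside := fun ζ hζ h1 => hP.outside ζ (hsub1 hζ) h1
      inj := hFinj.mono (ball_subset_closedBall.trans hsub1) }
  refine finish hi hlog hcore hfin hk hk1 hρ hψ hinj hP.diffh hD' hcl' h0 hrefl ?_ ?_ ?_ heq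
  · intro ζ hζ hz
    refine ⟨?_, hr4 ζ hζ (frontier_subset_closure hz)⟩
    have h1 : s < ‖ζ‖ := by
      by_contra hcon
      push Not at hcon
      exact Set.disjoint_left.1 hs3 hz ⟨ζ, by simpa using hcon, rfl⟩
    have h2 : ρ₁⁻¹ < s := inv_lt_of_inv_lt₀ hs0 hr2
    exact (h2.trans h1).le
  · exact (hh Ω D' k u' v'' hΩ hD'.isOpen (subset_closure.trans hD'.sub) hk hpot2).2
  · exact (cont_HH_C hpot2.cont_u hpot2.cont_v).mono hD'.sub

end Pool.Agent.Helper49.DF
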