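import Pool.Agent.Helper49.DF.Common

/-!
# Project DF: hyperbolic discs and data which do not continue
-/

set_option autoImplicit false

open Set Filter Topology MeasureTheory Complex Metric
open scoped ContDiff ComplexConjugate

namespace Pool.Agent.Helper49.DF

open Pool.Agent.Helper65.PI

private theorem norm_ci_le {ζ : ℂ} (h : 1 ≤ ‖ζ‖) : ‖ci ζ‖ ≤ 1 := by
  unfold ci
  rw [norm_inv, RCLike.norm_conj]
  exact inv_le_one_of_one_le₀ h

private theorem cont_ci {s : Set ℂ} (h : ∀ ζ ∈ s, 1 ≤ ‖ζ‖) : ContinuousOn ci s := by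
  unfold ci
  refine ContinuousOn.inv₀ continuous_conj.continuousOn fun ζ hζ h0 => ?_
  have h1 := h ζ hζ
  have h2 : ‖conj ζ‖ = 0 := by rw [h0, norm_zero]
  rw [RCLike.norm_conj] at h2
  linarith

/-- the interior potential on the closed disc of radius `ρ` -/
private theorem extend_h {k ρ : ℝ} {f h g : ℂ → ℂ} (hk : 0 < k) (hρ : 1 < ρ)
    (hdiff : DifferentiableOn ℂ h (ball 0 ρ)) (hf : ContinuousOn f (closedBall 0 ρ))
    (hfg : ∀ ζ ∈ ball (0 : ℂ) ρ, f ζ = g ζ)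
    (hout : ∀ ζ ∈ ball (0 : ℂ) ρ, 1 ≤ ‖ζ‖ → g ζ = kp k * h ζ + km k * conj (h (ci ζ))) :
    ∃ h₂ : ℂ → ℂ, (∀ ζ ∈ ball (0 : ℂ) ρ, h₂ ζ = h ζ) ∧ ContinuousOn h₂ (closedBall 0 ρ) ∧
      ∀ ζ ∈ closedBall (0 : ℂ) ρ, 1 ≤ ‖ζ‖ → f ζ = kp k * h₂ ζ + km k * conj (h₂ (ci ζ)) := by
  classical
  have hkp : (kp k : ℂ) ≠ 0 := by
    unfold kp
    have : (1 + k) / 2 ≠ 0 := by positivity
    exact_mod_cast this
  obtain ⟨h₂, hh₂⟩ : ∃ h₂ : ℂ → ℂ, h₂ = fun ζ =>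
      if ζ ∈ ball (0 : ℂ) ρ then h ζ else (f ζ - km k * conj (h (ci ζ))) / kp k := ⟨_, rfl⟩
  have e1 : ∀ ζ ∈ ball (0 : ℂ) ρ, h₂ ζ = h ζ := by
    intro ζ hζ
    rw [hh₂]
    exact if_pos hζ
  have e2 : ∀ ζ : ℂ, 1 ≤ ‖ζ‖ → ci ζ ∈ ball (0 : ℂ) ρ := by
    intro ζ hζ
    rw [mem_ball_zero_iff]
    exact (norm_ci_le hζ).trans_lt hρ
  have e3 : ∀ ζ ∈ closedBall (0 : ℂ) ρ, 1 ≤ ‖ζ‖ →
      h₂ ζ = (f ζ - km k * conj (h (ci ζ))) / kp k := by
    intro ζ hζ h1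
    by_cases hb : ζ ∈ ball (0 : ℂ) ρ
    · rw [e1 ζ hb, hfg ζ hb, hout ζ hb h1]
      field_simp
      ring
    · rw [hh₂]
      exact if_neg hb
  refine ⟨h₂, e1, ?_, ?_⟩
  · intro ζ hζ
    by_cases h1 : 1 < ‖ζ‖
    · -- near a point outside the closed unit disc
      have hA : ContinuousOn (fun ζ => (f ζ - km k * conj (h (ci ζ))) / kp k)
          (closedBall 0 ρ ∩ {ζ | 1 ≤ ‖ζ‖}) := by
        refine ContinuousOn.div_const (ContinuousOn.sub (hf.mono inter_subset_left)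
          (continuousOn_const.mul ?_)) _
        refine continuous_conj.comp_continuousOn ?_
        refine hdiff.continuousOn.comp (cont_ci fun ζ hζ => hζ.2) fun ζ hζ => e2 ζ hζ.2
      have hB : ContinuousOn h₂ (closedBall 0 ρ ∩ {ζ | 1 ≤ ‖ζ‖}) :=
        hA.congr fun ζ hζ => e3 ζ hζ.1 hζ.2
      have hC := hB ζ ⟨hζ, h1.le⟩
      refine hC.mono_of_mem_nhdsWithin ?_
      have hopen : {ζ : ℂ | 1 < ‖ζ‖} ∈ 𝓝 ζ :=
        (isOpen_lt continuous_const continuous_norm).mem_nhds h1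
      refine inter_mem self_mem_nhdsWithin (mem_nhdsWithin_of_mem_nhds ?_)
      filter_upwards [hopen] with x hx
      exact le_of_lt hx
    · push Not at h1
      have hb : ζ ∈ ball (0 : ℂ) ρ := by
        rw [mem_ball_zero_iff]
        exact h1.trans_lt hρ
      have hD : ContinuousOn h₂ (ball 0 ρ) := hdiff.continuousOn.congr e1
      exact (hD.continuousAt (isOpen_ball.mem_nhds hb)).continuousWithinAt
  · intro ζ hζ h1
    rw [e3 ζ hζ h1, e1 _ (e2 ζ h1)]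
    field_simp
    ring

theorem mainb (hn : StNEAR) (hh : StHOL) (hs : StSHIFT) (hint : StINT) (he : StEXTD)
    (hi : StINV) (ht : StTOPB) (hlog : StLOG) (hcore : StCORE) (hfin : StFIN) : StMAINB := by
  intro Ω D' k ρ u v u' v' ψ f hΩ hconn hb hsm hk hk1 hρ hψ hinj honto hD' hpot hpot'
    hdata hFinj hf hfF hext
  obtain ⟨h, v'', hP, hpot2⟩ := mkPair hh hs hn he hi hΩ hconn hb hsm hk hk1 hρ hψ hinj
    honto.subset hD' hpot hpot' hdata hFinj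
  have hρ0 : (0 : ℝ) < ρ := one_pos.trans hρ
  obtain ⟨h₂, e1, e2, e3⟩ := extend_h hk hρ hP.diffh hf hfF hP.outside
  have hsub1 : closedBall (0 : ℂ) 1 ⊆ ball 0 ρ := closedBall_subset_ball hρ
  have e4 : ∀ ζ : ℂ, 1 ≤ ‖ζ‖ → ci ζ ∈ ball (0 : ℂ) ρ := by
    intro ζ hζ
    rw [mem_ball_zero_iff]
    exact (norm_ci_le hζ).trans_lt hρ
  have hP2 : Pair Ω D' k ρ ψ h₂ (FF u v) (FF u' v'') :=
    { hP with
      diffh := hP.diffh.congr e1
      inside := fun ζ hζ => by rw [e1 ζ (hsub1 hζ)]; exact hP.inside ζ hζ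
      outside := fun ζ hζ h1 => by
        rw [e1 ζ hζ, e1 _ (e4 ζ h1)]
        exact hP.outside ζ hζ h1 }
  obtain ⟨hN, heq⟩ := ht Ω D' k ρ ψ h₂ _ _ hP2 honto e2 (by
    rintro V hV hne ⟨g, hg1, hg2⟩
    refine hext V hV hne ⟨g, hg1, fun ζ hζ => ?_⟩
    rw [hg2 ζ hζ, hfF ζ hζ.2])
  have hinv0 : 0 < ρ⁻¹ := inv_pos.2 hρ0
  have hinv : ρ⁻¹ < ρ := (inv_lt_one_of_one_lt₀ hρ).trans hρ
  have hopen : IsOpen (ψ '' ball 0 ρ⁻¹) :=
    (hi (ball 0 ρ⁻¹) ψ isOpen_ball (hψ.mono (ball_subset_ball hinv.le))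
      (hinj.mono (ball_subset_ball hinv.le))).1
  have hsubD : ψ '' ball 0 ρ⁻¹ ⊆ D' := by
    have h1 : ψ '' ball 0 ρ⁻¹ ⊆ interior (closure D') :=
      interior_maximal ((image_mono ball_subset_closedBall).trans hN) hopen
    rwa [hint Ω D' hD'] at h1
  have h0 : ψ 0 ∈ D' := hsubD ⟨0, mem_ball_self hinv0, rfl⟩
  have hcl : closure D' ⊆ ψ '' ball 0 ρ := by
    rw [honto]
    exact hD'.sub
  have hrefl : Refl k ρ f h₂ :=
    { k_pos := hk
      one_lt := hρ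
      cont := e2
      diff := hP2.diffh
      inside := fun ζ hζ => by
        rw [hfF ζ (hsub1 hζ)]
        exact hP2.inside ζ hζ
      outside := e3
      inj := hFinj.congr fun ζ hζ => (hfF ζ hζ).symm }
  refine finish hi hlog hcore hfin hk hk1 hρ hψ hinj hP2.diffh hD' hcl h0 hrefl ?_ ?_ ?_ heq
  · intro ζ hζ hz
    refine ⟨?_, (mem_ball_zero_iff.1 hζ).le⟩
    by_contra hcon
    push Not at hcon
    have h1 : ψ ζ ∈ D' := hsubD ⟨ζ, by simpa using hcon, rfl⟩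
    rw [hD'.isOpen.frontier_eq] at hz
    exact hz.2 h1
  · exact (hh Ω D' k u' v'' hΩ hD'.isOpen (subset_closure.trans hD'.sub) hk hpot2).2
  · exact (cont_HH_C hpot2.cont_u hpot2.cont_v).mono hD'.sub

end Pool.Agent.Helper49.DF
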