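import Pool.Agent.Helper49.DF.Common2

/-!
# Project DF: uniform interior fields
-/

set_option autoImplicit false

open Set Filter Topology MeasureTheory Complex Metric
open scoped ContDiff ComplexConjugate

namespace Pool.Agent.Helper49.DF

open Pool.Agent.Helper65.PI

theorem mainu (hn : StNEAR) (hh : StHOL) (hs : StSHIFT) (he : StEXTDV) (hi : StINV)
    (ht : StTOPU) (hcore : StCOREV) (hfin : StFINV) : StMAINU := by
  intro Ω D' V k α β u v u' v' ψ hΩ hconn hb hsm hk hk1 hV hVc hsub1 hψ hinj hsub hD' hcl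
    hpot hpot' hdata hα hHH
  obtain ⟨ρ, hρ, hVb⟩ : ∃ ρ : ℝ, 1 < ρ ∧ ball (0 : ℂ) ρ ⊆ V := by
    obtain ⟨δ, hδ, hδ2⟩ := (isCompact_closedBall (0 : ℂ) 1).exists_thickening_subset_open hV hsub1
    refine ⟨1 + δ, by linarith, ?_⟩
    rwa [thickening_closedBall hδ zero_le_one, add_comm] at hδ2
  obtain ⟨h₀, v'', hP, hh0, hpot2⟩ := mkPairV hh hs hn he hi hΩ hconn hb hsm hk hk1 hρ hV hVc hVb
    hψ hinj hsub hD' hpot hpot' hdata
  have h0V : (0 : ℂ) ∈ V := hsub1 (mem_closedBall_self zero_le_one)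
  obtain ⟨h, hhe⟩ : ∃ h : ℂ → ℂ, h = fun ζ => α * ζ + β := ⟨_, rfl⟩
  have hhd : Differentiable ℂ h := by
    rw [hhe]
    fun_prop
  have hEq : EqOn h₀ h V := by
    refine AnalyticOnNhd.eqOn_of_preconnected_of_eventuallyEq (hP.diffh.analyticOnNhd hV)
      (hhd.differentiableOn.analyticOnNhd hV) hVc h0V ?_
    filter_upwards [ball_mem_nhds (0 : ℂ) one_pos] with ζ hζ
    rw [hh0 ζ (ball_subset_closedBall hζ), hHH ζ hζ, hhe]
  have hci : ∀ ζ : ℂ, 1 ≤ ‖ζ‖ → ci ζ ∈ V := by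
    intro ζ hζ
    refine hsub1 ?_
    rw [mem_closedBall_zero_iff]
    unfold ci
    rw [norm_inv, RCLike.norm_conj]
    exact inv_le_one_of_one_le₀ hζ
  have hP2 : PairV Ω D' V k ρ ψ h (FF u v) (FF u' v'') :=
    { hP with
      diffh := hhd.differentiableOn
      inside := fun ζ hζ => by rw [← hEq (hsub1 hζ)]; exact hP.inside ζ hζ
      outside := fun ζ hζ h1 => by
        rw [← hEq hζ, ← hEq (hci ζ h1)]
        exact hP.outside ζ hζ h1 }
  obtain ⟨h0, heq⟩ := ht Ω D' V k ρ α β ψ h _ _ hP2 hα (fun ζ => by rw [hhe])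
  refine finishV (S := {ζ | ζ ≠ 0}) (θ := fun _ => arg α) (t := fun _ => ‖α‖) hi hcore hfin hk hk1
    hV hVc hsub1 hψ hinj hhd.differentiableOn hD' (hcl h0) h0 continuousOn_const ?_ ?_ ?_ ?_ heq
  · intro ζ _ hζ
    refine ⟨norm_pos_iff.2 hα, ?_⟩
    have hc : conj ζ ≠ 0 := by simpa using hζ
    have h1 : ((1 - ‖ζ‖ ^ 2 : ℝ) : ℂ) = 1 - ζ * conj ζ := by
      rw [Complex.mul_conj, Complex.normSq_eq_norm_sq]
      push_cast
      ring
    rw [mul_assoc, Complex.norm_mul_exp_arg_mul_I, h1, hhe]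
    unfold ci
    field_simp
    ring
  · intro ζ hζ hz
    have hne : ζ ≠ 0 := by
      rintro rfl
      rw [hD'.isOpen.frontier_eq] at hz
      exact hz.2 h0
    exact ⟨hne, hne⟩
  · exact (hh Ω D' k u' v'' hΩ hD'.isOpen (subset_closure.trans hD'.sub) hk hpot2).2
  · exact (cont_HH_C hpot2.cont_u hpot2.cont_v).mono hD'.sub

end Pool.Agent.Helper49.DF
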