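import Pool.Agent.Helper49.DF.Common2

/-!
# Project DF: the collar theorem for star shaped collars
-/

set_option autoImplicit false

open Set Filter Topology MeasureTheory Complex Metric
open scoped ContDiff ComplexConjugate

namespace Pool.Agent.Helper49.DF

open Pool.Agent.Helper65.PI

theorem mainv (hn : StNEAR) (hh : StHOL) (hs : StSHIFT) (he : StEXTDV) (hi : StINV)
    (ht : StTOPAV) (hlog : StLOGV) (hcore : StCOREV) (hfin : StFINV) : StMAINV := by
  intro Ω D' V k ρ u v u' v' ψ hΩ hconn hb hsm hk hk1 hρ hV hstar hVb hψ hinj hsub hD' hcl hdisj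
    hpot hpot' hdata hFinj
  have hρ0 : (0 : ℝ) < ρ := one_pos.trans hρ
  have hVc : IsPreconnected V := by
    have h0 : (0 : ℂ) ∈ V := hVb (mem_ball_self hρ0)
    exact (hstar.isPathConnected h0).isConnected.isPreconnected
  have hsub1 : closedBall (0 : ℂ) 1 ⊆ V := (closedBall_subset_ball hρ).trans hVb
  obtain ⟨h, v'', hP, -, hpot2⟩ := mkPairV hh hs hn he hi hΩ hconn hb hsm hk hk1 hρ hV hVc hVb hψ
    hinj hsub hD' hpot hpot' hdata
  obtain ⟨s, hs1, hs2, hs3⟩ := room_sV hρ hVb hψ hdisj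
  have hs0 : 0 < s := (inv_pos.2 hρ0).trans hs1
  obtain ⟨hN, heq⟩ := ht Ω D' V k ρ s ψ h _ _ hP
    (hFinj.mono (ball_subset_closedBall.trans hsub1)) hs1 hs2 hs3
  have h0 : ψ 0 ∈ D' := hN ⟨0, by simpa using hs0.le, rfl⟩
  have hcl' := hcl h0
  obtain ⟨r₁, hr1, hr2⟩ := exists_between hρ
  have hsub2 : closedBall (0 : ℂ) r₁ ⊆ V := (closedBall_subset_ball hr2).trans hVb
  have hrefl : Refl k r₁ (fun ζ => FF u v (ψ ζ)) h :=
    { k_pos := hk
      one_lt := hr1
      cont := hP.diffh.continuousOn.mono hsub2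
      diff := hP.diffh.mono (ball_subset_closedBall.trans hsub2)
      inside := hP.inside
      outside := fun ζ hζ h1 => hP.outside ζ (hsub2 hζ) h1
      inj := hFinj.mono (ball_subset_closedBall.trans hsub2) }
  obtain ⟨θ, t, hθ, ht⟩ := hlog V k r₁ _ h hrefl hV hstar hsub2 hP.diffh hP.outside hFinj
  refine finishV hi hcore hfin hk hk1 hV hVc hsub1 hψ hinj hP.diffh hD' hcl' h0 hθ
    (fun ζ hζ _ => ht ζ hζ) ?_ ?_ ?_ heq
  · intro ζ hζ hz
    have h1 : s < ‖ζ‖ := by
      by_contra hcon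
      push Not at hcon
      exact Set.disjoint_left.1 hs3 hz ⟨ζ, by simpa using hcon, rfl⟩
    have hne : ζ ≠ 0 := by
      rintro rfl
      rw [norm_zero] at h1
      linarith
    refine ⟨⟨hne, ?_⟩, hne⟩
    rcases le_total 1 ‖ζ‖ with h2 | h2
    · exact Or.inl ⟨h2, hζ⟩
    · refine Or.inr ⟨h2, hVb ?_⟩
      rw [mem_ball_zero_iff]
      unfold ci
      rw [norm_inv, RCLike.norm_conj]
      exact inv_lt_of_inv_lt₀ hρ0 (hs1.trans h1)
  · exact (hh Ω D' k u' v'' hΩ hD'.isOpen (subset_closure.trans hD'.sub) hk hpot2).2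
  · exact (cont_HH_C hpot2.cont_u hpot2.cont_v).mono hD'.sub

end Pool.Agent.Helper49.DF
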