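import Pool.Agent.Helper49.DF.St

set_option autoImplicit false

open Set Filter Topology MeasureTheory Complex Metric
open scoped ContDiff ComplexConjugate

namespace Pool.Agent.Helper49.DF

open Pool.Agent.Helper65.PI

theorem null : StNULL := by
  intro Ω D hD
  refine measure_null_of_locally_null (frontier D) fun p hp => ?_
  obtain ⟨φ, hps, hp0, htar, hφ, hφs, hiff⟩ := hD.smooth p hp
  refine ⟨frontier D ∩ φ.source, ?_, ?_⟩
  · exact inter_mem_nhdsWithin _ (φ.open_source.mem_nhds hps)
  have hline : volume {w : ℂ | w.im = 0} = 0 := by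
    have h1 : (LinearMap.ker (Complex.imCLM : ℂ →L[ℝ] ℝ).toLinearMap) ≠ ⊤ := by
      intro htop
      have h2 : Complex.I ∈ LinearMap.ker (Complex.imCLM : ℂ →L[ℝ] ℝ).toLinearMap := by
        rw [htop]; trivial
      rw [LinearMap.mem_ker] at h2
      have h3 : Complex.imCLM Complex.I = 0 := h2
      rw [Complex.imCLM_apply, Complex.I_im] at h3
      exact one_ne_zero h3
    have h2 := Measure.addHaar_submodule (volume : Measure ℂ) _ h1
    refine measure_mono_null ?_ h2
    intro w hw
    exact hw
  have himg : volume (φ.symm '' (φ.target ∩ {w : ℂ | w.im = 0})) = 0 := by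
    refine addHaar_image_eq_zero_of_differentiableOn_of_addHaar_eq_zero (volume : Measure ℂ) ?_
      (measure_mono_null inter_subset_right hline)
    exact (hφs.differentiableOn (by simp)).mono inter_subset_left
  refine measure_mono_null ?_ himg
  rintro z ⟨hzf, hzs⟩
  rw [hD.isOpen.frontier_eq] at hzf
  obtain ⟨hzc, hzD⟩ := hzf
  have h1 : ¬ 0 < (φ z).im := fun h => hzD ((hiff z hzs).2 h)
  have h2 : ¬ (φ z).im < 0 := by
    intro h
    have hc : ContinuousAt (fun z => (φ z).im) z :=
      Complex.continuous_im.continuousAt.comp (φ.continuousAt hzs)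
    have hn : ∀ᶠ z' in 𝓝 z, z' ∉ D := by
      filter_upwards [hc.eventually_lt continuousAt_const h, φ.open_source.mem_nhds hzs] with z' h3 h4 h5
      have := (hiff z' h4).1 h5
      linarith
    rw [mem_closure_iff_nhds] at hzc
    obtain ⟨y, hy1, hy2⟩ := hzc _ hn
    exact hy1 hy2
  have h3 : (φ z).im = 0 := le_antisymm (not_lt.1 h1) (not_lt.1 h2)
  exact ⟨φ z, ⟨φ.map_source hzs, h3⟩, φ.left_inv hzs⟩

end Pool.Agent.Helper49.DF
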