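import Pool.Agent.Helper49.DF.St

/-!
# Project DF, module OL: the logarithm on the unit circle
-/

set_option autoImplicit false

open Set Filter Topology MeasureTheory Complex Metric
open scoped ContDiff ComplexConjugate

namespace Pool.Agent.Helper49.DF

private lemma kpos_OL {k : ℝ} (hk : 0 < k) : |km k| < kp k := by
  unfold km kp
  rw [abs_lt]
  constructor <;> linarith

private lemma TT_inv_OL {k : ℝ} (hk : 0 < k) (z : ℂ) : TT k⁻¹ (TT k z) = z := by
  unfold TT kp km
  have hk' : (k : ℂ) ≠ 0 := by exact_mod_cast hk.ne'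
  simp only [map_add, map_mul, conj_ofReal, conj_conj]
  push_cast
  field_simp
  ring

private lemma TT_cont_OL (k : ℝ) : Continuous (TT k) := by
  unfold TT
  fun_prop

private lemma TT_open_OL {k : ℝ} (hk : 0 < k) : IsOpenMap (TT k) := by
  refine IsOpenMap.of_inverse (TT_cont_OL k⁻¹) ?_ ?_
  · intro z
    have := TT_inv_OL (inv_pos.mpr hk) z
    rwa [inv_inv] at this
  · intro z
    exact TT_inv_OL hk z

private lemma norm_ci_OL (z : ℂ) : ‖ci z‖ = ‖z‖⁻¹ := by
  unfold ci
  rw [norm_inv, norm_conj]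

private lemma cont_OL {k ρ : ℝ} {f h : ℂ → ℂ} (H : Refl k ρ f h) :
    ContinuousOn f (closedBall 0 ρ) := by
  have hρ := H.one_lt
  have h1 : ContinuousOn f (closedBall 0 1) := by
    have : ContinuousOn (fun z => TT k (h z)) (closedBall 0 1) :=
      (TT_cont_OL k).comp_continuousOn (H.cont.mono (closedBall_subset_closedBall hρ.le))
    exact this.congr H.inside
  have h2 : ContinuousOn f {z : ℂ | 1 ≤ ‖z‖ ∧ ‖z‖ ≤ ρ} := by
    have hci : ContinuousOn ci {z : ℂ | 1 ≤ ‖z‖ ∧ ‖z‖ ≤ ρ} := by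
      unfold ci
      refine ContinuousOn.inv₀ (Complex.continuous_conj.continuousOn) ?_
      intro z hz h0
      have hz0 : z = 0 := by simpa using h0
      have hz1 := hz.1
      rw [hz0, norm_zero] at hz1
      linarith
    have hmap : MapsTo ci {z : ℂ | 1 ≤ ‖z‖ ∧ ‖z‖ ≤ ρ} (closedBall 0 ρ) := by
      intro z hz
      rw [mem_closedBall_zero_iff, norm_ci_OL]
      have : ‖z‖⁻¹ ≤ 1 := inv_le_one_of_one_le₀ hz.1
      linarith
    have hsub : {z : ℂ | 1 ≤ ‖z‖ ∧ ‖z‖ ≤ ρ} ⊆ closedBall 0 ρ := by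
      intro z hz
      rw [mem_closedBall_zero_iff]
      exact hz.2
    have : ContinuousOn (fun z => (kp k : ℂ) * h z + km k * conj (h (ci z)))
        {z : ℂ | 1 ≤ ‖z‖ ∧ ‖z‖ ≤ ρ} := by
      refine ContinuousOn.add (continuousOn_const.mul (H.cont.mono hsub)) ?_
      refine continuousOn_const.mul ?_
      exact Complex.continuous_conj.comp_continuousOn (H.cont.comp hci hmap)
    refine this.congr ?_
    intro z hz
    exact H.outside z (hsub hz) hz.1
  have hcl : IsClosed {z : ℂ | 1 ≤ ‖z‖ ∧ ‖z‖ ≤ ρ} :=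
    (isClosed_le continuous_const continuous_norm).inter
      (isClosed_le continuous_norm continuous_const)
  have h3 := ContinuousOn.union_of_isClosed h1 h2 isClosed_closedBall hcl
  refine h3.mono ?_
  intro z hz
  rw [mem_closedBall_zero_iff] at hz
  rcases le_total ‖z‖ 1 with h | h
  · left
    rw [mem_closedBall_zero_iff]
    exact h
  · right
    exact ⟨h, hz⟩

private lemma ne_OL {k ρ : ℝ} {f h : ℂ → ℂ} (H : Refl k ρ f h)
    (hd : ∀ z, ‖z‖ ≤ 1 → deriv h z ≠ 0) {z w : ℂ} (hz : ‖z‖ = ρ) (hw : ‖w‖ < 1) : f z ≠ f w := by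
  intro heq
  have hρ := H.one_lt
  have hρ0 : 0 < ρ := by linarith
  -- `f` is open at `w`
  have hwB : w ∈ ball (0 : ℂ) 1 := by rw [mem_ball_zero_iff]; exact hw
  have hwρ : ball (0 : ℂ) ρ ∈ 𝓝 w :=
    isOpen_ball.mem_nhds (by rw [mem_ball_zero_iff]; linarith)
  have hdw : HasStrictDerivAt h (deriv h w) w := by
    have : DifferentiableOn ℂ h (ball 0 ρ) := H.diff
    have han : AnalyticAt ℂ h w := this.analyticAt hwρ
    exact han.hasStrictDerivAt
  have hop : Filter.map h (𝓝 w) = 𝓝 (h w) := hdw.map_nhds_eq (hd w hw.le)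
  have h1 : h '' ball 0 1 ∈ 𝓝 (h w) := by
    rw [← hop]
    exact image_mem_map (isOpen_ball.mem_nhds hwB)
  have h2 : TT k '' (h '' ball 0 1) ∈ 𝓝 (TT k (h w)) :=
    (TT_open_OL H.k_pos).image_mem_nhds h1
  have h3 : TT k (h w) = f w :=
    (H.inside w (ball_subset_closedBall hwB)).symm
  have h4 : f '' ball 0 1 ∈ 𝓝 (f z) := by
    rw [heq, ← h3]
    refine mem_of_superset h2 ?_
    rintro _ ⟨_, ⟨x, hx, rfl⟩, rfl⟩
    exact ⟨x, hx, H.inside x (ball_subset_closedBall hx)⟩
  -- approach `z` from inside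
  have hzc : z ∈ closedBall (0 : ℂ) ρ := by rw [mem_closedBall_zero_iff]; exact hz.le
  have hcont : ContinuousWithinAt f (closedBall 0 ρ) z := cont_OL H z hzc
  have hpath : Tendsto (fun s : ℝ => (s : ℂ) * z) (𝓝[<] 1) (𝓝[closedBall 0 ρ] z) := by
    rw [tendsto_nhdsWithin_iff]
    constructor
    · have : Tendsto (fun s : ℝ => (s : ℂ) * z) (𝓝 1) (𝓝 (((1 : ℝ) : ℂ) * z)) :=
        ((Complex.continuous_ofReal.mul continuous_const).tendsto 1)
      rw [Complex.ofReal_one, one_mul] at this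
      exact this.mono_left nhdsWithin_le_nhds
    · have h0 : ∀ᶠ s : ℝ in 𝓝[<] 1, 0 < s :=
        nhdsWithin_le_nhds (Ioi_mem_nhds one_pos)
      filter_upwards [h0, self_mem_nhdsWithin] with s hs0 hs1
      rw [mem_closedBall_zero_iff, norm_mul, Complex.norm_real, Real.norm_eq_abs, abs_of_pos hs0, hz]
      have : s < 1 := hs1
      nlinarith
  have h5 : ∀ᶠ s : ℝ in 𝓝[<] 1, f ((s : ℂ) * z) ∈ f '' ball 0 1 :=
    (hcont.tendsto.comp hpath) h4
  have h6 : ∀ᶠ s : ℝ in 𝓝[<] 1, ρ⁻¹ < s :=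
    nhdsWithin_le_nhds (Ioi_mem_nhds (inv_lt_one_of_one_lt₀ hρ))
  obtain ⟨s, ⟨x, hx, hxs⟩, hs0, hs1⟩ := (h5.and (h6.and self_mem_nhdsWithin)).exists
  have hs1' : s < 1 := hs1
  have hspos : 0 < s := lt_trans (inv_pos.mpr hρ0) hs0
  have hnorm : ‖(s : ℂ) * z‖ = s * ρ := by
    rw [norm_mul, Complex.norm_real, Real.norm_eq_abs, abs_of_pos hspos, hz]
  have hx1 : ‖x‖ < 1 := by rwa [mem_ball_zero_iff] at hx
  have hxe : x = (s : ℂ) * z := by
    refine H.inj ?_ ?_ hxs
    · rw [mem_ball_zero_iff]; linarith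
    · rw [mem_ball_zero_iff, hnorm]; nlinarith
  rw [hxe, hnorm] at hx1
  have : 1 < s * ρ := by
    have := mul_lt_mul_of_pos_right hs0 hρ0
    rwa [inv_mul_cancel₀ hρ0.ne'] at this
  linarith

/-- the start of the homotopies: a small circle -/
private lemma small_OL {k ρ : ℝ} {f h : ℂ → ℂ} (H : Refl k ρ f h)
    (hd : ∀ z, ‖z‖ ≤ 1 → deriv h z ≠ 0) :
    ∃ r : ℝ, 0 < r ∧ r < 1 ∧ ∃ l : ℂ → ℂ, ContinuousOn l (sphere 0 1) ∧
      ∀ u ∈ sphere (0 : ℂ) 1, (f (r * u) - f 0) / u = Complex.exp (l u) := by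
  have hρ := H.one_lt
  have hρ0 : 0 < ρ := by linarith
  set c := deriv h 0 with hc
  have hc0 : c ≠ 0 := hd 0 (by simp)
  have hcn : 0 < ‖c‖ := norm_pos_iff.mpr hc0
  have hk := kpos_OL H.k_pos
  have hkp : 0 < kp k := lt_of_le_of_lt (abs_nonneg _) hk
  have hda : HasDerivAt h c 0 := by
    have : DifferentiableAt ℂ h 0 := H.diff.differentiableAt
      (isOpen_ball.mem_nhds (by rw [mem_ball_zero_iff, norm_zero]; exact hρ0))
    exact this.hasDerivAt
  set ε : ℝ := (kp k - |km k|) * ‖c‖ / (2 * (kp k + |km k|)) with hε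
  have hsum : 0 < kp k + |km k| := by positivity
  have hε0 : 0 < ε := by
    have : 0 < kp k - |km k| := by linarith
    positivity
  have hlit := (hasDerivAt_iff_isLittleO.mp hda).def hε0
  obtain ⟨δ, hδ0, hδ⟩ := Metric.eventually_nhds_iff.mp hlit
  set r : ℝ := min (δ / 2) (1 / 2) with hr
  have hr0 : 0 < r := lt_min (by linarith) (by norm_num)
  have hrδ : r < δ := lt_of_le_of_lt (min_le_left _ _) (by linarith)
  have hr1 : r < 1 := lt_of_le_of_lt (min_le_right _ _) (by norm_num)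
  refine ⟨r, hr0, hr1, ?_⟩
  have hrc0 : (r : ℂ) ≠ 0 := by exact_mod_cast hr0.ne'
  have hrc : (r : ℂ) * c ≠ 0 := mul_ne_zero hrc0 hc0
  set g : ℂ → ℂ := fun u => (f (r * u) - f 0) / (u * (r * c)) with hg
  have hre : ∀ u ∈ sphere (0 : ℂ) 1, 0 < (g u).re := by
    intro u hu
    rw [mem_sphere_zero_iff_norm] at hu
    have hu0 : u ≠ 0 := by
      intro h0; rw [h0, norm_zero] at hu; norm_num at hu
    set e : ℂ := h (r * u) - h 0 - (r * u) * c with he
    have hru : ‖(r : ℂ) * u‖ = r := by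
      rw [norm_mul, Complex.norm_real, Real.norm_eq_abs, abs_of_pos hr0, hu, mul_one]
    have hen : ‖e‖ ≤ ε * r := by
      have := hδ (y := (r : ℂ) * u) (by rw [dist_zero_right, hru]; exact hrδ)
      rw [sub_zero, hru] at this
      simpa [he, smul_eq_mul] using this
    have hin : ∀ x : ℂ, ‖x‖ ≤ 1 → f x = TT k (h x) := fun x hx =>
      H.inside x (by rw [mem_closedBall_zero_iff]; exact hx)
    have hf : f (r * u) - f 0 = kp k * ((r * u) * c + e) + km k * conj ((r * u) * c + e) := by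
      rw [hin (r * u) (by rw [hru]; exact hr1.le), hin 0 (by simp)]
      have : (r * u) * c + e = h (r * u) - h 0 := by rw [he]; ring
      rw [this]
      unfold TT
      rw [map_sub]
      ring
    -- decompose
    have hdec : g u = (kp k : ℂ) + ((kp k : ℂ) * e + km k * conj ((r * u) * c + e)) / (u * (r * c)) := by
      rw [hg]
      simp only
      rw [hf]
      field_simp
      ring
    have hden : ‖u * ((r : ℂ) * c)‖ = r * ‖c‖ := by
      rw [norm_mul, norm_mul, hu, Complex.norm_real, Real.norm_eq_abs, abs_of_pos hr0, one_mul]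
    have hnum : ‖(kp k : ℂ) * e + km k * conj ((r * u) * c + e)‖
        ≤ kp k * (ε * r) + |km k| * (r * ‖c‖ + ε * r) := by
      refine (norm_add_le _ _).trans ?_
      rw [norm_mul, norm_mul, Complex.norm_real, Complex.norm_real, norm_conj, Real.norm_eq_abs,
        Real.norm_eq_abs, abs_of_pos hkp]
      refine add_le_add (mul_le_mul_of_nonneg_left hen hkp.le) ?_
      refine mul_le_mul_of_nonneg_left ?_ (abs_nonneg _)
      refine (norm_add_le _ _).trans ?_
      rw [norm_mul, hru]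
      linarith
    have hq : ‖((kp k : ℂ) * e + km k * conj ((r * u) * c + e)) / (u * (r * c))‖ < kp k := by
      rw [norm_div, hden, div_lt_iff₀ (by positivity)]
      refine lt_of_le_of_lt hnum ?_
      have h1 : (kp k + |km k|) * ε = (kp k - |km k|) * ‖c‖ / 2 := by
        rw [hε]; field_simp
      have h2 : kp k * (ε * r) + |km k| * (r * ‖c‖ + ε * r)
          = r * ((kp k + |km k|) * ε + |km k| * ‖c‖) := by ring
      rw [h2, h1]
      have h3 : (kp k - |km k|) * ‖c‖ / 2 + |km k| * ‖c‖ < kp k * ‖c‖ := by nlinarith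
      nlinarith
    rw [hdec, Complex.add_re, Complex.ofReal_re]
    have := Complex.abs_re_le_norm (((kp k : ℂ) * e + km k * conj ((r * u) * c + e)) / (u * (r * c)))
    have h4 := neg_abs_le (((kp k : ℂ) * e + km k * conj ((r * u) * c + e)) / (u * (r * c))).re
    linarith
  have hgc : ContinuousOn g (sphere 0 1) := by
    have h1 : ContinuousOn (fun u : ℂ => f (r * u)) (sphere 0 1) := by
      refine (cont_OL H).comp (continuous_const.mul continuous_id).continuousOn ?_
      intro u hu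
      rw [mem_sphere_zero_iff_norm] at hu
      rw [mem_closedBall_zero_iff, norm_mul, Complex.norm_real, Real.norm_eq_abs, abs_of_pos hr0]
      rw [hu]; linarith
    refine ContinuousOn.div (h1.sub continuousOn_const)
      (continuous_id.mul continuous_const).continuousOn ?_
    intro u hu
    rw [mem_sphere_zero_iff_norm] at hu
    have hu0 : u ≠ 0 := by
      intro h0; rw [h0, norm_zero] at hu; norm_num at hu
    exact mul_ne_zero hu0 hrc
  refine ⟨fun u => Complex.log (g u) + Complex.log (r * c), ?_, ?_⟩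
  · refine ContinuousOn.add (hgc.clog ?_) continuousOn_const
    intro u hu
    exact Or.inl (hre u hu)
  · intro u hu
    have hgu : g u ≠ 0 := by
      intro h0
      have := hre u hu
      rw [h0, Complex.zero_re] at this
      exact lt_irrefl _ this
    rw [mem_sphere_zero_iff_norm] at hu
    have hu0 : u ≠ 0 := by
      intro h0; rw [h0, norm_zero] at hu; norm_num at hu
    rw [Complex.exp_add, Complex.exp_log hgu, Complex.exp_log hrc, hg]
    simp only
    field_simp

theorem ol : StLH → StOL := by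
  intro hLH k ρ f h H hd
  have hρ := H.one_lt
  have hρ0 : 0 < ρ := by linarith
  have hf := cont_OL H
  obtain ⟨r, hr0, hr1, l0, hl0, hl0e⟩ := small_OL H hd
  have hsph : ∀ u ∈ sphere (0 : ℂ) 1, ‖u‖ = 1 ∧ u ≠ 0 := by
    intro u hu
    rw [mem_sphere_zero_iff_norm] at hu
    refine ⟨hu, ?_⟩
    intro h0; rw [h0, norm_zero] at hu; norm_num at hu
  -- the second homotopy
  have hA := hLH (sphere 0 1)
    (fun t z => (f ((((1 - t) * r + t * ρ : ℝ) : ℂ) * z) - f 0) / z) ?_ ?_ ?_
  rotate_left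
  · refine ContinuousOn.div (ContinuousOn.sub ?_ continuousOn_const) continuous_snd.continuousOn ?_
    · refine hf.comp (Continuous.continuousOn (by fun_prop)) ?_
      rintro ⟨t, z⟩ ⟨ht, hz⟩
      obtain ⟨hz1, _⟩ := hsph z hz
      have ht' : 0 ≤ t ∧ t ≤ 1 := ht
      simp only
      rw [mem_closedBall_zero_iff, norm_mul, Complex.norm_real, Real.norm_eq_abs, hz1, mul_one,
        abs_of_nonneg (by nlinarith [ht'.1, ht'.2])]
      nlinarith [ht'.1, ht'.2]
    · rintro ⟨t, z⟩ ⟨_, hz⟩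
      exact (hsph z hz).2
  · intro t ht z hz
    obtain ⟨hz1, hz0⟩ := hsph z hz
    refine div_ne_zero ?_ hz0
    rw [sub_ne_zero]
    set a : ℝ := (1 - t) * r + t * ρ with ha
    have ha0 : 0 < a := by
      rcases ht.1.eq_or_lt with h0 | h0
      · rw [ha, ← h0]; linarith
      · have : 0 ≤ (1 - t) * r := mul_nonneg (by linarith [ht.2]) hr0.le
        have h2 : 0 < t * ρ := mul_pos h0 hρ0
        linarith
    have haρ : a ≤ ρ := by rw [ha]; nlinarith [ht.1, ht.2]
    have hnorm : ‖(a : ℂ) * z‖ = a := by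
      rw [norm_mul, Complex.norm_real, Real.norm_eq_abs, abs_of_pos ha0, hz1, mul_one]
    rcases haρ.eq_or_lt with h1 | h1
    · exact ne_OL H hd (by rw [hnorm, h1]) (by simp)
    · intro heq
      have := H.inj (by rw [mem_ball_zero_iff, hnorm]; exact h1)
        (by rw [mem_ball_zero_iff, norm_zero]; exact hρ0) heq
      rw [this, norm_zero] at hnorm
      linarith
  · refine ⟨l0, hl0, ?_⟩
    intro u hu
    rw [← hl0e u hu]
    simp
  obtain ⟨l1, hl1, hl1e⟩ := hA
  -- the third homotopy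
  have hB := hLH (sphere 0 1)
    (fun t z => (f ((ρ : ℂ) * z) - f ((t : ℂ) * z / ρ)) / z) ?_ ?_ ?_
  rotate_left
  · refine ContinuousOn.div (ContinuousOn.sub ?_ ?_) continuous_snd.continuousOn ?_
    · refine hf.comp (Continuous.continuousOn (by fun_prop)) ?_
      rintro ⟨t, z⟩ ⟨ht, hz⟩
      obtain ⟨hz1, _⟩ := hsph z hz
      simp only
      rw [mem_closedBall_zero_iff, norm_mul, Complex.norm_real, Real.norm_eq_abs, hz1, mul_one,
        abs_of_pos hρ0]
    · refine hf.comp (Continuous.continuousOn (by fun_prop)) ?_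
      rintro ⟨t, z⟩ ⟨ht, hz⟩
      obtain ⟨hz1, _⟩ := hsph z hz
      have ht' : 0 ≤ t ∧ t ≤ 1 := ht
      simp only
      rw [mem_closedBall_zero_iff, norm_div, norm_mul, Complex.norm_real, Complex.norm_real,
        Real.norm_eq_abs, Real.norm_eq_abs, hz1, mul_one, abs_of_nonneg ht'.1, abs_of_pos hρ0,
        div_le_iff₀ hρ0]
      nlinarith [ht'.1, ht'.2]
    · rintro ⟨t, z⟩ ⟨_, hz⟩
      exact (hsph z hz).2
  · intro t ht z hz
    obtain ⟨hz1, hz0⟩ := hsph z hz
    refine div_ne_zero ?_ hz0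
    rw [sub_ne_zero]
    refine ne_OL H hd ?_ ?_
    · rw [norm_mul, Complex.norm_real, Real.norm_eq_abs, abs_of_pos hρ0, hz1, mul_one]
    · rw [norm_div, norm_mul, Complex.norm_real, Complex.norm_real,
        Real.norm_eq_abs, Real.norm_eq_abs, hz1, mul_one, abs_of_nonneg ht.1, abs_of_pos hρ0,
        div_lt_iff₀ hρ0]
      linarith [ht.2]
  · refine ⟨l1, hl1, ?_⟩
    intro u hu
    rw [← hl1e u hu]
    simp
  obtain ⟨l2, hl2, hl2e⟩ := hB
  refine ⟨l2, hl2, ?_⟩
  intro u hu
  rw [← hl2e u hu]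
  simp

end Pool.Agent.Helper49.DF
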