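import Pool.Agent.Helper49.DF.St

/-!
# Project DF, module PIN: the logarithmic potential of the functional vanishes inside
-/

set_option autoImplicit false

open Set Filter Topology MeasureTheory Complex Metric
open scoped ContDiff ComplexConjugate

namespace Pool.Agent.Helper49.DF

open Pool.Agent.Helper65.PI

/-- the potential -/
private noncomputable def P_PIN (K : TopologicalSpace.Compacts ℂ) (L : C(K, ℝ) →L[ℝ] ℝ) (z : ℂ) : ℝ :=
  L (rs K fun w => Real.log ‖w - z‖)

private theorem rs_PIN (K : TopologicalSpace.Compacts ℂ) (z : ℂ) (hz : z ∉ (K : Set ℂ)) (w : K) :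
    (rs K fun w => Real.log ‖w - z‖) w = Real.log ‖(w : ℂ) - z‖ := by
  have hc : ContinuousOn (fun w : ℂ => Real.log ‖w - z‖) (K : Set ℂ) := by
    apply ContinuousOn.log
    · fun_prop
    · intro w hw
      rw [norm_ne_zero_iff, sub_ne_zero]
      rintro rfl
      exact hz hw
  rw [rs, dif_pos hc]
  rfl

/-- the ball around a point of `D` -/
private theorem ball_PIN (D : Set ℂ) (hD : IsOpen D) (z : ℂ) (hz : z ∈ D) :
    ball z (infDist z (frontier D)) ⊆ D := by
  rcases (infDist_nonneg (x := z) (s := frontier D)).lt_or_eq with h | h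
  swap
  · rw [← h, ball_zero]
    exact empty_subset _
  have hpre : IsPreconnected (ball z (infDist z (frontier D))) := (convex_ball _ _).isPreconnected
  apply hpre.subset_left_of_subset_union hD (isClosed_closure (s := D)).isOpen_compl
  · exact Set.disjoint_left.2 (fun x hx hx' => hx' (subset_closure hx))
  · intro x hx
    by_contra hcon
    rw [mem_union, not_or, mem_compl_iff, not_not] at hcon
    have hxf : x ∈ frontier D := by
      rw [frontier, hD.interior_eq]
      exact ⟨hcon.2, hcon.1⟩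
    have := infDist_le_dist_of_mem (x := z) hxf
    rw [mem_ball, dist_comm] at hx
    linarith
  · exact ⟨z, mem_ball_self h, hz⟩

/-- `|log (1 - u)| ≤ 2 |u|` -/
private theorem log_PIN (u : ℂ) (hu : ‖u‖ ≤ 1 / 2) : |Real.log ‖1 - u‖| ≤ 2 * ‖u‖ := by
  have h1 : ‖1 - u‖ ≤ 1 + ‖u‖ := by
    have := norm_sub_le (1 : ℂ) u
    rwa [norm_one] at this
  have h2 : 1 - ‖u‖ ≤ ‖1 - u‖ := by
    have := norm_sub_norm_le (1 : ℂ) u
    rwa [norm_one] at this
  have h0 : 0 ≤ ‖u‖ := norm_nonneg u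
  have h3 : 0 < ‖1 - u‖ := by linarith
  rw [abs_le]
  constructor
  · have h4 := Real.one_sub_inv_le_log_of_pos h3
    have h5 : ‖1 - u‖⁻¹ ≤ 1 + 2 * ‖u‖ := by
      rw [inv_le_iff_one_le_mul₀ h3]
      nlinarith
    linarith
  · have h4 := Real.log_le_sub_one_of_pos h3
    linarith

/-- the mean over the roots of unity -/
private theorem mean_PIN (K : TopologicalSpace.Compacts ℂ) (z ζ : ℂ) (hz : z ∉ (K : Set ℂ))
    (hζ : ‖ζ‖ < infDist z (K : Set ℂ)) (n : ℕ) (hn : 0 < n) (w : ℂ) (hw : w ∈ (K : Set ℂ)) :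
    ∑ ξ ∈ Polynomial.nthRootsFinset n (1 : ℂ), Real.log ‖w - (z + ξ * ζ)‖ - n * Real.log ‖w - z‖ =
      Real.log ‖1 - (ζ / (w - z)) ^ n‖ := by
  have hwz : w - z ≠ 0 := by
    rw [sub_ne_zero]
    rintro rfl
    exact hz hw
  have hd : infDist z (K : Set ℂ) ≤ ‖w - z‖ := by
    have := infDist_le_dist_of_mem (x := z) hw
    rwa [dist_eq_norm, norm_sub_rev] at this
  have hne : ∀ ξ ∈ Polynomial.nthRootsFinset n (1 : ℂ), ‖w - (z + ξ * ζ)‖ ≠ 0 := by
    intro ξ hξ
    rw [Polynomial.mem_nthRootsFinset hn] at hξ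
    have h1 : ‖ξ‖ = 1 := by
      have := congrArg norm hξ
      rw [norm_pow, norm_one] at this
      exact (pow_eq_one_iff_of_nonneg (norm_nonneg _) hn.ne').1 this
    rw [norm_ne_zero_iff]
    intro h0
    have h2 : w - z = ξ * ζ := by linear_combination h0
    have h3 : ‖w - z‖ = ‖ζ‖ := by rw [h2, norm_mul, h1, one_mul]
    linarith
  rw [← Real.log_prod hne, ← Real.log_pow]
  have h4 := (Complex.isPrimitiveRoot_exp n hn.ne').pow_sub_pow_eq_prod_sub_mul (w - z) ζ hn
  have h5 : ∏ ξ ∈ Polynomial.nthRootsFinset n (1 : ℂ), ‖w - (z + ξ * ζ)‖ = ‖(w - z) ^ n - ζ ^ n‖ := by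
    rw [h4, norm_prod]
    apply Finset.prod_congr rfl
    intro ξ _
    congr 1
    ring
  rw [h5, ← Real.log_div]
  · congr 1
    rw [← norm_pow, ← norm_div]
    congr 1
    rw [div_pow, sub_div, div_self (pow_ne_zero n hwz)]
  · rw [← h5, Finset.prod_ne_zero_iff]
    exact hne
  · rw [← norm_pow, norm_ne_zero_iff]
    exact pow_ne_zero n hwz

/-- the mean value inequality -/
private theorem meanP_PIN (K : TopologicalSpace.Compacts ℂ) (L : C(K, ℝ) →L[ℝ] ℝ)
    (z ζ : ℂ) (hz : z ∉ (K : Set ℂ))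
    (hζ : ‖ζ‖ < infDist z (K : Set ℂ)) (n : ℕ) (hn : 0 < n)
    (hq : (‖ζ‖ / infDist z (K : Set ℂ)) ^ n ≤ 1 / 2) :
    |∑ ξ ∈ Polynomial.nthRootsFinset n (1 : ℂ), P_PIN K L (z + ξ * ζ) - n * P_PIN K L z| ≤
      ‖L‖ * (2 * (‖ζ‖ / infDist z (K : Set ℂ)) ^ n) := by
  have hd0 : 0 < infDist z (K : Set ℂ) := lt_of_le_of_lt (norm_nonneg _) hζ
  have e1 : ∑ ξ ∈ Polynomial.nthRootsFinset n (1 : ℂ), P_PIN K L (z + ξ * ζ) - n * P_PIN K L z =
      L (∑ ξ ∈ Polynomial.nthRootsFinset n (1 : ℂ), (rs K fun w => Real.log ‖w - (z + ξ * ζ)‖) -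
        (n : ℝ) • (rs K fun w => Real.log ‖w - z‖)) := by
    rw [map_sub, map_sum, map_smul, smul_eq_mul]
    rfl
  rw [e1, ← Real.norm_eq_abs]
  refine (L.le_opNorm _).trans (mul_le_mul_of_nonneg_left ?_ (norm_nonneg _))
  rw [ContinuousMap.norm_le _ (by positivity)]
  intro w
  have hz' : ∀ ξ ∈ Polynomial.nthRootsFinset n (1 : ℂ), z + ξ * ζ ∉ (K : Set ℂ) := by
    intro ξ hξ hcon
    rw [Polynomial.mem_nthRootsFinset hn] at hξ
    have h1 : ‖ξ‖ = 1 := by
      have := congrArg norm hξ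
      rw [norm_pow, norm_one] at this
      exact (pow_eq_one_iff_of_nonneg (norm_nonneg _) hn.ne').1 this
    have := infDist_le_dist_of_mem (x := z) hcon
    rw [dist_eq_norm, show z - (z + ξ * ζ) = -(ξ * ζ) by ring, norm_neg, norm_mul, h1, one_mul] at this
    linarith
  have e2 : (∑ ξ ∈ Polynomial.nthRootsFinset n (1 : ℂ), (rs K fun w => Real.log ‖w - (z + ξ * ζ)‖) -
        (n : ℝ) • (rs K fun w => Real.log ‖w - z‖)) w =
      Real.log ‖1 - (ζ / ((w : ℂ) - z)) ^ n‖ := by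
    rw [← mean_PIN K z ζ hz hζ n hn w w.2, ContinuousMap.sub_apply, ContinuousMap.smul_apply,
      ContinuousMap.sum_apply, rs_PIN K z hz w, smul_eq_mul]
    congr 1
    apply Finset.sum_congr rfl
    intro ξ hξ
    exact rs_PIN K _ (hz' ξ hξ) w
  rw [e2, Real.norm_eq_abs]
  have hdw : infDist z (K : Set ℂ) ≤ ‖(w : ℂ) - z‖ := by
    have := infDist_le_dist_of_mem (x := z) w.2
    rwa [dist_eq_norm, norm_sub_rev] at this
  have h6 : ‖(ζ / ((w : ℂ) - z)) ^ n‖ ≤ (‖ζ‖ / infDist z (K : Set ℂ)) ^ n := by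
    rw [norm_pow, norm_div]
    apply pow_le_pow_left₀ (by positivity)
    exact div_le_div_of_nonneg_left (norm_nonneg _) hd0 hdw
  refine (log_PIN _ (h6.trans hq)).trans ?_
  linarith

/-- propagation of a maximum -/
private theorem max_PIN (D : Set ℂ) (K : TopologicalSpace.Compacts ℂ) (L : C(K, ℝ) →L[ℝ] ℝ)
    (hD : IsOpen D) (hKD : (K : Set ℂ) = frontier D) (hK : (K : Set ℂ).Nonempty) (M : ℝ)
    (hM : ∀ z ∈ D, P_PIN K L z ≤ M) (z : ℂ) (hz : z ∈ D) (hzM : P_PIN K L z = M) (y : ℂ)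
    (hy : dist y z < infDist z (K : Set ℂ)) : P_PIN K L y = M := by
  set ζ := y - z with hζ
  have hζn : ‖ζ‖ < infDist z (K : Set ℂ) := by rwa [hζ, ← dist_eq_norm]
  have hd0 : 0 < infDist z (K : Set ℂ) := lt_of_le_of_lt (norm_nonneg _) hζn
  have hball : ball z (infDist z (K : Set ℂ)) ⊆ D := by
    rw [hKD]
    exact ball_PIN D hD z hz
  have hzK : z ∉ (K : Set ℂ) := by
    intro h
    rw [infDist_zero_of_mem h] at hd0
    exact lt_irrefl _ hd0
  have hyD : y ∈ D := hball (mem_ball.2 hy)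
  apply le_antisymm (hM y hyD)
  set q := ‖ζ‖ / infDist z (K : Set ℂ) with hq
  have hq0 : 0 ≤ q := by positivity
  have hq1 : q < 1 := by
    rw [hq, div_lt_one hd0]
    exact hζn
  have ht : Tendsto (fun n : ℕ => q ^ n) atTop (𝓝 0) := tendsto_pow_atTop_nhds_zero_of_lt_one hq0 hq1
  have hev : ∀ᶠ n : ℕ in atTop, M - ‖L‖ * (2 * q ^ n) ≤ P_PIN K L y := by
    filter_upwards [ht.eventually_le_const (show (0 : ℝ) < 1 / 2 by norm_num), eventually_gt_atTop 0]
      with n h1 h2
    have h3 := meanP_PIN K L z ζ hzK hζn n h2 h1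
    have h4 : ∑ ξ ∈ Polynomial.nthRootsFinset n (1 : ℂ), P_PIN K L (z + ξ * ζ) ≤
        (n - 1 : ℝ) * M + P_PIN K L y := by
      have h1m : (1 : ℂ) ∈ Polynomial.nthRootsFinset n (1 : ℂ) := Polynomial.one_mem_nthRootsFinset h2
      rw [← Finset.sum_erase_add _ _ h1m]
      have h5 : z + 1 * ζ = y := by rw [hζ]; ring
      rw [h5]
      have h6 : ∑ ξ ∈ (Polynomial.nthRootsFinset n (1 : ℂ)).erase 1, P_PIN K L (z + ξ * ζ) ≤
          ∑ ξ ∈ (Polynomial.nthRootsFinset n (1 : ℂ)).erase 1, M := by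
        apply Finset.sum_le_sum
        intro ξ hξ
        apply hM
        apply hball
        have hξ' := Finset.mem_of_mem_erase hξ
        rw [Polynomial.mem_nthRootsFinset h2] at hξ'
        have hn1 : ‖ξ‖ = 1 := by
          have := congrArg norm hξ'
          rw [norm_pow, norm_one] at this
          exact (pow_eq_one_iff_of_nonneg (norm_nonneg _) h2.ne').1 this
        rw [mem_ball, dist_eq_norm, add_sub_cancel_left, norm_mul, hn1, one_mul]
        exact hζn
      rw [Finset.sum_const, Finset.card_erase_of_mem h1m,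
        (Complex.isPrimitiveRoot_exp n h2.ne').card_nthRootsFinset, nsmul_eq_mul,
        Nat.cast_sub h2, Nat.cast_one] at h6
      linarith
    rw [hzM] at h3
    have h7 := (abs_le.1 h3).1
    linarith
  have hlim : Tendsto (fun n : ℕ => M - ‖L‖ * (2 * q ^ n)) atTop (𝓝 (M - ‖L‖ * (2 * 0))) :=
    tendsto_const_nhds.sub ((ht.const_mul 2).const_mul ‖L‖)
  have := le_of_tendsto hlim hev
  linarith

/-- the potential is continuous off `K` -/
private theorem cont_PIN (K : TopologicalSpace.Compacts ℂ) (L : C(K, ℝ) →L[ℝ] ℝ)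
    (hK : (K : Set ℂ).Nonempty) (z : ℂ) (hz : z ∉ (K : Set ℂ)) : ContinuousAt (P_PIN K L) z := by
  have hKc : IsClosed (K : Set ℂ) := K.isCompact.isClosed
  have hd0 : 0 < infDist z (K : Set ℂ) := (hKc.notMem_iff_infDist_pos hK).1 hz
  set d := infDist z (K : Set ℂ) with hd
  rw [Metric.continuousAt_iff]
  intro ε hε
  refine ⟨min (d / 2) (ε * d / (2 * (‖L‖ + 1))), by positivity, ?_⟩
  intro y hy
  have hy1 : ‖y - z‖ < d / 2 := by
    rw [← dist_eq_norm]
    exact lt_of_lt_of_le hy (min_le_left _ _)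
  have hy2 : ‖y - z‖ < ε * d / (2 * (‖L‖ + 1)) := by
    rw [← dist_eq_norm]
    exact lt_of_lt_of_le hy (min_le_right _ _)
  have hyd : d / 2 ≤ infDist y (K : Set ℂ) := by
    have := infDist_le_infDist_add_dist (x := z) (y := y) (s := (K : Set ℂ))
    rw [dist_eq_norm, norm_sub_rev] at this
    linarith
  have hyK : y ∉ (K : Set ℂ) := by
    intro h
    rw [infDist_zero_of_mem h] at hyd
    linarith
  rw [Real.dist_eq]
  have e1 : P_PIN K L y - P_PIN K L z =
      L ((rs K fun w => Real.log ‖w - y‖) - (rs K fun w => Real.log ‖w - z‖)) := by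
    rw [map_sub]
    rfl
  rw [e1, ← Real.norm_eq_abs]
  have hnorm : ‖(rs K fun w => Real.log ‖w - y‖) - (rs K fun w => Real.log ‖w - z‖)‖ ≤
      2 * ‖y - z‖ / d := by
    rw [ContinuousMap.norm_le _ (by positivity)]
    intro w
    rw [ContinuousMap.sub_apply, rs_PIN K y hyK w, rs_PIN K z hz w, Real.norm_eq_abs]
    have ha : d / 2 ≤ ‖(w : ℂ) - y‖ := by
      have := infDist_le_dist_of_mem (x := y) w.2
      rw [dist_eq_norm, norm_sub_rev] at this
      linarith
    have hb : d / 2 ≤ ‖(w : ℂ) - z‖ := by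
      have := infDist_le_dist_of_mem (x := z) w.2
      rw [dist_eq_norm, norm_sub_rev] at this
      linarith
    have ha0 : 0 < ‖(w : ℂ) - y‖ := by linarith
    have hb0 : 0 < ‖(w : ℂ) - z‖ := by linarith
    have hab : |‖(w : ℂ) - y‖ - ‖(w : ℂ) - z‖| ≤ ‖y - z‖ := by
      have := abs_norm_sub_norm_le ((w : ℂ) - y) ((w : ℂ) - z)
      rw [show (w : ℂ) - y - (w - z) = -(y - z) by ring, norm_neg] at this
      exact this
    have key : ∀ a b : ℝ, 0 < a → 0 < b → d / 2 ≤ b → |a - b| ≤ ‖y - z‖ →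
        Real.log a - Real.log b ≤ 2 * ‖y - z‖ / d := by
      intro a b ha hb hdb hab
      rw [← Real.log_div ha.ne' hb.ne']
      have h1 := Real.log_le_sub_one_of_pos (div_pos ha hb)
      have h2 : a / b - 1 = (a - b) / b := by field_simp
      have h3 : (a - b) / b ≤ ‖y - z‖ / (d / 2) := by
        calc (a - b) / b ≤ ‖y - z‖ / b :=
              div_le_div_of_nonneg_right ((le_abs_self _).trans hab) hb.le
          _ ≤ ‖y - z‖ / (d / 2) := div_le_div_of_nonneg_left (norm_nonneg _) (by positivity) hdb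
      have h4 : ‖y - z‖ / (d / 2) = 2 * ‖y - z‖ / d := by field_simp
      linarith
    rw [abs_le]
    constructor
    · have := key _ _ hb0 ha0 ha (by rw [abs_sub_comm]; exact hab)
      linarith
    · exact key _ _ ha0 hb0 hb hab
  calc _ ≤ ‖L‖ * ‖(rs K fun w => Real.log ‖w - y‖) - (rs K fun w => Real.log ‖w - z‖)‖ := L.le_opNorm _
    _ ≤ ‖L‖ * (2 * ‖y - z‖ / d) := mul_le_mul_of_nonneg_left hnorm (norm_nonneg L)
    _ ≤ (‖L‖ + 1) * (2 * ‖y - z‖ / d) := mul_le_mul_of_nonneg_right (by linarith) (by positivity)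
    _ < ε := by
      rw [lt_div_iff₀ (by positivity)] at hy2
      rw [← mul_div_assoc, div_lt_iff₀ hd0]
      linarith

/-- no positive values -/
private theorem neg_PIN (D : Set ℂ) (K : TopologicalSpace.Compacts ℂ) (L : C(K, ℝ) →L[ℝ] ℝ)
    (r A : ℝ) (hD : IsOpen D) (hDc : IsConnected D) (hcomp : IsCompact (closure D))
    (hKD : (K : Set ℂ) = frontier D) (hK : (K : Set ℂ).Nonempty) (hr : 0 < r)
    (hA : ∀ z ∈ D, infDist z (frontier D) ≤ r → |P_PIN K L z| ≤ A * infDist z (frontier D)) :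
    ∀ z ∈ D, P_PIN K L z ≤ 0 := by
  intro z0 hz0
  by_contra hcon
  rw [not_le] at hcon
  set c := P_PIN K L z0 with hc
  set δ := min r (c / (|A| + 1)) with hδ
  have hδ0 : 0 < δ := by positivity
  have hsmall : ∀ z ∈ D, infDist z (K : Set ℂ) < δ → P_PIN K L z < c := by
    intro z hz hzd
    rw [hKD] at hzd
    have h1 := hA z hz (hzd.le.trans (min_le_left _ _))
    have h2 : infDist z (frontier D) < c / (|A| + 1) := lt_of_lt_of_le hzd (min_le_right _ _)
    rw [lt_div_iff₀ (by positivity)] at h2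
    have h3 : A * infDist z (frontier D) ≤ (|A| + 1) * infDist z (frontier D) :=
      mul_le_mul_of_nonneg_right (by linarith [le_abs_self A]) infDist_nonneg
    have h4 := le_abs_self (P_PIN K L z)
    linarith
  have hfr : ∀ z ∈ closure D, z ∉ D → z ∈ (K : Set ℂ) := by
    intro z hz hz'
    rw [hKD, frontier, hD.interior_eq]
    exact ⟨hz, hz'⟩
  have hDK : ∀ z ∈ D, z ∉ (K : Set ℂ) := by
    intro z hz hz'
    rw [hKD, frontier, hD.interior_eq] at hz'
    exact hz'.2 hz
  set C := closure D ∩ {z | δ ≤ infDist z (K : Set ℂ)} with hC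
  have hCc : IsCompact C :=
    hcomp.inter_right (isClosed_le continuous_const (continuous_infDist_pt _))
  have hCD : C ⊆ D := by
    intro z hz
    by_contra hz'
    have h1 := hfr z hz.1 hz'
    have h2 : δ ≤ infDist z (K : Set ℂ) := hz.2
    rw [infDist_zero_of_mem h1] at h2
    linarith
  have hz0C : z0 ∈ C := by
    refine ⟨subset_closure hz0, ?_⟩
    by_contra h
    have h' : infDist z0 (K : Set ℂ) < δ := not_le.1 h
    exact lt_irrefl _ (hsmall z0 hz0 h')
  have hcont : ContinuousOn (P_PIN K L) C := fun z hz =>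
    (cont_PIN K L hK z (hDK z (hCD hz))).continuousWithinAt
  obtain ⟨z1, hz1, hmax⟩ := hCc.exists_isMaxOn ⟨z0, hz0C⟩ hcont
  set M := P_PIN K L z1 with hM
  have hcM : c ≤ M := hmax hz0C
  have hall : ∀ z ∈ D, P_PIN K L z ≤ M := by
    intro z hz
    by_cases h : δ ≤ infDist z (K : Set ℂ)
    · exact hmax ⟨subset_closure hz, h⟩
    · exact (hsmall z hz (not_le.1 h)).le.trans hcM
  have hKc : IsClosed (K : Set ℂ) := K.isCompact.isClosed
  have hprop := max_PIN D K L hD hKD hK M hall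
  -- the set where the maximum is attained is open and closed
  have hSopen : IsOpen {z | z ∈ D ∧ P_PIN K L z = M} := by
    rw [isOpen_iff_mem_nhds]
    rintro z ⟨hz, hzM⟩
    have hd : 0 < infDist z (K : Set ℂ) := (hKc.notMem_iff_infDist_pos hK).1 (hDK z hz)
    filter_upwards [ball_mem_nhds z hd, hD.mem_nhds hz] with y hy hyD
    exact ⟨hyD, hprop z hz hzM y (mem_ball.1 hy)⟩
  have hTopen : IsOpen {z | z ∈ D ∧ P_PIN K L z ≠ M} := by
    rw [isOpen_iff_mem_nhds]
    rintro z ⟨hz, hzM⟩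
    have hd : 0 < infDist z (K : Set ℂ) := (hKc.notMem_iff_infDist_pos hK).1 (hDK z hz)
    filter_upwards [ball_mem_nhds z (half_pos hd), hD.mem_nhds hz] with y hy hyD
    refine ⟨hyD, fun hyM => hzM (hprop y hyD hyM z ?_)⟩
    have h1 := infDist_le_infDist_add_dist (x := z) (y := y) (s := (K : Set ℂ))
    rw [mem_ball] at hy
    rw [dist_comm] at h1 ⊢
    linarith
  have hSall : ∀ z ∈ D, P_PIN K L z = M := by
    intro z hz
    by_contra hzM
    have := hDc.isPreconnected _ _ hSopen hTopen (fun y hy => by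
      by_cases h : P_PIN K L y = M
      · exact Or.inl ⟨hy, h⟩
      · exact Or.inr ⟨hy, h⟩) ⟨z1, hCD hz1, hCD hz1, rfl⟩ ⟨z, hz, hz, hzM⟩
    obtain ⟨y, _, hy1, hy2⟩ := this
    exact hy2.2 hy1.2
  obtain ⟨p, hp⟩ := hK
  have hpcl : p ∈ closure D := by
    rw [hKD] at hp
    exact frontier_subset_closure hp
  obtain ⟨y, hyD, hy⟩ := Metric.mem_closure_iff.1 hpcl δ hδ0
  have h1 : infDist y (K : Set ℂ) < δ := by
    refine lt_of_le_of_lt (infDist_le_dist_of_mem hp) ?_
    rwa [dist_comm]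
  have h2 := hsmall y hyD h1
  rw [hSall y hyD] at h2
  linarith

theorem pin : StPIN := by
  intro D K L r A hD hDc hcomp hKD hK hr hA z hz
  have h1 := neg_PIN D K L r A hD hDc hcomp hKD hK hr hA z hz
  have hneg : ∀ x, P_PIN K (-L) x = -P_PIN K L x := fun x => rfl
  have h2 := neg_PIN D K (-L) r A hD hDc hcomp hKD hK hr
    (fun x hx hxr => by rw [hneg, abs_neg]; exact hA x hx hxr) z hz
  rw [hneg] at h2
  have h3 : P_PIN K L z = 0 := le_antisymm h1 (by linarith)
  exact h3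

end Pool.Agent.Helper49.DF
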