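import Pool.Agent.Helper65.PI.St

/-!
# One measurement and an inclusion with analytic boundary: statements of the modules

Project DF for MP_dfbc29_an. Throughout `ψ` is a conformal map of the disc of radius `ρ > 1`, the
inclusion `D` is the image of the unit disc, `ci` is the reflection in the unit circle,
`T (x + i y) = x + i k y`. The interior potential `h = (u + i v / k) ∘ ψ` continues holomorphically to
the disc of radius `ρ` and `f = (u + i v) ∘ ψ` is `T h` inside and `k₊ h + k₋ conj (h ∘ ci)` outside.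
-/

set_option autoImplicit false

open Set Filter Topology MeasureTheory Complex Metric
open scoped ContDiff ComplexConjugate

namespace Pool.Agent.Helper49.DF

open Pool.Agent.Helper65.PI

/-- reflection in the unit circle -/
noncomputable def ci (z : ℂ) : ℂ := (conj z)⁻¹

/-- `k₊ = (1 + k) / 2` -/
noncomputable def kp (k : ℝ) : ℝ := (1 + k) / 2

/-- `k₋ = (1 - k) / 2` -/
noncomputable def km (k : ℝ) : ℝ := (1 - k) / 2

/-- `T (x + i y) = x + i k y` -/
noncomputable def TT (k : ℝ) (z : ℂ) : ℂ := (kp k : ℂ) * z + (km k : ℂ) * conj z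

/-- the reflected field: `h` is holomorphic in the disc of radius `ρ`, `f` is `T h` in the closed
unit disc and `k₊ h + k₋ conj (h ∘ ci)` outside, and `f` is injective -/
structure Refl (k ρ : ℝ) (f h : ℂ → ℂ) : Prop where
  k_pos : 0 < k
  one_lt : 1 < ρ
  cont : ContinuousOn h (closedBall 0 ρ)
  diff : DifferentiableOn ℂ h (ball 0 ρ)
  inside : ∀ z ∈ closedBall (0 : ℂ) 1, f z = TT k (h z)
  outside : ∀ z ∈ closedBall (0 : ℂ) ρ, 1 ≤ ‖z‖ → f z = kp k * h z + km k * conj (h (ci z))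
  inj : InjOn f (ball 0 ρ)

/-- CIRC. A continuous function which is holomorphic off the unit circle is holomorphic.
PROOF. Fix `1 < r < ρ` and let `g z = (2 π I)⁻¹ • ∮ w in C(0, r), (w - z)⁻¹ • h w`, holomorphic in
`ball 0 r` (Mathlib: Cauchy integral; e.g. `DiffContOnCl`-free version `hasFPowerSeriesOn_cauchy_integral`,
which needs only that `h` is circle integrable). For `‖z‖ < 1`: `h z` is the Cauchy integral over
`C(0, 1)` (`h` is `DiffContOnCl` on `ball 0 1`), and `∮_{C(0,1)} h w/(w - z) = ∮_{C(0,r)} h w/(w - z)`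
by `Complex.circleIntegral_eq_of_differentiable_on_annulus_off_countable` (the integrand is continuous on
the closed annulus, differentiable in the open one); so `g = h`. For `1 < ‖z‖ < r`: the function
`w ↦ dslope h z w` is continuous on the closed annulus, differentiable off `z` in the open annulus, so its
integrals over both circles agree; `∮_{C(0,r)} 1/(w-z) = 2 π I`, `∮_{C(0,1)} 1/(w-z) = 0` and
`∮_{C(0,1)} h w/(w-z) = 0` (`Complex.circleIntegral_eq_zero_of_differentiable_on_off_countable`: the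
integrand is holomorphic in the unit disc, continuous on the closed one); so `g z = h z`. For `‖z‖ = 1`
by continuity of `g` and `h` (a point of the circle is a limit of points of the open unit disc). So
`h = g` on `ball 0 r`, for every `r < ρ`. -/
def StCIRC : Prop := ∀ (ρ : ℝ) (h : ℂ → ℂ), 1 < ρ → ContinuousOn h (ball 0 ρ) →
  DifferentiableOn ℂ h (ball 0 1) → DifferentiableOn ℂ h (ball 0 ρ \ closedBall 0 1) →
  DifferentiableOn ℂ h (ball 0 ρ)

/-- HN0. An injective holomorphic function has nonzero derivative.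
PROOF. Suppose `deriv h p = 0`. `h` is not constant near `p`, so `h z - h p = (z - p)^n g z` near `p`,
`g` analytic, `g p ≠ 0`, `2 ≤ n` (`AnalyticAt.exists_eventuallyEq_pow_smul_nonzero_iff`). Write
`g = m^n` near `p` (`m = exp (log g / n)`, after division by `g p` times an `n`-th root of it), then
`w z = (z - p) m z` has `deriv w p = m p ≠ 0`, so it is open at `p` (`HasStrictDerivAt.map_nhds_eq`):
there are arbitrarily small `e ≠ 0` and points `z₁, z₂` near `p` with `w z₁ = e`,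
`w z₂ = e * exp (2 π I / n)`; `z₁ ≠ z₂` but `h z₁ = h p + e^n = h z₂`. (Alternative: Mathlib may have a
lemma on local injectivity; or count zeros.) -/
def StHN0 : Prop := ∀ (V : Set ℂ) (h : ℂ → ℂ), IsOpen V → DifferentiableOn ℂ h V → InjOn h V →
  ∀ z ∈ V, deriv h z ≠ 0

/-- INV. The inverse of an injective holomorphic function is holomorphic.
PROOF. `deriv ψ ≠ 0` on `V` by HN0; `HasStrictDerivAt.map_nhds_eq` gives that `ψ` is open, so `ψ '' V`
is open and the inverse `Z` (`Function.invFunOn ψ V`) is continuous on it; `HasDerivAt.of_local_left_inverse`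
(or `HasStrictDerivAt.to_localInverse`) gives differentiability. -/
def StINV : Prop := ∀ (V : Set ℂ) (ψ : ℂ → ℂ), IsOpen V → DifferentiableOn ℂ ψ V → InjOn ψ V →
  IsOpen (ψ '' V) ∧ ∃ Z : ℂ → ℂ, (∀ ζ ∈ V, Z (ψ ζ) = ζ) ∧ DifferentiableOn ℂ Z (ψ '' V)

/-- HNZ. The derivative of the reflected field does not vanish on the closed unit disc.
PROOF. In the open unit disc: `T` is injective (`k ≠ 0`: if `T a = T b` then `k₊ (a-b) = -k₋ conj (a-b)`,
`|k₋| < k₊`), so `h` is injective on `ball 0 1` by `inside` and `inj`, use HN0.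
Let `‖p‖ = 1`, suppose `deriv h p = 0`. Put `z = p exp (I ξ)`; then `‖z‖ < 1` iff `0 < ξ.im` and
`ci z = p exp (I conj ξ)`. `H ξ = h (p exp (I ξ)) - h p` is analytic at `0`, `deriv H 0 = 0`, `H` is
not locally zero (`h` is injective on `ball 0 1` and `p` is in its closure: if `h` were constant near
`p` it would be constant on an open part of `ball 0 1`). So near `0` `H ξ = ξ^n g ξ`, `g` analytic,
`c = g 0 ≠ 0`, `2 ≤ n`. For `0 ≤ ξ.im`: `f - f p = T (H ξ)`; for `ξ.im ≤ 0`: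
`f - f p = M ξ := k₊ H ξ + k₋ conj (H (conj ξ)) = ξ^n (k₊ g ξ + k₋ conj (g (conj ξ)))`, analytic near `0`.
Let `a = exp (π I / n)`, `b = conj a`: `a^n = b^n = -1`, `0 < a.im`, `b.im < 0`. Choose `s > 0` with
`closedBall b s` in the lower half plane and `ξ^n ≠ -1` for `0 < ‖ξ - b‖ ≤ s` (finitely many roots).
Let `6 e` be the minimum of `‖T c (ξ^n + 1)‖` on the circle `‖ξ - b‖ = s`. As `r → 0+`,
`M_r ξ = r^{-n} M (r ξ) → T c ξ^n` uniformly on `closedBall b s` and `y_r = r^{-n} T (H (r a)) → - T c`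
(`T` is real linear and continuous). Fix `r` small with both errors `< e` and with the points below in
`ball 0 ρ`: on the circle `‖M_r ξ - M_r b‖ ≥ 4 e`, so by `DiffContOnCl.ball_subset_image_closedBall`
`ball (M_r b) (2 e) ⊆ M_r '' closedBall b s`, and `y_r` is in this ball. So there is `ξ` with `ξ.im < 0`
and `M (r ξ) = T (H (r a))`, that is `f (p exp (I r ξ)) = f (p exp (I r a))`, one point outside and one
inside the unit disc: contradiction to `inj`. -/
def StHNZ : Prop := ∀ (k ρ : ℝ) (f h : ℂ → ℂ), Refl k ρ f h → ∀ z, ‖z‖ ≤ 1 → deriv h z ≠ 0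

/-- LH. A nonvanishing homotopy whose start has a continuous logarithm.
PROOF. `exp` is a covering of the nonzero complex numbers: `Complex.isCoveringMap_exp`
(see Pool/Agent/Helper59/CM/M_LOG.lean for its use). Apply `IsCoveringMap.liftHomotopy` with
`A = ↥S`, `I = unitInterval`, the homotopy `(t, z) ↦ ⟨H t z, _⟩` and the lift `l` at `t = 0`; evaluate at
`t = 1`; extend by `0` outside `S`. -/
def StLH : Prop := ∀ (S : Set ℂ) (H : ℝ → ℂ → ℂ),
  ContinuousOn (fun x : ℝ × ℂ => H x.1 x.2) (Icc 0 1 ×ˢ S) →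
  (∀ t ∈ Icc (0 : ℝ) 1, ∀ z ∈ S, H t z ≠ 0) →
  (∃ l : ℂ → ℂ, ContinuousOn l S ∧ ∀ z ∈ S, H 0 z = Complex.exp (l z)) →
  ∃ l : ℂ → ℂ, ContinuousOn l S ∧ ∀ z ∈ S, H 1 z = Complex.exp (l z)

/-- SL. The slope of `h` between `z` and `ci z`.
PROOF. `q z = (h (ci z) - h z) / (ci z - z)` for `‖z‖ ≠ 1` and `q z = deriv h z` for `‖z‖ = 1`;
`ci z - z = (1 - ‖z‖^2) / conj z`, so the formula holds (on the circle both sides are `0`, `ci z = z`).
Continuity: for `‖z‖ > 1` clear (`h` is continuous on the closed ball, `ci z` in the open unit disc);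
at `‖p‖ = 1`: `h` is strictly differentiable at `p`, so for `x, y` near `p`, `x ≠ y`,
`‖(h x - h y)/(x - y) - deriv h p‖ ≤ ε`, and `deriv h` is continuous. Nonvanishing: on the circle by
hypothesis. For `1 < ‖z‖ ≤ ρ`: `ci z` is in the open unit disc, `f z = k₊ h z + k₋ conj (h (ci z))`,
`f (ci z) = k₊ h (ci z) + k₋ conj (h (ci z))`, so `k₊ (h z - h (ci z)) = f z - f (ci z)`; this is not
`0` for `‖z‖ < ρ` by `inj`. For `‖z‖ = ρ`: suppose `f z = f w`, `w = ci z`, `‖w‖ < 1`. `f = T h` is open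
at `w` (`h` is open at `w` since `deriv h w ≠ 0`, `T` is a homeomorphism), so the image of
`ball w e` (inside the unit disc, not near `z`) is a neighbourhood of `f w = f z`; the points `s z`,
`s < 1` close to `1`, satisfy `f (s z) → f z` (continuity of `f` on the closed ball outside the unit
disc), so `f (s z) = f x` with `x` in `ball w e`, `x ≠ s z`, both in `ball 0 ρ`: contradiction. -/
def StSL : Prop := ∀ (k ρ : ℝ) (f h : ℂ → ℂ), Refl k ρ f h → (∀ z, ‖z‖ ≤ 1 → deriv h z ≠ 0) →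
  ∃ q : ℂ → ℂ, ContinuousOn q {z | 1 ≤ ‖z‖ ∧ ‖z‖ ≤ ρ} ∧
    ∀ z, 1 ≤ ‖z‖ → ‖z‖ ≤ ρ → q z ≠ 0 ∧
      h (ci z) - h z = ((1 - ‖z‖ ^ 2 : ℝ) : ℂ) * q z / conj z

/-- OL. The logarithm of `(f (ρ u) - f (u / ρ)) / u` on the unit circle.
PROOF. By LH three times (with `S = sphere 0 1`), starting from a small radius. (1) For small `r > 0`
the function `(f (r u) - f 0) / u = T (h (r u) - h 0) / u` is `r (k₊ c + k₋ conj (c u) / u + o(1))`,
`c = deriv h 0 ≠ 0`, so its quotient by `c` has positive real part (`|k₋| < k₊`), hence the continuous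
logarithm `log (· / c) + log c` (`Complex.log` is continuous on the slit plane). (2) The homotopy
`(f ((1-t) r u + t ρ u) - f 0) / u`, `t ∈ [0,1]`: it does not vanish for radius `< ρ` by `inj`, and
at radius `ρ` because `f z ≠ f w` for `‖z‖ = ρ`, `‖w‖ < 1` (the openness argument in SL: the image under
`f = T h` of a small ball around `w` is a neighbourhood of `f w`, and `f (s z) → f z` as `s → 1-`).
`f` is continuous on the closed ball: it is `T h` on the closed unit disc and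
`k₊ h + k₋ conj (h ∘ ci)` outside, the two formulas agree on the circle. (3) The homotopy
`(f (ρ u) - f (t u / ρ)) / u`, nonvanishing by the same fact. -/
def StOL : Prop := ∀ (k ρ : ℝ) (f h : ℂ → ℂ), Refl k ρ f h → (∀ z, ‖z‖ ≤ 1 → deriv h z ≠ 0) →
  ∃ l : ℂ → ℂ, ContinuousOn l (sphere 0 1) ∧
    ∀ u ∈ sphere (0 : ℂ) 1, (f (ρ * u) - f (u / ρ)) / u = Complex.exp (l u)

/-- LOG. The argument of the slope.
PROOF. Let `q` be from SL. On the circle of radius `ρ`, with `‖u‖ = 1`, `z = ρ u`, `ci z = u / ρ`: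
`k₊ (h z - h (ci z)) = f z - f (ci z)`, so `q (ρ u) = ρ / (k₊ (ρ^2 - 1)) * ((f (ρ u) - f (u / ρ)) / u)`
has a continuous logarithm on the circle by OL (add the real constant). By LH with
`S = {1 ≤ ‖z‖ ≤ ρ}` and `H t z = q (((1 - t) ρ / ‖z‖ + t) z)` (at `t = 0` the point `ρ z / ‖z‖`, at
`t = 1` the point `z`; the norm is `(1-t) ρ + t ‖z‖`, between `1` and `ρ`) there is `l` continuous with
`q = exp l` on `S`. Put `θ z = (l z).im`, `t z = exp (l z).re` for `1 ≤ ‖z‖` and
`θ z = (l (ci z)).im`, `t z = exp (l (ci z)).re` for `‖z‖ < 1`; `θ` is continuous because `ci z = z` on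
the circle and `ci` is continuous off `0`. For `‖z‖ < 1`, `w = ci z`:
`h (ci z) - h z = -(h (ci w) - h w) = (‖w‖^2 - 1) q w / conj w` and `conj w = z⁻¹`, `‖w‖ = ‖z‖⁻¹`,
`(‖z‖^{-2} - 1) z = (1 - ‖z‖^2) / conj z`. -/
def StLOG : Prop := ∀ (k ρ : ℝ) (f h : ℂ → ℂ), Refl k ρ f h →
  ∃ θ t : ℂ → ℝ, ContinuousOn θ {z | ρ⁻¹ ≤ ‖z‖ ∧ ‖z‖ ≤ ρ} ∧
    ∀ z, ρ⁻¹ ≤ ‖z‖ → ‖z‖ ≤ ρ → 0 < t z ∧
      h (ci z) - h z = ((1 - ‖z‖ ^ 2 : ℝ) : ℂ) * (t z : ℂ) * Complex.exp (θ z * I) / conj z

/-- CONE. A holomorphic function whose boundary values avoid two opposite sectors.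
PROOF. We may replace `C` by `|C|`. By the open mapping theorem (`AnalyticOnNhd.is_constant_or_isOpen`)
`g` is constant on `E` (then `0`) or `g '' E` is open. In the second case let `P = {w | C |w.re| < w.im}`
(with `0 ≤ C`), an open convex set. `g '' closure E` is compact, `g '' closure E = g '' E ∪ g '' frontier E`
and `g '' frontier E` does not meet `P`; so `P ∩ g '' E = P ∩ g '' closure E` is open and relatively closed
in the preconnected set `P`. `P` is unbounded and `g '' E` is bounded, so `P ∩ g '' E = ∅`. But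
`0 = g z₀` is in the open set `g '' E`, so `i ε ∈ g '' E ∩ P` for small `ε > 0`: contradiction. -/
def StCONE : Prop := ∀ (E : Set ℂ) (g : ℂ → ℂ) (C : ℝ) (z₀ : ℂ), IsOpen E → IsPreconnected E →
  Bornology.IsBounded E → DifferentiableOn ℂ g E → ContinuousOn g (closure E) →
  (∀ z ∈ frontier E, |(g z).im| ≤ C * |(g z).re|) → z₀ ∈ E → g z₀ = 0 → ∀ z ∈ E, g z = 0

/-- WL (Walsh-Lebesgue for an admissible inclusion). Every continuous function on the boundary is
uniformly close to the imaginary part of a holomorphic function continuous on the closure.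
PROOF. See the modules below: `K` is the boundary, the imaginary parts form a linear subspace of
`C(K, ℝ)`; if it is not dense there is a nonzero continuous linear functional `Λ` vanishing on it
(Hahn-Banach, e.g. `Submodule.exists_le_ker_of_lt_top`-type or `geometric_hahn_banach`, for the closure
of the subspace), `Λ = 0` by DENS, contradiction. Precisely: BALL, POUT, REFL, PIN, KER, NULL give
the hypotheses of DENS. -/
def StWL : Prop := ∀ (Ω D : Set ℂ) (θ : ℂ → ℝ) (ε : ℝ), Admissible Ω D →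
  ContinuousOn θ (frontier D) → 0 < ε →
  ∃ γ : ℂ → ℂ, DifferentiableOn ℂ γ D ∧ ContinuousOn γ (closure D) ∧
    ∀ w ∈ frontier D, |(γ w).im - θ w| < ε

open Classical in
/-- the restriction of a real function to a compact set (`0` if it is not continuous there) -/
noncomputable def rs (K : TopologicalSpace.Compacts ℂ) (g : ℂ → ℝ) : C(K, ℝ) :=
  if h : ContinuousOn g (K : Set ℂ) then ⟨fun x => g x, continuousOn_iff_continuous_domRestrict.1 h⟩
  else 0

/-- the functional vanishes on the imaginary parts of holomorphic functions -/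
def Kills (D : Set ℂ) (K : TopologicalSpace.Compacts ℂ) (L : C(K, ℝ) →L[ℝ] ℝ) : Prop :=
  ∀ γ : ℂ → ℂ, DifferentiableOn ℂ γ D → ContinuousOn γ (closure D) →
    L (rs K fun w => (γ w).im) = 0

/-- uniform tangent balls on both sides of the boundary -/
def Balls (D : Set ℂ) (r : ℝ) : Prop := 0 < r ∧ ∀ p ∈ frontier D, ∃ ν : ℂ, ‖ν‖ = 1 ∧
  ball (p - r * ν) r ⊆ D ∧ Disjoint (ball (p + r * ν) r) (closure D)

/-- BALL. A compact smooth boundary has uniform tangent balls.
PROOF. `frontier D` is compact. For `p ∈ frontier D` take the chart `φ`, `s z = (φ z).im`, smooth on the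
open set `φ.source`; `z ∈ D` iff `0 < s z` there, and for `q ∈ frontier D ∩ φ.source` `s q = 0` (not in
`D` since `D` is open, so `s q ≤ 0`; if `s q < 0` then a neighbourhood of `q` misses `D`); similarly
points with `s z < 0` are not in `closure D`. The derivative of `s` at `p` is not zero (`φ` and `φ.symm`
are differentiable and inverse to each other), so for `q` in a small ball `B = ball p δ ⊆ φ.source`
`‖ds(q)‖ ≥ m > 0` and `|s z - s q - ds(q)(z - q)| ≤ M ‖z - q‖^2` for `z, q ∈ B` (`s` is `C^2`, `ds` is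
Lipschitz near `p`; mean value inequality). For `q ∈ frontier D ∩ ball p (δ/2)` let `-ν` be the unit vector in
the direction of the gradient `G` of `s` at `q` (`ds(q) v = Re (conj G * v)`). For
`z ∈ ball (q - r ν) r` with `2 r < δ/2`: `‖z - q‖^2 < 2 r Re (conj (-ν) (z - q))`, so
`s z ≥ ‖G‖ Re (conj (-ν) (z-q)) - M ‖z-q‖^2 > (m/(2r) - M) ‖z-q‖^2 ≥ 0` if `r ≤ m/(2M)` (and `z ≠ q` is
automatic). Same on the other side with the opposite sign. The property for `r` at `q` implies it for every smaller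
radius (the ball with smaller radius and the same tangent point is contained). Finitely many `p` cover
the frontier (if the frontier is empty take `r = 1`). -/
def StBALL : Prop := ∀ (Ω D : Set ℂ), Admissible Ω D → ∃ r : ℝ, Balls D r

/-- REFL. The logarithmic potential of a functional is small near the boundary if it vanishes outside.
PROOF. `K` is compact, let `p ∈ K` be a nearest point to `z ∈ D` and `t = ‖z - p‖ = infDist z K`, `0 < t`.
`ball z t` does not meet `frontier D` and contains `z ∈ D`, it is connected, so it is in `D`. Let `ν` be from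
`Balls` at `p`. The ball `ball (p + r ν) r` is disjoint from `closure D`, hence from `ball z t`, so
`‖z - (p + r ν)‖ ≥ t + r`; as `‖z - p‖ = t`, `‖p - (p + r ν)‖ = r` equality holds in the triangle
inequality and (strict convexity; or expand: `‖z - p - r ν‖^2 = t^2 + r^2 - 2 r Re ((z-p) conj ν) ≥ (t+r)^2`
gives `Re ((z-p) conj ν) ≤ -t`, with `‖z-p‖ = t`) `z = p - t ν`. Let `z' = p + t ν`: it is in
`ball (p + r ν) r`, so not in `closure D`. For `w ∈ K`, `x = Re ((w - p) conj ν)`: `w` is not in the two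
balls, so `2 r |x| ≤ ‖w - p‖^2`. `‖w - z‖^2 = ‖w-p‖^2 + 2 t x + t^2`, `‖w - z'‖^2 = ‖w-p‖^2 - 2 t x + t^2`.
Each is at least `(1 - t/r) ‖w-p‖^2 + t^2 ≥ ‖w-p‖^2 / 2 + t^2` and they differ by at most `2 t ‖w-p‖^2 / r`, so the
ratio is at most `1 + 4 t / r`, and `|log ‖w-z‖ - log ‖w-z'‖| ≤ (1/2) log (1 + 4t/r) ≤ 2 t / r`.
Now `L (rs K (log ‖· - z'‖)) = 0`, so `|L (rs K (log ‖· - z‖))| ≤ ‖L‖ * (2 t / r)`. -/
def StREFL : Prop := ∀ (D : Set ℂ) (K : TopologicalSpace.Compacts ℂ) (L : C(K, ℝ) →L[ℝ] ℝ) (r : ℝ),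
  IsOpen D → (K : Set ℂ) = frontier D → (K : Set ℂ).Nonempty → Balls D r →
  (∀ z, z ∉ closure D → L (rs K fun w => Real.log ‖w - z‖) = 0) →
  ∀ z ∈ D, infDist z (frontier D) ≤ r / 2 →
    |L (rs K fun w => Real.log ‖w - z‖)| ≤ ‖L‖ * (2 * infDist z (frontier D) / r)

/-- POUT. The logarithmic potential of a functional which kills the holomorphic functions vanishes
outside.
PROOF. `Kills` also holds for real parts (`(I γ).im = γ.re`). Let `V = (closure D)ᶜ`, open. For `z ∈ V` and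
`z'` with `‖z' - z‖ < dist (z, closure D) / 2` the function `γ w = Complex.log (1 - (z' - z)/(w - z))` is
holomorphic near `closure D` and `(γ w).re = log ‖w - z'‖ - log ‖w - z‖`; so `P z = L (rs K (log ‖· - z‖))`
is locally constant on `V`. `V` is preconnected: `StCONN` (Helper65) with `Ω = univ` (`Admissible univ D` follows from
`Admissible Ω D`). For `‖z‖` larger than `2 sup ‖w‖`, `w ∈ closure D`: `log ‖w - z‖ = log ‖z‖ + Re log (1 - w/z)`
and `L` kills constants and `Re log (1 - w/z)`; so `P z = 0`. Such `z` exist in `V`. -/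
def StPOUT : Prop := ∀ (Ω D : Set ℂ) (K : TopologicalSpace.Compacts ℂ) (L : C(K, ℝ) →L[ℝ] ℝ),
  Admissible Ω D → (K : Set ℂ) = frontier D → Kills D K L →
  ∀ z, z ∉ closure D → L (rs K fun w => Real.log ‖w - z‖) = 0

/-- PIN. The logarithmic potential vanishes inside too.
PROOF. `P z = L (rs K (log ‖· - z‖))` on `D`. For `z₀ ∈ D`, `d = infDist z₀ K > 0` and `‖z - z₀‖ < d`:
`log ‖w - z‖ = log ‖w - z₀‖ - Re ∑_{n ≥ 1} ((z - z₀)/(w - z₀))^n / n` uniformly in `w ∈ K` for `‖z - z₀‖ ≤ d' < d`,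
so `P z = P z₀ - Re ∑ a_n (z - z₀)^n` with `a_n = (L (Re (w-z₀)^{-n}) - ... )`; i.e. `P` is near `z₀` the real
part of a holomorphic function: with `Lc : C(K, ℂ) → ℂ`, `Lc g = L (re g) + I L (im g)`, the function
`F z = P z₀ - ∑ Lc ((w - z₀)^{-n}) (z - z₀)^n / n`. (Alternatively: `P` is differentiable with derivative
`dP(v) = - L (Re (v / (w - z)))`, and `Q z = - (L (Re 1/(w-z)) - I L (Re I/(w-z)))` is continuous and
satisfies the Cauchy-Riemann equations.) By hypothesis `|P z| ≤ A infDist z K` when `infDist z K ≤ r/2`. Suppose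
`P` takes a positive value (replace `L` by `-L` for a negative value). Then `P` attains its maximum `M > 0`
over `D` at a point of the compact set `{z ∈ D | infDist z K ≥ d₀}` (`closure D` is compact). At every point where `P = M` the
function `exp F` (`P = Re F` near the point) has a local maximum of the norm, so it is locally constant
(`Complex.eventually_eq_of_isLocalMax_norm`), so `P = M` nearby: `{P = M}` is open and closed in the
connected set `D`, so `P = M` on `D`; but `P → 0` at the boundary, and `D` has points arbitrarily near `K`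
(`K` is nonempty). Contradiction. -/
def StPIN : Prop := ∀ (D : Set ℂ) (K : TopologicalSpace.Compacts ℂ) (L : C(K, ℝ) →L[ℝ] ℝ) (r A : ℝ),
  IsOpen D → IsConnected D → IsCompact (closure D) → (K : Set ℂ) = frontier D →
  (K : Set ℂ).Nonempty → 0 < r →
  (∀ z ∈ D, infDist z (frontier D) ≤ r →
    |L (rs K fun w => Real.log ‖w - z‖)| ≤ A * infDist z (frontier D)) →
  ∀ z ∈ D, L (rs K fun w => Real.log ‖w - z‖) = 0

/-- KER. If the logarithmic potential vanishes off `K`, so do the Cauchy transforms.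
PROOF. Fix `z ∉ K`, `c`, `d = infDist z K > 0` (or any positive number if `K` is empty). For real `s ≠ 0` small the point `z + s c` is not in `K`
and `|log ‖w - z - s c‖ - log ‖w - z‖ + Re (s c/(w - z))| ≤ ‖s c/(w-z)‖^2 ≤ s^2 ‖c‖^2 / d^2` for `w ∈ K` (from
`‖log (1 - x) + x‖ ≤ ‖x‖^2` for `‖x‖ ≤ 1/2`). Apply `L`, linearity, and both potentials are `0`:
`|L (Re (s c/(w-z)))| ≤ ‖L‖ s^2 ‖c‖^2/d^2`; divide by `s` and let `s → 0`. -/
def StKER : Prop := ∀ (K : TopologicalSpace.Compacts ℂ) (L : C(K, ℝ) →L[ℝ] ℝ),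
  (∀ z, z ∉ (K : Set ℂ) → L (rs K fun w => Real.log ‖w - z‖) = 0) →
  ∀ z, z ∉ (K : Set ℂ) → ∀ c : ℂ, L (rs K fun w => (c / (w - z)).re) = 0

/-- POMP (Cauchy-Pompeiu for a test function).
PROOF. Put `z = w + r e^{i a}` (polar coordinates `Complex.integral_comp_polarCoord_symm`, after the
translation `integral_add_left_eq_self`): `(∇Φ(z) / (w - z)).re = - (∂/∂r Φ (w + r e^{i a})) / r`, because
`((g₁ + i g₂) / (-r e^{i a})).re = - (g₁ cos a + g₂ sin a) / r`. With the Jacobian `r` the integral is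
`- ∫_a ∫_{0}^{∞} ∂/∂r Φ (w + r e^{i a}) dr da = ∫_a Φ w da = 2 π Φ w` (Fubini on `Ioi 0 ×ˢ Ioo (-π) π`: the
integrand is continuous with bounded support; `integral_Ioi_of_hasDerivAt_of_tendsto`). -/
def StPOMP : Prop := ∀ Φ : ℂ → ℝ, ContDiff ℝ ∞ Φ → HasCompactSupport Φ → ∀ w : ℂ,
  ∫ z, (((fderiv ℝ Φ z 1 : ℂ) + I * (fderiv ℝ Φ z I : ℂ)) / (w - z)).re = 2 * Real.pi * Φ w

/-- SMALL. The kernel `1/|w - z|` on a small set.
PROOF. On the part of `S` outside `ball w s` the kernel is at most `1/s`; on `ball w s` the integral of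
`1/‖w - z‖` is `2 π s` (polar coordinates, or the layer cake; any bound `C s` is enough: `∑ over dyadic
rings`, `ball w (s 2^{-j}) \ ball w (s 2^{-j-1})` has kernel `≤ 2^{j+1}/s` and area `≤ π s^2 4^{-j}`, sum `4 π s`). So the
integral is at most `4 π s + (volume S)/s` for every `s > 0`. -/
def StSMALL : Prop := ∀ (S : Set ℂ) (w : ℂ) (s : ℝ), MeasurableSet S → volume S ≠ ⊤ → 0 < s →
  ∫ z in S, ‖(w - z)⁻¹‖ ≤ 4 * Real.pi * s + (volume S).toReal / s ∧
  IntegrableOn (fun z => (w - z)⁻¹) S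

/-- NULL. The boundary has measure zero.
PROOF. `frontier D` is compact; for `p ∈ frontier D` with chart `φ`, `frontier D ∩ φ.source` is contained in
`φ.symm '' (box ∩ {im = 0})` (a point of the frontier is not in `D` so `im ≤ 0`, and `im < 0` would give a
neighbourhood disjoint from `D`), the image of a null set under a map differentiable on it
(`MeasureTheory.addHaar_image_eq_zero_of_differentiableOn_of_addHaar_eq_zero`). Finite subcover. -/
def StNULL : Prop := ∀ (Ω D : Set ℂ), Admissible Ω D → volume (frontier D) = 0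

/-- DENS. A functional which kills the Cauchy kernels is zero.
PROOF. Let `Φ` be smooth with compact support, `S₀ = tsupport Φ`,
`g z = (fderiv ℝ Φ z 1 : ℂ) + I * (fderiv ℝ Φ z I : ℂ)`, continuous with compact support, `‖g‖ ≤ B`. Let
`S_n = {z ∈ S₀ | infDist z K < 1/(n+1)}`, `S_n` decreases to `S₀ ∩ K`, measure zero, so `volume S_n → 0`
(`tendsto_measure_iInter`, finite measures). By POMP for `w ∈ K`:
`2 π Φ w = ∫_{S₀ \ S_n} (g z/(w-z)).re + ∫_{S_n} (g z/(w-z)).re`. The first integral is, as a function of `w ∈ K`, the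
Bochner integral in `C(K, ℝ)` of `z ↦ rs K (fun w => (g z/(w - z)).re)`, continuous on the compact set
`{z ∈ S₀ | infDist z K ≥ 1/(n+1)}` with values in `C(K, ℝ)`; so `L` of it is
`∫ L (…) = 0` (`ContinuousLinearMap.integral_comp_comm`; evaluation at `w` is a continuous linear map). The
second has sup norm at most `B (4 π s + volume S_n / s)` by SMALL; with `s = sqrt (volume S_n)` (or `s` fixed small and
`n` large) it is as small as we like. So `L (rs K Φ) = 0`. The restrictions of smooth compactly supported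
functions are dense in `C(K, ℝ)`: extend (Tietze, `ContinuousMap.exists_restrict_eq`) to a continuous
function of `ℂ`, approximate it uniformly on `K` by a smooth function (`ContinuousMap.dense_setOfPred_contDiff` or
`Continuous.exists_contDiff_dist_le_of_forall_mem_ball_dist_le`), multiply by a smooth compactly supported
function equal to `1` on `K` (`exists_contDiff_tsupport_subset` or a bump function on a large ball). So `L = 0`. -/
def StDENS : Prop := ∀ (K : TopologicalSpace.Compacts ℂ) (L : C(K, ℝ) →L[ℝ] ℝ),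
  volume (K : Set ℂ) = 0 →
  (∀ z, z ∉ (K : Set ℂ) → ∀ c : ℂ, L (rs K fun w => (c / (w - z)).re) = 0) → L = 0

/-- CORE. `E` is the second inclusion, `Z` the inverse of `ψ` near the closure of `E`, `G` the
difference of the interior potentials.
PROOF. Let `a₊ = kp k`, `a₋ = km k`, `|a₋| < a₊`, `a₋ ≠ 0`. Choose `ε ∈ (0, π/2)` with
`a₊ cos ε > |a₋|`. `θ ∘ Z` is continuous on `frontier E`; by WL there is `γ` with `|(γ z).im - θ (Z z)| < ε` on
the frontier. Let `g z = Z z * G z * exp (γ z)`. For `z ∈ frontier E`, `ζ = Z z`, `δ = h (ci ζ) - h ζ`: inverting `T`: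
`G = (a₋ / k) (a₊ conj δ - a₋ δ)` (if `T G = a₋ conj δ` then `k G = a₊ T G - a₋ conj (T G)`, `a₊^2 - a₋^2 = k`), and
`conj δ = (1 - ‖ζ‖^2) t exp (-iθ) / ζ`, so
`ζ G = (a₋/k) (1 - ‖ζ‖^2) t exp (-iθ) b`, `b = a₊ - a₋ exp (2iθ) ζ / conj ζ`, `‖b - a₊‖ = |a₋|`. So
`g z = x * (exp (i η) b)` with `x = (a₋/k) (1 - ‖ζ‖^2) t exp ((γ z).re)` real and `η = (γ z).im - θ`, `|η| < ε`:
`Re (exp (i η) b) ≥ a₊ cos η - |a₋| ≥ a₊ cos ε - |a₋| > 0` and `|Im (exp (i η) b)| ≤ a₊ + |a₋|`; so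
`|Im g| ≤ C |Re g|`, `C = (a₊ + |a₋|)/(a₊ cos ε - |a₋|)`. `g z₀ = 0`. By CONE `g = 0` on `E`, so on `closure E` by
continuity, so `G = 0` on the frontier (`‖Z z‖ ≥ ρ⁻¹ > 0`), so `δ = 0`, `(1 - ‖ζ‖^2) t = 0`, `‖ζ‖ = 1`. -/
def StCORE : Prop := ∀ (Ω E : Set ℂ) (k ρ : ℝ) (h Z G : ℂ → ℂ) (θ t : ℂ → ℝ) (z₀ : ℂ),
  Admissible Ω E → 0 < k → k ≠ 1 → 1 < ρ →
  DifferentiableOn ℂ Z E → ContinuousOn Z (closure E) → z₀ ∈ E → Z z₀ = 0 →
  (∀ z ∈ frontier E, ρ⁻¹ ≤ ‖Z z‖ ∧ ‖Z z‖ ≤ ρ) →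
  ContinuousOn θ {ζ | ρ⁻¹ ≤ ‖ζ‖ ∧ ‖ζ‖ ≤ ρ} →
  (∀ ζ, ρ⁻¹ ≤ ‖ζ‖ → ‖ζ‖ ≤ ρ → 0 < t ζ ∧
    h (ci ζ) - h ζ = ((1 - ‖ζ‖ ^ 2 : ℝ) : ℂ) * (t ζ : ℂ) * Complex.exp (θ ζ * I) / conj ζ) →
  DifferentiableOn ℂ G E → ContinuousOn G (closure E) →
  (∀ z ∈ frontier E, TT k (G z) = km k * conj (h (ci (Z z)) - h (Z z))) →
  ∀ z ∈ frontier E, ‖Z z‖ = 1

/-- ANN. Removing a conformal closed disc does not disconnect.
PROOF. Suppose `W \ N`, `N = ψ '' closedBall 0 s`, is the union of two disjoint sets, open in it and nonempty; as `N` is compact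
`W \ N` is open and so are the two sets `U₁`, `U₂`. The ring `R = ψ '' (ball 0 s' \ closedBall 0 s)` is
connected (image of an annulus) and contained in `W \ N` (injectivity), so in `U₁`, say. Then
`U₁ ∪ N = U₁ ∪ ψ '' ball 0 s'` is open (open mapping, or INV), disjoint from `U₂`, and `U₁ ∪ N ∪ U₂ = W`:
contradiction. (The annulus is preconnected: image of `(s, s') × sphere` or of `(s,s') × ℝ` under
`(r, a) ↦ r exp (i a)`.) -/
def StANN : Prop := ∀ (W : Set ℂ) (ψ : ℂ → ℂ) (s s' : ℝ), IsOpen W → IsPreconnected W → 0 < s →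
  s < s' → DifferentiableOn ℂ ψ (ball 0 s') → InjOn ψ (ball 0 s') → ψ '' ball 0 s' ⊆ W →
  IsPreconnected (W \ ψ '' closedBall 0 s)

/-- REAL. Two holomorphic functions conjugate on the circle are constant.
PROOF. On the circle `L + h` is real and `I (L - h)` is real (`L - h = conj h - h`). A function `F` holomorphic in a neighbourhood
of the closed unit disc and real on the circle is constant on the disc: `exp (I F)` and `exp (-I F)` have
norm `1` on the circle, so norm `≤ 1` inside (`Complex.norm_le_of_forall_mem_frontier_norm_le`), so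
`F.im = 0` inside, and a real valued holomorphic function on the (connected) ball is constant (open mapping,
`AnalyticOnNhd.is_constant_or_isOpen`, or Cauchy-Riemann). So `L + h` and `L - h` are constant, `h` too. -/
def StREAL : Prop := ∀ (ρ : ℝ) (h L : ℂ → ℂ), 1 < ρ → DifferentiableOn ℂ h (ball 0 ρ) →
  DifferentiableOn ℂ L (ball 0 ρ) → (∀ ζ, ‖ζ‖ = 1 → L ζ = conj (h ζ)) →
  ∃ c : ℂ, ∀ ζ ∈ ball (0 : ℂ) 1, h ζ = c

/-- EXTD. The interior potential continues to the disc of radius `ρ`.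
PROOF. `D = ψ '' ball 0 1` is open (open mapping: INV), `closure D = ψ '' closedBall 0 1` (the image of the closed disc
is compact, hence closed, and contained in the closure of the image of the open disc). By `StHOL` (Helper65)
`FF u v` is holomorphic on `Ω \ closure D` and `HH k u v` on `D`. Both are continuous on `Ω` (`IsPotential`).
Put `h ζ = HH (ψ ζ)` for `‖ζ‖ ≤ 1` and `h ζ = (FF (ψ ζ) - k₋ conj (HH (ψ (ci ζ)))) / k₊` for `‖ζ‖ > 1`. On the
circle the second formula also gives `HH (ψ ζ)`, because `FF = T HH` pointwise (`T (x + i y) = x + i k y`, `k ≠ 0`) and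
`ci ζ = ζ`; so `h` is continuous on `ball 0 ρ`. It is holomorphic in `ball 0 1`, and for `1 < ‖ζ‖ < ρ`:
`ψ ζ ∉ closure D` (injectivity), and `ζ ↦ conj (H (ci ζ))` is holomorphic if `H` is
(`ci ζ = conj (ζ⁻¹)`). CIRC. -/
def StEXTD : Prop := ∀ (Ω : Set ℂ) (k ρ : ℝ) (u v : ℂ → ℝ) (ψ : ℂ → ℂ), IsOpen Ω → 0 < k → 1 < ρ →
  DifferentiableOn ℂ ψ (ball 0 ρ) → InjOn ψ (ball 0 ρ) → ψ '' ball 0 ρ ⊆ Ω →
  IsPotential Ω (ψ '' ball 0 1) k u v →
  ∃ h : ℂ → ℂ, DifferentiableOn ℂ h (ball 0 ρ) ∧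
    (∀ ζ ∈ closedBall (0 : ℂ) 1, h ζ = HH k u v (ψ ζ)) ∧
    (∀ ζ ∈ closedBall (0 : ℂ) 1, FF u v (ψ ζ) = TT k (h ζ)) ∧
    (∀ ζ ∈ ball (0 : ℂ) ρ, 1 ≤ ‖ζ‖ → FF u v (ψ ζ) = kp k * h ζ + km k * conj (h (ci ζ)))

/-- the setting of the topological modules: `F` is the field of the first inclusion `ψ '' ball 0 1`,
`F'` the field of the second inclusion `D'`, they agree near the boundary of `Ω` -/
structure Pair (Ω D' : Set ℂ) (k ρ : ℝ) (ψ h F F' : ℂ → ℂ) : Prop where
  open_Ω : IsOpen Ω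
  conn_Ω : IsConnected Ω
  adm' : Admissible Ω D'
  k_pos : 0 < k
  k_ne : k ≠ 1
  one_lt : 1 < ρ
  diffψ : DifferentiableOn ℂ ψ (ball 0 ρ)
  injψ : InjOn ψ (ball 0 ρ)
  subψ : ψ '' ball 0 ρ ⊆ Ω
  diffh : DifferentiableOn ℂ h (ball 0 ρ)
  holF : DifferentiableOn ℂ F (Ω \ ψ '' closedBall 0 1)
  inside : ∀ ζ ∈ closedBall (0 : ℂ) 1, F (ψ ζ) = TT k (h ζ)
  outside : ∀ ζ ∈ ball (0 : ℂ) ρ, 1 ≤ ‖ζ‖ → F (ψ ζ) = kp k * h ζ + km k * conj (h (ci ζ))
  inj : InjOn (fun ζ => F (ψ ζ)) (ball 0 ρ)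
  contF' : ContinuousOn F' Ω
  holF' : DifferentiableOn ℂ F' (Ω \ closure D')
  near : ∃ C : Set ℂ, IsCompact C ∧ C ⊆ Ω ∧ ψ '' closedBall 0 1 ∪ closure D' ⊆ C ∧
    ∀ z ∈ Ω \ C, F z = F' z

/-- HAT. The continuation of `F` into the first inclusion.
PROOF. `Fh z = F z` for `z ∉ ψ '' closedBall 0 1`, `Fh z = Φ (Z z)` for `z ∈ ψ '' ball 0 ρ`, where
`Φ ζ = k₊ h ζ + k₋ conj (h (ci ζ))`, holomorphic for `ρ⁻¹ < ‖ζ‖ < ρ`, and `Z` is the inverse of `ψ` (INV); for
`1 ≤ ‖ζ‖ < ρ` both formulas agree by `outside`. `Ω \ ψ '' closedBall 0 ρ⁻¹` is the union of the open sets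
`Ω \ ψ '' closedBall 0 1` and `ψ '' (ball 0 ρ \ closedBall 0 ρ⁻¹)`. -/
def StHAT : Prop := ∀ (Ω D' : Set ℂ) (k ρ : ℝ) (ψ h F F' : ℂ → ℂ), Pair Ω D' k ρ ψ h F F' →
  ∃ Fh : ℂ → ℂ, DifferentiableOn ℂ Fh (Ω \ ψ '' closedBall 0 ρ⁻¹) ∧
    (∀ z ∈ Ω, z ∉ ψ '' closedBall 0 1 → Fh z = F z) ∧
    ∀ ζ ∈ ball (0 : ℂ) ρ, ρ⁻¹ < ‖ζ‖ → Fh (ψ ζ) = kp k * h ζ + km k * conj (h (ci ζ))

/-- TOPA. The position of the second inclusion and the field on its boundary.
PROOF. `N = ψ '' closedBall 0 s` is connected and does not meet `frontier D'`, so `N ⊆ D'` or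
`N ∩ closure D' = ∅` (`D'` and the complement of `closure D'` are disjoint open sets covering `N`).
Let `W = Ω \ closure D'`, open and preconnected (`StCONN` of Helper65), `F'` is holomorphic on `W`, `Fh` from HAT.
There is a point of `Ω \ C` (`Ω` is open, connected, nonempty and `C ⊆ Ω` is compact: otherwise `Ω = C` is clopen, so all
of `ℂ`, not compact); near it `F' = F = Fh` (it is not in `ψ '' closedBall 0 1`).
Case 1, `N ⊆ D'`: `W ⊆ Ω \ ψ '' closedBall 0 ρ⁻¹`, identity theorem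
(`AnalyticOnNhd.eqOn_of_preconnected_of_eventuallyEq`): `F' = Fh` on `W`. Let `ψ ζ ∈ frontier D'`, `‖ζ‖ < ρ`;
`ζ ∉ closedBall 0 s` (else `ψ ζ ∈ N ⊆ D'`, `D'` open), so `‖ζ‖ > s > ρ⁻¹` and `Fh` is continuous at `ψ ζ`; `ψ ζ` is in the closure of
`W` (`StHALF` of Helper65 with `C = ∅`), so `F' (ψ ζ) = Fh (ψ ζ)` by continuity.
Case 2, `N ∩ closure D' = ∅`: let `ρ⁻¹ < s₀ < s`. `ψ '' ball 0 s ⊆ W`, by ANN `W \ ψ '' closedBall 0 s₀` is
preconnected; it is contained in the domain of `Fh` and contains the point of `Ω \ C` (as `C` contains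
`ψ '' closedBall 0 1`, `s₀ < 1`), so `F' = Fh` on it; for `s₀ < ‖ζ‖ < s`:
`F' (ψ ζ) = k₊ h ζ + k₋ conj (h (ci ζ))`. Put `L ζ = (F' (ψ ζ) - k₊ h ζ) / k₋` for `‖ζ‖ < s` and
`L ζ = conj (h (ci ζ))` for `s₀ < ‖ζ‖ < ρ` (`k₋ ≠ 0`): well defined, holomorphic on `ball 0 ρ`, equal to `conj h` on the
circle. By REAL `h` is constant on `ball 0 1`, so `F ∘ ψ = T h` is constant there, contradiction to `inj`. -/
def StTOPA : Prop := ∀ (Ω D' : Set ℂ) (k ρ s : ℝ) (ψ h F F' : ℂ → ℂ), Pair Ω D' k ρ ψ h F F' →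
  ρ⁻¹ < s → s < 1 → Disjoint (frontier D') (ψ '' closedBall 0 s) →
  ψ '' closedBall 0 s ⊆ D' ∧
  ∀ ζ ∈ ball (0 : ℂ) ρ, ψ ζ ∈ frontier D' → F' (ψ ζ) = kp k * h ζ + km k * conj (h (ci ζ))

/-- TOPB. The same when `ψ` maps onto `Ω` and `f = F ∘ ψ` does not continue across the circle of
radius `ρ`.
PROOF. Let `f' = F' ∘ ψ`, holomorphic on `W = {ζ ∈ ball 0 ρ | ψ ζ ∉ closure D'}`, which is open and preconnected (the
image under the inverse `Z` of `Ω \ closure D'`, INV, `StCONN`), `Φ ζ = k₊ h ζ + k₋ conj (h (ci ζ))`, holomorphic on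
`R = {ρ⁻¹ < ‖ζ‖ < ρ}`. Let `S = {ζ ∈ W | ρ⁻¹ < ‖ζ‖ ∧ f' = Φ near ζ}`: open; nonempty: there is a point `z ∈ Ω \ C`
(see TOPA), `ζ = Z z` has `‖ζ‖ > 1` (as `ψ '' closedBall 0 1 ⊆ C`), near `z` `F = F'` and near `ζ` `F ∘ ψ = Φ`.
CLAIM: `W ∩ closedBall 0 ρ⁻¹ = ∅`. Suppose not, then `S ≠ W`, and as `W` is preconnected `S` is not closed in `W`: there is
`ζ₁ ∈ W ∩ closure S`, `ζ₁ ∉ S`. If `‖ζ₁‖ > ρ⁻¹` a small ball around `ζ₁` in `W ∩ R` meets `S`, so `f' = Φ` on it
(identity theorem), so `ζ₁ ∈ S`. So `‖ζ₁‖ = ρ⁻¹` (closure of `S`). Let `B = ball ζ₁ e ⊆ W`, with `e < ρ⁻¹`. The set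
`B \ closedBall 0 ρ⁻¹` is preconnected (e.g. it is star shaped: the points of `B` of norm `> ρ⁻¹`; the segment from
such a point to `(1 + η) ζ₁` with small `η`… or: it is the union of radial-then-circular arcs; simplest: for
`x` in the set the segment `[x, ζ₁ + τ ζ₁]`… any proof) and meets `S`, so `f' = Φ` on it. [One clean way: let `x ∈ S` be in `B`.
For `y ∈ B`, `‖y‖ > ρ⁻¹`, move both `x` and `y` by adding `τ ζ₁`, `τ ≥ 0`: as the inner product of `x` with `ζ₁` is positive for `e < ρ⁻¹` small the norm increases; choose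
a point set `{ζ | Re (ζ conj ζ₁) > ρ^{-2}} ∩ B`, which is convex and contained in the set, and every `x` in the set is connected to it by
the path `x + τ ζ₁` inside `B ∩ {‖·‖ > ρ⁻¹}` if `e` is small; alternatively use the smaller neighbourhood
`{r e^{i a} ζ₁ / ‖ζ₁‖ : |r - ρ⁻¹| < e', |a| < e'}` of `ζ₁` instead of a ball: its part `r > ρ⁻¹` is the image
of a rectangle, so connected.] Let `V = {ζ | ci ζ ∈ B', ζ ≠ 0}` for this neighbourhood `B'` of `ζ₁`, an open neighbourhood of `ci ζ₁`, whose norm is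
`ρ`, and `g ζ = k₊ conj ((f' (ci ζ) - k₊ h (ci ζ)) / k₋) + k₋ conj (h (ci ζ))` for `ζ ∈ V`: holomorphic; if moreover `‖ζ‖ < ρ`
then `w = ci ζ ∈ B'`, `‖w‖ > ρ⁻¹`, so `(f' w - k₊ h w)/k₋ = conj (h (ci w)) = conj (h ζ)` and
`g ζ = k₊ h ζ + k₋ conj (h (ci ζ)) = f ζ` (shrink `B'` so that `‖ζ‖ ≥ 1` on `V`). This contradicts `hext`. So the claim holds, and
`W ⊆ R`, `f' = Φ` on `W` (identity theorem on the preconnected `W`). First conclusion: `ψ ζ ∈ closure D'` for `‖ζ‖ ≤ ρ⁻¹`.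
Second: let `ψ ζ ∈ frontier D'`, `‖ζ‖ < ρ`; `ψ '' ball 0 ρ⁻¹` is open and contained in `closure D'`, so in
`interior (closure D') = D'` (`StINT` of Helper65, proof there from `StHALF`), so `‖ζ‖ ≥ ρ⁻¹`. `Φ` is continuous on `{ρ⁻¹ ≤ ‖ζ‖ < ρ}` because `h` is
continuous on `closedBall 0 ρ` (`conth`), `f'` is continuous on `ball 0 ρ`, and `ζ` is in the closure of `W` (`StHALF` with
`C = ∅` and `Z` continuous). So `f' ζ = Φ ζ`. -/
def StTOPB : Prop := ∀ (Ω D' : Set ℂ) (k ρ : ℝ) (ψ h F F' : ℂ → ℂ), Pair Ω D' k ρ ψ h F F' →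
  ψ '' ball 0 ρ = Ω → ContinuousOn h (closedBall 0 ρ) →
  (∀ V : Set ℂ, IsOpen V → (V ∩ sphere 0 ρ).Nonempty →
    ¬ ∃ g : ℂ → ℂ, DifferentiableOn ℂ g V ∧ ∀ ζ ∈ V ∩ ball 0 ρ, g ζ = F (ψ ζ)) →
  ψ '' closedBall 0 ρ⁻¹ ⊆ closure D' ∧
  ∀ ζ ∈ ball (0 : ℂ) ρ, ψ ζ ∈ frontier D' → F' (ψ ζ) = kp k * h ζ + km k * conj (h (ci ζ))

/-- FIN. An inclusion whose boundary is on the boundary of the first one.
PROOF. `frontier D' ⊆ ψ '' sphere 0 1`. `ψ '' ball 0 1` is connected, contains `ψ 0 ∈ D'` and does not meet `frontier D'`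
(injectivity), so it is contained in `D'`. The ring `R = ψ '' (ball 0 ρ \ closedBall 0 1)` is connected, does not meet
`frontier D'`, so `R ⊆ D'` or `R ∩ D' = ∅`. The first is impossible: `closure D'` is a compact subset of the open set `ψ '' ball 0 ρ`,
its preimage `K'` under `ψ` in `ball 0 ρ` is compact (inverse continuous, INV), so it is contained in
`closedBall 0 ρ'` with `ρ' < ρ` and the points of `R` with norm between `ρ'` and `ρ` are not in `closure D'`. So
`D' ⊆ ψ '' closedBall 0 1`; `D'` is open and so is its preimage, contained in `closedBall 0 1`, hence in the interior `ball 0 1`. -/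
def StFIN : Prop := ∀ (D' : Set ℂ) (ρ : ℝ) (ψ : ℂ → ℂ), 1 < ρ → DifferentiableOn ℂ ψ (ball 0 ρ) →
  InjOn ψ (ball 0 ρ) → IsOpen D' → IsCompact (closure D') → closure D' ⊆ ψ '' ball 0 ρ → ψ 0 ∈ D' →
  (∀ ζ ∈ ball (0 : ℂ) ρ, ψ ζ ∈ frontier D' → ‖ζ‖ = 1) → D' = ψ '' ball 0 1

/-- MAINA. -/
def StMAINA : Prop := ∀ (Ω D' : Set ℂ) (k ρ : ℝ) (u v u' v' : ℂ → ℝ) (ψ : ℂ → ℂ),
  IsOpen Ω → IsConnected Ω → Bornology.IsBounded Ω → SmoothBoundary Ω → 0 < k → k ≠ 1 → 1 < ρ →
  DifferentiableOn ℂ ψ (ball 0 ρ) → InjOn ψ (ball 0 ρ) → ψ '' ball 0 ρ ⊆ Ω →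
  Admissible Ω D' → (ψ 0 ∈ D' → closure D' ⊆ ψ '' ball 0 ρ) →
  Disjoint (frontier D') (ψ '' closedBall 0 ρ⁻¹) →
  IsPotential Ω (ψ '' ball 0 1) k u v → IsPotential Ω D' k u' v' → SameData Ω u v u' v' →
  InjOn (fun ζ => FF u v (ψ ζ)) (ball 0 ρ) → D' = ψ '' ball 0 1

/-- MAINB. -/
def StMAINB : Prop := ∀ (Ω D' : Set ℂ) (k ρ : ℝ) (u v u' v' : ℂ → ℝ) (ψ f : ℂ → ℂ),
  IsOpen Ω → IsConnected Ω → Bornology.IsBounded Ω → SmoothBoundary Ω → 0 < k → k ≠ 1 → 1 < ρ →
  DifferentiableOn ℂ ψ (ball 0 ρ) → InjOn ψ (ball 0 ρ) → ψ '' ball 0 ρ = Ω →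
  Admissible Ω D' →
  IsPotential Ω (ψ '' ball 0 1) k u v → IsPotential Ω D' k u' v' → SameData Ω u v u' v' →
  InjOn (fun ζ => FF u v (ψ ζ)) (ball 0 ρ) →
  ContinuousOn f (closedBall 0 ρ) → (∀ ζ ∈ ball (0 : ℂ) ρ, f ζ = FF u v (ψ ζ)) →
  (∀ V : Set ℂ, IsOpen V → (V ∩ sphere 0 ρ).Nonempty →
    ¬ ∃ g : ℂ → ℂ, DifferentiableOn ℂ g V ∧ ∀ ζ ∈ V ∩ ball 0 ρ, g ζ = f ζ) →
  D' = ψ '' ball 0 1

end Pool.Agent.Helper49.DF
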