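import Mathlib
import Pool.Agent.Helper49.DF.St

/-!
# Project DF, module POMP: Cauchy-Pompeiu for a test function
-/

set_option autoImplicit false

open Set Filter Topology MeasureTheory Complex Metric
open scoped ContDiff ComplexConjugate

namespace Pool.Agent.Helper49.DF

/-- unit vector -/
private noncomputable def ev_POMP (a : ℝ) : ℂ := (Real.cos a : ℂ) + (Real.sin a : ℂ) * I

private lemma cont_ev_POMP : Continuous ev_POMP := by
  unfold ev_POMP
  fun_prop

private lemma norm_ev_POMP (a : ℝ) : ‖ev_POMP a‖ = 1 := by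
  unfold ev_POMP
  rw [Complex.ofReal_cos, Complex.ofReal_sin]
  exact Complex.norm_cos_add_sin_mul_I a

private lemma re_calc_POMP (a r p q : ℝ) (hr : 0 < r) (w : ℂ) :
    r * ((((p : ℝ) : ℂ) + I * ((q : ℝ) : ℂ)) / (w - (w + (r : ℂ) * ev_POMP a))).re
      = -(p * Real.cos a + q * Real.sin a) := by
  have h1 : w - (w + (r : ℂ) * ev_POMP a) = -((r : ℂ) * ev_POMP a) := by ring
  have hcs := Real.sin_sq_add_cos_sq a
  have hinv : (-((r : ℂ) * ev_POMP a))⁻¹ = -((r : ℂ)⁻¹ * ((Real.cos a : ℂ) - (Real.sin a : ℂ) * I)) := by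
    have hr' : (r : ℂ) ≠ 0 := by exact_mod_cast hr.ne'
    apply inv_eq_of_mul_eq_one_right
    unfold ev_POMP
    have h2 : (Real.cos a : ℂ) ^ 2 + (Real.sin a : ℂ) ^ 2 = 1 := by
      rw [← Complex.ofReal_pow, ← Complex.ofReal_pow, ← Complex.ofReal_add, add_comm, hcs,
        Complex.ofReal_one]
    have h3 : -((r : ℂ) * ((Real.cos a : ℂ) + (Real.sin a : ℂ) * I))
        * -((r : ℂ)⁻¹ * ((Real.cos a : ℂ) - (Real.sin a : ℂ) * I))
        = ((r : ℂ) * (r : ℂ)⁻¹) * ((Real.cos a : ℂ) ^ 2 - (Real.sin a : ℂ) ^ 2 * I ^ 2) := by ring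
    rw [h3, Complex.I_sq, mul_inv_cancel₀ hr']
    linear_combination h2
  rw [h1, div_eq_mul_inv, hinv]
  have hrinv : ((r : ℂ))⁻¹ = ((r⁻¹ : ℝ) : ℂ) := by push_cast; rfl
  rw [hrinv]
  simp only [Complex.mul_re, Complex.add_re, Complex.add_im, Complex.ofReal_re, Complex.ofReal_im,
    Complex.I_re, Complex.I_im, Complex.mul_im, Complex.neg_re, Complex.neg_im, Complex.sub_re,
    Complex.sub_im]
  field_simp
  ring

/-- the radial derivative -/
private noncomputable def hh_POMP (Φ : ℂ → ℝ) (w : ℂ) (p : ℝ × ℝ) : ℝ :=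
  - (fderiv ℝ Φ (w + (p.1 : ℂ) * ev_POMP p.2)) (ev_POMP p.2)

private lemma cont_hh_POMP (Φ : ℂ → ℝ) (hΦ : ContDiff ℝ ∞ Φ) (w : ℂ) :
    Continuous (hh_POMP Φ w) := by
  unfold hh_POMP
  have h1 : Continuous (fderiv ℝ Φ) := hΦ.continuous_fderiv (by simp)
  have h2 : Continuous fun p : ℝ × ℝ => ev_POMP p.2 := cont_ev_POMP.comp continuous_snd
  have h3 : Continuous fun p : ℝ × ℝ => w + (p.1 : ℂ) * ev_POMP p.2 :=
    continuous_const.add ((Complex.continuous_ofReal.comp continuous_fst).mul h2)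
  exact ((h1.comp h3).clm_apply h2).neg

private lemma fd_lin_POMP (Φ : ℂ → ℝ) (z : ℂ) (a : ℝ) :
    (fderiv ℝ Φ z) (ev_POMP a) = fderiv ℝ Φ z 1 * Real.cos a + fderiv ℝ Φ z I * Real.sin a := by
  have : ev_POMP a = (Real.cos a) • (1 : ℂ) + (Real.sin a) • I := by
    unfold ev_POMP
    simp only [Complex.real_smul, mul_one]
  rw [this, map_add, map_smul, map_smul]
  simp only [smul_eq_mul]
  ring

private lemma supp_POMP (Φ : ℂ → ℝ) (hc : HasCompactSupport Φ) (w : ℂ) :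
    ∃ R : ℝ, 0 < R ∧ ∀ z : ℂ, R < ‖z - w‖ → Φ z = 0 ∧ fderiv ℝ Φ z = 0 := by
  obtain ⟨R, hR⟩ := hc.isCompact.isBounded.subset_closedBall w
  refine ⟨max R 1, lt_max_of_lt_right one_pos, ?_⟩
  intro z hz
  have h1 : z ∉ tsupport Φ := by
    intro h
    have := hR h
    rw [mem_closedBall, dist_eq_norm] at this
    exact absurd (lt_of_le_of_lt (le_max_left R 1) hz) (not_lt.2 this)
  refine ⟨image_eq_zero_of_notMem_tsupport h1, ?_⟩
  have h2 : z ∉ tsupport (fderiv ℝ Φ) := fun h => h1 (tsupport_fderiv_subset ℝ h)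
  exact image_eq_zero_of_notMem_tsupport h2

theorem pomp : StPOMP := by
  intro Φ hΦ hc w
  obtain ⟨R, hR0, hR⟩ := supp_POMP Φ hc w
  set g : ℂ → ℝ := fun z =>
    (((fderiv ℝ Φ z 1 : ℂ) + I * (fderiv ℝ Φ z I : ℂ)) / (w - z)).re with hg
  have e0 : ∫ z, g z = ∫ z, g (w + z) := (integral_add_left_eq_self g w).symm
  have e1 : ∫ z, g (w + z) = ∫ p in polarCoord.target, hh_POMP Φ w p := by
    rw [← Complex.integral_comp_polarCoord_symm (fun z => g (w + z))]
    refine setIntegral_congr_fun polarCoord.open_target.measurableSet ?_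
    intro p hp
    have hp1 : 0 < p.1 := by
      rw [polarCoord_target] at hp
      exact hp.1
    simp only [Complex.polarCoord_symm_apply, smul_eq_mul, hg]
    have h1 : w + (p.1 : ℂ) * ((Real.cos p.2 : ℂ) + (Real.sin p.2 : ℂ) * I)
        = w + (p.1 : ℂ) * ev_POMP p.2 := rfl
    rw [h1]
    have h2 := re_calc_POMP p.2 p.1 (fderiv ℝ Φ (w + (p.1 : ℂ) * ev_POMP p.2) 1)
      (fderiv ℝ Φ (w + (p.1 : ℂ) * ev_POMP p.2) I) hp1 w
    rw [h2]
    unfold hh_POMP
    rw [fd_lin_POMP]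
  have hnorm : ∀ (r a : ℝ), 0 ≤ r → ‖w + (r : ℂ) * ev_POMP a - w‖ = r := by
    intro r a hr
    rw [add_sub_cancel_left, norm_mul, norm_ev_POMP, mul_one, Complex.norm_real, Real.norm_eq_abs,
      abs_of_nonneg hr]
  have hz : ∀ p : ℝ × ℝ, R < p.1 → hh_POMP Φ w p = 0 := by
    intro p hp
    unfold hh_POMP
    rw [(hR _ (by rw [hnorm p.1 p.2 (hR0.trans hp).le]; exact hp)).2]
    simp
  have hint : IntegrableOn (hh_POMP Φ w) (Ioi 0 ×ˢ Ioo (-Real.pi) Real.pi)
      ((volume : Measure ℝ).prod volume) := by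
    have hcomp : IntegrableOn (hh_POMP Φ w) (Icc 0 R ×ˢ Icc (-Real.pi) Real.pi)
        ((volume : Measure ℝ).prod volume) :=
      (cont_hh_POMP Φ hΦ w).continuousOn.integrableOn_compact (isCompact_Icc.prod isCompact_Icc)
    refine hcomp.of_forall_sdiff_eq_zero (measurableSet_Ioi.prod measurableSet_Ioo) ?_
    rintro p ⟨⟨hp1, hp2⟩, hp3⟩
    apply hz
    by_contra hcon
    apply hp3
    exact ⟨⟨le_of_lt hp1, not_lt.1 hcon⟩, Ioo_subset_Icc_self hp2⟩
  have e2 : ∫ p in polarCoord.target, hh_POMP Φ w p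
      = ∫ a in Ioo (-Real.pi) Real.pi, ∫ r in Ioi (0 : ℝ), hh_POMP Φ w (r, a) := by
    rw [polarCoord_target, Measure.volume_eq_prod, ← Measure.prod_restrict]
    rw [IntegrableOn, ← Measure.prod_restrict] at hint
    exact integral_prod_symm _ hint
  have e3 : ∀ a : ℝ, ∫ r in Ioi (0 : ℝ), hh_POMP Φ w (r, a) = Φ w := by
    intro a
    have hd : ∀ r ∈ Ici (0 : ℝ), HasDerivAt (fun r : ℝ => -Φ (w + (r : ℂ) * ev_POMP a))
        (hh_POMP Φ w (r, a)) r := by
      intro r _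
      have h1 : HasDerivAt (fun r : ℝ => w + (r : ℂ) * ev_POMP a) (ev_POMP a) r := by
        have h0 : HasDerivAt (fun r : ℝ => (r : ℂ)) 1 r := Complex.ofRealCLM.hasDerivAt
        have := (h0.mul_const (ev_POMP a)).const_add w
        simpa using this
      have h2 : HasFDerivAt Φ (fderiv ℝ Φ (w + (r : ℂ) * ev_POMP a)) (w + (r : ℂ) * ev_POMP a) :=
        (hΦ.differentiable (by simp)).differentiableAt.hasFDerivAt
      exact (h2.comp_hasDerivAt r h1).neg
    have hi : IntegrableOn (fun r => hh_POMP Φ w (r, a)) (Ioi 0) := by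
      have hcomp : IntegrableOn (fun r => hh_POMP Φ w (r, a)) (Icc 0 R) :=
        ((cont_hh_POMP Φ hΦ w).comp (by fun_prop : Continuous fun r : ℝ => (r, a))).continuousOn.integrableOn_compact
          isCompact_Icc
      refine hcomp.of_forall_sdiff_eq_zero measurableSet_Ioi ?_
      rintro r ⟨hr1, hr2⟩
      apply hz
      by_contra hcon
      exact hr2 ⟨le_of_lt hr1, not_lt.1 hcon⟩
    have hlim : Tendsto (fun r : ℝ => -Φ (w + (r : ℂ) * ev_POMP a)) atTop (𝓝 0) := by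
      refine tendsto_const_nhds.congr' ?_
      filter_upwards [eventually_gt_atTop R] with r hr
      rw [(hR _ (by rw [hnorm r a (hR0.trans hr).le]; exact hr)).1, neg_zero]
    rw [integral_Ioi_of_hasDerivAt_of_tendsto' hd hi hlim]
    simp
  rw [e0, e1, e2]
  simp only [e3]
  rw [setIntegral_const, smul_eq_mul, Measure.real, Real.volume_Ioo, ENNReal.toReal_ofReal
    (by linarith [Real.pi_pos])]
  ring

end Pool.Agent.Helper49.DF
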