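import Pool.Agent.Helper49.DF.St

/-!
# Project DF, module POUT: the logarithmic potential vanishes outside
-/

set_option autoImplicit false

open Set Filter Topology MeasureTheory Complex Metric
open scoped ContDiff ComplexConjugate

namespace Pool.Agent.Helper49.DF

open Pool.Agent.Helper65.PI

private theorem rs_apply_POUT {K : TopologicalSpace.Compacts ℂ} {g : ℂ → ℝ}
    (h : ContinuousOn g (K : Set ℂ)) (x : K) : rs K g x = g x := by
  unfold rs
  rw [dif_pos h]
  rfl

private theorem rs_congr_POUT {K : TopologicalSpace.Compacts ℂ} {g g' : ℂ → ℝ}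
    (h : ContinuousOn g (K : Set ℂ)) (h' : ContinuousOn g' (K : Set ℂ))
    (he : ∀ w ∈ (K : Set ℂ), g w = g' w) : rs K g = rs K g' := by
  ext x
  rw [rs_apply_POUT h, rs_apply_POUT h']
  exact he x x.2

private theorem rs_sub_POUT {K : TopologicalSpace.Compacts ℂ} {g g' : ℂ → ℝ}
    (h : ContinuousOn g (K : Set ℂ)) (h' : ContinuousOn g' (K : Set ℂ)) :
    rs K g - rs K g' = rs K (fun w => g w - g' w) := by
  ext x
  have h3 : ContinuousOn (fun w => g w - g' w) (K : Set ℂ) := h.sub h'
  rw [ContinuousMap.sub_apply, rs_apply_POUT h, rs_apply_POUT h', rs_apply_POUT h3]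

private theorem kills_re_POUT {D : Set ℂ} {K : TopologicalSpace.Compacts ℂ} {L : C(K, ℝ) →L[ℝ] ℝ}
    (hL : Kills D K L) (γ : ℂ → ℂ) (hd : DifferentiableOn ℂ γ D) (hc : ContinuousOn γ (closure D)) :
    L (rs K fun w => (γ w).re) = 0 := by
  have h := hL (fun w => I * γ w) (hd.const_mul I) (continuousOn_const.mul hc)
  have e : (fun w => (I * γ w).im) = fun w => (γ w).re := by
    funext w
    simp
  rw [e] at h
  exact h

/-- POUT. -/
theorem pout : Pool.Agent.Helper65.PI.StCONN → StPOUT := by
  intro hconn Ω D K L hadm hK hL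
  have hKD : (K : Set ℂ) ⊆ closure D := by
    rw [hK]; exact frontier_subset_closure
  have hne : (closure D).Nonempty := hadm.conn.nonempty.closure
  -- the logarithm is continuous on `K`
  have hlog : ∀ z, z ∉ closure D → ContinuousOn (fun w => Real.log ‖w - z‖) (closure D) := by
    intro z hz
    refine ContinuousOn.log (by fun_prop) fun w hw => ?_
    rw [norm_ne_zero_iff, sub_ne_zero]
    rintro rfl
    exact hz hw
  -- local constancy
  have hloc : ∀ z ∈ univ \ closure D, ∀ᶠ z' in 𝓝[univ \ closure D] z,
      L (rs K fun w => Real.log ‖w - z‖) = L (rs K fun w => Real.log ‖w - z'‖) := by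
    intro z hz
    have hz' : z ∉ closure D := hz.2
    have hd : 0 < infDist z (closure D) := (isClosed_closure.notMem_iff_infDist_pos hne).mp hz'
    filter_upwards [mem_nhdsWithin_of_mem_nhds (ball_mem_nhds z (half_pos hd)),
      self_mem_nhdsWithin] with z' h1 h2
    have hzz : ‖z' - z‖ < infDist z (closure D) / 2 := by
      rw [mem_ball, dist_eq_norm] at h1; exact h1
    have hsl : ∀ w ∈ closure D, w - z ≠ 0 ∧ 1 - (z' - z) / (w - z) ∈ slitPlane := by
      intro w hw
      have hwz : w - z ≠ 0 := by
        rw [sub_ne_zero]; rintro rfl; exact hz' hw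
      refine ⟨hwz, ?_⟩
      have h3 : infDist z (closure D) ≤ ‖w - z‖ := by
        have := infDist_le_dist_of_mem (x := z) hw
        rwa [dist_comm, dist_eq_norm] at this
      have h4 : ‖(z' - z) / (w - z)‖ < 1 := by
        rw [norm_div, div_lt_one (norm_pos_iff.mpr hwz)]
        linarith
      left
      have h5 : ((z' - z) / (w - z)).re ≤ ‖(z' - z) / (w - z)‖ := re_le_norm _
      rw [sub_re, one_re]
      linarith
    have hdg : DifferentiableOn ℂ (fun w => Complex.log (1 - (z' - z) / (w - z))) (closure D) := by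
      intro w hw
      have h3 := hsl w hw
      have h4 : DifferentiableAt ℂ (fun w => 1 - (z' - z) / (w - z)) w :=
        (differentiableAt_const _).sub ((differentiableAt_const _).div
          (differentiableAt_id.sub (differentiableAt_const _)) h3.1)
      exact (h4.clog h3.2).differentiableWithinAt
    have h0 := kills_re_POUT hL _ (hdg.mono subset_closure) hdg.continuousOn
    have he : rs K (fun w => (Complex.log (1 - (z' - z) / (w - z))).re) =
        rs K (fun w => Real.log ‖w - z'‖) - rs K (fun w => Real.log ‖w - z‖) := by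
      rw [rs_sub_POUT ((hlog z' h2.2).mono hKD) ((hlog z hz').mono hKD)]
      refine rs_congr_POUT ?_ (((hlog z' h2.2).sub (hlog z hz')).mono hKD) ?_
      · exact (continuous_re.comp_continuousOn hdg.continuousOn).mono hKD
      · intro w hw
        have h3 := hsl w (hKD hw)
        rw [Complex.log_re]
        have h5 : w - z' = (w - z) * (1 - (z' - z) / (w - z)) := by
          have := h3.1
          field_simp
          ring
        have h6 : 1 - (z' - z) / (w - z) ≠ 0 := slitPlane_ne_zero h3.2
        rw [h5, norm_mul, Real.log_mul (norm_ne_zero_iff.mpr h3.1) (norm_ne_zero_iff.mpr h6)]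
        ring
    rw [he, map_sub] at h0
    linarith
  -- a far point
  obtain ⟨R, hR⟩ := hadm.compact.isBounded.exists_norm_le
  set r : ℝ := 2 * (|R| + 1) with hr
  have hr0 : 0 < r := by positivity
  have hfar : ∀ w ∈ closure D, ‖w‖ < r := by
    intro w hw
    have := hR w hw
    have := le_abs_self R
    have := abs_nonneg R
    rw [hr]; linarith
  have hfar2 : ∀ w ∈ closure D, 1 - w / (r : ℂ) ∈ slitPlane := by
    intro w hw
    left
    have h4 : ‖w / (r : ℂ)‖ < 1 := by
      rw [norm_div, norm_real, Real.norm_eq_abs, abs_of_pos hr0, div_lt_one hr0]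
      exact hfar w hw
    have h5 : (w / (r : ℂ)).re ≤ ‖w / (r : ℂ)‖ := re_le_norm _
    rw [sub_re, one_re]
    linarith
  have hrn : (r : ℂ) ∉ closure D := by
    intro h
    have := hfar _ h
    rw [norm_real, Real.norm_eq_abs, abs_of_pos hr0] at this
    exact lt_irrefl _ this
  have hrc : (r : ℂ) ≠ 0 := by exact_mod_cast hr0.ne'
  have hzero : L (rs K fun w => Real.log ‖w - (r : ℂ)‖) = 0 := by
    have hdg : DifferentiableOn ℂ (fun w => (Real.log r : ℂ) + Complex.log (1 - w / (r : ℂ)))
        (closure D) := by
      intro w hw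
      have h4 : DifferentiableAt ℂ (fun w => 1 - w / (r : ℂ)) w :=
        (differentiableAt_const _).sub (differentiableAt_id.div_const _)
      exact ((differentiableAt_const _).add (h4.clog (hfar2 w hw))).differentiableWithinAt
    have h0 := kills_re_POUT hL _ (hdg.mono subset_closure) hdg.continuousOn
    rw [← h0]
    congr 1
    refine rs_congr_POUT ((hlog _ hrn).mono hKD)
      ((continuous_re.comp_continuousOn hdg.continuousOn).mono hKD) ?_
    intro w hw
    have h3 := hfar2 w (hKD hw)
    rw [add_re, ofReal_re, Complex.log_re]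
    have h5 : w - (r : ℂ) = -(r : ℂ) * (1 - w / (r : ℂ)) := by
      field_simp
      ring
    have h6 : 1 - w / (r : ℂ) ≠ 0 := slitPlane_ne_zero h3
    rw [h5, norm_mul, norm_neg, norm_real, Real.norm_eq_abs, abs_of_pos hr0,
      Real.log_mul hr0.ne' (norm_ne_zero_iff.mpr h6)]
  intro z hz
  have hadm' : Admissible univ D :=
    ⟨hadm.isOpen, hadm.conn, hadm.compact, subset_univ _, hadm.front, hadm.smooth⟩
  have hpre := hconn univ D isOpen_univ isPreconnected_univ hadm'
  rw [← hzero]
  exact hpre.induction₂ (fun a b => L (rs K fun w => Real.log ‖w - a‖) =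
    L (rs K fun w => Real.log ‖w - b‖)) hloc (fun a b c _ _ _ h1 h2 => h1.trans h2)
    (fun a b _ _ h => h.symm) ⟨mem_univ _, hz⟩ ⟨mem_univ _, hrn⟩

end Pool.Agent.Helper49.DF
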