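import Pool.Agent.Helper49.DF.St

set_option autoImplicit false

open Set Filter Topology Complex Metric
open scoped ComplexConjugate

namespace Pool.Agent.Helper49.DF

/-- A holomorphic function real on the unit circle is constant on the disc. -/
private theorem const_of_real_REAL (ρ : ℝ) (F : ℂ → ℂ) (hρ : 1 < ρ) (hF : DifferentiableOn ℂ F (ball 0 ρ))
    (hre : ∀ ζ, ‖ζ‖ = 1 → (F ζ).im = 0) : ∃ c : ℂ, ∀ ζ ∈ ball (0 : ℂ) 1, F ζ = c := by
  have hcl : closure (ball (0 : ℂ) 1) = closedBall 0 1 := closure_ball 0 one_ne_zero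
  have hsub : closure (ball (0 : ℂ) 1) ⊆ ball 0 ρ := by
    rw [hcl]
    exact closedBall_subset_ball hρ
  have key : ∀ s : ℂ, s.re = 0 → (∀ ζ ∈ ball (0 : ℂ) 1, ‖Complex.exp (s * F ζ)‖ ≤ 1) := by
    intro s hs ζ hζ
    have hd : DiffContOnCl ℂ (fun ζ => Complex.exp (s * F ζ)) (ball (0 : ℂ) 1) := by
      apply DifferentiableOn.diffContOnCl
      apply DifferentiableOn.cexp
      apply DifferentiableOn.const_mul
      exact hF.mono hsub
    refine Complex.norm_le_of_forall_mem_frontier_norm_le isBounded_ball hd ?_ (subset_closure hζ)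
    intro z hz
    rw [frontier_ball (0 : ℂ) one_ne_zero] at hz
    have hz1 : ‖z‖ = 1 := by simpa using hz
    rw [Complex.norm_exp, Complex.mul_re, hs, hre z hz1]
    simp
  have him : ∀ ζ ∈ ball (0 : ℂ) 1, (F ζ).im = 0 := by
    intro ζ hζ
    have h1 := key I (by simp) ζ hζ
    have h2 := key (-I) (by simp) ζ hζ
    rw [Complex.norm_exp, Real.exp_le_one_iff] at h1 h2
    have e1 : (I * F ζ).re = -(F ζ).im := by simp
    have e2 : (-I * F ζ).re = (F ζ).im := by simp
    rw [e1] at h1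
    rw [e2] at h2
    linarith
  have han : AnalyticOnNhd ℂ F (ball (0 : ℂ) 1) :=
    (hF.mono (ball_subset_ball hρ.le)).analyticOnNhd isOpen_ball
  rcases han.is_constant_or_isOpen (convex_ball (0 : ℂ) 1).isPreconnected with ⟨w, hw⟩ | hopen
  · exact ⟨w, hw⟩
  · exfalso
    have ho := hopen (ball (0 : ℂ) 1) subset_rfl isOpen_ball
    have h0 : F 0 ∈ F '' ball (0 : ℂ) 1 := ⟨0, by simp, rfl⟩
    rw [Metric.isOpen_iff] at ho
    obtain ⟨ε, hε, hball⟩ := ho _ h0
    have hmem : F 0 + (ε / 2 : ℝ) * I ∈ F '' ball (0 : ℂ) 1 := by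
      apply hball
      rw [mem_ball, dist_eq_norm, add_sub_cancel_left, norm_mul, Complex.norm_I, mul_one, Complex.norm_real,
        Real.norm_of_nonneg (by positivity)]
      linarith
    obtain ⟨ζ, hζ, hζe⟩ := hmem
    have h3 := him ζ hζ
    have h4 := him 0 (by simp)
    rw [hζe] at h3
    have e3 : (F 0 + (ε / 2 : ℝ) * I).im = (F 0).im + ε / 2 := by simp
    rw [e3, h4] at h3
    linarith

theorem real : StREAL := by
  intro ρ h L hρ hh hL hc
  obtain ⟨c1, hc1⟩ := const_of_real_REAL ρ (fun ζ => L ζ + h ζ) hρ (hL.add hh) (by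
    intro ζ hζ
    simp only [hc ζ hζ]
    simp)
  obtain ⟨c2, hc2⟩ := const_of_real_REAL ρ (fun ζ => I * (L ζ - h ζ)) hρ ((hL.sub hh).const_mul I) (by
    intro ζ hζ
    simp only [hc ζ hζ]
    simp)
  refine ⟨(c1 - c2 / I) / 2, ?_⟩
  intro ζ hζ
  have h1 := hc1 ζ hζ
  have h2 := hc2 ζ hζ
  rw [← h1, ← h2]
  have hI : I ≠ 0 := Complex.I_ne_zero
  field_simp
  ring

end Pool.Agent.Helper49.DF
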