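import Pool.Agent.Helper49.DF.St

set_option autoImplicit false

open Set Filter Topology MeasureTheory Complex Metric
open scoped ContDiff ComplexConjugate

namespace Pool.Agent.Helper49.DF

open Pool.Agent.Helper65.PI

private lemma ratio_REFL (A B t r n : ℝ) (hr : 0 < r) (ht : 0 < t)
    (hB : n / 2 + t ^ 2 ≤ B) (hn : 0 ≤ n) (hAB : A - B ≤ 2 * t / r * n) (hA : 0 < A) :
    Real.log A - Real.log B ≤ 4 * t / r := by
  have hB0 : 0 < B := by nlinarith [sq_nonneg t, pow_pos ht 2]
  rw [← Real.log_div hA.ne' hB0.ne']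
  refine (Real.log_le_sub_one_of_pos (div_pos hA hB0)).trans ?_
  rw [div_sub_one hB0.ne', div_le_iff₀ hB0]
  refine hAB.trans ?_
  have h1 : 4 * t / r * B = 2 * t / r * (2 * B) := by ring
  rw [h1]
  exact mul_le_mul_of_nonneg_left (by nlinarith [sq_nonneg t]) (by positivity)

private lemma nsq_REFL (a : ℂ) : ‖a‖ ^ 2 = a.re ^ 2 + a.im ^ 2 := by
  rw [Complex.sq_norm, Complex.normSq_apply]; ring

theorem refl : StREFL := by
  intro D K L r hD hK hKne hBalls hL z hz ht2
  obtain ⟨hr, hballs⟩ := hBalls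
  have hKc : IsCompact (frontier D) := hK ▸ K.isCompact
  have hne : (frontier D).Nonempty := hK ▸ hKne
  obtain ⟨p, hp, hpt⟩ := hKc.exists_infDist_eq_dist hne z
  set t : ℝ := infDist z (frontier D) with htdef
  have hzf : z ∉ frontier D := fun h => by
    rw [hD.frontier_eq] at h
    exact h.2 hz
  have htpos : 0 < t := by
    rw [hpt]
    exact dist_pos.mpr fun h => hzf (h ▸ hp)
  have htr : t < r := by linarith
  obtain ⟨ν, hν, hin, hout⟩ := hballs p hp
  have hball : ball z t ⊆ D := by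
    have hpre : IsPreconnected (ball z t) := (convex_ball z t).isPreconnected
    refine hpre.subset_left_of_subset_union (v := (closure D)ᶜ) hD isClosed_closure.isOpen_compl ?_ ?_ ?_
    · exact disjoint_compl_right.mono_left subset_closure
    · intro w hw
      by_cases hwD : w ∈ D
      · exact Or.inl hwD
      · refine Or.inr fun hwc => ?_
        have hwf : w ∈ frontier D := by
          rw [hD.frontier_eq]; exact ⟨hwc, hwD⟩
        have h1 : infDist z (frontier D) ≤ dist z w := infDist_le_dist_of_mem hwf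
        rw [mem_ball, dist_comm] at hw
        exact absurd hw (not_lt.mpr h1)
    · exact ⟨z, mem_ball_self htpos, hz⟩
  have hdis : Disjoint (ball z t) (ball (p + r * ν) r) :=
    (hout.mono_right (hball.trans subset_closure)).symm
  have hdist : t + r ≤ dist z (p + r * ν) := (disjoint_ball_ball_iff htpos hr).mp hdis
  -- coordinates
  have hν2 : ν.re ^ 2 + ν.im ^ 2 = 1 := by rw [← nsq_REFL, hν]; norm_num
  have ht2' : (z - p).re ^ 2 + (z - p).im ^ 2 = t ^ 2 := by
    rw [← nsq_REFL, hpt, dist_eq_norm]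
  have hzp : z = p - t * ν := by
    have h1 : (t + r) ^ 2 ≤ ‖z - (p + r * ν)‖ ^ 2 := by
      rw [← dist_eq_norm]
      exact pow_le_pow_left₀ (by linarith) hdist 2
    rw [nsq_REFL] at h1
    simp only [Complex.sub_re, Complex.sub_im, Complex.add_re, Complex.add_im, Complex.mul_re,
      Complex.mul_im, Complex.ofReal_re, Complex.ofReal_im, zero_mul, sub_zero, add_zero] at h1 ht2'
    have hc : (z.re - p.re) * ν.re + (z.im - p.im) * ν.im ≤ -t := by
      have h2 : (t + r) ^ 2 ≤ t ^ 2 + r ^ 2 - 2 * r * ((z.re - p.re) * ν.re + (z.im - p.im) * ν.im) := by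
        have h3 : (z.re - (p.re + r * ν.re)) ^ 2 + (z.im - (p.im + r * ν.im)) ^ 2
            = ((z.re - p.re) ^ 2 + (z.im - p.im) ^ 2) + r ^ 2 * (ν.re ^ 2 + ν.im ^ 2)
              - 2 * r * ((z.re - p.re) * ν.re + (z.im - p.im) * ν.im) := by ring
        rw [h3, ht2', hν2, mul_one] at h1
        exact h1
      by_contra hcon
      have hcon' := not_le.mp hcon
      nlinarith [mul_pos hr (by linarith : 0 < (z.re - p.re) * ν.re + (z.im - p.im) * ν.im + t)]
    have h4 : (z.re - p.re + t * ν.re) ^ 2 + (z.im - p.im + t * ν.im) ^ 2 ≤ 0 := by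
      have h5 : (z.re - p.re + t * ν.re) ^ 2 + (z.im - p.im + t * ν.im) ^ 2
          = ((z.re - p.re) ^ 2 + (z.im - p.im) ^ 2) + t ^ 2 * (ν.re ^ 2 + ν.im ^ 2)
            + 2 * t * ((z.re - p.re) * ν.re + (z.im - p.im) * ν.im) := by ring
      rw [h5, ht2', hν2, mul_one]
      nlinarith [mul_le_mul_of_nonneg_left hc htpos.le]
    have h6 : z.re - p.re + t * ν.re = 0 := by
      have := sq_nonneg (z.im - p.im + t * ν.im)
      have h7 : (z.re - p.re + t * ν.re) ^ 2 = 0 := le_antisymm (by linarith) (sq_nonneg _)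
      exact pow_eq_zero_iff (two_ne_zero) |>.mp h7
    have h8 : z.im - p.im + t * ν.im = 0 := by
      have := sq_nonneg (z.re - p.re + t * ν.re)
      have h7 : (z.im - p.im + t * ν.im) ^ 2 = 0 := le_antisymm (by linarith) (sq_nonneg _)
      exact pow_eq_zero_iff (two_ne_zero) |>.mp h7
    apply Complex.ext
    · simp only [Complex.sub_re, Complex.mul_re, Complex.ofReal_re, Complex.ofReal_im, zero_mul, sub_zero]
      linarith
    · simp only [Complex.sub_im, Complex.mul_im, Complex.ofReal_re, Complex.ofReal_im, zero_mul, add_zero]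
      linarith
  set z' : ℂ := p + t * ν with hz'
  have hz'out : z' ∉ closure D := by
    have hmem : z' ∈ ball (p + r * ν) r := by
      rw [mem_ball, dist_eq_norm, hz']
      have h1 : p + (t : ℂ) * ν - (p + r * ν) = ((t - r : ℝ) : ℂ) * ν := by push_cast; ring
      rw [h1, norm_mul, Complex.norm_real, hν, mul_one, Real.norm_eq_abs, abs_of_neg (by linarith)]
      linarith
    exact fun h => disjoint_left.mp hout hmem h
  -- estimates on K
  have hest : ∀ w ∈ frontier D, 0 < ‖w - z‖ ∧ 0 < ‖w - z'‖ ∧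
      |Real.log ‖w - z‖ - Real.log ‖w - z'‖| ≤ 2 * t / r := by
    intro w hw
    have hwD : w ∉ D := by
      rw [hD.frontier_eq] at hw; exact hw.2
    have hwc : w ∈ closure D := by
      rw [hD.frontier_eq] at hw; exact hw.1
    have e1 : r ≤ ‖w - (p - r * ν)‖ := by
      by_contra h
      exact hwD (hin (by rw [mem_ball, dist_eq_norm]; exact not_le.mp h))
    have e2 : r ≤ ‖w - (p + r * ν)‖ := by
      by_contra h
      exact disjoint_left.mp hout (by rw [mem_ball, dist_eq_norm]; exact not_le.mp h) hwc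
    have e1' : r ^ 2 ≤ ‖w - (p - r * ν)‖ ^ 2 := pow_le_pow_left₀ hr.le e1 2
    have e2' : r ^ 2 ≤ ‖w - (p + r * ν)‖ ^ 2 := pow_le_pow_left₀ hr.le e2 2
    set n : ℝ := (w.re - p.re) ^ 2 + (w.im - p.im) ^ 2 with hn
    set x : ℝ := (w.re - p.re) * ν.re + (w.im - p.im) * ν.im with hx
    have f1 : ‖w - (p - r * ν)‖ ^ 2 = n + r ^ 2 + 2 * r * x := by
      rw [nsq_REFL]
      simp only [Complex.sub_re, Complex.sub_im, Complex.mul_re,
        Complex.mul_im, Complex.ofReal_re, Complex.ofReal_im, zero_mul, sub_zero, add_zero]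
      have : (w.re - (p.re - r * ν.re)) ^ 2 + (w.im - (p.im - r * ν.im)) ^ 2
        = ((w.re - p.re) ^ 2 + (w.im - p.im) ^ 2) + r ^ 2 * (ν.re ^ 2 + ν.im ^ 2)
          + 2 * r * ((w.re - p.re) * ν.re + (w.im - p.im) * ν.im) := by ring
      rw [this, hν2, mul_one]
    have f2 : ‖w - (p + r * ν)‖ ^ 2 = n + r ^ 2 - 2 * r * x := by
      rw [nsq_REFL]
      simp only [Complex.sub_re, Complex.sub_im, Complex.mul_re, Complex.add_re, Complex.add_im,
        Complex.mul_im, Complex.ofReal_re, Complex.ofReal_im, zero_mul, sub_zero, add_zero]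
      have : (w.re - (p.re + r * ν.re)) ^ 2 + (w.im - (p.im + r * ν.im)) ^ 2
        = ((w.re - p.re) ^ 2 + (w.im - p.im) ^ 2) + r ^ 2 * (ν.re ^ 2 + ν.im ^ 2)
          - 2 * r * ((w.re - p.re) * ν.re + (w.im - p.im) * ν.im) := by ring
      rw [this, hν2, mul_one]
    have f3 : ‖w - z‖ ^ 2 = n + t ^ 2 + 2 * t * x := by
      rw [nsq_REFL, hzp]
      simp only [Complex.sub_re, Complex.sub_im, Complex.mul_re,
        Complex.mul_im, Complex.ofReal_re, Complex.ofReal_im, zero_mul, sub_zero, add_zero]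
      have : (w.re - (p.re - t * ν.re)) ^ 2 + (w.im - (p.im - t * ν.im)) ^ 2
        = ((w.re - p.re) ^ 2 + (w.im - p.im) ^ 2) + t ^ 2 * (ν.re ^ 2 + ν.im ^ 2)
          + 2 * t * ((w.re - p.re) * ν.re + (w.im - p.im) * ν.im) := by ring
      rw [this, hν2, mul_one]
    have f4 : ‖w - z'‖ ^ 2 = n + t ^ 2 - 2 * t * x := by
      rw [nsq_REFL, hz']
      simp only [Complex.sub_re, Complex.sub_im, Complex.mul_re, Complex.add_re, Complex.add_im,
        Complex.mul_im, Complex.ofReal_re, Complex.ofReal_im, zero_mul, sub_zero, add_zero]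
      have : (w.re - (p.re + t * ν.re)) ^ 2 + (w.im - (p.im + t * ν.im)) ^ 2
        = ((w.re - p.re) ^ 2 + (w.im - p.im) ^ 2) + t ^ 2 * (ν.re ^ 2 + ν.im ^ 2)
          - 2 * t * ((w.re - p.re) * ν.re + (w.im - p.im) * ν.im) := by ring
      rw [this, hν2, mul_one]
    have hn0 : 0 ≤ n := by positivity
    have g1 : 0 ≤ n + 2 * r * x := by rw [f1] at e1'; linarith
    have g2 : 0 ≤ n - 2 * r * x := by rw [f2] at e2'; linarith
    -- 2 t |x| ≤ (t / r) n
    have g3 : 2 * t * x ≤ t / r * n := by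
      rw [div_mul_eq_mul_div, le_div_iff₀ hr]
      nlinarith [mul_nonneg htpos.le g2]
    have g4 : -(2 * t * x) ≤ t / r * n := by
      rw [div_mul_eq_mul_div, le_div_iff₀ hr]
      nlinarith [mul_nonneg htpos.le g1]
    have g5 : t / r * n ≤ n / 2 := by
      have : t / r ≤ 1 / 2 := by
        rw [div_le_iff₀ hr]; linarith
      nlinarith [mul_le_mul_of_nonneg_right this hn0]
    have hA : n / 2 + t ^ 2 ≤ ‖w - z‖ ^ 2 := by rw [f3]; linarith
    have hB : n / 2 + t ^ 2 ≤ ‖w - z'‖ ^ 2 := by rw [f4]; linarith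
    have hApos : 0 < ‖w - z‖ ^ 2 := by nlinarith [pow_pos htpos 2]
    have hBpos : 0 < ‖w - z'‖ ^ 2 := by nlinarith [pow_pos htpos 2]
    have hA1 : 0 < ‖w - z‖ := by
      by_contra h
      have h0 : ‖w - z‖ = 0 := le_antisymm (not_lt.mp h) (norm_nonneg _)
      rw [h0] at hApos; norm_num at hApos
    have hB1 : 0 < ‖w - z'‖ := by
      by_contra h
      have h0 : ‖w - z'‖ = 0 := le_antisymm (not_lt.mp h) (norm_nonneg _)
      rw [h0] at hBpos; norm_num at hBpos
    refine ⟨hA1, hB1, ?_⟩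
    have l1 := ratio_REFL (‖w - z‖ ^ 2) (‖w - z'‖ ^ 2) t r n hr htpos hB hn0
      (by
        rw [f3, f4]
        have : 2 * t / r * n = 2 * (t / r * n) := by ring
        rw [this]; linarith) hApos
    have l2 := ratio_REFL (‖w - z'‖ ^ 2) (‖w - z‖ ^ 2) t r n hr htpos hA hn0
      (by
        rw [f3, f4]
        have : 2 * t / r * n = 2 * (t / r * n) := by ring
        rw [this]; linarith) hBpos
    rw [Real.log_pow, Real.log_pow] at l1 l2
    push_cast at l1 l2
    have e4 : 4 * t / r = 2 * (2 * t / r) := by ring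
    rw [e4] at l1 l2
    rw [abs_le]
    constructor <;> linarith
  -- continuity
  have hc1 : ContinuousOn (fun w : ℂ => Real.log ‖w - z‖) (K : Set ℂ) := by
    rw [hK]
    refine ContinuousOn.log (by fun_prop) fun w hw => (hest w hw).1.ne'
  have hc2 : ContinuousOn (fun w : ℂ => Real.log ‖w - z'‖) (K : Set ℂ) := by
    rw [hK]
    refine ContinuousOn.log (by fun_prop) fun w hw => (hest w hw).2.1.ne'
  have h0 := hL z' hz'out
  have hrs1 : ∀ x : K, rs K (fun w => Real.log ‖w - z‖) x = Real.log ‖(x : ℂ) - z‖ := by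
    intro x; simp only [rs, dif_pos hc1]; rfl
  have hrs2 : ∀ x : K, rs K (fun w => Real.log ‖w - z'‖) x = Real.log ‖(x : ℂ) - z'‖ := by
    intro x; simp only [rs, dif_pos hc2]; rfl
  have hsub : L (rs K fun w => Real.log ‖w - z‖)
      = L ((rs K fun w => Real.log ‖w - z‖) - (rs K fun w => Real.log ‖w - z'‖)) := by
    rw [map_sub, h0, sub_zero]
  rw [hsub, ← Real.norm_eq_abs]
  refine (L.le_opNorm _).trans (mul_le_mul_of_nonneg_left ?_ (norm_nonneg _))
  rw [ContinuousMap.norm_le _ (by positivity)]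
  intro x
  rw [ContinuousMap.sub_apply, hrs1, hrs2, Real.norm_eq_abs]
  have hx : (x : ℂ) ∈ frontier D := by rw [← hK]; exact x.2
  exact (hest x hx).2.2

end Pool.Agent.Helper49.DF
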