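import Pool.Agent.Helper49.DF.St

/-!
Project DF (MP_dfbc29_an): module SL, the slope of `h` between `z` and `ci z`.
-/

set_option autoImplicit false

open Set Filter Topology Complex Metric
open scoped ComplexConjugate

namespace Pool.Agent.Helper49.DF

theorem norm_ci_SL (z : ℂ) : ‖ci z‖ = ‖z‖⁻¹ := by
  rw [ci, norm_inv, Complex.norm_conj]

theorem ci_of_norm_one_SL {z : ℂ} (hz : ‖z‖ = 1) : ci z = z := by
  rw [ci, Complex.inv_def, Complex.conj_conj, Complex.normSq_conj, Complex.normSq_eq_norm_sq, hz]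
  simp

theorem ci_sub_SL {z : ℂ} (hz : z ≠ 0) : ci z - z = ((1 - ‖z‖ ^ 2 : ℝ) : ℂ) / conj z := by
  have h1 : (conj z : ℂ) ≠ 0 := (map_ne_zero _).2 hz
  have h2 : ((‖z‖ ^ 2 : ℝ) : ℂ) = conj z * z := by
    rw [← Complex.normSq_eq_norm_sq, Complex.normSq_eq_conj_mul_self]
  rw [ci]
  push_cast
  push_cast at h2
  rw [h2]
  field_simp

theorem continuousOn_ci_SL : ContinuousOn ci {z | z ≠ 0} := by
  unfold ci
  refine ContinuousOn.inv₀ (Complex.continuous_conj.continuousOn) fun z hz => ?_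
  exact (map_ne_zero _).2 hz

theorem continuous_TT_SL (k : ℝ) : Continuous (TT k) := by
  unfold TT
  fun_prop

theorem TT_inv_SL {k : ℝ} (hk : k ≠ 0) (z : ℂ) : TT k⁻¹ (TT k z) = z := by
  have hk' : (k : ℂ) ≠ 0 := Complex.ofReal_ne_zero.2 hk
  unfold TT kp km
  simp only [map_add, map_mul, Complex.conj_ofReal, Complex.conj_conj]
  push_cast
  field_simp
  ring

theorem fcont_SL {k ρ : ℝ} {f h : ℂ → ℂ} (hR : Refl k ρ f h) :
    ContinuousOn f {z | 1 ≤ ‖z‖ ∧ ‖z‖ ≤ ρ} := by
  have h1 : ContinuousOn h {z | 1 ≤ ‖z‖ ∧ ‖z‖ ≤ ρ} := hR.cont.mono fun z hz => by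
    rw [mem_closedBall_zero_iff]; exact hz.2
  have h2 : ContinuousOn (fun z => h (ci z)) {z | 1 ≤ ‖z‖ ∧ ‖z‖ ≤ ρ} := by
    refine hR.cont.comp (continuousOn_ci_SL.mono fun z hz => ?_) fun z hz => ?_
    · intro h0
      have := hz.1
      rw [h0, norm_zero] at this
      linarith
    · rw [mem_closedBall_zero_iff, norm_ci_SL]
      exact (inv_le_one_of_one_le₀ hz.1).trans hR.one_lt.le
  have h3 : ContinuousOn (fun z => (kp k : ℂ) * h z + (km k : ℂ) * conj (h (ci z)))
      {z | 1 ≤ ‖z‖ ∧ ‖z‖ ≤ ρ} :=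
    (continuousOn_const.mul h1).add (continuousOn_const.mul
      (Complex.continuous_conj.comp_continuousOn h2))
  refine h3.congr fun z hz => ?_
  exact hR.outside z (by rw [mem_closedBall_zero_iff]; exact hz.2) hz.1

theorem strict_SL {k ρ : ℝ} {f h : ℂ → ℂ} (hR : Refl k ρ f h) {w : ℂ} (hw : ‖w‖ < ρ) :
    HasStrictDerivAt h (deriv h w) w := by
  have hmem : ball (0 : ℂ) ρ ∈ 𝓝 w := isOpen_ball.mem_nhds (by rwa [mem_ball_zero_iff])
  exact (hR.diff.analyticAt hmem).hasStrictDerivAt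

/-- a point of the closed ring and a point of the open unit disc have different images -/
theorem fne_SL {k ρ : ℝ} {f h : ℂ → ℂ} (hR : Refl k ρ f h) {z w : ℂ}
    (hd : deriv h w ≠ 0) (hz1 : 1 ≤ ‖z‖) (hz : ‖z‖ ≤ ρ) (hw : ‖w‖ < 1) : f z ≠ f w := by
  intro e
  have hρ := hR.one_lt
  have hwρ : w ∈ ball (0 : ℂ) ρ := by rw [mem_ball_zero_iff]; linarith
  rcases lt_or_eq_of_le hz with hlt | heq
  · have h1 := hR.inj (by rwa [mem_ball_zero_iff]) hwρ e
    rw [h1] at hz1
    linarith
  have hb : ball (0 : ℂ) 1 ∈ 𝓝 w := isOpen_ball.mem_nhds (by rwa [mem_ball_zero_iff])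
  have himg1 : h '' ball 0 1 ∈ 𝓝 (h w) := by
    rw [← (strict_SL hR (by linarith : ‖w‖ < ρ)).map_nhds_eq hd]
    exact image_mem_map hb
  have himg : f '' ball 0 1 ∈ 𝓝 (f w) := by
    have hfw : f w = TT k (h w) := hR.inside w (by rw [mem_closedBall_zero_iff]; exact hw.le)
    have hpre : TT k⁻¹ ⁻¹' (h '' ball 0 1) ∈ 𝓝 (f w) := by
      apply (continuous_TT_SL k⁻¹).continuousAt
      rw [hfw, TT_inv_SL hR.k_pos.ne']
      exact himg1
    refine mem_of_superset hpre ?_
    rintro y ⟨x, hx, hxy⟩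
    refine ⟨x, hx, ?_⟩
    rw [hR.inside x (ball_subset_closedBall hx), hxy]
    have := TT_inv_SL (inv_ne_zero hR.k_pos.ne') y
    rwa [inv_inv] at this
  have hcl : z ∈ closure (ball (0 : ℂ) ρ) := by
    rw [closure_ball (0 : ℂ) (by linarith : ρ ≠ 0), mem_closedBall_zero_iff]
    exact hz
  have hfr := mem_closure_iff_frequently.1 hcl
  have ev1 : ∀ᶠ y in 𝓝 z, y ∈ {z : ℂ | 1 ≤ ‖z‖ ∧ ‖z‖ ≤ ρ} → f y ∈ f '' ball 0 1 := by
    rw [← eventually_nhdsWithin_iff]
    refine (fcont_SL hR z ⟨hz1, hz⟩).eventually ?_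
    rw [e]
    exact himg
  have ev2 : ∀ᶠ y in 𝓝 z, 1 < ‖y‖ :=
    continuous_norm.continuousAt.eventually (lt_mem_nhds (by show 1 < ‖z‖; rw [heq]; exact hρ))
  obtain ⟨y, hy1, hy2, hy3⟩ := (hfr.and_eventually (ev1.and ev2)).exists
  have hyn : ‖y‖ < ρ := by rwa [mem_ball_zero_iff] at hy1
  obtain ⟨x, hx, hxy⟩ := hy2 ⟨hy3.le, hyn.le⟩
  have hx1 : ‖x‖ < 1 := by rwa [mem_ball_zero_iff] at hx
  have h2 := hR.inj (ball_subset_ball hρ.le hx) hy1 hxy
  rw [h2] at hx1
  linarith

theorem sl : StSL := by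
  intro k ρ f h hR hd
  have hρ := hR.one_lt
  refine ⟨fun z => dslope h z (ci z), ?_, ?_⟩
  · rintro p ⟨hp1, hpρ⟩
    have hp0 : p ≠ 0 := by
      intro h0
      rw [h0, norm_zero] at hp1
      linarith
    have hci : ContinuousAt ci p := continuousOn_ci_SL.continuousAt (isOpen_ne.mem_nhds hp0)
    rcases lt_or_eq_of_le hp1 with hlt | heq
    · have hcip : ‖ci p‖ < 1 := by
        rw [norm_ci_SL]; exact inv_lt_one_of_one_lt₀ hlt
      have hne : ci p ≠ p := by
        intro h0
        rw [h0] at hcip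
        linarith
      have hh : ContinuousWithinAt h {z | 1 ≤ ‖z‖ ∧ ‖z‖ ≤ ρ} p :=
        (hR.cont p (by rwa [mem_closedBall_zero_iff])).mono fun z hz => by
          rw [mem_closedBall_zero_iff]; exact hz.2
      have hhc : ContinuousAt (fun z => h (ci z)) p :=
        ContinuousAt.comp (f := ci) (g := h)
          (strict_SL hR (by linarith : ‖ci p‖ < ρ)).hasDerivAt.continuousAt hci
      have hq : ContinuousWithinAt (fun z => (ci z - z)⁻¹ * (h (ci z) - h z))
          {z | 1 ≤ ‖z‖ ∧ ‖z‖ ≤ ρ} p :=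
        ((hci.sub continuousAt_id).inv₀ (sub_ne_zero.2 hne)).continuousWithinAt.mul
          (hhc.continuousWithinAt.sub hh)
      refine hq.congr_of_eventuallyEq ?_ ?_
      · have ev : ∀ᶠ z in 𝓝 p, ci z ≠ z := by
          have h1 : ContinuousAt (fun z => ci z - z) p := hci.sub continuousAt_id
          filter_upwards [h1.eventually_ne (sub_ne_zero.2 hne)] with z hz
          exact sub_ne_zero.1 hz
        filter_upwards [ev.filter_mono nhdsWithin_le_nhds] with z hz
        show dslope h z (ci z) = _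
        rw [dslope_of_ne h hz, slope_def_field, div_eq_inv_mul]
      · show dslope h p (ci p) = _
        rw [dslope_of_ne h hne, slope_def_field, div_eq_inv_mul]
    · have hp1' : ‖p‖ = 1 := heq.symm
      have hcp : ci p = p := ci_of_norm_one_SL hp1'
      refine ContinuousAt.continuousWithinAt ?_
      have hst := strict_SL hR (by rw [hp1']; exact hρ : ‖p‖ < ρ)
      have hval : dslope h p (ci p) = deriv h p := by rw [hcp, dslope_same]
      show Tendsto (fun z => dslope h z (ci z)) (𝓝 p) (𝓝 (dslope h p (ci p)))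
      rw [hval, Metric.tendsto_nhds]
      intro ε hε
      have hder : ContinuousAt (deriv h) p := by
        have hmem : ball (0 : ℂ) ρ ∈ 𝓝 p := isOpen_ball.mem_nhds (by
          rw [mem_ball_zero_iff, hp1']; exact hρ)
        exact (hR.diff.analyticAt hmem).deriv.continuousAt
      have e1 := hder.eventually (Metric.ball_mem_nhds _ hε)
      have e2 : ∀ᶠ x : ℂ × ℂ in 𝓝 (p, p),
          ‖h x.1 - h x.2 - (x.1 - x.2) • deriv h p‖ ≤ (ε / 2) * ‖x.1 - x.2‖ :=
        hst.isLittleO.def (half_pos hε)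
      have ht : Tendsto (fun z => (ci z, z)) (𝓝 p) (𝓝 (p, p)) := by
        rw [nhds_prod_eq]
        refine Tendsto.prodMk ?_ tendsto_id
        have := hci.tendsto
        rwa [hcp] at this
      filter_upwards [e1, ht.eventually e2] with z hz1 hz2
      by_cases hzz : ci z = z
      · rw [hzz, dslope_same]
        exact hz1
      · rw [dslope_of_ne h hzz, slope_def_field, dist_eq_norm]
        have hne : ci z - z ≠ 0 := sub_ne_zero.2 hzz
        have hpos : 0 < ‖ci z - z‖ := norm_pos_iff.2 hne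
        have h3 : (h (ci z) - h z) / (ci z - z) - deriv h p =
            (h (ci z) - h z - (ci z - z) • deriv h p) / (ci z - z) := by
          rw [smul_eq_mul]
          field_simp
        rw [h3, norm_div, div_lt_iff₀ hpos]
        refine hz2.trans_lt ?_
        have : 0 < ε * ‖ci z - z‖ := mul_pos hε hpos
        show ε / 2 * ‖ci z - z‖ < ε * ‖ci z - z‖
        linarith
  · intro z hz1 hzρ
    have hz0 : z ≠ 0 := by
      intro h0
      rw [h0, norm_zero] at hz1
      linarith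
    have hs : (ci z - z) • dslope h z (ci z) = h (ci z) - h z := sub_smul_dslope h z (ci z)
    refine ⟨?_, ?_⟩
    · show dslope h z (ci z) ≠ 0
      intro h0
      rcases lt_or_eq_of_le hz1 with hlt | heq
      · rw [h0, smul_zero] at hs
        have hcz : ‖ci z‖ < 1 := by
          rw [norm_ci_SL]; exact inv_lt_one_of_one_lt₀ hlt
        have hh : h (ci z) = h z := (sub_eq_zero.1 hs.symm)
        refine fne_SL hR (hd _ hcz.le) hz1 hzρ hcz ?_
        rw [hR.outside z (by rwa [mem_closedBall_zero_iff]) hz1,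
          hR.inside _ (by rw [mem_closedBall_zero_iff]; exact hcz.le), TT, hh]
      · rw [ci_of_norm_one_SL heq.symm, dslope_same] at h0
        exact hd z heq.symm.le h0
    · show _ = _ * dslope h z (ci z) / conj z
      rw [← hs, smul_eq_mul, ci_sub_SL hz0]
      ring

end Pool.Agent.Helper49.DF
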