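import Pool.Agent.Helper49.DF.St

set_option autoImplicit false

open Set Filter Topology MeasureTheory Complex Metric
open scoped ContDiff ComplexConjugate

namespace Pool.Agent.Helper49.DF

private theorem polar_SMALL (s : ℝ) (hs : 0 < s) :
    ∫⁻ z : ℂ, (ball (0 : ℂ) s).indicator (fun z => ENNReal.ofReal ‖z‖⁻¹) z
      ≤ ENNReal.ofReal (2 * Real.pi * s) := by
  rw [← Complex.lintegral_comp_polarCoord_symm]
  have h1 : ∀ p ∈ polarCoord.target, ENNReal.ofReal p.1 •
      (ball (0 : ℂ) s).indicator (fun z => ENNReal.ofReal ‖z‖⁻¹) (Complex.polarCoord.symm p)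
      ≤ ((Ioo 0 s) ×ˢ (Ioo (-Real.pi) Real.pi)).indicator (fun _ => (1 : ENNReal)) p := by
    intro p hp
    rw [polarCoord_target] at hp
    obtain ⟨hp1, hp2⟩ := hp
    have hp1' : 0 < p.1 := hp1
    have hn : ‖Complex.polarCoord.symm p‖ = p.1 := by
      rw [Complex.norm_polarCoord_symm, abs_of_pos hp1']
    by_cases hps : p.1 < s
    · have hmem : Complex.polarCoord.symm p ∈ ball (0 : ℂ) s := by
        rw [mem_ball_zero_iff, hn]
        exact hps
      rw [indicator_of_mem hmem, hn]
      have hmem2 : p ∈ (Ioo 0 s) ×ˢ (Ioo (-Real.pi) Real.pi) := ⟨⟨hp1', hps⟩, hp2⟩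
      rw [indicator_of_mem hmem2, smul_eq_mul, ← ENNReal.ofReal_mul hp1'.le,
        mul_inv_cancel₀ hp1'.ne', ENNReal.ofReal_one]
    · have hmem : Complex.polarCoord.symm p ∉ ball (0 : ℂ) s := by
        rw [mem_ball_zero_iff, hn]
        exact hps
      rw [indicator_of_notMem hmem]
      simp
  calc _ ≤ ∫⁻ p in polarCoord.target,
        ((Ioo 0 s) ×ˢ (Ioo (-Real.pi) Real.pi)).indicator (fun _ => (1 : ENNReal)) p :=
        setLIntegral_mono' polarCoord.open_target.measurableSet h1
    _ ≤ ∫⁻ p, ((Ioo 0 s) ×ˢ (Ioo (-Real.pi) Real.pi)).indicator (fun _ => (1 : ENNReal)) p :=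
        setLIntegral_le_lintegral _ _
    _ = volume ((Ioo 0 s) ×ˢ (Ioo (-Real.pi) Real.pi)) := by
        rw [lintegral_indicator (measurableSet_Ioo.prod measurableSet_Ioo)]
        simp
    _ = ENNReal.ofReal (2 * Real.pi * s) := by
        rw [Measure.volume_eq_prod, Measure.prod_prod, Real.volume_Ioo, Real.volume_Ioo,
          ← ENNReal.ofReal_mul (by linarith)]
        congr 1
        ring

theorem small : StSMALL := by
  intro S w s hS hfin hs
  have hmeas : Measurable (fun z : ℂ => (w - z)⁻¹) := (measurable_const.sub measurable_id).inv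
  set F : ℂ → ENNReal := (ball (0 : ℂ) s).indicator (fun z => ENNReal.ofReal ‖z‖⁻¹) with hF
  have hpt : ∀ z : ℂ, ENNReal.ofReal ‖(w - z)⁻¹‖ ≤ F (w - z) + ENNReal.ofReal (1 / s) := by
    intro z
    rw [norm_inv]
    by_cases h : w - z ∈ ball (0 : ℂ) s
    · rw [hF, indicator_of_mem h]
      exact le_self_add
    · rw [hF, indicator_of_notMem h, zero_add]
      apply ENNReal.ofReal_le_ofReal
      rw [mem_ball_zero_iff, not_lt] at h
      rw [← one_div]
      exact one_div_le_one_div_of_le hs h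
  have hle : ∫⁻ z in S, ENNReal.ofReal ‖(w - z)⁻¹‖
      ≤ ENNReal.ofReal (2 * Real.pi * s) + ENNReal.ofReal (1 / s) * volume S := by
    calc ∫⁻ z in S, ENNReal.ofReal ‖(w - z)⁻¹‖
        ≤ ∫⁻ z in S, (F (w - z) + ENNReal.ofReal (1 / s)) := lintegral_mono hpt
      _ = (∫⁻ z in S, F (w - z)) + ∫⁻ z in S, ENNReal.ofReal (1 / s) :=
          lintegral_add_right _ measurable_const
      _ ≤ (∫⁻ z, F (w - z)) + ENNReal.ofReal (1 / s) * volume S := by
          refine add_le_add (setLIntegral_le_lintegral _ _) ?_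
          rw [setLIntegral_const]
      _ = (∫⁻ z, F z) + ENNReal.ofReal (1 / s) * volume S := by
          rw [lintegral_sub_left_eq_self F w]
      _ ≤ _ := add_le_add (polar_SMALL s hs) le_rfl
  have htop : ENNReal.ofReal (2 * Real.pi * s) + ENNReal.ofReal (1 / s) * volume S ≠ ⊤ :=
    ENNReal.add_ne_top.mpr ⟨ENNReal.ofReal_ne_top, ENNReal.mul_ne_top ENNReal.ofReal_ne_top hfin⟩
  constructor
  · rw [integral_eq_lintegral_of_nonneg_ae (Eventually.of_forall fun z => norm_nonneg _)
      hmeas.norm.aestronglyMeasurable]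
    have h2 : (∫⁻ z in S, ENNReal.ofReal ‖(w - z)⁻¹‖).toReal
        ≤ (ENNReal.ofReal (2 * Real.pi * s) + ENNReal.ofReal (1 / s) * volume S).toReal :=
      ENNReal.toReal_mono htop hle
    refine h2.trans ?_
    rw [ENNReal.toReal_add ENNReal.ofReal_ne_top (ENNReal.mul_ne_top ENNReal.ofReal_ne_top hfin),
      ENNReal.toReal_mul, ENNReal.toReal_ofReal (by positivity), ENNReal.toReal_ofReal (by positivity)]
    have h3 : 0 < Real.pi * s := by positivity
    have h4 : 1 / s * (volume S).toReal = (volume S).toReal / s := by ring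
    rw [h4]
    linarith
  · refine ⟨hmeas.aestronglyMeasurable, ?_⟩
    rw [hasFiniteIntegral_iff_norm]
    exact lt_of_le_of_lt hle (lt_top_iff_ne_top.mpr htop)

end Pool.Agent.Helper49.DF
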