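import Pool.Agent.Helper49.DF.St

/-!
# Module TOPA: position of the second inclusion and the field on its boundary
-/

set_option autoImplicit false

open Set Filter Topology MeasureTheory Complex Metric
open scoped ContDiff ComplexConjugate

namespace Pool.Agent.Helper49.DF

open Pool.Agent.Helper65.PI

private lemma ci_circle_TOPA (z : ℂ) (h : ‖z‖ = 1) : ci z = z := by
  unfold ci
  have h1 : conj z * z = 1 := by
    rw [mul_comm, Complex.mul_conj, Complex.normSq_eq_norm_sq, h]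
    norm_num
  exact inv_eq_of_mul_eq_one_right h1

private lemma diff_refl_TOPA (ρ : ℝ) (hρ : 1 < ρ) (h : ℂ → ℂ) (hd : DifferentiableOn ℂ h (ball 0 ρ))
    (ζ : ℂ) (hζ : ρ⁻¹ < ‖ζ‖) : DifferentiableAt ℂ (fun ξ => conj (h (ci ξ))) ζ := by
  have hρ0 : 0 < ρ := by linarith
  have hζ0 : ζ ≠ 0 := by
    intro h0
    rw [h0, norm_zero] at hζ
    exact absurd hζ (not_lt.mpr (by positivity))
  have hmem : conj (ζ⁻¹) ∈ ball (0 : ℂ) ρ := by
    rw [mem_ball_zero_iff, RCLike.norm_conj, norm_inv]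
    exact inv_lt_of_inv_lt₀ hρ0 hζ
  have h1 : DifferentiableAt ℂ h (conj (ζ⁻¹)) := hd.differentiableAt (isOpen_ball.mem_nhds hmem)
  have h2 : DifferentiableAt ℂ (conj ∘ h ∘ conj) (ζ⁻¹) := by
    have := h1.conj_conj
    simpa using this
  have h3 : DifferentiableAt ℂ (fun ξ : ℂ => ξ⁻¹) ζ := differentiableAt_inv hζ0
  have h4 := h2.comp ζ h3
  have e : (fun ξ => conj (h (ci ξ))) = (conj ∘ h ∘ conj) ∘ (fun ξ : ℂ => ξ⁻¹) := by
    funext ξ
    simp only [Function.comp_apply, ci, map_inv₀]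
  rw [e]
  exact h4

theorem topa : Pool.Agent.Helper65.PI.StCONN → Pool.Agent.Helper65.PI.StHALF → StHAT → StANN →
    StREAL → StTOPA := by
  intro hCONN hHALF hHAT hANN hREAL Ω D' k ρ s ψ h F F' P hs1 hs2 hdis
  have hρ1 := P.one_lt
  have hρ0 : 0 < ρ := by linarith
  have hρi : 0 < ρ⁻¹ := by positivity
  have hs0 : 0 < s := by linarith
  have hD'o := P.adm'.isOpen
  have hsub1 : closedBall (0 : ℂ) s ⊆ ball 0 ρ := closedBall_subset_ball (by linarith)
  have hsub2 : closedBall (0 : ℂ) s ⊆ closedBall 0 1 := closedBall_subset_closedBall hs2.le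
  have hψc : ContinuousOn ψ (ball 0 ρ) := P.diffψ.continuousOn
  have hcomp : ∀ r, r < ρ → IsClosed (ψ '' closedBall (0 : ℂ) r) := by
    intro r hr
    exact ((isCompact_closedBall 0 r).image_of_continuousOn
      (hψc.mono (closedBall_subset_ball hr))).isClosed
  have hNpre : IsPreconnected (ψ '' closedBall (0 : ℂ) s) :=
    (convex_closedBall 0 s).isPreconnected.image ψ (hψc.mono hsub1)
  -- the set away from the inclusions
  have hW := hCONN Ω D' P.open_Ω P.conn_Ω.isPreconnected P.adm'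
  have hWo : IsOpen (Ω \ closure D') := P.open_Ω.sdiff isClosed_closure
  obtain ⟨Fh, hFd, hFF, hFψ⟩ := hHAT Ω D' k ρ ψ h F F' P
  obtain ⟨C, hCc, hCΩ, hCs, hCeq⟩ := P.near
  have hz : ∃ z₁ ∈ Ω, z₁ ∉ C := by
    by_contra hcon
    push Not at hcon
    have e : Ω = C := Subset.antisymm hcon hCΩ
    have hclopen : IsClopen Ω := ⟨by rw [e]; exact hCc.isClosed, P.open_Ω⟩
    have hu : Ω = univ := hclopen.eq_univ P.conn_Ω.nonempty
    rw [← e, hu] at hCc
    exact noncompact_univ ℂ hCc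
  obtain ⟨z₁, hz₁Ω, hz₁C⟩ := hz
  have hev : F' =ᶠ[𝓝 z₁] Fh := by
    have ho : IsOpen (Ω \ C) := P.open_Ω.sdiff hCc.isClosed
    filter_upwards [ho.mem_nhds ⟨hz₁Ω, hz₁C⟩] with z hz
    rw [hFF z hz.1 (fun hn => hz.2 (hCs (Or.inl hn))), hCeq z hz]
  have hz₁D : z₁ ∉ closure D' := fun hn => hz₁C (hCs (Or.inr hn))
  -- the two positions
  have hcov : ψ '' closedBall (0 : ℂ) s ⊆ D' ∪ (closure D')ᶜ := by
    intro z hzN
    by_cases hzD : z ∈ D'
    · exact Or.inl hzD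
    · right
      intro hzc
      have hfr : z ∈ frontier D' := by
        rw [hD'o.frontier_eq]
        exact ⟨hzc, hzD⟩
      exact Set.disjoint_left.mp hdis hfr hzN
  have hdj : Disjoint D' (closure D')ᶜ := by
    rw [Set.disjoint_left]
    exact fun z h1 h2 => h2 (subset_closure h1)
  rcases IsPreconnected.subset_or_subset hD'o isClosed_closure.isOpen_compl hdj hcov hNpre with
    hN | hN
  · refine ⟨hN, ?_⟩
    have hsub3 : closedBall (0 : ℂ) ρ⁻¹ ⊆ closedBall 0 s := closedBall_subset_closedBall hs1.le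
    have hWsub : Ω \ closure D' ⊆ Ω \ ψ '' closedBall 0 ρ⁻¹ := by
      intro z hz
      refine ⟨hz.1, fun hn => hz.2 (subset_closure (hN (image_mono hsub3 hn)))⟩
    have hEq : EqOn F' Fh (Ω \ closure D') :=
      AnalyticOnNhd.eqOn_of_preconnected_of_eventuallyEq (P.holF'.analyticOnNhd hWo)
        ((hFd.mono hWsub).analyticOnNhd hWo) hW ⟨hz₁Ω, hz₁D⟩ hev
    intro ζ hζ hfr
    have hnD : ψ ζ ∉ D' := by
      rw [hD'o.frontier_eq] at hfr
      exact hfr.2
    have hζs : s < ‖ζ‖ := by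
      by_contra hcon
      push Not at hcon
      exact hnD (hN ⟨ζ, mem_closedBall_zero_iff.mpr hcon, rfl⟩)
    have hζρ : ρ⁻¹ < ‖ζ‖ := hs1.trans hζs
    have hψΩ : ψ ζ ∈ Ω := P.subψ ⟨ζ, hζ, rfl⟩
    have hψn : ψ ζ ∉ ψ '' closedBall 0 ρ⁻¹ := by
      rintro ⟨ξ, hξ, hξe⟩
      have h1 : ξ ∈ ball (0 : ℂ) ρ := hsub1 (hsub3 hξ)
      have h2 := P.injψ h1 hζ hξe
      rw [h2, mem_closedBall_zero_iff] at hξ
      linarith
    have ho2 : IsOpen (Ω \ ψ '' closedBall (0 : ℂ) ρ⁻¹) :=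
      P.open_Ω.sdiff (hcomp _ (by linarith))
    have hc1 : ContinuousAt Fh (ψ ζ) :=
      (hFd.differentiableAt (ho2.mem_nhds ⟨hψΩ, hψn⟩)).continuousAt
    have hc2 : ContinuousAt F' (ψ ζ) := P.contF'.continuousAt (P.open_Ω.mem_nhds hψΩ)
    obtain ⟨V, hVo, hpV, hVΩ, _, _, hVq⟩ := hHALF Ω D' ∅ P.adm' isClosed_empty (ψ ζ) hfr
      (notMem_empty _) P.open_Ω
    have hcl : ψ ζ ∈ closure (Ω \ closure D') :=
      closure_mono (diff_subset_diff_left hVΩ) (hVq (ψ ζ) ⟨hpV, hfr⟩)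
    haveI : NeBot (𝓝[Ω \ closure D'] (ψ ζ)) := mem_closure_iff_nhdsWithin_neBot.mp hcl
    have ht1 : Tendsto F' (𝓝[Ω \ closure D'] (ψ ζ)) (𝓝 (F' (ψ ζ))) := hc2.mono_left nhdsWithin_le_nhds
    have ht2 : Tendsto Fh (𝓝[Ω \ closure D'] (ψ ζ)) (𝓝 (Fh (ψ ζ))) := hc1.mono_left nhdsWithin_le_nhds
    have ht3 : F' =ᶠ[𝓝[Ω \ closure D'] (ψ ζ)] Fh := by
      filter_upwards [self_mem_nhdsWithin] with z hz
      exact hEq hz
    have ht4 := tendsto_nhds_unique (ht1.congr' ht3) ht2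
    rw [ht4]
    exact hFψ ζ hζ hζρ
  · exfalso
    set s₀ := (ρ⁻¹ + s) / 2 with hs₀
    have a1 : ρ⁻¹ < s₀ := by rw [hs₀]; linarith
    have a2 : s₀ < s := by rw [hs₀]; linarith
    have hbs : ball (0 : ℂ) s ⊆ ball 0 ρ := ball_subset_ball (by linarith)
    have hsW : ψ '' ball 0 s ⊆ Ω \ closure D' := by
      rintro _ ⟨ζ, hζ, rfl⟩
      exact ⟨P.subψ ⟨ζ, hbs hζ, rfl⟩, hN ⟨ζ, ball_subset_closedBall hζ, rfl⟩⟩
    have hpre := hANN (Ω \ closure D') ψ s₀ s hWo hW (by linarith) a2 (P.diffψ.mono hbs)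
      (P.injψ.mono hbs) hsW
    have hcl0 := hcomp s₀ (by linarith)
    have ho3 : IsOpen ((Ω \ closure D') \ ψ '' closedBall (0 : ℂ) s₀) := hWo.sdiff hcl0
    have hsub4 : closedBall (0 : ℂ) ρ⁻¹ ⊆ closedBall 0 s₀ := closedBall_subset_closedBall a1.le
    have hsub5 : closedBall (0 : ℂ) s₀ ⊆ closedBall 0 1 := closedBall_subset_closedBall (by linarith)
    have hEq : EqOn F' Fh ((Ω \ closure D') \ ψ '' closedBall (0 : ℂ) s₀) := by
      refine AnalyticOnNhd.eqOn_of_preconnected_of_eventuallyEq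
        ((P.holF'.mono diff_subset).analyticOnNhd ho3)
        ((hFd.mono ?_).analyticOnNhd ho3) hpre ⟨⟨hz₁Ω, hz₁D⟩, ?_⟩ hev
      · intro z hz
        exact ⟨hz.1.1, fun hn => hz.2 (image_mono hsub4 hn)⟩
      · intro hn
        exact hz₁C (hCs (Or.inl (image_mono hsub5 hn)))
    have hkm : (km k : ℂ) ≠ 0 := by
      have : km k ≠ 0 := by
        unfold km
        intro h0
        have h1 : 1 - k = 0 := by linarith
        exact P.k_ne (by linarith)
      exact_mod_cast this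
    have hring : ∀ ζ : ℂ, s₀ < ‖ζ‖ → ‖ζ‖ < s →
        (F' (ψ ζ) - kp k * h ζ) / km k = conj (h (ci ζ)) := by
      intro ζ h1 h2
      have hζs : ζ ∈ ball (0 : ℂ) s := mem_ball_zero_iff.mpr h2
      have hmem : ψ ζ ∈ (Ω \ closure D') \ ψ '' closedBall (0 : ℂ) s₀ := by
        refine ⟨hsW ⟨ζ, hζs, rfl⟩, ?_⟩
        rintro ⟨ξ, hξ, hξe⟩
        have h3 : ξ ∈ ball (0 : ℂ) ρ := closedBall_subset_ball (by linarith : s₀ < ρ) hξ
        have h4 := P.injψ h3 (hbs hζs) hξe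
        rw [h4, mem_closedBall_zero_iff] at hξ
        linarith
      rw [hEq hmem, hFψ ζ (hbs hζs) (a1.trans h1)]
      field_simp
      ring
    set L : ℂ → ℂ := fun ζ => open Classical in
      if ‖ζ‖ < s then (F' (ψ ζ) - kp k * h ζ) / km k else conj (h (ci ζ)) with hL
    have hLd : DifferentiableOn ℂ L (ball 0 ρ) := by
      intro ζ hζ
      apply DifferentiableAt.differentiableWithinAt
      by_cases hc : ‖ζ‖ < s
      · have hζs : ζ ∈ ball (0 : ℂ) s := mem_ball_zero_iff.mpr hc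
        have e : L =ᶠ[𝓝 ζ] fun ζ => (F' (ψ ζ) - kp k * h ζ) / km k := by
          filter_upwards [isOpen_ball.mem_nhds hζs] with ξ hξ
          simp only [hL, if_pos (mem_ball_zero_iff.mp hξ)]
        refine DifferentiableAt.congr_of_eventuallyEq ?_ e
        have d1 : DifferentiableAt ℂ F' (ψ ζ) :=
          P.holF'.differentiableAt (hWo.mem_nhds (hsW ⟨ζ, hζs, rfl⟩))
        have d2 : DifferentiableAt ℂ ψ ζ := P.diffψ.differentiableAt (isOpen_ball.mem_nhds hζ)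
        have d3 : DifferentiableAt ℂ h ζ := P.diffh.differentiableAt (isOpen_ball.mem_nhds hζ)
        have d4 : DifferentiableAt ℂ (fun ζ => F' (ψ ζ)) ζ := d1.comp ζ d2
        exact (d4.sub (d3.const_mul _)).div_const _
      · push Not at hc
        have hc' : s₀ < ‖ζ‖ := lt_of_lt_of_le a2 hc
        have e : L =ᶠ[𝓝 ζ] fun ζ => conj (h (ci ζ)) := by
          have ho : IsOpen {ξ : ℂ | s₀ < ‖ξ‖} := isOpen_lt continuous_const continuous_norm
          filter_upwards [ho.mem_nhds hc'] with ξ hξ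
          by_cases hx : ‖ξ‖ < s
          · simp only [hL, if_pos hx]
            exact hring ξ hξ hx
          · simp only [hL, if_neg hx]
        refine DifferentiableAt.congr_of_eventuallyEq ?_ e
        exact diff_refl_TOPA ρ hρ1 h P.diffh ζ (a1.trans hc')
    have hLc : ∀ ζ, ‖ζ‖ = 1 → L ζ = conj (h ζ) := by
      intro ζ hζ
      have hn : ¬ ‖ζ‖ < s := by rw [hζ]; linarith
      simp only [hL, if_neg hn]
      rw [ci_circle_TOPA ζ hζ]
    obtain ⟨c, hc⟩ := hREAL ρ h L hρ1 P.diffh hLd hLc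
    have m0 : (0 : ℂ) ∈ ball (0 : ℂ) 1 := mem_ball_self one_pos
    have m1 : (1 / 2 : ℂ) ∈ ball (0 : ℂ) 1 := by
      rw [mem_ball_zero_iff]
      norm_num
    have hb1 : ball (0 : ℂ) 1 ⊆ ball 0 ρ := ball_subset_ball hρ1.le
    have e0 : F (ψ 0) = F (ψ (1 / 2)) := by
      rw [P.inside 0 (ball_subset_closedBall m0), P.inside (1 / 2) (ball_subset_closedBall m1),
        hc 0 m0, hc (1 / 2) m1]
    have := P.inj (hb1 m0) (hb1 m1) e0
    norm_num at this

end Pool.Agent.Helper49.DF
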