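import Pool.Agent.Helper49.DF.St

/-!
# Project DF, module TOPB
-/

set_option autoImplicit false

open Set Filter Topology MeasureTheory Complex Metric
open scoped ContDiff ComplexConjugate

namespace Pool.Agent.Helper49.DF

open Pool.Agent.Helper65.PI

private theorem norm_ci_TOPB (z : ℂ) : ‖ci z‖ = ‖z‖⁻¹ := by
  unfold ci
  rw [norm_inv, RCLike.norm_conj]

private theorem ci_ci_TOPB (z : ℂ) : ci (ci z) = z := by
  unfold ci
  rw [map_inv₀, Complex.conj_conj, inv_inv]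

private theorem ci_eq_TOPB (z : ℂ) : ci z = conj (z⁻¹) := by
  unfold ci
  rw [map_inv₀]

private theorem cont_ci_TOPB {z : ℂ} (hz : z ≠ 0) : ContinuousAt ci z := by
  have h1 : ContinuousAt (fun w : ℂ => conj w) z := Complex.continuous_conj.continuousAt
  have h2 : conj z ≠ 0 := by simpa using hz
  exact h1.inv₀ h2

private theorem diff_ci_TOPB {g : ℂ → ℂ} {z : ℂ} (hz : z ≠ 0) (hg : DifferentiableAt ℂ g (ci z)) :
    DifferentiableAt ℂ (fun w => conj (g (ci w))) z := by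
  have h1 : DifferentiableAt ℂ (fun w => conj (g (conj w))) (z⁻¹) := by
    have h2 : DifferentiableAt ℂ g (conj (z⁻¹)) := by rwa [← ci_eq_TOPB]
    have h3 := h2.conj_conj
    rw [Complex.conj_conj] at h3
    exact h3
  have h4 : DifferentiableAt ℂ (fun w : ℂ => w⁻¹) z := differentiableAt_inv hz
  have h5 := DifferentiableAt.comp z (g := fun w => conj (g (conj w))) (f := fun w : ℂ => w⁻¹) h1 h4
  refine h5.congr_of_eventuallyEq (Filter.Eventually.of_forall fun w => ?_)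
  show conj (g (ci w)) = conj (g (conj (w⁻¹)))
  rw [ci_eq_TOPB]


private theorem polar_TOPB {k ρ : ℝ} {h f' : ℂ → ℂ} {W : Set ℂ} {ζ₁ : ℂ} (hρ : 1 < ρ)
    (hk : km k ≠ 0) (hWb : W ⊆ ball 0 ρ) (hW : IsOpen W)
    (hh : DifferentiableOn ℂ h (ball 0 ρ))
    (hf : DifferentiableOn ℂ f' W) (h1 : ‖ζ₁‖ = ρ⁻¹) (h1W : ζ₁ ∈ W)
    (hcl : ζ₁ ∈ closure {ζ | ζ ∈ W ∧ ρ⁻¹ < ‖ζ‖ ∧
      f' =ᶠ[𝓝 ζ] fun ζ => kp k * h ζ + km k * conj (h (ci ζ))}) :
    ∃ V : Set ℂ, IsOpen V ∧ (V ∩ sphere 0 ρ).Nonempty ∧ ∃ g : ℂ → ℂ, DifferentiableOn ℂ g V ∧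
      ∀ ζ ∈ V ∩ ball 0 ρ, 1 ≤ ‖ζ‖ ∧ g ζ = kp k * h ζ + km k * conj (h (ci ζ)) := by
  have hρ0 : 0 < ρ := by linarith
  have hζ0 : ζ₁ ≠ 0 := by
    rw [← norm_pos_iff, h1]; positivity
  set E : ℂ → ℂ := fun w => Complex.exp w * ζ₁ with hE
  have hEd : Differentiable ℂ E := Complex.differentiable_exp.mul_const ζ₁
  have hE0 : E 0 = ζ₁ := by simp [hE]
  have hEn : ∀ w, ‖E w‖ = Real.exp w.re * ρ⁻¹ := by
    intro w
    simp only [hE]
    rw [norm_mul, Complex.norm_exp, h1]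
  have hEo : IsOpenMap E :=
    (Homeomorph.mulRight₀ ζ₁ hζ0).isOpenMap.comp Complex.isOpenMap_exp
  obtain ⟨δ, hδ, hδW⟩ : ∃ δ > 0, ball (0 : ℂ) δ ⊆ E ⁻¹' W := by
    have h2 : E ⁻¹' W ∈ 𝓝 (0 : ℂ) :=
      (hW.preimage hEd.continuous).mem_nhds (by show E 0 ∈ W; rw [hE0]; exact h1W)
    exact Metric.mem_nhds_iff.1 h2
  have hlog : 0 < Real.log ρ := Real.log_pos hρ
  set e : ℝ := min (δ / 2) (Real.log ρ) with he
  have he0 : 0 < e := lt_min (by linarith) hlog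
  set Qs : Set ℂ := {w | |w.re| < e ∧ |w.im| < e} with hQs
  have hQo : IsOpen Qs :=
    (isOpen_lt (Complex.continuous_re.abs) continuous_const).inter
      (isOpen_lt (Complex.continuous_im.abs) continuous_const)
  have hQW : ∀ w ∈ Qs, E w ∈ W := by
    intro w hw
    apply hδW
    rw [mem_ball_zero_iff]
    have h2 := Complex.norm_le_abs_re_add_abs_im w
    have h3 : e ≤ δ / 2 := min_le_left _ _
    obtain ⟨h4, h5⟩ := hw
    linarith
  set P : Set ℂ := E '' Qs with hP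
  have hPo : IsOpen P := hEo _ hQo
  have hPW : P ⊆ W := by
    rintro _ ⟨w, hw, rfl⟩
    exact hQW w hw
  have h0Q : (0 : ℂ) ∈ Qs := by simp [hQs, he0]
  have hζP : ζ₁ ∈ P := ⟨0, h0Q, hE0⟩
  have hre : ∀ w, ρ⁻¹ < ‖E w‖ → 0 < w.re := by
    intro w hw
    rw [hEn] at hw
    have h2 : 1 < Real.exp w.re := by
      by_contra h3
      push Not at h3
      have h4 : Real.exp w.re * ρ⁻¹ ≤ 1 * ρ⁻¹ := mul_le_mul_of_nonneg_right h3 (by positivity)
      rw [one_mul] at h4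
      linarith
    exact Real.one_lt_exp_iff.1 h2
  set Qp : Set ℂ := {w | 0 < w.re} ∩ {w | w.re < e} ∩ ({w | -e < w.im} ∩ {w | w.im < e}) with hQp
  have hQpc : Convex ℝ Qp :=
    ((convex_halfSpace_re_gt 0).inter (convex_halfSpace_re_lt e)).inter
      ((convex_halfSpace_im_gt (-e)).inter (convex_halfSpace_im_lt e))
  have hQpo : IsOpen Qp :=
    ((isOpen_lt continuous_const Complex.continuous_re).inter
      (isOpen_lt Complex.continuous_re continuous_const)).inter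
      ((isOpen_lt continuous_const Complex.continuous_im).inter
        (isOpen_lt Complex.continuous_im continuous_const))
  have hQpQ : Qp ⊆ Qs := by
    rintro w ⟨⟨h2, h3⟩, h4, h5⟩
    have h2' : 0 < w.re := h2
    have h3' : w.re < e := h3
    have h4' : -e < w.im := h4
    have h5' : w.im < e := h5
    exact ⟨by rw [abs_lt]; constructor <;> linarith, by rw [abs_lt]; constructor <;> linarith⟩
  have hmemQp : ∀ w ∈ Qs, 0 < w.re → w ∈ Qp := by
    rintro w ⟨h2, h3⟩ h4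
    rw [abs_lt] at h2 h3
    exact ⟨⟨h4, h2.2⟩, h3.1, h3.2⟩
  set Φ : ℂ → ℂ := fun ζ => kp k * h ζ + km k * conj (h (ci ζ)) with hΦ
  have hfE : DifferentiableOn ℂ (fun w => f' (E w)) Qp :=
    DifferentiableOn.comp (g := f') (f := E) hf hEd.differentiableOn (fun w hw => hQW w (hQpQ hw))
  have hΦE : DifferentiableOn ℂ (fun w => Φ (E w)) Qp := by
    intro w hw
    have hwW : E w ∈ W := hQW w (hQpQ hw)
    have hwb : E w ∈ ball (0 : ℂ) ρ := hWb hwW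
    have hwn : ρ⁻¹ < ‖E w‖ := by
      rw [hEn]
      have h2 : 1 < Real.exp w.re := Real.one_lt_exp_iff.2 hw.1.1
      have h3 : 0 < ρ⁻¹ := by positivity
      nlinarith
    have hw0 : E w ≠ 0 := by
      rw [← norm_pos_iff]
      exact lt_trans (by positivity) hwn
    have hcib : ci (E w) ∈ ball (0 : ℂ) ρ := by
      rw [mem_ball_zero_iff, norm_ci_TOPB]
      exact inv_lt_of_inv_lt₀ hρ0 hwn
    have hd1 : DifferentiableAt ℂ h (E w) := hh.differentiableAt (isOpen_ball.mem_nhds hwb)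
    have hd2 : DifferentiableAt ℂ h (ci (E w)) := hh.differentiableAt (isOpen_ball.mem_nhds hcib)
    have hd3 : DifferentiableAt ℂ Φ (E w) :=
      (hd1.const_mul _).add ((diff_ci_TOPB hw0 hd2).const_mul _)
    exact (DifferentiableAt.comp w hd3 (hEd w)).differentiableWithinAt
  obtain ⟨w₀, hw₀, hw₀e⟩ : ∃ w₀ ∈ Qp, (fun w => f' (E w)) =ᶠ[𝓝 w₀] fun w => Φ (E w) := by
    obtain ⟨ζ₀, hζ₀P, hζ₀W, hζ₀n, hζ₀e⟩ := mem_closure_iff.1 hcl P hPo hζP
    obtain ⟨w₀, hw₀, rfl⟩ := hζ₀P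
    exact ⟨w₀, hmemQp w₀ hw₀ (hre _ hζ₀n), hζ₀e.comp_tendsto hEd.continuous.continuousAt⟩
  have hEq : EqOn (fun w => f' (E w)) (fun w => Φ (E w)) Qp :=
    (hfE.analyticOnNhd hQpo).eqOn_of_preconnected_of_eventuallyEq (hΦE.analyticOnNhd hQpo)
      hQpc.isPreconnected hw₀ hw₀e
  -- the neighbourhood
  have hkC : (km k : ℂ) ≠ 0 := by exact_mod_cast hk
  refine ⟨{0}ᶜ ∩ ci ⁻¹' P, ?_, ?_, fun ζ => kp k * conj ((f' (ci ζ) - kp k * h (ci ζ)) / km k) +
    km k * conj (h (ci ζ)), ?_, ?_⟩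
  · have h2 : ContinuousOn ci ({0}ᶜ : Set ℂ) := fun z hz => (cont_ci_TOPB hz).continuousWithinAt
    exact h2.isOpen_inter_preimage isOpen_compl_singleton hPo
  · refine ⟨ci ζ₁, ⟨?_, ?_⟩, ?_⟩
    · show ci ζ₁ ≠ 0
      rw [← norm_pos_iff, norm_ci_TOPB, h1, inv_inv]
      exact hρ0
    · show ci (ci ζ₁) ∈ P
      rw [ci_ci_TOPB]; exact hζP
    · rw [mem_sphere_zero_iff_norm, norm_ci_TOPB, h1, inv_inv]
  · rintro ζ ⟨hζ, hζP'⟩
    have hζ' : ζ ≠ 0 := hζ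
    have hwW : ci ζ ∈ W := hPW hζP'
    have hd1 : DifferentiableAt ℂ f' (ci ζ) := hf.differentiableAt (hW.mem_nhds hwW)
    have hd2 : DifferentiableAt ℂ h (ci ζ) :=
      hh.differentiableAt (isOpen_ball.mem_nhds (hWb hwW))
    have hd3 : DifferentiableAt ℂ (fun w => (f' w - kp k * h w) / km k) (ci ζ) :=
      (hd1.sub (hd2.const_mul _)).div_const _
    exact (((diff_ci_TOPB hζ' hd3).const_mul _).add
      ((diff_ci_TOPB hζ' hd2).const_mul _)).differentiableWithinAt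
  · rintro ζ ⟨⟨hζ, hζP'⟩, hζb⟩
    have hζ' : ζ ≠ 0 := hζ
    have hn0 : 0 < ‖ζ‖ := norm_pos_iff.2 hζ'
    rw [mem_ball_zero_iff] at hζb
    obtain ⟨q, hq, hqe⟩ := hζP'
    have hnq : ‖E q‖ = ‖ζ‖⁻¹ := by rw [hqe, norm_ci_TOPB]
    have hgt : ρ⁻¹ < ‖E q‖ := by
      rw [hnq]
      exact (inv_lt_inv₀ hρ0 hn0).2 hζb
    have hqre := hre q hgt
    have hqp := hmemQp q hq hqre
    have hle : ‖ζ‖⁻¹ ≤ 1 := by
      rw [← hnq, hEn]
      have h2 : q.re < e := (abs_lt.1 hq.1).2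
      have h3 : e ≤ Real.log ρ := min_le_right _ _
      have h4 : Real.exp q.re ≤ ρ := by
        rw [← Real.exp_log hρ0]
        exact Real.exp_le_exp.2 (by linarith)
      calc Real.exp q.re * ρ⁻¹ ≤ ρ * ρ⁻¹ := mul_le_mul_of_nonneg_right h4 (by positivity)
        _ = 1 := mul_inv_cancel₀ hρ0.ne'
    have h1n : 1 ≤ ‖ζ‖ := by
      have := (inv_le_one₀ hn0).1 hle
      exact this
    refine ⟨h1n, ?_⟩
    have h2 := hEq hqp
    simp only [hΦ] at h2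
    rw [hqe, ci_ci_TOPB] at h2
    show kp k * conj ((f' (ci ζ) - kp k * h (ci ζ)) / km k) + km k * conj (h (ci ζ)) = _
    rw [h2]
    have h3 : ((kp k : ℂ) * h (ci ζ) + km k * conj (h ζ) - kp k * h (ci ζ)) / km k =
        conj (h ζ) := by
      field_simp
      ring
    rw [h3, Complex.conj_conj]

theorem topb (hCONN : Pool.Agent.Helper65.PI.StCONN) (hHALF : Pool.Agent.Helper65.PI.StHALF)
    (hINT : Pool.Agent.Helper65.PI.StINT) (hINV : StINV) : StTOPB := by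
  intro Ω D' k ρ ψ h F F' hP hΩ hhc hext
  obtain ⟨hΩo, hΩc, hadm, hk0, hk1, hρ, hψ, hψi, -, hh, -, -, hout, -, hF'c, hF'd, C, hCc, hCΩ,
    hCsub, hCe⟩ := hP
  have hρ0 : 0 < ρ := by linarith
  have hkm : km k ≠ 0 := by
    unfold km
    intro h0
    apply hk1
    linarith
  have hρi : ρ⁻¹ < 1 := inv_lt_one_of_one_lt₀ hρ
  obtain ⟨hψo, Z, hZ, hZd⟩ := hINV (ball 0 ρ) ψ isOpen_ball hψ hψi
  have hψm : ∀ ζ ∈ ball (0 : ℂ) ρ, ψ ζ ∈ Ω := fun ζ hζ => by
    rw [← hΩ]; exact mem_image_of_mem _ hζ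
  set W : Set ℂ := {ζ | ζ ∈ ball (0 : ℂ) ρ ∧ ψ ζ ∉ closure D'} with hWdef
  have hWb : W ⊆ ball 0 ρ := fun ζ hζ => hζ.1
  have hWo : IsOpen W := by
    have h2 := hψ.continuousOn.isOpen_inter_preimage isOpen_ball
      (isClosed_closure (s := D')).isOpen_compl
    exact h2
  have hWim : W = Z '' (Ω \ closure D') := by
    ext ζ
    constructor
    · rintro ⟨h2, h3⟩
      exact ⟨ψ ζ, ⟨hψm ζ h2, h3⟩, hZ ζ h2⟩
    · rintro ⟨z, ⟨h2, h3⟩, rfl⟩
      rw [← hΩ] at h2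
      obtain ⟨ζ, h4, rfl⟩ := h2
      rw [hZ ζ h4]
      exact ⟨h4, h3⟩
  have hWc : IsPreconnected W := by
    rw [hWim]
    refine (hCONN Ω D' hΩo hΩc.isPreconnected hadm).image Z ?_
    refine hZd.continuousOn.mono ?_
    rw [hΩ]
    exact diff_subset
  set f' : ℂ → ℂ := fun ζ => F' (ψ ζ) with hf'
  set Φ : ℂ → ℂ := fun ζ => kp k * h ζ + km k * conj (h (ci ζ)) with hΦ
  have hf'd : DifferentiableOn ℂ f' W :=
    DifferentiableOn.comp (g := F') (f := ψ) hF'd (hψ.mono hWb)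
      (fun ζ hζ => ⟨hψm ζ hζ.1, hζ.2⟩)
  have hΦd : ∀ ζ ∈ ball (0 : ℂ) ρ, ρ⁻¹ < ‖ζ‖ → DifferentiableAt ℂ Φ ζ := by
    intro ζ hζ hζn
    have hζ0 : ζ ≠ 0 := by
      rw [← norm_pos_iff]
      exact lt_trans (by positivity) hζn
    have hcib : ci ζ ∈ ball (0 : ℂ) ρ := by
      rw [mem_ball_zero_iff, norm_ci_TOPB]
      exact inv_lt_of_inv_lt₀ hρ0 hζn
    have hd1 : DifferentiableAt ℂ h ζ := hh.differentiableAt (isOpen_ball.mem_nhds hζ)
    have hd2 : DifferentiableAt ℂ h (ci ζ) := hh.differentiableAt (isOpen_ball.mem_nhds hcib)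
    exact (hd1.const_mul _).add ((diff_ci_TOPB hζ0 hd2).const_mul _)
  set S : Set ℂ := {ζ | ζ ∈ W ∧ ρ⁻¹ < ‖ζ‖ ∧ f' =ᶠ[𝓝 ζ] Φ} with hS
  have hSo : IsOpen S := by
    rw [isOpen_iff_mem_nhds]
    rintro ζ ⟨h2, h3, h4⟩
    have h5 : ∀ᶠ x in 𝓝 ζ, ρ⁻¹ < ‖x‖ := continuous_norm.continuousAt.eventually (lt_mem_nhds h3)
    filter_upwards [hWo.mem_nhds h2, h5, eventually_eventually_nhds.2 h4] with x h6 h7 h8
    exact ⟨h6, h7, h8⟩
  have hSne : (W ∩ S).Nonempty := by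
    obtain ⟨z, hzΩ, hzC⟩ : ∃ z ∈ Ω, z ∉ C := by
      by_contra h2
      push Not at h2
      have h3 : Ω = C := Subset.antisymm h2 hCΩ
      have h4 : IsClopen Ω := ⟨by rw [h3]; exact hCc.isClosed, hΩo⟩
      have h5 : Ω = univ := h4.eq_univ hΩc.nonempty
      have h6 : IsCompact (univ : Set ℂ) := by rw [← h5, h3]; exact hCc
      exact noncompact_univ ℂ h6
    rw [← hΩ] at hzΩ
    obtain ⟨ζ, hζ, rfl⟩ := hzΩ
    have hζW : ζ ∈ W := ⟨hζ, fun h2 => hzC (hCsub (Or.inr h2))⟩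
    have hζ1 : 1 < ‖ζ‖ := by
      by_contra h2
      push Not at h2
      exact hzC (hCsub (Or.inl ⟨ζ, by rwa [mem_closedBall_zero_iff], rfl⟩))
    refine ⟨ζ, hζW, hζW, by linarith, ?_⟩
    have h2 : ∀ᶠ x in 𝓝 ζ, ψ x ∉ C := by
      have h3 : ContinuousAt ψ ζ := (hψ.continuousOn).continuousAt (isOpen_ball.mem_nhds hζ)
      exact h3.eventually (hCc.isClosed.isOpen_compl.mem_nhds hzC)
    have h4 : ∀ᶠ x in 𝓝 ζ, 1 < ‖x‖ := continuous_norm.continuousAt.eventually (lt_mem_nhds hζ1)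
    filter_upwards [h2, h4, isOpen_ball.mem_nhds hζ] with x h5 h6 h7
    show F' (ψ x) = kp k * h x + km k * conj (h (ci x))
    rw [← hCe (ψ x) ⟨hψm x h7, h5⟩]
    exact hout x h7 h6.le
  have hWS : W ⊆ S := by
    refine hWc.subset_of_closure_inter_subset hSo hSne ?_
    rintro ζ₁ ⟨hcl, hζ₁⟩
    have hge : ρ⁻¹ ≤ ‖ζ₁‖ := by
      have h2 : S ⊆ {ζ | ρ⁻¹ ≤ ‖ζ‖} := fun ζ hζ => hζ.2.1.le
      exact closure_minimal h2 (isClosed_le continuous_const continuous_norm) hcl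
    rcases hge.lt_or_eq with hgt | heq
    · -- the ordinary case
      refine ⟨hζ₁, hgt, ?_⟩
      have h2 : ∀ᶠ x in 𝓝 ζ₁, ρ⁻¹ < ‖x‖ := continuous_norm.continuousAt.eventually (lt_mem_nhds hgt)
      obtain ⟨ε, hε, hεs⟩ := Metric.mem_nhds_iff.1 ((hWo.mem_nhds hζ₁ |> fun h3 => h3) |>
        fun h3 => Filter.inter_mem h3 h2)
      obtain ⟨ζ₀, hζ₀b, hζ₀W, hζ₀n, hζ₀e⟩ := mem_closure_iff.1 hcl (ball ζ₁ ε) isOpen_ball
        (mem_ball_self hε)
      have hA1 : AnalyticOnNhd ℂ f' (ball ζ₁ ε) :=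
        (hf'd.mono fun x hx => (hεs hx).1).analyticOnNhd isOpen_ball
      have hA2 : AnalyticOnNhd ℂ Φ (ball ζ₁ ε) := by
        refine DifferentiableOn.analyticOnNhd (fun x hx => ?_) isOpen_ball
        exact (hΦd x (hWb (hεs hx).1) (hεs hx).2).differentiableWithinAt
      have hEq := hA1.eqOn_of_preconnected_of_eventuallyEq hA2
        (convex_ball ζ₁ ε).isPreconnected hζ₀b hζ₀e
      filter_upwards [isOpen_ball.mem_nhds (mem_ball_self hε)] with x hx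
      exact hEq hx
    · -- the circle of radius `ρ⁻¹`
      exfalso
      obtain ⟨V, hVo, hVn, g, hg, hgV⟩ := polar_TOPB hρ hkm hWb hWo hh hf'd heq.symm hζ₁ hcl
      refine hext V hVo hVn ⟨g, hg, ?_⟩
      intro ζ hζ
      obtain ⟨h2, h3⟩ := hgV ζ hζ
      rw [h3]
      exact (hout ζ hζ.2 h2).symm
  have hball : ∀ ζ : ℂ, ‖ζ‖ ≤ ρ⁻¹ → ζ ∈ ball (0 : ℂ) ρ := by
    intro ζ hζ
    rw [mem_ball_zero_iff]
    linarith
  have hfirst : ∀ ζ : ℂ, ‖ζ‖ ≤ ρ⁻¹ → ψ ζ ∈ closure D' := by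
    intro ζ hζ
    by_contra h2
    have h3 := (hWS ⟨hball ζ hζ, h2⟩).2.1
    linarith
  refine ⟨?_, ?_⟩
  · rintro _ ⟨ζ, hζ, rfl⟩
    rw [mem_closedBall_zero_iff] at hζ
    exact hfirst ζ hζ
  · intro ζ hζ hζf
    have hge : ρ⁻¹ ≤ ‖ζ‖ := by
      by_contra h2
      push Not at h2
      have hsub : ball (0 : ℂ) ρ⁻¹ ⊆ ball 0 ρ := ball_subset_ball (by linarith)
      obtain ⟨h3, -⟩ := hINV (ball 0 ρ⁻¹) ψ isOpen_ball (hψ.mono hsub) (hψi.mono hsub)
      have h4 : ψ '' ball 0 ρ⁻¹ ⊆ interior (closure D') := by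
        refine interior_maximal ?_ h3
        rintro _ ⟨x, hx, rfl⟩
        rw [mem_ball_zero_iff] at hx
        exact hfirst x hx.le
      rw [hINT Ω D' hadm] at h4
      have h5 : ψ ζ ∈ D' := h4 ⟨ζ, by rwa [mem_ball_zero_iff], rfl⟩
      rw [hadm.isOpen.frontier_eq] at hζf
      exact hζf.2 h5
    have hζ0 : ζ ≠ 0 := by
      rw [← norm_pos_iff]
      exact lt_of_lt_of_le (by positivity) hge
    -- `ζ` is in the closure of `W`
    have hclW : ζ ∈ closure W := by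
      obtain ⟨V, hVo, hpV, hVΩ, -, -, hq⟩ := hHALF Ω D' ∅ hadm isClosed_empty (ψ ζ) hζf
        (notMem_empty _) hΩo
      have h2 : ψ ζ ∈ closure (Ω \ closure D') :=
        closure_mono (diff_subset_diff_left hVΩ) (hq (ψ ζ) ⟨hpV, hζf⟩)
      have h3 : ContinuousWithinAt Z (Ω \ closure D') (ψ ζ) := by
        have h4 : ContinuousAt Z (ψ ζ) := by
          refine hZd.continuousOn.continuousAt ?_
          rw [hΩ]
          exact hΩo.mem_nhds (hψm ζ hζ)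
        exact h4.continuousWithinAt
      have h4 := h3.mem_closure_image h2
      rw [hZ ζ hζ, ← hWim] at h4
      exact h4
    have hne : (𝓝[W] ζ).NeBot := mem_closure_iff_nhdsWithin_neBot.1 hclW
    have hlim1 : Tendsto f' (𝓝[W] ζ) (𝓝 (f' ζ)) := by
      have h2 : ContinuousAt ψ ζ := hψ.continuousOn.continuousAt (isOpen_ball.mem_nhds hζ)
      have h3 : ContinuousAt F' (ψ ζ) := hF'c.continuousAt (hΩo.mem_nhds (hψm ζ hζ))
      have h4 : ContinuousAt f' ζ := ContinuousAt.comp (f := ψ) (g := F') h3 h2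
      exact h4.tendsto.mono_left nhdsWithin_le_nhds
    have hlim2 : Tendsto Φ (𝓝[W] ζ) (𝓝 (Φ ζ)) := by
      have h2 : ContinuousAt h ζ :=
        (hhc.mono ball_subset_closedBall).continuousAt (isOpen_ball.mem_nhds hζ)
      have hcic : ci ζ ∈ closedBall (0 : ℂ) ρ := by
        rw [mem_closedBall_zero_iff, norm_ci_TOPB]
        exact inv_le_of_inv_le₀ hρ0 hge
      have h3 : ContinuousWithinAt h (closedBall 0 ρ) (ci ζ) := hhc _ hcic
      have h4 : ContinuousWithinAt ci W ζ := (cont_ci_TOPB hζ0).continuousWithinAt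
      have h5 : MapsTo ci W (closedBall 0 ρ) := by
        intro x hx
        have h6 := (hWS hx).2.1
        rw [mem_closedBall_zero_iff, norm_ci_TOPB]
        exact (inv_lt_of_inv_lt₀ hρ0 h6).le
      have h6 : ContinuousWithinAt (fun x => h (ci x)) W ζ :=
        ContinuousWithinAt.comp (g := h) (f := ci) h3 h4 h5
      have h7 : ContinuousWithinAt (fun x => conj (h (ci x))) W ζ :=
        Complex.continuous_conj.continuousAt.comp_continuousWithinAt h6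
      have h8 : ContinuousWithinAt Φ W ζ :=
        (h2.continuousWithinAt.const_smul (kp k : ℂ)).add (h7.const_smul (km k : ℂ))
      exact h8
    have hev : f' =ᶠ[𝓝[W] ζ] Φ := by
      filter_upwards [self_mem_nhdsWithin] with x hx
      exact (hWS hx).2.2.self_of_nhds
    exact tendsto_nhds_unique hlim1 (hlim2.congr' hev.symm)

end Pool.Agent.Helper49.DF
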