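import Pool.Agent.Helper49.DF.St2

/-!
# Module TOPU: a uniform interior field, the centre is in the second inclusion
-/

set_option autoImplicit false

open Set Filter Topology MeasureTheory Complex Metric
open scoped ContDiff ComplexConjugate

namespace Pool.Agent.Helper49.DF

open Pool.Agent.Helper65.PI

private noncomputable def mm_TOPU (k : ℝ) (α β : ℂ) (ψ : ℂ → ℂ) (ζ : ℂ) : ℂ :=
  (ψ ζ - ψ 0) * ((kp k : ℂ) * (α * ζ + β) + (km k : ℂ) * conj β) +
    (km k : ℂ) * conj α * dslope ψ 0 ζ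

private lemma mm_eq_TOPU (k : ℝ) (α β : ℂ) (ψ h : ℂ → ℂ) (hh : ∀ ζ, h ζ = α * ζ + β) (ζ : ℂ)
    (hζ : ζ ≠ 0) : mm_TOPU k α β ψ ζ =
      (ψ ζ - ψ 0) * ((kp k : ℂ) * h ζ + (km k : ℂ) * conj (h (ci ζ))) := by
  unfold mm_TOPU
  rw [dslope_of_ne _ hζ, slope_def_field, hh, hh, sub_zero]
  unfold ci
  rw [map_add, map_mul, map_inv₀, Complex.conj_conj]
  field_simp
  ring

private lemma mm_zero_TOPU (k : ℝ) (α β : ℂ) (ψ : ℂ → ℂ) :
    mm_TOPU k α β ψ 0 = (km k : ℂ) * conj α * deriv ψ 0 := by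
  unfold mm_TOPU
  rw [dslope_same, sub_self, zero_mul, zero_add]

private lemma mm_diff_TOPU (k : ℝ) (α β : ℂ) (ψ : ℂ → ℂ) (V : Set ℂ) (hV : IsOpen V)
    (h0 : (0 : ℂ) ∈ V) (hψ : DifferentiableOn ℂ ψ V) :
    DifferentiableOn ℂ (mm_TOPU k α β ψ) V := by
  have h1 : DifferentiableOn ℂ (dslope ψ 0) V :=
    (Complex.differentiableOn_dslope (hV.mem_nhds h0)).2 hψ
  have h2 : DifferentiableOn ℂ
      (fun ζ : ℂ => (kp k : ℂ) * (α * ζ + β) + (km k : ℂ) * conj β) V := by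
    apply Differentiable.differentiableOn
    fun_prop
  exact ((hψ.sub_const _).mul h2).add (h1.const_mul _)

theorem topu : Pool.Agent.Helper65.PI.StCONN → Pool.Agent.Helper65.PI.StHALF → StHN0 →
    StINV → StTOPU := by
  intro hCONN hHALF hHN0 hINV Ω D' V k ρ α β ψ h F F' P hα hh
  have hρ1 := P.one_lt
  have hD'o := P.adm'.isOpen
  have hBV : closedBall (0 : ℂ) 1 ⊆ V := (closedBall_subset_ball hρ1).trans P.ball_sub
  have h0V : (0 : ℂ) ∈ V := hBV (mem_closedBall_self zero_le_one)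
  have hcl1 : IsClosed (ψ '' closedBall (0 : ℂ) 1) :=
    ((isCompact_closedBall (0 : ℂ) 1).image_of_continuousOn
      (P.diffψ.continuousOn.mono hBV)).isClosed
  obtain ⟨hψo, Z, hZ, hZd⟩ := hINV V ψ P.open_V P.diffψ P.injψ
  -- the function M
  obtain ⟨M, hM⟩ : ∃ M : ℂ → ℂ, ∀ z, M z = (open Classical in
      if z ∈ ψ '' V then mm_TOPU k α β ψ (Z z) else (z - ψ 0) * F z) := ⟨_, fun _ => rfl⟩
  have hMψ : ∀ ζ ∈ V, M (ψ ζ) = mm_TOPU k α β ψ ζ := by
    intro ζ hζ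
    rw [hM, if_pos ⟨ζ, hζ, rfl⟩, hZ ζ hζ]
  have hMF : ∀ z, z ∉ ψ '' closedBall 0 1 → M z = (z - ψ 0) * F z := by
    intro z hz
    by_cases hzV : z ∈ ψ '' V
    · obtain ⟨ζ, hζ, rfl⟩ := hzV
      have hn : ζ ∉ closedBall (0 : ℂ) 1 := fun hn => hz ⟨ζ, hn, rfl⟩
      have hn1 : 1 < ‖ζ‖ := by
        rw [mem_closedBall_zero_iff] at hn
        exact not_le.mp hn
      have hζ0 : ζ ≠ 0 := by
        intro h0
        rw [h0, norm_zero] at hn1
        linarith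
      rw [hMψ ζ hζ, mm_eq_TOPU k α β ψ h hh ζ hζ0, P.outside ζ hζ hn1.le]
    · rw [hM, if_neg hzV]
  have hMd : DifferentiableOn ℂ M Ω := by
    intro z hz
    apply DifferentiableAt.differentiableWithinAt
    by_cases hzV : z ∈ ψ '' V
    · obtain ⟨ζ, hζ, rfl⟩ := hzV
      have e : M =ᶠ[𝓝 (ψ ζ)] fun w => mm_TOPU k α β ψ (Z w) := by
        filter_upwards [hψo.mem_nhds ⟨ζ, hζ, rfl⟩] with w hw
        rw [hM, if_pos hw]
      refine DifferentiableAt.congr_of_eventuallyEq ?_ e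
      have d1 : DifferentiableAt ℂ Z (ψ ζ) := hZd.differentiableAt (hψo.mem_nhds ⟨ζ, hζ, rfl⟩)
      have d2 : DifferentiableAt ℂ (mm_TOPU k α β ψ) (Z (ψ ζ)) := by
        rw [hZ ζ hζ]
        exact (mm_diff_TOPU k α β ψ V P.open_V h0V P.diffψ).differentiableAt
          (P.open_V.mem_nhds hζ)
      exact d2.comp (ψ ζ) d1
    · have hz1 : z ∉ ψ '' closedBall 0 1 := fun hn => hzV (image_mono hBV hn)
      have ho : IsOpen (Ω \ ψ '' closedBall (0 : ℂ) 1) := P.open_Ω.sdiff hcl1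
      have e : M =ᶠ[𝓝 z] fun w => (w - ψ 0) * F w := by
        filter_upwards [ho.mem_nhds ⟨hz, hz1⟩] with w hw
        exact hMF w hw.2
      refine DifferentiableAt.congr_of_eventuallyEq ?_ e
      have d1 : DifferentiableAt ℂ F z := P.holF.differentiableAt (ho.mem_nhds ⟨hz, hz1⟩)
      exact (differentiableAt_id.sub_const _).mul d1
  -- the set away from the second inclusion
  have hW := hCONN Ω D' P.open_Ω P.conn_Ω.isPreconnected P.adm'
  have hWo : IsOpen (Ω \ closure D') := P.open_Ω.sdiff isClosed_closure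
  obtain ⟨C, hCc, hCΩ, hCs, hCeq⟩ := P.near
  have hz : ∃ z₁ ∈ Ω, z₁ ∉ C := by
    by_contra hcon
    push Not at hcon
    have e : Ω = C := Subset.antisymm hcon hCΩ
    have hclopen : IsClopen Ω := ⟨by rw [e]; exact hCc.isClosed, P.open_Ω⟩
    have hu : Ω = univ := hclopen.eq_univ P.conn_Ω.nonempty
    rw [← e, hu] at hCc
    exact noncompact_univ ℂ hCc
  obtain ⟨z₁, hz₁Ω, hz₁C⟩ := hz
  have hev : (fun z => (z - ψ 0) * F' z) =ᶠ[𝓝 z₁] M := by
    have ho : IsOpen (Ω \ C) := P.open_Ω.sdiff hCc.isClosed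
    filter_upwards [ho.mem_nhds ⟨hz₁Ω, hz₁C⟩] with z hz
    rw [hMF z (fun hn => hz.2 (hCs (Or.inl hn))), hCeq z hz]
  have hz₁D : z₁ ∉ closure D' := fun hn => hz₁C (hCs (Or.inr hn))
  have hd1 : DifferentiableOn ℂ (fun z => (z - ψ 0) * F' z) (Ω \ closure D') :=
    (differentiableOn_id.sub_const _).mul P.holF'
  have hEq : EqOn (fun z => (z - ψ 0) * F' z) M (Ω \ closure D') :=
    AnalyticOnNhd.eqOn_of_preconnected_of_eventuallyEq (hd1.analyticOnNhd hWo)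
      ((hMd.mono sdiff_subset).analyticOnNhd hWo) hW ⟨hz₁Ω, hz₁D⟩ hev
  have hfrEq : ∀ q ∈ frontier D', q ∈ Ω → (q - ψ 0) * F' q = M q := by
    intro q hfr hqΩ
    have hc1 : ContinuousAt M q := (hMd.differentiableAt (P.open_Ω.mem_nhds hqΩ)).continuousAt
    have hc2 : ContinuousAt (fun z => (z - ψ 0) * F' z) q :=
      (continuousAt_id.sub continuousAt_const).mul (P.contF'.continuousAt (P.open_Ω.mem_nhds hqΩ))
    obtain ⟨U, hUo, hpU, hUΩ, _, _, hUq⟩ := hHALF Ω D' ∅ P.adm' isClosed_empty q hfr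
      (notMem_empty _) P.open_Ω
    have hcl : q ∈ closure (Ω \ closure D') :=
      closure_mono (sdiff_subset_sdiff_left hUΩ) (hUq q ⟨hpU, hfr⟩)
    haveI : NeBot (𝓝[Ω \ closure D'] q) := mem_closure_iff_nhdsWithin_neBot.mp hcl
    have ht1 : Tendsto (fun z => (z - ψ 0) * F' z) (𝓝[Ω \ closure D'] q)
        (𝓝 ((q - ψ 0) * F' q)) := hc2.mono_left nhdsWithin_le_nhds
    have ht2 : Tendsto M (𝓝[Ω \ closure D'] q) (𝓝 (M q)) := hc1.mono_left nhdsWithin_le_nhds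
    have ht3 : (fun z => (z - ψ 0) * F' z) =ᶠ[𝓝[Ω \ closure D'] q] M := by
      filter_upwards [self_mem_nhdsWithin] with z hz
      exact hEq hz
    exact tendsto_nhds_unique (ht1.congr' ht3) ht2
  have hψ0Ω : ψ 0 ∈ Ω := P.subψ ⟨0, h0V, rfl⟩
  have hkm : (km k : ℂ) ≠ 0 := by
    have : km k ≠ 0 := by
      unfold km
      intro h0
      have h1 : 1 - k = 0 := by linarith
      exact P.k_ne (by linarith)
    exact_mod_cast this
  have hM0 : M (ψ 0) ≠ 0 := by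
    rw [hMψ 0 h0V, mm_zero_TOPU]
    refine mul_ne_zero (mul_ne_zero hkm ?_) (hHN0 V ψ P.open_V P.diffψ P.injψ 0 h0V)
    exact (map_ne_zero _).2 hα
  have hin : ψ 0 ∈ D' := by
    by_contra hnot
    apply hM0
    by_cases hc : ψ 0 ∈ closure D'
    · have hfr : ψ 0 ∈ frontier D' := by
        rw [hD'o.frontier_eq]
        exact ⟨hc, hnot⟩
      rw [← hfrEq (ψ 0) hfr hψ0Ω, sub_self, zero_mul]
    · have := hEq (⟨hψ0Ω, hc⟩ : ψ 0 ∈ Ω \ closure D')
      simp only [sub_self, zero_mul] at this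
      exact this.symm
  refine ⟨hin, ?_⟩
  intro ζ hζ hfr
  have hnD : ψ ζ ∉ D' := by
    rw [hD'o.frontier_eq] at hfr
    exact hfr.2
  have hζ0 : ζ ≠ 0 := by
    rintro rfl
    exact hnD hin
  have hne : ψ ζ - ψ 0 ≠ 0 := by
    rw [sub_ne_zero]
    intro he
    rw [he] at hnD
    exact hnD hin
  have h1 := hfrEq (ψ ζ) hfr (P.subψ ⟨ζ, hζ, rfl⟩)
  rw [hMψ ζ hζ, mm_eq_TOPU k α β ψ h hh ζ hζ0] at h1
  exact mul_left_cancel₀ hne h1

end Pool.Agent.Helper49.DF
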