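import Pool.Agent.Helper49.DF.St

/-! # Project DF, module WL -/

set_option autoImplicit false

open Set Filter Topology MeasureTheory Complex Metric
open scoped ContDiff ComplexConjugate

namespace Pool.Agent.Helper49.DF

open Pool.Agent.Helper65.PI

private lemma rs_apply_WL (K : TopologicalSpace.Compacts ℂ) {g : ℂ → ℝ} (hg : ContinuousOn g (K : Set ℂ))
    (x : K) : rs K g x = g x := by
  unfold rs
  rw [dif_pos hg]
  rfl

private lemma cont_WL {D : Set ℂ} {K : TopologicalSpace.Compacts ℂ} (hK : (K : Set ℂ) = frontier D)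
    {γ : ℂ → ℂ} (hγ : ContinuousOn γ (closure D)) : ContinuousOn (fun w => (γ w).im) (K : Set ℂ) := by
  rw [hK]
  exact Complex.continuous_im.comp_continuousOn (hγ.mono frontier_subset_closure)

/-- the space of imaginary parts -/
private noncomputable def VV_WL (D : Set ℂ) (K : TopologicalSpace.Compacts ℂ) (hK : (K : Set ℂ) = frontier D) :
    Submodule ℝ C(K, ℝ) where
  carrier := {f | ∃ γ : ℂ → ℂ, DifferentiableOn ℂ γ D ∧ ContinuousOn γ (closure D) ∧
    f = rs K fun w => (γ w).im}
  zero_mem' := by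
    refine ⟨fun _ => 0, differentiableOn_const _, continuousOn_const, ?_⟩
    ext x
    rw [rs_apply_WL K (by simpa using continuousOn_const)]
    simp
  add_mem' := by
    rintro f g ⟨γ, h1, h2, rfl⟩ ⟨η, k1, k2, rfl⟩
    have m1 : DifferentiableOn ℂ (fun w => γ w + η w) D := h1.add k1
    have m2 : ContinuousOn (fun w => γ w + η w) (closure D) := h2.add k2
    refine ⟨fun w => γ w + η w, m1, m2, ?_⟩
    ext x
    rw [ContinuousMap.add_apply, rs_apply_WL K (cont_WL hK h2), rs_apply_WL K (cont_WL hK k2),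
      rs_apply_WL K (cont_WL hK m2)]
    simp
  smul_mem' := by
    rintro c f ⟨γ, h1, h2, rfl⟩
    have k1 : DifferentiableOn ℂ (fun w => (c : ℂ) * γ w) D := h1.const_mul _
    have k2 : ContinuousOn (fun w => (c : ℂ) * γ w) (closure D) := continuousOn_const.mul h2
    refine ⟨fun w => (c : ℂ) * γ w, k1, k2, ?_⟩
    ext x
    rw [ContinuousMap.smul_apply, rs_apply_WL K (cont_WL hK h2), rs_apply_WL K (cont_WL hK k2)]
    simp

theorem wl : StBALL → StREFL → StPOUT → StPIN → StKER → StNULL → StDENS → StWL := by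
  intro hBALL hREFL hPOUT hPIN hKER hNULL hDENS Ω D θ ε hA hθ hε
  have hcomp : IsCompact (frontier D) := hA.compact.of_isClosed_subset isClosed_frontier frontier_subset_closure
  obtain ⟨K, hK⟩ : ∃ K : TopologicalSpace.Compacts ℂ, (K : Set ℂ) = frontier D := ⟨⟨frontier D, hcomp⟩, rfl⟩
  have hKne : (K : Set ℂ).Nonempty := by rw [hK]; exact hA.front.nonempty
  have hθ' : ContinuousOn θ (K : Set ℂ) := by rw [hK]; exact hθ
  -- a functional which kills the imaginary parts is zero
  have key : ∀ L : C(K, ℝ) →L[ℝ] ℝ, Kills D K L → L = 0 := by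
    intro L hL
    obtain ⟨r, hr⟩ := hBALL Ω D hA
    have hr0 := hr.1
    have hout := hPOUT Ω D K L hA hK hL
    have hrefl := hREFL D K L r hA.isOpen hK hKne hr hout
    have hin := hPIN D K L (r / 2) (2 * ‖L‖ / r) hA.isOpen hA.conn hA.compact hK hKne (by positivity)
      (fun z hz hz2 => (hrefl z hz hz2).trans (le_of_eq (by ring)))
    have hall : ∀ z, z ∉ (K : Set ℂ) → L (rs K fun w => Real.log ‖w - z‖) = 0 := by
      intro z hz
      by_cases hzD : z ∈ closure D
      · apply hin
        rw [hK, hA.isOpen.frontier_eq] at hz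
        by_contra h
        exact hz ⟨hzD, h⟩
      · exact hout z hzD
    have hvol : volume (K : Set ℂ) = 0 := by rw [hK]; exact hNULL Ω D hA
    exact hDENS K L hvol (hKER K L hall)
  have hmem : rs K θ ∈ closure ((VV_WL D K hK : Submodule ℝ C(K, ℝ)) : Set C(K, ℝ)) := by
    by_contra hnot
    have hconv : Convex ℝ (closure ((VV_WL D K hK : Submodule ℝ C(K, ℝ)) : Set C(K, ℝ))) :=
      (VV_WL D K hK).convex.closure
    obtain ⟨L, u, h1, h2⟩ := geometric_hahn_banach_closed_point hconv isClosed_closure hnot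
    have hzero : ∀ f ∈ VV_WL D K hK, L f = 0 := by
      intro f hf
      by_contra hne
      have hu : 0 < u := by simpa using h1 0 (subset_closure (VV_WL D K hK).zero_mem)
      have := h1 ((u / L f) • f) (subset_closure ((VV_WL D K hK).smul_mem _ hf))
      rw [map_smul, smul_eq_mul, div_mul_cancel₀ _ hne] at this
      exact lt_irrefl _ this
    have hL0 : L = 0 := key L (fun γ g1 g2 => hzero _ ⟨γ, g1, g2, rfl⟩)
    have hu : 0 < u := by simpa using h1 0 (subset_closure (VV_WL D K hK).zero_mem)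
    rw [hL0] at h2
    simp at h2
    linarith
  obtain ⟨f, ⟨γ, g1, g2, rfl⟩, hdist⟩ := Metric.mem_closure_iff.1 hmem ε hε
  refine ⟨γ, g1, g2, fun w hw => ?_⟩
  have hwK : w ∈ (K : Set ℂ) := by rw [hK]; exact hw
  have h3 := (ContinuousMap.dist_lt_iff hε).1 hdist ⟨w, hwK⟩
  rw [rs_apply_WL K hθ', rs_apply_WL K (cont_WL hK g2), Real.dist_eq] at h3
  rw [abs_sub_comm]
  exact h3

end Pool.Agent.Helper49.DF
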