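import Pool.Agent.Helper49.DF.St

/-!
# Project DF, second part: star shaped collars and uniform interior fields

The disc of radius `ρ` on which `ψ` is defined is replaced by an open connected set `V` which
contains the closed unit disc (for a disc `D` one takes for `V` all of `Ω` in the normalised coordinate).
The proofs of the first part (files `M_EXTD`, `M_HAT`, `M_TOPA`, `M_FIN`, `M_CORE`) can be copied with small
changes.
-/

set_option autoImplicit false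

open Set Filter Topology MeasureTheory Complex Metric
open scoped ContDiff ComplexConjugate

namespace Pool.Agent.Helper49.DF

open Pool.Agent.Helper65.PI

/-- EXTDV. The interior potential continues to `V`.
PROOF. There is `r > 1` with `ball 0 r ⊆ V` (`closedBall 0 1` is compact: `IsCompact.exists_thickening_subset_open`
or `exists_cthickening_subset_open`, and the thickening contains a ball of radius `> 1`). `StEXTD` with this radius gives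
`h₁` on `ball 0 r`. Put `h ζ = h₁ ζ` for `ζ ∈ ball 0 r` and `h ζ = (FF (ψ ζ) - k₋ conj (h₁ (ci ζ))) / k₊` otherwise; the
second formula holds for all `ζ ∈ V` with `1 ≤ ‖ζ‖` (in `ball 0 r` by the last property of `h₁`). It is holomorphic
on `V \ closedBall 0 1` (`StHOL` of Helper65: `FF u v` is holomorphic off `closure (ψ '' ball 0 1) = ψ '' closedBall 0 1`, see
`closure_image_C` in Common.lean). -/
def StEXTDV : Prop := ∀ (Ω V : Set ℂ) (k : ℝ) (u v : ℂ → ℝ) (ψ : ℂ → ℂ), IsOpen Ω → IsOpen V →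
  closedBall 0 1 ⊆ V → 0 < k → DifferentiableOn ℂ ψ V → InjOn ψ V → ψ '' V ⊆ Ω →
  IsPotential Ω (ψ '' ball 0 1) k u v →
  ∃ h : ℂ → ℂ, DifferentiableOn ℂ h V ∧
    (∀ ζ ∈ closedBall (0 : ℂ) 1, h ζ = HH k u v (ψ ζ)) ∧
    (∀ ζ ∈ closedBall (0 : ℂ) 1, FF u v (ψ ζ) = TT k (h ζ)) ∧
    (∀ ζ ∈ V, 1 ≤ ‖ζ‖ → FF u v (ψ ζ) = kp k * h ζ + km k * conj (h (ci ζ)))

/-- the reflected collar -/
def Vs (V : Set ℂ) : Set ℂ := {z | z ≠ 0 ∧ ((1 ≤ ‖z‖ ∧ z ∈ V) ∨ (‖z‖ ≤ 1 ∧ ci z ∈ V))}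

/-- LOGV. The argument of the slope on a star shaped collar.
PROOF. By `StLOG` on `closedBall 0 ρ` there are `θ₀, t₀` with
`h (ci z) - h z = (1 - ‖z‖^2) t₀ exp (i θ₀) / conj z` for `ρ⁻¹ ≤ ‖z‖ ≤ ρ`. Let
`q z = (h (ci z) - h z) / (ci z - z)` for `1 < ‖z‖`, `z ∈ V`, and `q z = t₀ exp (i θ₀)` for `‖z‖ ≤ ρ`, `1 ≤ ‖z‖`; both agree for
`1 < ‖z‖ ≤ ρ` (`ci z - z = (1 - ‖z‖^2)/conj z`). On the circle define `l₀ = log t₀ + i θ₀`; a problem is that `t₀` is not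
known to be continuous: but `t₀ = ‖q‖`, and for `1 < ‖z‖ ≤ ρ` it is `‖(h (ci z) - h z)/(ci z - z)‖`; on the circle use
`ρ` instead: take the base circle `‖z‖ = r`, `1 < r < ρ`, where everything is given by the formula. So let
`S = {z ∈ V | 1 < ‖z‖}`, `q z = (h (ci z) - h z)/(ci z - z)`, continuous on `S`, not `0` on `S`: for `z ∈ S`
`k₊ (h z - h (ci z)) = f z - f (ci z) ≠ 0` by `outside`, `inside` at `ci z`, and injectivity on `V`. For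
`z ∈ S` and `s ∈ [0,1]` put `m(s,z) = ((1-s) r / ‖z‖ + s) z`; it has norm `(1-s) r + s ‖z‖ > 1` and is in `V`: it is on the segment from
`r z / ‖z‖ ∈ closedBall 0 ρ ⊆ V` to `z`; if `‖z‖ ≥ r` it is `c z`, `0 ≤ c ≤ 1`, star convexity; if `‖z‖ < r`
it is in `closedBall 0 ρ`. `StLH` with `S` and `H s z = q (m(s,z))`: at `s = 0` the function `q (r z / ‖z‖)` has
the continuous logarithm `log t₀ + i θ₀` at `r z/‖z‖` (`t₀ = ‖q‖` is continuous there). So there is `l` continuous on `S` with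
`q = exp l` on `S`. Now `θ z = (l z).im` is continuous on `S`; to extend to the circle compare with `θ₀` on the ring
`1 < ‖z‖ ≤ ρ`: `θ - θ₀` is continuous with values in `2 π ℤ` there, and the ring is connected, so it is a constant `2 π m`. Put
`θ = θ₀ + 2 π m` on `{1 ≤ ‖z‖ ≤ ρ}`, `θ = (l z).im` for `‖z‖ > 1` (consistent), continuous on `{z ∈ V | 1 ≤ ‖z‖}`; `t = t₀` for
`‖z‖ ≤ ρ`, `t = ‖q z‖` beyond. For `‖z‖ < 1`, `z ≠ 0`, `ci z ∈ V`: `θ z = θ (ci z)`, `t z = t (ci z)`, formula as in the end of the proof of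
`StLOG`; continuity on `Vs V` by gluing along the circle (`ci z = z` there). (Simpler variant: apply `StLH` directly with
`S = {z ∈ V | 1 ≤ ‖z‖}` and the continuous slope from `M_SL`, whichever is shorter.) -/
def StLOGV : Prop := ∀ (V : Set ℂ) (k ρ : ℝ) (f h : ℂ → ℂ), Refl k ρ f h → IsOpen V →
  StarConvex ℝ (0 : ℂ) V → closedBall 0 ρ ⊆ V → DifferentiableOn ℂ h V →
  (∀ z ∈ V, 1 ≤ ‖z‖ → f z = kp k * h z + km k * conj (h (ci z))) → InjOn f V →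
  ∃ θ t : ℂ → ℝ, ContinuousOn θ (Vs V) ∧ ∀ z ∈ Vs V, 0 < t z ∧
    h (ci z) - h z = ((1 - ‖z‖ ^ 2 : ℝ) : ℂ) * (t z : ℂ) * Complex.exp (θ z * I) / conj z

/-- COREV. `StCORE` with an arbitrary set `S` instead of the ring (same proof, file `M_CORE`). -/
def StCOREV : Prop := ∀ (Ω E S : Set ℂ) (k : ℝ) (h Z G : ℂ → ℂ) (θ t : ℂ → ℝ) (z₀ : ℂ),
  Admissible Ω E → 0 < k → k ≠ 1 →
  DifferentiableOn ℂ Z E → ContinuousOn Z (closure E) → z₀ ∈ E → Z z₀ = 0 →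
  (∀ z ∈ frontier E, Z z ∈ S ∧ Z z ≠ 0) → ContinuousOn θ S →
  (∀ ζ ∈ S, ζ ≠ 0 → 0 < t ζ ∧
    h (ci ζ) - h ζ = ((1 - ‖ζ‖ ^ 2 : ℝ) : ℂ) * (t ζ : ℂ) * Complex.exp (θ ζ * I) / conj ζ) →
  DifferentiableOn ℂ G E → ContinuousOn G (closure E) →
  (∀ z ∈ frontier E, TT k (G z) = km k * conj (h (ci (Z z)) - h (Z z))) →
  ∀ z ∈ frontier E, ‖Z z‖ = 1

/-- the setting with `V`; `ball 0 ρ ⊆ V`, `1 < ρ` -/
structure PairV (Ω D' V : Set ℂ) (k ρ : ℝ) (ψ h F F' : ℂ → ℂ) : Prop where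
  open_Ω : IsOpen Ω
  conn_Ω : IsConnected Ω
  adm' : Admissible Ω D'
  k_pos : 0 < k
  k_ne : k ≠ 1
  one_lt : 1 < ρ
  open_V : IsOpen V
  conn_V : IsPreconnected V
  ball_sub : ball 0 ρ ⊆ V
  diffψ : DifferentiableOn ℂ ψ V
  injψ : InjOn ψ V
  subψ : ψ '' V ⊆ Ω
  diffh : DifferentiableOn ℂ h V
  holF : DifferentiableOn ℂ F (Ω \ ψ '' closedBall 0 1)
  inside : ∀ ζ ∈ closedBall (0 : ℂ) 1, F (ψ ζ) = TT k (h ζ)
  outside : ∀ ζ ∈ V, 1 ≤ ‖ζ‖ → F (ψ ζ) = kp k * h ζ + km k * conj (h (ci ζ))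
  contF' : ContinuousOn F' Ω
  holF' : DifferentiableOn ℂ F' (Ω \ closure D')
  near : ∃ C : Set ℂ, IsCompact C ∧ C ⊆ Ω ∧ ψ '' closedBall 0 1 ∪ closure D' ⊆ C ∧
    ∀ z ∈ Ω \ C, F z = F' z

/-- HATV. The continuation of `F` into the first inclusion.
PROOF. As `StHAT` (file `M_HAT`): `Fh z = F z` for `z ∉ ψ '' closedBall 0 1`, `Fh z = Φ (Z z)` for `z ∈ ψ '' closedBall 0 1`;
on `ψ '' (V \ closedBall 0 ρ⁻¹)` it is `Φ ∘ Z`, `Φ ζ = k₊ h ζ + k₋ conj (h (ci ζ))`, holomorphic for `ζ ∈ V`, `ρ⁻¹ < ‖ζ‖`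
(`ci ζ ∈ ball 0 ρ ⊆ V`). -/
def StHATV : Prop := ∀ (Ω D' V : Set ℂ) (k ρ : ℝ) (ψ h F F' : ℂ → ℂ), PairV Ω D' V k ρ ψ h F F' →
  ∃ Fh : ℂ → ℂ, DifferentiableOn ℂ Fh (Ω \ ψ '' closedBall 0 ρ⁻¹) ∧
    (∀ z ∈ Ω, z ∉ ψ '' closedBall 0 1 → Fh z = F z) ∧
    ∀ ζ ∈ V, ρ⁻¹ < ‖ζ‖ → Fh (ψ ζ) = kp k * h ζ + km k * conj (h (ci ζ))

/-- TOPAV. As `StTOPA` (file `M_TOPA`), same proof; only the last conclusion is for `ζ ∈ V`, and the
hypothesis on injectivity is on the unit disc. -/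
def StTOPAV : Prop := ∀ (Ω D' V : Set ℂ) (k ρ s : ℝ) (ψ h F F' : ℂ → ℂ),
  PairV Ω D' V k ρ ψ h F F' → InjOn (fun ζ => F (ψ ζ)) (ball 0 1) →
  ρ⁻¹ < s → s < 1 → Disjoint (frontier D') (ψ '' closedBall 0 s) →
  ψ '' closedBall 0 s ⊆ D' ∧
  ∀ ζ ∈ V, ψ ζ ∈ frontier D' → F' (ψ ζ) = kp k * h ζ + km k * conj (h (ci ζ))

/-- FINV. As `StFIN` (file `M_FIN`).
PROOF. `ψ '' ball 0 1` is connected, contains `ψ 0 ∈ D'`, does not meet `frontier D'`, so it is contained in `D'`. The ring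
`R = ψ '' (V \ closedBall 0 1)` is preconnected: `V \ closedBall 0 1` is preconnected by `StANN` (with `W = V`, the identity
instead of `ψ`, `s = 1` and `s' > 1` with `ball 0 s' ⊆ V`). It does not meet `frontier D'`, so `R ⊆ D'` or
`R ∩ D' = ∅`. If `R ⊆ D'` then `ψ '' V = R ∪ ψ '' closedBall 0 1` is contained in the compact set
`closure D' ∪ ψ '' closedBall 0 1 ⊆ ψ '' V`, so `ψ '' V` is compact, open (INV) and nonempty: impossible in `ℂ`. So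
`D' ⊆ ψ '' closedBall 0 1`; `D'` is open and so is its preimage in `V`, contained in `closedBall 0 1`, hence in the interior
`ball 0 1`. -/
def StFINV : Prop := ∀ (D' V : Set ℂ) (ψ : ℂ → ℂ), IsOpen V → IsPreconnected V →
  closedBall 0 1 ⊆ V → DifferentiableOn ℂ ψ V →
  InjOn ψ V → IsOpen D' → IsCompact (closure D') → closure D' ⊆ ψ '' V → ψ 0 ∈ D' →
  (∀ ζ ∈ V, ψ ζ ∈ frontier D' → ‖ζ‖ = 1) → D' = ψ '' ball 0 1

/-- TOPU. A uniform interior field: the centre is in the second inclusion, and the field on its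
boundary.
PROOF. `Z` the inverse of `ψ` on the open set `ψ '' V` (INV), `Φ ζ = k₊ (α ζ + β) + k₋ conj (α (ci ζ) + β)
= k₊ α ζ + k₋ (conj α) / ζ + const`, holomorphic off `0` (`conj (ci ζ) = ζ⁻¹`). Let `Fh z = F z` for `z ∉ ψ '' closedBall 0 1` and
`Fh z = Φ (Z z)` for `z ∈ ψ '' V`, `z ≠ ψ 0` (both agree on the overlap by `outside`): holomorphic on `Ω \ {ψ 0}`. Let
`M z = (z - ψ 0) Fh z` for `z ≠ ψ 0`, `M (ψ 0) = k₋ (conj α) (deriv ψ 0)`. `M` is holomorphic on `Ω`: near `ψ 0`, `z = ψ ζ`,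
`M (ψ ζ) = (ψ ζ - ψ 0) (k₊ α ζ + const) + k₋ (conj α) dslope ψ 0 ζ`, holomorphic in `ζ`, composed with `Z`.
`M (ψ 0) ≠ 0` (`deriv ψ 0 ≠ 0` by `StHN0`, `k₋ ≠ 0`). Let `W = Ω \ closure D'`, open, preconnected (`StCONN`); on `W` the functions
`(z - ψ 0) F' z` and `M z` are holomorphic and equal near a point of `Ω \ C` (there `F' = F = Fh`, see the proof of
`StTOPA`), so they are equal on `W`. Claim `ψ 0 ∈ D'`: if not, `ψ 0` is in `W` or in `frontier D'`, in both cases in the closure of `W`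
(`StHALF` with `C = ∅` for a frontier point) and both functions are continuous at `ψ 0` (`F'` is continuous on `Ω`), so
`M (ψ 0) = 0`: contradiction. Let `ψ ζ ∈ frontier D'`, `ζ ∈ V`. Then `ψ ζ ≠ ψ 0` (`ψ 0 ∈ D'`, `D'` is open), it is in the
closure of `W`, so `(ψ ζ - ψ 0) F' (ψ ζ) = M (ψ ζ) = (ψ ζ - ψ 0) Φ ζ`; divide. -/
def StTOPU : Prop := ∀ (Ω D' V : Set ℂ) (k ρ : ℝ) (α β : ℂ) (ψ h F F' : ℂ → ℂ),
  PairV Ω D' V k ρ ψ h F F' → α ≠ 0 → (∀ ζ, h ζ = α * ζ + β) →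
  ψ 0 ∈ D' ∧
  ∀ ζ ∈ V, ψ ζ ∈ frontier D' → F' (ψ ζ) = kp k * h ζ + km k * conj (h (ci ζ))

/-- MAINV: star shaped collars. -/
def StMAINV : Prop := ∀ (Ω D' V : Set ℂ) (k ρ : ℝ) (u v u' v' : ℂ → ℝ) (ψ : ℂ → ℂ),
  IsOpen Ω → IsConnected Ω → Bornology.IsBounded Ω → SmoothBoundary Ω → 0 < k → k ≠ 1 → 1 < ρ →
  IsOpen V → StarConvex ℝ (0 : ℂ) V → ball 0 ρ ⊆ V →
  DifferentiableOn ℂ ψ V → InjOn ψ V → ψ '' V ⊆ Ω →
  Admissible Ω D' → (ψ 0 ∈ D' → closure D' ⊆ ψ '' V) →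
  Disjoint (frontier D') (ψ '' closedBall 0 ρ⁻¹) →
  IsPotential Ω (ψ '' ball 0 1) k u v → IsPotential Ω D' k u' v' → SameData Ω u v u' v' →
  InjOn (fun ζ => FF u v (ψ ζ)) V → D' = ψ '' ball 0 1

/-- MAINU: uniform interior field. -/
def StMAINU : Prop := ∀ (Ω D' V : Set ℂ) (k : ℝ) (α β : ℂ) (u v u' v' : ℂ → ℝ) (ψ : ℂ → ℂ),
  IsOpen Ω → IsConnected Ω → Bornology.IsBounded Ω → SmoothBoundary Ω → 0 < k → k ≠ 1 →
  IsOpen V → IsPreconnected V → closedBall 0 1 ⊆ V →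
  DifferentiableOn ℂ ψ V → InjOn ψ V → ψ '' V ⊆ Ω →
  Admissible Ω D' → (ψ 0 ∈ D' → closure D' ⊆ ψ '' V) →
  IsPotential Ω (ψ '' ball 0 1) k u v → IsPotential Ω D' k u' v' → SameData Ω u v u' v' →
  α ≠ 0 → (∀ ζ ∈ ball (0 : ℂ) 1, HH k u v (ψ ζ) = α * ζ + β) → D' = ψ '' ball 0 1

end Pool.Agent.Helper49.DF
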